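import Mathlib
import Pool.Agent.H446R2.BrunD

/-! Explicit form of the Jacobsthal type sieve in arithmetic progressions of Sieve2.lean. -/

namespace H108

theorem sieve2_index' (z : ℕ) (hz : 2 ^ 128 < z) : ∃ I : ℕ, 8 ≤ I ∧ z ≤ 2 ^ 2 ^ (I - 1) ∧
    2 ^ (62 * 2 ^ I) + 2 ≤ z ^ 249 := by
  have hex : ∃ I : ℕ, 8 ≤ I ∧ z ≤ 2 ^ 2 ^ (I - 1) := by
    refine ⟨z + 8, by omega, ?_⟩
    have h1 : z < 2 ^ z := Nat.lt_two_pow_self
    have h2 : z + 8 - 1 < 2 ^ (z + 8 - 1) := Nat.lt_two_pow_self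
    have h3 : 2 ^ (z + 8 - 1) < 2 ^ 2 ^ (z + 8 - 1) := Nat.lt_two_pow_self
    omega
  classical
  obtain ⟨hI, hzI⟩ := Nat.find_spec hex
  set I := Nat.find hex with hIdef
  refine ⟨I, hI, hzI, ?_⟩
  rcases Nat.lt_or_ge 8 I with h8 | h8
  · have hm := Nat.find_min hex (m := I - 1) (by omega)
    have hlt : 2 ^ 2 ^ (I - 1 - 1) < z := by
      by_contra hc
      exact hm ⟨by omega, by omega⟩
    have e1 : 2 ^ (62 * 2 ^ I) = (2 ^ 2 ^ (I - 1 - 1)) ^ 248 := by
      rw [← pow_mul]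
      congr 1
      have : 2 ^ I = 2 ^ (I - 1 - 1) * 4 := by
        have h : I = (I - 1 - 1) + 2 := by omega
        calc 2 ^ I = 2 ^ ((I - 1 - 1) + 2) := by rw [← h]
          _ = 2 ^ (I - 1 - 1) * 4 := by rw [pow_add]; norm_num
      rw [this]; ring
    have e2 : (2 ^ 2 ^ (I - 1 - 1)) ^ 248 ≤ z ^ 248 := Nat.pow_le_pow_left hlt.le _
    have e3 : z ^ 248 * z = z ^ 249 := by
      rw [← pow_succ]
    have e4 : z ≤ z ^ 248 := by
      calc z = z ^ 1 := (pow_one z).symm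
        _ ≤ z ^ 248 := Nat.pow_le_pow_right (by omega) (by norm_num)
    rw [e1, ← e3]
    have e5 : z ^ 248 * 2 ≤ z ^ 248 * z := Nat.mul_le_mul_left _ (by omega)
    omega
  · have hI8 : I = 8 := le_antisymm h8 hI
    rw [hI8] at hzI
    norm_num at hzI hz
    omega

/-- explicit version: for `z > 2^128` an interval of length `A z^249` suffices -/
theorem sieve2c (z A a0 Y : ℕ) (hz : 2 ^ 128 < z) (hA : 1 ≤ A)
    (hp : ∀ p, p.Prime → p < z → p ∣ A → ¬ p ∣ a0) :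
    ∃ m, Y ≤ m ∧ m < Y + A * z ^ 249 ∧ m ≡ a0 [MOD A] ∧ ∀ p, p.Prime → p < z → ¬ p ∣ m := by
  classical
  obtain ⟨I, hI, hzI, hIz⟩ := sieve2_index' z hz
  set S : Finset ℕ := (Finset.range z).filter (fun p => p.Prime ∧ ¬ p ∣ A) with hS
  have hcard : S.card ≤ 2 ^ 2 ^ (I - 1) := by
    refine le_trans (Finset.card_filter_le _ _) ?_
    rw [Finset.card_range]; exact hzI
  set P : ℕ := ∏ p ∈ S, p with hP
  have hPpos : 0 < P := Finset.prod_pos (fun p hpS => (Finset.mem_filter.1 hpS).2.1.pos)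
  have hcop : Nat.Coprime A P := by
    refine Nat.Coprime.prod_right (fun p hpS => ?_)
    have := (Finset.mem_filter.1 hpS).2
    exact ((Nat.Prime.coprime_iff_not_dvd this.1).2 this.2).symm
  obtain ⟨A', hA'⟩ : ∃ A' : ℕ, A * A' ≡ 1 [MOD P] := by
    rcases Nat.lt_or_ge 1 P with h1 | h1
    · obtain ⟨m, -, hm⟩ := Nat.exists_mul_mod_eq_one_of_coprime hcop h1
      exact ⟨m, by rw [Nat.ModEq, hm, Nat.mod_eq_of_lt h1]⟩
    · have : P = 1 := by omega
      exact ⟨0, by rw [this]; exact Nat.modEq_one⟩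
  set a1 : ℕ := Y + (a0 + (A - 1) * Y) % A with ha1
  have ha1mod : a1 ≡ a0 [MOD A] := by
    have h1 : (a0 + (A - 1) * Y) % A ≡ a0 + (A - 1) * Y [MOD A] := Nat.mod_modEq _ _
    have h2 : a1 ≡ Y + (a0 + (A - 1) * Y) [MOD A] := Nat.ModEq.add_left Y h1
    have h3 : Y + (a0 + (A - 1) * Y) = a0 + A * Y := by
      obtain ⟨B, rfl⟩ : ∃ B, A = B + 1 := ⟨A - 1, by omega⟩
      simp only [Nat.add_sub_cancel]
      ring
    rw [h3] at h2
    refine h2.trans ?_
    have : A * Y ≡ 0 [MOD A] := (Nat.modEq_zero_iff_dvd).2 (dvd_mul_right A Y)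
    simpa using Nat.ModEq.add_left a0 this
  have ha1lt : a1 < Y + A := by
    have := Nat.mod_lt (a0 + (A - 1) * Y) (show A > 0 by omega)
    omega
  obtain ⟨n, hn, hnS⟩ := Pool.Agent.H446R2.cover S (fun p hpS => (Finset.mem_filter.1 hpS).2.1)
    I hI hcard (A' * a1) (2 ^ (62 * 2 ^ I) + 1) (by omega)
  rw [Finset.mem_Ioc] at hn
  obtain ⟨t, rfl⟩ : ∃ t, n = A' * a1 + t := ⟨n - A' * a1, by omega⟩
  refine ⟨a1 + A * t, ?_, ?_, ?_, ?_⟩
  · have : Y ≤ a1 := by rw [ha1]; exact Nat.le_add_right _ _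
    exact le_trans this (Nat.le_add_right _ _)
  · have ht : t + 1 ≤ z ^ 249 := by omega
    have : A * (t + 1) ≤ A * z ^ 249 := Nat.mul_le_mul_left _ ht
    have e : A * (t + 1) = A * t + A := by ring
    omega
  · have : A * t ≡ 0 [MOD A] := (Nat.modEq_zero_iff_dvd).2 (dvd_mul_right A t)
    have h2 := Nat.ModEq.add ha1mod this
    simpa using h2
  · intro p hpp hpz hdvd
    by_cases hpA : p ∣ A
    · have h1 : p ∣ a1 := by
        have : p ∣ A * t := Dvd.dvd.mul_right hpA t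
        exact (Nat.dvd_add_left this).1 hdvd
      have h2 : a1 ≡ a0 [MOD p] := Nat.ModEq.of_dvd hpA ha1mod
      have h3 : p ∣ a0 := by
        exact (Nat.ModEq.dvd_iff h2 (dvd_refl p)).1 h1
      exact hp p hpp hpz hpA h3
    · have hpS : p ∈ S := by
        rw [hS, Finset.mem_filter, Finset.mem_range]; exact ⟨hpz, hpp, hpA⟩
      have hnd := hnS p hpS
      have hPp : p ∣ P := Finset.dvd_prod_of_mem _ hpS
      have h1 : A * A' ≡ 1 [MOD p] := Nat.ModEq.of_dvd hPp hA'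
      have h2 : A * (A' * a1 + t) ≡ a1 + A * t [MOD p] := by
        have e : A * (A' * a1 + t) = (A * A') * a1 + A * t := by ring
        rw [e]
        have := Nat.ModEq.add_right (A * t) (Nat.ModEq.mul_right a1 h1)
        simpa using this
      have h3 : p ∣ A * (A' * a1 + t) := (Nat.ModEq.dvd_iff h2 (dvd_refl p)).2 hdvd
      rcases (Nat.Prime.dvd_mul hpp).1 h3 with h | h
      · exact hpA h
      · exact hnd h

end H108
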