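import Pool.Agent.H108R2.Base2
import Pool.Agent.H108R2.Sieve2c

namespace H108

open Nat

theorem KK2_le {k : ℕ} (hk : 3 ≤ k) : KK2 k ≤ k ^ (2 * k + 2) := by
  unfold KK2
  have h1 : ∀ p ∈ (Finset.range (k + 1)).filter Nat.Prime, p ^ Nat.clog p k ≤ k ^ 2 := by
    intro p hp
    rw [Finset.mem_filter, Finset.mem_range] at hp
    have h2 := hp.2.one_lt
    have h3 : 0 < Nat.clog p k := Nat.clog_pos h2 (by omega)
    obtain ⟨c, hc⟩ : ∃ c, Nat.clog p k = c + 1 := ⟨Nat.clog p k - 1, by omega⟩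
    have h4 : p ^ c < k := by
      by_contra hcon
      have := (Nat.clog_le_iff_le_pow h2).2 (by omega : k ≤ p ^ c)
      omega
    rw [hc, pow_succ, pow_two]
    exact Nat.mul_le_mul h4.le (by omega)
  calc ∏ p ∈ (Finset.range (k + 1)).filter Nat.Prime, p ^ Nat.clog p k
      ≤ ∏ _p ∈ (Finset.range (k + 1)).filter Nat.Prime, k ^ 2 := Finset.prod_le_prod' h1
    _ = (k ^ 2) ^ ((Finset.range (k + 1)).filter Nat.Prime).card := by rw [Finset.prod_const]
    _ ≤ (k ^ 2) ^ (k + 1) := by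
        apply Nat.pow_le_pow_right (pow_pos (by omega) 2)
        refine (Finset.card_filter_le _ _).trans ?_
        simp
    _ = k ^ (2 * k + 2) := by rw [← pow_mul]; ring_nf

theorem V'_le {k : ℕ} (hk : 3 ≤ k) : V' k ≤ k ^ 4 := by
  unfold V'
  obtain ⟨r, rfl⟩ : ∃ r, k = r + 3 := ⟨k - 3, by omega⟩
  have e1 : r + 3 - 1 = r + 2 := by omega
  rw [e1]
  nlinarith [Nat.zero_le (r ^ 4), Nat.zero_le (r ^ 3), Nat.zero_le (r ^ 2)]

/-- number of prime divisors -/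
theorem card_primeFactors_le {G : ℕ} (hG : 0 < G) : 2 ^ G.primeFactors.card ≤ G := by
  calc 2 ^ G.primeFactors.card = ∏ _p ∈ G.primeFactors, 2 := by rw [Finset.prod_const]
    _ ≤ ∏ p ∈ G.primeFactors, p :=
        Finset.prod_le_prod' fun p hp => (Nat.prime_of_mem_primeFactors hp).two_le
    _ ≤ G := Nat.le_of_dvd hG (Nat.prod_primeFactors_dvd G)

/-- bound for everything -/
def RR (k E X : ℕ) : ℕ := k ^ (2 * k + 14) * X ^ (3 * E)

theorem L0_big {k : ℕ} (hk : 3 ≤ k) : 2 ^ 128 + 2 ≤ L0 k := by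
  unfold L0 XM
  have h1 : 200 ≤ 200 * k ^ 4 := Nat.le_mul_of_pos_right _ (pow_pos (by omega) 4)
  calc 2 ^ 128 + 2 ≤ 2000 * 200 ^ 18 := by norm_num
    _ ≤ 2000 * (200 * k ^ 4) ^ 18 := Nat.mul_le_mul_left _ (Nat.pow_le_pow_left h1 18)

/-- the combinatorial part: if there are enough good primes below `X`, then designs exist from
`(RR k E X)^3250` on -/
theorem exists_of_primes {k N E X : ℕ} (hk : 3 ≤ k) (hN : N ≤ E) (P : Finset ℕ)
    (hP : ∀ L ∈ P, GoodLN k L N ∧ L ≤ X) (hcard : Nat.log 2 (RR k E X) + 2 < P.card) {v : ℕ}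
    (hA : Adm k v) (hv : RR k E X ^ 3250 ≤ v) : IG {k} 1 v 0 := by
  classical
  obtain ⟨L1, hL1⟩ : P.Nonempty := Finset.card_pos.1 (by omega)
  obtain ⟨L2, hL2⟩ : (P.erase L1).Nonempty := by
    refine Finset.card_pos.1 ?_
    rw [Finset.card_erase_of_mem hL1]; omega
  have hne : L1 ≠ L2 := (Finset.ne_of_mem_erase hL2).symm
  have g1 := hP L1 hL1
  have g2 := hP L2 (Finset.mem_of_mem_erase hL2)
  obtain ⟨gg1, A, G, hB, hle, hgg⟩ := base_exists hk g1.1 g2.1 hne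
  have hX1 : 1 ≤ X := g1.1.prime.one_lt.le.trans g1.2
  have hXN : ∀ {a b : ℕ}, a ≤ b → X ^ a ≤ X ^ b := fun h => Nat.pow_le_pow_right hX1 h
  have hkp : ∀ {a b : ℕ}, a ≤ b → k ^ a ≤ k ^ b := fun h => Nat.pow_le_pow_right (by omega) h
  have hk1 : ∀ a, 1 ≤ k ^ a := fun a => Nat.one_le_pow _ _ (by omega)
  have hX1' : ∀ a, 1 ≤ X ^ a := fun a => Nat.one_le_pow _ _ hX1
  -- bounds
  have bM : M2 k L1 N ≤ k ^ (2 * k + 4) * X ^ E := by
    unfold M2
    calc k * (k - 1) * L1 ^ N * KK2 k ≤ k ^ 2 * X ^ E * k ^ (2 * k + 2) := by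
          apply Nat.mul_le_mul (Nat.mul_le_mul n_le _) (KK2_le hk)
          exact (Nat.pow_le_pow_left g1.2 N).trans (hXN hN)
      _ = k ^ (2 * k + 4) * X ^ E := by ring
  have bVM : V' k + M2 k L1 N ≤ k ^ (2 * k + 5) * X ^ E := by
    have h1 : V' k ≤ k ^ (2 * k + 4) * X ^ E := by
      calc V' k ≤ k ^ 4 := V'_le hk
        _ ≤ k ^ (2 * k + 4) := hkp (by omega)
        _ ≤ k ^ (2 * k + 4) * X ^ E := Nat.le_mul_of_pos_right _ (hX1' E)
    calc V' k + M2 k L1 N ≤ 2 * (k ^ (2 * k + 4) * X ^ E) := by omega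
      _ ≤ k * (k ^ (2 * k + 4) * X ^ E) := Nat.mul_le_mul_right _ (by omega)
      _ = k ^ (2 * k + 5) * X ^ E := by ring
  have bG : G ≤ k ^ (2 * k + 6) * X ^ (2 * E) := by
    rw [hB.G_eq]
    calc k * gg1 ≤ k * ((k ^ (2 * k + 5) * X ^ E) * X ^ E) := by
          apply Nat.mul_le_mul_left
          refine (Nat.le_succ gg1).trans (hle.trans (Nat.mul_le_mul bVM ?_))
          exact (Nat.pow_le_pow_left g2.2 N).trans (hXN hN)
      _ = k ^ (2 * k + 6) * X ^ (2 * E) := by ring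
  have bGR : G ≤ RR k E X := by
    refine bG.trans ?_
    unfold RR
    exact Nat.mul_le_mul (hkp (by omega)) (hXN (by omega))
  -- third prime
  have hG0 := hB.G_pos
  obtain ⟨L3, hL3, hL3G⟩ : ∃ L3 ∈ P, ¬ L3 ∣ G := by
    by_contra hcon
    push Not at hcon
    have h1 : P ⊆ G.primeFactors := fun p hp =>
      Nat.mem_primeFactors.2 ⟨(hP p hp).1.prime, hcon p hp, hG0.ne'⟩
    have h2 := Finset.card_le_card h1
    have h3 : G.primeFactors.card ≤ Nat.log 2 (RR k E X) :=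
      Nat.le_log_of_pow_le (by omega) ((card_primeFactors_le hG0).trans bGR)
    omega
  have g3 := hP L3 hL3
  set W := (V' k + G) * L3 ^ N with hW
  have bW : W ≤ RR k E X := by
    have h1 : V' k + G ≤ k ^ (2 * k + 7) * X ^ (2 * E) := by
      have h2 : V' k ≤ k ^ (2 * k + 6) * X ^ (2 * E) := by
        calc V' k ≤ k ^ 4 := V'_le hk
          _ ≤ k ^ (2 * k + 6) := hkp (by omega)
          _ ≤ k ^ (2 * k + 6) * X ^ (2 * E) := Nat.le_mul_of_pos_right _ (hX1' _)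
      calc V' k + G ≤ 2 * (k ^ (2 * k + 6) * X ^ (2 * E)) := by omega
        _ ≤ k * (k ^ (2 * k + 6) * X ^ (2 * E)) := Nat.mul_le_mul_right _ (by omega)
        _ = k ^ (2 * k + 7) * X ^ (2 * E) := by ring
    calc W ≤ (k ^ (2 * k + 7) * X ^ (2 * E)) * X ^ E := by
          apply Nat.mul_le_mul h1
          exact (Nat.pow_le_pow_left g3.2 N).trans (hXN hN)
      _ = k ^ (2 * k + 7) * X ^ (3 * E) := by ring
      _ ≤ RR k E X := Nat.mul_le_mul_right _ (hkp (by omega))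
  have bA : A ≤ RR k E X := hB.A_le_G.trans bGR
  set z := A * (100 * k ^ 2) + 1 with hz
  have bz : z ≤ RR k E X := by
    have h1 : 3 ^ 5 ≤ k ^ 5 := Nat.pow_le_pow_left hk 5
    have h2 : 100 * k ^ 2 ≤ k ^ 7 := by
      calc 100 * k ^ 2 ≤ k ^ 5 * k ^ 2 := Nat.mul_le_mul_right _ (by omega)
        _ = k ^ 7 := by ring
    have h3 : A * (100 * k ^ 2) ≤ k ^ (2 * k + 13) * X ^ (2 * E) := by
      calc A * (100 * k ^ 2) ≤ (k ^ (2 * k + 6) * X ^ (2 * E)) * k ^ 7 :=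
            Nat.mul_le_mul (hB.A_le_G.trans bG) h2
        _ = k ^ (2 * k + 13) * X ^ (2 * E) := by ring
    have h4 : 1 ≤ k ^ (2 * k + 13) * X ^ (2 * E) := Nat.mul_pos (hk1 _) (hX1' _)
    calc z ≤ 2 * (k ^ (2 * k + 13) * X ^ (2 * E)) := by omega
      _ ≤ k * (k ^ (2 * k + 13) * X ^ (2 * E)) := Nat.mul_le_mul_right _ (by omega)
      _ = k ^ (2 * k + 14) * X ^ (2 * E) := by ring
      _ ≤ RR k E X := Nat.mul_le_mul_left _ (hXN (by omega))
  have bR8 : k ^ 14 ≤ RR k E X := by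
    unfold RR
    calc k ^ 14 ≤ k ^ (2 * k + 14) := hkp (by omega)
      _ ≤ _ := Nat.le_mul_of_pos_right _ (hX1' _)
  have h314 : 3 ^ 14 ≤ k ^ 14 := Nat.pow_le_pow_left hk 14
  have hR1 : 1 ≤ RR k E X := by omega
  set T := RR k E X ^ 250 with hT
  have hRT : RR k E X ≤ T := by
    calc RR k E X = RR k E X ^ 1 := (pow_one _).symm
      _ ≤ T := Nat.pow_le_pow_right hR1 (by omega)
  have hkT : k + 2 ≤ T := by
    refine le_trans ?_ (bR8.trans hRT)
    calc k + 2 ≤ k * k := by nlinarith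
      _ = k ^ 2 := by ring
      _ ≤ k ^ 14 := hkp (by omega)
  have hLsT : z ^ 249 ≤ T := by
    calc z ^ 249 ≤ RR k E X ^ 249 := Nat.pow_le_pow_left bz 249
      _ ≤ T := Nat.pow_le_pow_right hR1 (by omega)
  have hz2 : 2 ^ 128 < z := by
    have h1 : A ≤ A * (100 * k ^ 2) := Nat.le_mul_of_pos_right _ (by positivity)
    have h2 : gg1 ≤ A := by
      have h3 := hB.as_mul
      rw [hB.G_eq] at h3
      have h4 : (k - 1) * gg1 ≤ (k - 1) * A := by
        rw [h3]; exact Nat.mul_le_mul_right _ (by omega)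
      exact Nat.le_of_mul_le_mul_left h4 (by omega)
    have h5 := L0_big hk
    have h6 := g2.1.big
    omega
  refine final2 hB g3.1 hL3G (Ls := z ^ 249)
    (fun A' a0 Y hA' h => sieve2c z A' a0 Y hz2 hA' h) hA hW ?_
  refine le_trans (V0_poly (T := T) (by omega) hkT (bW.trans hRT) (bGR.trans hRT)
    (bA.trans hRT) hLsT) ?_
  rw [hT, ← pow_mul]
  exact hv

end H108
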