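import Pool.Agent.H343R2.EH.BVLog
import Pool.Agent.H343R2.EH.Inter
import Pool.Agent.H343R2.EH.Pointwise
import Pool.Agent.H732R2.MT_B3

/-! Many primes `p ≡ 1 mod q` for `q ≤ (log x)^B` (task P2 of helper108, done by helper911), from
the Siegel-Walfisz theorem of the team library. -/

open Finset Filter Topology

namespace H108

open Pool.Agent.H410R2 Pool.Agent.H398R2.BV H343E

theorem psiLogAP_lower (B : ℕ) : ∃ X0 : ℝ, ∀ X : ℝ, X0 ≤ X → ∀ q : ℕ, 1 ≤ q →
    (q : ℝ) ≤ Real.log X ^ B → X / (4 * Real.log X ^ B) ≤ psiLogAP X q 1 := by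
  classical
  obtain ⟨x1, hx1⟩ := sw (4 * B + 1) B
  have h1 : ∀ᶠ X : ℝ in atTop, (1 / 2 : ℝ) ≤ psiLog1 X / X := by
    have := (Pool.Agent.H732R2.pntLog : Tendsto (fun X : ℝ => psiLog1 X / X) atTop (𝓝 1))
    exact this.eventually (eventually_ge_nhds (by norm_num))
  have h2 : ∀ᶠ X : ℝ in atTop, 16 * Real.log X ^ (2 * B + 2) ≤ X := by
    have h := (Real.isLittleO_pow_log_id_atTop (n := 2 * B + 2)).bound
      (show (0 : ℝ) < 1 / 16 by norm_num)
    filter_upwards [h, eventually_ge_atTop (1 : ℝ)] with X hX hX1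
    rw [Real.norm_of_nonneg (pow_nonneg (Real.log_nonneg hX1) _), id,
      Real.norm_of_nonneg (by linarith)] at hX
    linarith
  have h3 : ∀ᶠ X : ℝ in atTop, 8 ≤ Real.log X := Real.tendsto_log_atTop.eventually_ge_atTop 8
  obtain ⟨X0, hX0⟩ := eventually_atTop.1 ((h1.and (h2.and h3)).and (eventually_ge_atTop (max 1 x1)))
  refine ⟨X0, fun X hX q hq hqL => ?_⟩
  obtain ⟨⟨h1, h2, h3⟩, h4⟩ := hX0 X hX
  have hX1 : 1 ≤ X := (le_max_left _ _).trans h4
  have hXx : x1 ≤ X := (le_max_right _ _).trans h4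
  have hXpos : 0 < X := by linarith
  set L := Real.log X with hL
  have hL0 : 0 < L := by linarith
  have hL1 : 1 ≤ L := by linarith
  have : NeZero q := ⟨by omega⟩
  have hφn : 0 < Nat.totient q := Nat.totient_pos.mpr (by omega)
  have hφ : (0:ℝ) < Nat.totient q := by exact_mod_cast hφn
  have hφq : (Nat.totient q : ℝ) ≤ q := by exact_mod_cast Nat.totient_le q
  have hpt := pointwise X hX1 q q 1 (Nat.coprime_one_left q)
  have hV : VV X q q 1 = 0 := by
    unfold VV
    have : largeC q q = ∅ := by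
      apply Finset.eq_empty_of_forall_notMem
      intro χ hχ
      rw [InterC.mem_largeC] at hχ
      have := Nat.le_of_dvd (by omega) χ.conductor_dvd_level
      omega
    rw [this]; simp
  rw [hV, norm_zero, add_zero] at hpt
  have hS := InterC.SS_le X hX1 q q
  have hqL1 : (1 : ℝ) ≤ q := by exact_mod_cast hq
  have hsum : (∑ f ∈ q.divisors.filter (fun f => f ≠ 1),
        if f ≤ q then ∑ ψ ∈ Prim f, ‖psiLog X f ψ‖ else 0) ≤ q * (q * (X / L ^ (4 * B + 1))) := by
    calc (∑ f ∈ q.divisors.filter (fun f => f ≠ 1),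
        if f ≤ q then ∑ ψ ∈ Prim f, ‖psiLog X f ψ‖ else 0)
        ≤ ∑ f ∈ q.divisors.filter (fun f => f ≠ 1), (q * (X / L ^ (4 * B + 1)) : ℝ) := by
          apply sum_le_sum
          intro f hf
          rw [mem_filter, Nat.mem_divisors] at hf
          have hfq : f ≤ q := Nat.le_of_dvd (by omega) hf.1.1
          have hf0 : 0 < f := Nat.pos_of_dvd_of_pos hf.1.1 (by omega)
          have hf1 : 1 < f := by
            have := hf.2
            omega
          rw [if_pos hfq]
          have hfq' : (f : ℝ) ≤ q := by exact_mod_cast hfq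
          calc ∑ ψ ∈ Prim f, ‖psiLog X f ψ‖ ≤ ∑ ψ ∈ Prim f, (X / L ^ (4 * B + 1)) := by
                apply sum_le_sum
                intro ψ hψ
                have hψ' : ψ.IsPrimitive := by
                  unfold Prim at hψ
                  simpa using hψ
                exact hx1 X hXx f hf1 (hfq'.trans hqL) ψ hψ'
            _ = ((Prim f).card : ℝ) * (X / L ^ (4 * B + 1)) := by rw [sum_const, nsmul_eq_mul]
            _ ≤ q * (X / L ^ (4 * B + 1)) := by
                apply mul_le_mul_of_nonneg_right _ (by positivity)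
                have h5 := card_prim_le (f := f) (by omega)
                have h6 : (Nat.totient f : ℝ) ≤ f := by exact_mod_cast Nat.totient_le f
                linarith
      _ = ((q.divisors.filter (fun f => f ≠ 1)).card : ℝ) * (q * (X / L ^ (4 * B + 1))) := by
          rw [sum_const, nsmul_eq_mul]
      _ ≤ q * (q * (X / L ^ (4 * B + 1))) := by
          apply mul_le_mul_of_nonneg_right _ (by positivity)
          exact_mod_cast (card_filter_le _ _).trans (Nat.card_divisors_le_self q)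
  have hω : (q.primeFactors.card : ℝ) ≤ q := by
    have : q.primeFactors.card ≤ q := by
      calc q.primeFactors.card ≤ q.divisors.card :=
            card_le_card (fun p hp => Nat.mem_divisors.2 ⟨Nat.dvd_of_mem_primeFactors hp, by omega⟩)
        _ ≤ q := Nat.card_divisors_le_self q
    exact_mod_cast this
  -- numerics
  have hqq : (q : ℝ) * (q * (X / L ^ (4 * B + 1))) ≤ X / 8 := by
    have hLB : (0:ℝ) < L ^ B := pow_pos hL0 B
    calc (q : ℝ) * (q * (X / L ^ (4 * B + 1))) ≤ L ^ B * (L ^ B * (X / L ^ (4 * B + 1))) := by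
          gcongr
      _ = X / L ^ (2 * B + 1) := by
          have : L ^ (4 * B + 1) = L ^ B * L ^ B * L ^ (2 * B + 1) := by ring
          rw [this]
          field_simp
      _ ≤ X / 8 := by
          apply div_le_div_of_nonneg_left hXpos.le (by norm_num)
          calc (8:ℝ) ≤ L := h3
            _ = L ^ 1 := (pow_one L).symm
            _ ≤ L ^ (2 * B + 1) := pow_le_pow_right₀ hL1 (by omega)
  have hSS : SS X q q ≤ (1 / (Nat.totient q : ℝ)) * (X / 8) + q.primeFactors.card * L ^ 2 := by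
    refine hS.trans ?_
    gcongr
    exact hsum.trans hqq
  have hP : X / 2 ≤ psiLog1 X := by
    rw [le_div_iff₀ hXpos] at h1
    linarith
  have hlow : (X / 2) / (Nat.totient q : ℝ) ≤ psiLog1 X / (Nat.totient q : ℝ) :=
    div_le_div_of_nonneg_right hP hφ.le
  have habs := (abs_le.1 hpt).1
  have hωL : (q.primeFactors.card : ℝ) * L ^ 2 ≤ L ^ B * L ^ 2 := by
    gcongr
    exact hω.trans hqL
  have hmain : (3 / 8 * X) / (Nat.totient q : ℝ) - 2 * (L ^ B * L ^ 2) ≤ psiLogAP X q 1 := by
    have e1 : (3 / 8 * X) / (Nat.totient q : ℝ) =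
        (X / 2) / (Nat.totient q : ℝ) - (1 / (Nat.totient q : ℝ)) * (X / 8) := by
      field_simp; ring
    rw [e1]
    linarith
  have hLB : (0:ℝ) < L ^ B := pow_pos hL0 B
  have h5 : (3 / 8 * X) / L ^ B ≤ (3 / 8 * X) / (Nat.totient q : ℝ) :=
    div_le_div_of_nonneg_left (by positivity) hφ (hφq.trans hqL)
  have h6 : 2 * (L ^ B * L ^ 2) ≤ (1 / 8 * X) / L ^ B := by
    rw [le_div_iff₀ hLB]
    have : 2 * (L ^ B * L ^ 2) * L ^ B = 2 * L ^ (2 * B + 2) := by ring
    rw [this]
    linarith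
  have h7 : X / (4 * L ^ B) = (3 / 8 * X) / L ^ B - (1 / 8 * X) / L ^ B := by
    field_simp; ring
  rw [h7]
  linarith

theorem primes_one_mod (B : ℕ) : ∃ x0 : ℝ, ∀ x : ℝ, x0 ≤ x → ∀ q : ℕ, 1 ≤ q →
    (q : ℝ) ≤ (Real.log x) ^ B →
    Real.sqrt x ≤ (((Finset.Icc 1 ⌊x⌋₊).filter (fun p => p.Prime ∧ p ≡ 1 [MOD q])).card : ℝ) := by
  classical
  obtain ⟨X0, hX0⟩ := psiLogAP_lower B
  have h2 : ∀ᶠ X : ℝ in atTop, 144 * Real.log X ^ (2 * (B + 2)) ≤ X := by
    have h := (Real.isLittleO_pow_log_id_atTop (n := 2 * (B + 2))).bound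
      (show (0 : ℝ) < 1 / 144 by norm_num)
    filter_upwards [h, eventually_ge_atTop (1 : ℝ)] with X hX hX1
    rw [Real.norm_of_nonneg (pow_nonneg (Real.log_nonneg hX1) _), id,
      Real.norm_of_nonneg (by linarith)] at hX
    linarith
  have h3 : ∀ᶠ X : ℝ in atTop, 8 ≤ Real.log X := Real.tendsto_log_atTop.eventually_ge_atTop 8
  obtain ⟨X1, hX1⟩ := eventually_atTop.1 ((h2.and h3).and (eventually_ge_atTop (max 1 X0)))
  refine ⟨X1, fun X hX q hq hqL => ?_⟩
  obtain ⟨⟨h2, h3⟩, h4⟩ := hX1 X hX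
  have hX1 : 1 ≤ X := (le_max_left _ _).trans h4
  have hXx : X0 ≤ X := (le_max_right _ _).trans h4
  have hXpos : 0 < X := by linarith
  have hlow := hX0 X hXx q hq hqL
  set L := Real.log X with hL
  have hL0 : 0 < L := by linarith
  set N : ℝ := (((Finset.Icc 1 ⌊X⌋₊).filter (fun p => p.Prime ∧ p ≡ 1 [MOD q])).card : ℝ) with hN
  have hup : psiLogAP X q 1 ≤ N * (L * L) + L * (2 * √X * L) := by
    unfold psiLogAP
    have hlog : ∀ n ∈ Icc 1 ⌊X⌋₊, 0 ≤ Real.log (X / n) ∧ Real.log (X / n) ≤ L ∧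
        Real.log n ≤ L ∧ 0 ≤ Real.log n := by
      intro n hn
      rw [mem_Icc] at hn
      have hn1 : (1 : ℝ) ≤ n := by exact_mod_cast hn.1
      have hnX : (n : ℝ) ≤ X := (Nat.le_floor_iff hXpos.le).1 hn.2
      refine ⟨Real.log_nonneg (by rw [le_div_iff₀ (by linarith)]; linarith), ?_, ?_, ?_⟩
      · apply Real.log_le_log (by positivity)
        exact div_le_self hXpos.le hn1
      · exact Real.log_le_log (by linarith) hnX
      · exact Real.log_nonneg hn1
    have hsplit : ∑ n ∈ (Icc 1 ⌊X⌋₊).filter (fun n => n ≡ 1 [MOD q]),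
        ArithmeticFunction.vonMangoldt n * Real.log (X / n) ≤
        ∑ n ∈ (Icc 1 ⌊X⌋₊).filter (fun n => n.Prime ∧ n ≡ 1 [MOD q]),
          ArithmeticFunction.vonMangoldt n * Real.log (X / n) +
        ∑ n ∈ (Icc 1 ⌊X⌋₊).filter (fun n => ¬ n.Prime),
          ArithmeticFunction.vonMangoldt n * Real.log (X / n) := by
      rw [sum_filter, sum_filter, sum_filter, ← sum_add_distrib]
      apply sum_le_sum
      intro n hn
      have h0 : 0 ≤ ArithmeticFunction.vonMangoldt n * Real.log (X / n) :=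
        mul_nonneg ArithmeticFunction.vonMangoldt_nonneg (hlog n hn).1
      by_cases hp : n.Prime <;> by_cases hm : n ≡ 1 [MOD q] <;> simp [hp, hm, h0]
    refine hsplit.trans (add_le_add ?_ ?_)
    · calc ∑ n ∈ (Icc 1 ⌊X⌋₊).filter (fun n => n.Prime ∧ n ≡ 1 [MOD q]),
          ArithmeticFunction.vonMangoldt n * Real.log (X / n)
          ≤ ∑ n ∈ (Icc 1 ⌊X⌋₊).filter (fun n => n.Prime ∧ n ≡ 1 [MOD q]), L * L := by
            apply sum_le_sum
            intro n hn
            rw [mem_filter] at hn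
            obtain ⟨h5, h6, h7, h8⟩ := hlog n hn.1
            rw [ArithmeticFunction.vonMangoldt_apply_prime hn.2.1]
            exact mul_le_mul h7 h6 h5 hL0.le
        _ = N * (L * L) := by rw [sum_const, nsmul_eq_mul]
    · calc ∑ n ∈ (Icc 1 ⌊X⌋₊).filter (fun n => ¬ n.Prime),
          ArithmeticFunction.vonMangoldt n * Real.log (X / n)
          ≤ ∑ n ∈ (Icc 1 ⌊X⌋₊).filter (fun n => ¬ n.Prime),
            L * ArithmeticFunction.vonMangoldt n := by
            apply sum_le_sum
            intro n hn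
            rw [mem_filter] at hn
            obtain ⟨h5, h6, h7, h8⟩ := hlog n hn.1
            rw [mul_comm]
            exact mul_le_mul_of_nonneg_right h6 ArithmeticFunction.vonMangoldt_nonneg
        _ = L * ∑ n ∈ (Ioc 0 ⌊X⌋₊).filter (fun n => ¬ n.Prime),
            ArithmeticFunction.vonMangoldt n := by
            rw [mul_sum]
            rfl
        _ ≤ L * (2 * √X * L) := by
            apply mul_le_mul_of_nonneg_left _ hL0.le
            have h1 := Chebyshev.psi_sub_theta_le hX1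
            rw [Chebyshev.psi_sub_theta_eq_sum_not_prime] at h1
            exact h1
  -- numerics
  have hs : 12 * L ^ (B + 2) ≤ √X := by
    apply Real.le_sqrt_of_sq_le
    have : (12 * L ^ (B + 2)) ^ 2 = 144 * L ^ (2 * (B + 2)) := by ring
    rw [this]; exact h2
  have hsX : √X * √X = X := Real.mul_self_sqrt hXpos.le
  have hs0 : 0 < √X := Real.sqrt_pos.2 hXpos
  have hLB : (0:ℝ) < L ^ B := pow_pos hL0 B
  have h9 : 3 * √X * (L * L) ≤ X / (4 * L ^ B) := by
    rw [le_div_iff₀ (by positivity)]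
    calc 3 * √X * (L * L) * (4 * L ^ B) = √X * (12 * L ^ (B + 2)) := by ring
      _ ≤ √X * √X := mul_le_mul_of_nonneg_left hs hs0.le
      _ = X := hsX
  have h10 : √X * (L * L) ≤ N * (L * L) := by
    have : L * (2 * √X * L) = 2 * √X * (L * L) := by ring
    rw [this] at hup
    linarith
  exact le_of_mul_le_mul_right h10 (by positivity)

end H108
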