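import Pool.Agent.H108R2.Asym
import Pool.Agent.H108R2.PrimesAP

namespace H108

open Filter Topology

theorem tendsto_rpow_nat {δ : ℝ} (hδ : 0 < δ) :
    Tendsto (fun k : ℕ => ((k : ℝ)) ^ δ) atTop atTop :=
  (tendsto_rpow_atTop hδ).comp tendsto_natCast_atTop_atTop

/-- `exp (k^δ / 2)` beats every polynomial -/
theorem ev_exp {δ : ℝ} (hδ : 0 < δ) (c : ℝ) (m : ℕ) :
    ∀ᶠ k : ℕ in atTop, c * (k : ℝ) ^ m ≤ Real.exp ((k : ℝ) ^ δ / 2) := by
  have h1 := (tendsto_exp_mul_div_rpow_atTop ((m : ℝ) / δ) (1 / 2) (by norm_num)).comp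
    (tendsto_rpow_nat hδ)
  filter_upwards [h1.eventually_ge_atTop c, eventually_ge_atTop 1] with k hk hk1
  simp only [Function.comp_apply] at hk
  have hk0 : (0 : ℝ) < k := by exact_mod_cast hk1
  have h2 : ((k : ℝ) ^ δ) ^ ((m : ℝ) / δ) = (k : ℝ) ^ m := by
    rw [← Real.rpow_mul hk0.le, mul_div_cancel₀ _ hδ.ne', Real.rpow_natCast]
  rw [h2, le_div_iff₀ (pow_pos hk0 m)] at hk
  calc c * (k : ℝ) ^ m ≤ Real.exp (1 / 2 * (k : ℝ) ^ δ) := hk
    _ = _ := by ring_nf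

theorem L0_eq (k : ℕ) : L0 k = 2000 * 200 ^ 18 * k ^ 72 := by
  unfold L0 XM; ring

theorem RR_log {k E X : ℕ} (hk : 3 ≤ k) (hX : 1 ≤ X) :
    Real.log (RR k E X) = (2 * k + 14) * Real.log k + 3 * E * Real.log X := by
  unfold RR
  have h1 : (k : ℝ) ≠ 0 := by
    have : k ≠ 0 := by omega
    exact_mod_cast this
  have h2 : (X : ℝ) ≠ 0 := by
    have : X ≠ 0 := by omega
    exact_mod_cast this
  push_cast
  rw [Real.log_mul (pow_ne_zero _ h1) (pow_ne_zero _ h2), Real.log_pow, Real.log_pow]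
  push_cast
  ring

theorem asym_aux {ε : ℝ} (hε : 0 < ε) (hε1 : ε ≤ 1) : ∃ k0 : ℕ, ∀ k v : ℕ, k0 ≤ k → Adm k v →
    Real.exp ((k : ℝ) ^ (1 + ε)) ≤ v → IG {k} 1 v 0 := by
  set δ := ε / 2 with hδ
  have hδ0 : 0 < δ := by positivity
  have hδ1 : δ ≤ 1 := by linarith
  obtain ⟨B, hB⟩ := exists_nat_ge (2 / δ)
  obtain ⟨x0, hx0⟩ := primes_one_mod B
  have hδB : 2 ≤ δ * B := by
    rw [div_le_iff₀ hδ0] at hB
    linarith
  -- eventual inequalities
  have e2 : ∀ᶠ k : ℕ in atTop, x0 ≤ Real.exp ((k : ℝ) ^ δ) :=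
    (Real.tendsto_exp_atTop.comp (tendsto_rpow_nat hδ0)).eventually_ge_atTop x0
  have e4 := ev_exp hδ0 (10 ^ 60) 80
  have e5 : ∀ᶠ k : ℕ in atTop, 3250 * (16 / δ + 3) ≤ (k : ℝ) ^ δ :=
    (tendsto_rpow_nat hδ0).eventually_ge_atTop _
  obtain ⟨k0, hk0⟩ := eventually_atTop.1 ((e2.and (e4.and e5)).and (eventually_ge_atTop 3))
  refine ⟨k0, fun k v hk hA hv => ?_⟩
  obtain ⟨⟨h2, h4, h5⟩, h3⟩ := hk0 k hk
  have hkr : (3 : ℝ) ≤ k := by exact_mod_cast h3
  have hk1 : (1 : ℝ) ≤ k := by linarith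
  have hk00 : (0 : ℝ) < k := by linarith
  set y := (k : ℝ) ^ δ with hy
  have hy1 : 1 ≤ y := Real.one_le_rpow hk1 hδ0.le
  have hyk : y ≤ k := by
    calc y ≤ (k : ℝ) ^ (1 : ℝ) := Real.rpow_le_rpow_of_exponent_le hk1 hδ1
      _ = k := Real.rpow_one _
  set x := Real.exp y with hx
  have hx1 : 1 ≤ x := Real.one_le_exp (by linarith)
  set X := ⌊x⌋₊ with hX
  have hX1 : 1 ≤ X := Nat.le_floor (by push_cast; exact hx1)
  have hXx : (X : ℝ) ≤ x := Nat.floor_le (by linarith)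
  have hlogX : Real.log X ≤ y := by
    have hXp : (0 : ℝ) < X := by exact_mod_cast hX1
    calc Real.log X ≤ Real.log x := Real.log_le_log hXp hXx
      _ = y := Real.log_exp y
  have hlogX0 : 0 ≤ Real.log X := Real.log_nonneg (by exact_mod_cast hX1)
  have hlogk : Real.log k ≤ y / δ := Real.log_le_rpow_div hk00.le hδ0
  have hlogk0 : 0 ≤ Real.log k := Real.log_nonneg hk1
  -- the primes
  have hq : ((k * (k - 1) : ℕ) : ℝ) ≤ (Real.log x) ^ B := by
    rw [hx, Real.log_exp, hy, ← Real.rpow_natCast, ← Real.rpow_mul hk00.le]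
    calc ((k * (k - 1) : ℕ) : ℝ) ≤ ((k ^ 2 : ℕ) : ℝ) := by exact_mod_cast n_le
      _ = (k : ℝ) ^ (2 : ℝ) := by push_cast; norm_cast
      _ ≤ (k : ℝ) ^ (δ * B) := Real.rpow_le_rpow_of_exponent_le hk1 hδB
  have hcount := hx0 x h2 (k * (k - 1)) (n_pos h3) hq
  set P0 := (Finset.Icc 1 ⌊x⌋₊).filter (fun p => p.Prime ∧ p ≡ 1 [MOD k * (k - 1)]) with hP0
  set P := P0.filter (fun p => L0 k ≤ p) with hP
  have hPc : P0.card ≤ P.card + L0 k := by
    have h6 : P0 ⊆ P ∪ Finset.range (L0 k) := by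
      intro p hp
      rw [Finset.mem_union, Finset.mem_range, hP, Finset.mem_filter]
      rcases Nat.lt_or_ge p (L0 k) with h | h
      · exact Or.inr h
      · exact Or.inl ⟨hp, h⟩
    refine (Finset.card_le_card h6).trans ((Finset.card_union_le _ _).trans ?_)
    rw [Finset.card_range]
  have hGood : ∀ L ∈ P, GoodLN k L (k - 1) ∧ L ≤ X := by
    intro L hL
    rw [hP, Finset.mem_filter, hP0, Finset.mem_filter, Finset.mem_Icc] at hL
    obtain ⟨⟨⟨-, hLX⟩, hLp, hLm⟩, hLL⟩ := hL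
    refine ⟨⟨hLp, hLL, le_rfl, ?_⟩, hLX⟩
    have := hLm.pow (k - 1)
    rwa [one_pow] at this
  have hRpos : 0 < RR k k X := Nat.mul_pos (pow_pos (by omega) _) (pow_pos hX1 _)
  have hlogR := RR_log (E := k) h3 hX1
  have hlogR2 : Real.log (RR k k X) ≤ (16 / δ + 3) * (k * y) := by
    rw [hlogR]
    have h6 : (2 * (k : ℝ) + 14) * Real.log k ≤ (16 * k) * (y / δ) := by
      apply mul_le_mul (by linarith) hlogk hlogk0 (by positivity)
    have h7 : 3 * (k : ℝ) * Real.log X ≤ 3 * k * y :=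
      mul_le_mul_of_nonneg_left hlogX (by positivity)
    calc _ ≤ (16 * k) * (y / δ) + 3 * k * y := add_le_add h6 h7
      _ = _ := by ring
  have hcard : Nat.log 2 (RR k k X) + 2 < P.card := by
    have h6 : ((Nat.log 2 (RR k k X) : ℕ) : ℝ) ≤ 40 * k ^ 2 := by
      have h7 : (2 : ℝ) ^ (Nat.log 2 (RR k k X)) ≤ RR k k X := by
        exact_mod_cast Nat.pow_log_le_self 2 hRpos.ne'
      have h8 : (Nat.log 2 (RR k k X) : ℝ) * Real.log 2 ≤ Real.log (RR k k X) := by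
        rw [← Real.log_pow]
        exact Real.log_le_log (by positivity) h7
      have h9 : Real.log (RR k k X) ≤ 19 * k ^ 2 := by
        rw [hlogR]
        have h10 : Real.log k ≤ k := (Real.log_le_sub_one_of_pos hk00).trans (by linarith)
        have h11 : (2 * (k : ℝ) + 14) * Real.log k ≤ (16 * k) * k :=
          mul_le_mul (by linarith) h10 hlogk0 (by positivity)
        have h12 : 3 * (k : ℝ) * Real.log X ≤ 3 * k * k :=
          mul_le_mul_of_nonneg_left (hlogX.trans hyk) (by positivity)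
        calc _ ≤ (16 * (k : ℝ)) * k + 3 * k * k := add_le_add h11 h12
          _ = _ := by ring
      have h13 : (1 / 2 : ℝ) ≤ Real.log 2 := by
        have := Real.log_two_gt_d9; linarith
      have h14 : (0 : ℝ) ≤ (Nat.log 2 (RR k k X) : ℝ) := Nat.cast_nonneg _
      nlinarith
    have h7 : Real.sqrt x = Real.exp (y / 2) := by
      rw [hx, Real.sqrt_eq_rpow, ← Real.exp_mul]; ring_nf
    have h8 : ((L0 k : ℕ) : ℝ) ≤ 10 ^ 50 * (k : ℝ) ^ 80 := by
      have h9 : (k : ℝ) ^ 72 ≤ (k : ℝ) ^ 80 := pow_le_pow_right₀ hk1 (by norm_num)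
      have h9' : ((L0 k : ℕ) : ℝ) = (2000 : ℝ) * 200 ^ 18 * (k : ℝ) ^ 72 := by
        rw [L0_eq, Nat.cast_mul, Nat.cast_mul, Nat.cast_pow, Nat.cast_pow]
        norm_num
      rw [h9']
      calc (2000 : ℝ) * 200 ^ 18 * (k : ℝ) ^ 72 ≤ 10 ^ 50 * (k : ℝ) ^ 72 := by
            apply mul_le_mul_of_nonneg_right (by norm_num) (by positivity)
        _ ≤ _ := mul_le_mul_of_nonneg_left h9 (by positivity)
    have h9 : (k : ℝ) ^ 2 ≤ (k : ℝ) ^ 80 := pow_le_pow_right₀ hk1 (by norm_num)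
    have h10 : (1 : ℝ) ≤ (k : ℝ) ^ 80 := one_le_pow₀ hk1
    have h11 : ((P0.card : ℕ) : ℝ) ≤ P.card + L0 k := by exact_mod_cast hPc
    have h12 : (10 : ℝ) ^ 60 * (k : ℝ) ^ 80 ≤ P.card + L0 k := by
      calc (10 : ℝ) ^ 60 * (k : ℝ) ^ 80 ≤ Real.exp (y / 2) := h4
        _ = Real.sqrt x := h7.symm
        _ ≤ P0.card := hcount
        _ ≤ _ := h11
    have h13 : ((Nat.log 2 (RR k k X) + 2 : ℕ) : ℝ) < ((P.card : ℕ) : ℝ) := by
      push_cast
      have : (40 : ℝ) * k ^ 2 + 2 + 10 ^ 50 * (k : ℝ) ^ 80 < 10 ^ 60 * (k : ℝ) ^ 80 := by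
        nlinarith
      linarith
    exact_mod_cast h13
  refine exists_of_primes h3 (by omega : k - 1 ≤ k) P hGood hcard hA ?_
  -- size
  have hfin : (RR k k X : ℝ) ^ 3250 ≤ v := by
    refine le_trans ?_ hv
    have hRp : (0 : ℝ) < RR k k X := by exact_mod_cast hRpos
    rw [← Real.exp_log hRp, ← Real.exp_nat_mul]
    apply Real.exp_le_exp.2
    push_cast
    have h6 : (k : ℝ) ^ (1 + ε) = k * y * y := by
      rw [Real.rpow_add hk00, Real.rpow_one, hy, mul_assoc, ← Real.rpow_add hk00]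
      congr 2
      rw [hδ]; ring
    rw [h6]
    calc 3250 * Real.log (RR k k X)
        ≤ 3250 * ((16 / δ + 3) * (k * y)) :=
          mul_le_mul_of_nonneg_left hlogR2 (by positivity)
      _ = (3250 * (16 / δ + 3)) * (k * y) := by ring
      _ ≤ y * (k * y) := mul_le_mul_of_nonneg_right h5 (by positivity)
      _ = k * y * y := by ring
  exact_mod_cast hfin

theorem asym {ε : ℝ} (hε : 0 < ε) : ∃ k0 : ℕ, ∀ k v : ℕ, k0 ≤ k → Adm k v →
    Real.exp ((k : ℝ) ^ (1 + ε)) ≤ v → IG {k} 1 v 0 := by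
  obtain ⟨k0, hk0⟩ := asym_aux (ε := min ε 1) (lt_min hε one_pos) (min_le_right _ _)
  refine ⟨max k0 1, fun k v hk hA hv => hk0 k v ((le_max_left _ _).trans hk) hA ?_⟩
  refine le_trans ?_ hv
  apply Real.exp_le_exp.2
  have h1 : (1 : ℝ) ≤ k := by exact_mod_cast (le_max_right _ _).trans hk
  exact Real.rpow_le_rpow_of_exponent_le h1 (by linarith [min_le_left ε 1])

end H108
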