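import Pool.Agent.H108R2.Final

namespace H108

open Nat

/-- `x ≤ 2^(k^a)` -/
def Bd (k a x : ℕ) : Prop := x ≤ 2 ^ (k ^ a)

theorem Bd.mono {k a b x : ℕ} (hk : 3 ≤ k) (h : Bd k a x) (hab : a ≤ b) : Bd k b x :=
  h.trans (Nat.pow_le_pow_right (by omega) (Nat.pow_le_pow_right (by omega) hab))

theorem Bd.of_le {k a x y : ℕ} (h : Bd k a y) (hxy : x ≤ y) : Bd k a x := le_trans hxy h

theorem bd_lin {k b y : ℕ} (h : y ≤ k ^ b) : Bd k b y :=
  (Nat.lt_two_pow_self (n := y)).le.trans (Nat.pow_le_pow_right (by omega) h)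

theorem Bd.mul {k a x y : ℕ} (hk : 3 ≤ k) (hx : Bd k a x) (hy : Bd k a y) :
    Bd k (a + 1) (x * y) := by
  unfold Bd at *
  calc x * y ≤ 2 ^ (k ^ a) * 2 ^ (k ^ a) := Nat.mul_le_mul hx hy
    _ = 2 ^ (k ^ a * 2) := by rw [← pow_add]; ring_nf
    _ ≤ 2 ^ (k ^ (a + 1)) := by
        apply Nat.pow_le_pow_right (by omega)
        rw [pow_succ]; exact Nat.mul_le_mul_left _ (by omega)

theorem Bd.mul3 {k a x y z : ℕ} (hk : 3 ≤ k) (hx : Bd k a x) (hy : Bd k a y) (hz : Bd k a z) :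
    Bd k (a + 1) (x * y * z) := by
  unfold Bd at *
  calc x * y * z ≤ 2 ^ (k ^ a) * 2 ^ (k ^ a) * 2 ^ (k ^ a) :=
        Nat.mul_le_mul (Nat.mul_le_mul hx hy) hz
    _ = 2 ^ (k ^ a * 3) := by rw [← pow_add, ← pow_add]; ring_nf
    _ ≤ 2 ^ (k ^ (a + 1)) := by
        apply Nat.pow_le_pow_right (by omega)
        rw [pow_succ]; exact Nat.mul_le_mul_left _ (by omega)

theorem Bd.add {k a x y : ℕ} (hk : 3 ≤ k) (hx : Bd k a x) (hy : Bd k a y) :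
    Bd k (a + 1) (x + y) := by
  unfold Bd at *
  have h1 : 1 ≤ k ^ a := Nat.one_le_pow _ _ (by omega)
  calc x + y ≤ 2 ^ (k ^ a) + 2 ^ (k ^ a) := Nat.add_le_add hx hy
    _ = 2 ^ (k ^ a + 1) := by ring
    _ ≤ 2 ^ (k ^ (a + 1)) := by
        apply Nat.pow_le_pow_right (by omega)
        have : k ^ a * 3 ≤ k ^ (a + 1) := by
          rw [pow_succ]; exact Nat.mul_le_mul_left _ (by omega)
        omega

theorem Bd.pow {k a b x y : ℕ} (hx : Bd k a x) (hy : y ≤ k ^ b) : Bd k (a + b) (x ^ y) := by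
  unfold Bd at *
  calc x ^ y ≤ (2 ^ (k ^ a)) ^ y := Nat.pow_le_pow_left hx y
    _ = 2 ^ (k ^ a * y) := by rw [← pow_mul]
    _ ≤ 2 ^ (k ^ (a + b)) := by
        apply Nat.pow_le_pow_right (by omega)
        rw [pow_add]; exact Nat.mul_le_mul_left _ hy

theorem XM_le {k : ℕ} (hk : 3 ≤ k) : XM k ≤ k ^ 9 := by
  unfold XM
  have h : 3 ^ 5 ≤ k ^ 5 := Nat.pow_le_pow_left hk 5
  calc 200 * k ^ 4 ≤ k ^ 5 * k ^ 4 := Nat.mul_le_mul_right _ (by omega)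
    _ = k ^ 9 := by ring

theorem XM_bd {k : ℕ} (hk : 3 ≤ k) : Bd k 3 (XM k) := by
  unfold Bd
  have h1 : k ≤ 2 ^ k := (Nat.lt_two_pow_self).le
  calc XM k ≤ k ^ 9 := XM_le hk
    _ ≤ (2 ^ k) ^ 9 := Nat.pow_le_pow_left h1 9
    _ = 2 ^ (9 * k) := by rw [← pow_mul]; ring_nf
    _ ≤ 2 ^ (k ^ 3) := by
        apply Nat.pow_le_pow_right (by omega)
        have h3 : 3 ^ 2 ≤ k ^ 2 := Nat.pow_le_pow_left hk 2
        calc 9 * k ≤ k ^ 2 * k := Nat.mul_le_mul_right _ h3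
          _ = k ^ 3 := by ring

theorem NN_le {k : ℕ} (hk : 3 ≤ k) : NN k ≤ k ^ 12 := by
  unfold NN XM
  have h1 : Nat.totient (k * (k - 1)) ≤ k ^ 2 := (Nat.totient_le _).trans n_le
  have h2 : 3 ^ 6 ≤ k ^ 6 := Nat.pow_le_pow_left hk 6
  have h3 : 1 ≤ k ^ 4 := Nat.one_le_pow _ _ (by omega)
  calc Nat.totient (k * (k - 1)) * (2 * (200 * k ^ 4) + 2)
      ≤ k ^ 2 * (k ^ 6 * k ^ 4) := by
        apply Nat.mul_le_mul h1
        calc 2 * (200 * k ^ 4) + 2 ≤ 729 * k ^ 4 := by omega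
          _ ≤ k ^ 6 * k ^ 4 := Nat.mul_le_mul_right _ (by omega)
    _ = k ^ 12 := by ring

theorem gg_bd {k a M : ℕ} (hk : 3 ≤ k) (ha : 13 ≤ a) (hM : Bd k a M) :
    Bd k (a + 14) (gg k M) := by
  have h1 : Bd k 12 (XM k)! := ((XM_bd hk).pow (XM_le hk)).of_le (Nat.factorial_le_pow _)
  have h2 : Bd k 13 ((XM k)! ^ k) := h1.pow (b := 1) (by rw [pow_one])
  have h3 : Bd k 5 (XM k ^ 5) := (XM_bd hk).pow (b := 2)
    (by have : 3 ^ 2 ≤ k ^ 2 := Nat.pow_le_pow_left hk 2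
        omega)
  have h4 : Bd k 5 100 := bd_lin (by
    have : 3 ^ 5 ≤ k ^ 5 := Nat.pow_le_pow_left hk 5
    omega)
  have h5 : Bd k 6 (100 * XM k ^ 5) := h4.mul hk h3
  have h6 : Bd k (a + 1) ((XM k)! ^ k * M * (100 * XM k ^ 5)) :=
    (h2.mono hk ha).mul3 hk hM (h5.mono hk (by omega))
  have h7 : Bd k (a + 2) (lam k M) := by
    unfold lam
    exact Bd.add hk (bd_lin (Nat.one_le_pow _ _ (by omega))) h6
  exact h7.pow (NN_le hk)

theorem M1_bd {k : ℕ} (hk : 3 ≤ k) : Bd k 28 (M1 k) := by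
  have h1 : Bd k 27 (gg k 1) := gg_bd hk le_rfl (bd_lin (Nat.one_le_pow _ _ (by omega)))
  have h2 : Bd k 2 (k * (k - 1)) := bd_lin n_le
  have h3 : Bd k 2 (k !) := (Bd.pow (a := 1) (b := 1) (bd_lin (by rw [pow_one]))
    (by rw [pow_one])).of_le (Nat.factorial_le_pow _)
  have h4 : Bd k 3 (KK k) := h3.pow (b := 1) (by rw [pow_one])
  exact (h2.mono hk (by omega)).mul3 hk h1 (h4.mono hk (by omega))

theorem v1_bd {k : ℕ} (hk : 3 ≤ k) : Bd k 41 (v1 k) :=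
  (Bd.add hk (bd_lin (Nat.one_le_pow _ _ (by omega))) (M1_bd hk)).pow (NN_le hk)

theorem gs_bd {k : ℕ} (hk : 3 ≤ k) : Bd k 42 (gs k) := by
  unfold gs
  refine Bd.mul hk ((bd_lin (by rw [pow_one])).mono hk (by omega : 1 ≤ 41)) ?_
  exact (v1_bd hk).of_le (by have := v1_eq k; omega)

theorem as_le_gs {k : ℕ} (hk : 3 ≤ k) : as k ≤ gs k := by
  rw [← as_mul hk]
  exact Nat.le_mul_of_pos_left _ (by omega)

theorem as_bd {k : ℕ} (hk : 3 ≤ k) : Bd k 42 (as k) := (gs_bd hk).of_le (as_le_gs hk)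

/-- the lower bound for `u` -/
def V' (k : ℕ) : ℕ := k * (k - 1) * (k + 2) + (k + 2) + k * (k - 1)

theorem V'_bd {k : ℕ} (hk : 3 ≤ k) : Bd k 4 (V' k) := by
  refine bd_lin ?_
  unfold V'
  obtain ⟨r, rfl⟩ : ∃ r, k = r + 3 := ⟨k - 3, by omega⟩
  have e1 : r + 3 - 1 = r + 2 := by omega
  rw [e1]
  nlinarith [Nat.zero_le (r ^ 4), Nat.zero_le (r ^ 3), Nat.zero_le (r ^ 2)]

/-- upper bound for `w` -/
def W (k : ℕ) : ℕ := (V' k + gs k) * gg k (gs k)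

theorem W_bd {k : ℕ} (hk : 3 ≤ k) : Bd k 57 (W k) := by
  unfold W
  refine Bd.mul hk ?_ (gg_bd hk (by omega) (gs_bd hk))
  exact (Bd.add hk ((V'_bd hk).mono hk (by omega)) (gs_bd hk)).mono hk (by omega)

def LL (k : ℕ) : ℕ := 2 ^ (100 * (Nat.log 2 (as k * (100 * k ^ 2) + 1) + 1) ^ 2)

theorem LL_bd {k : ℕ} (hk : 3 ≤ k) : Bd k 92 (LL k) := by
  have h1 : Bd k 7 (100 * k ^ 2) := bd_lin (by
    have : 3 ^ 5 ≤ k ^ 5 := Nat.pow_le_pow_left hk 5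
    calc 100 * k ^ 2 ≤ k ^ 5 * k ^ 2 := Nat.mul_le_mul_right _ (by omega)
      _ = k ^ 7 := by ring)
  have h2 : as k * (100 * k ^ 2) + 1 ≤ 2 ^ (k ^ 43) := by
    have h3 : 100 * k ^ 2 ≤ 2 ^ (k ^ 42) := h1.mono hk (by omega)
    have h4 : as k ≤ 2 ^ (k ^ 42) := as_bd hk
    calc as k * (100 * k ^ 2) + 1 ≤ 2 ^ (k ^ 42) * 2 ^ (k ^ 42) + 1 :=
          Nat.add_le_add_right (Nat.mul_le_mul h4 h3) _
      _ ≤ 2 ^ (k ^ 42 * 2) + 2 ^ (k ^ 42 * 2) := by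
          have : 1 ≤ 2 ^ (k ^ 42 * 2) := Nat.one_le_two_pow
          have e : 2 ^ (k ^ 42) * 2 ^ (k ^ 42) = 2 ^ (k ^ 42 * 2) := by rw [← pow_add]; ring_nf
          omega
      _ = 2 ^ (k ^ 42 * 2 + 1) := by ring
      _ ≤ 2 ^ (k ^ 43) := by
          apply Nat.pow_le_pow_right (by omega)
          have h5 : k ^ 42 * 3 ≤ k ^ 43 := by
            rw [pow_succ k 42]; exact Nat.mul_le_mul_left _ hk
          have h6 : 1 ≤ k ^ 42 := Nat.one_le_pow _ _ (by omega)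
          omega
  have h3 : Nat.log 2 (as k * (100 * k ^ 2) + 1) ≤ k ^ 43 := by
    calc Nat.log 2 (as k * (100 * k ^ 2) + 1) ≤ Nat.log 2 (2 ^ (k ^ 43)) := Nat.log_mono_right h2
      _ = k ^ 43 := Nat.log_pow (by omega) _
  unfold Bd LL
  apply Nat.pow_le_pow_right (by omega)
  have h4 : Nat.log 2 (as k * (100 * k ^ 2) + 1) + 1 ≤ 2 * k ^ 43 := by
    have h6 : 1 ≤ k ^ 43 := Nat.one_le_pow _ _ (by omega)
    omega
  have h5 : 3 ^ 6 ≤ k ^ 6 := Nat.pow_le_pow_left hk 6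
  calc 100 * (Nat.log 2 (as k * (100 * k ^ 2) + 1) + 1) ^ 2
      ≤ 100 * (2 * k ^ 43) ^ 2 := Nat.mul_le_mul_left _ (Nat.pow_le_pow_left h4 2)
    _ = 400 * k ^ 86 := by ring
    _ ≤ k ^ 6 * k ^ 86 := Nat.mul_le_mul_right _ (by omega)
    _ = k ^ 92 := by ring

/-- required size of the cofactor -/
def HH (k : ℕ) : ℕ :=
  (k + 2) * W k + (gs k * (k + 2) + (k - 1)) * ((k + 2) * (1 + as k * (W k + as k * (k + 2) +
      1 + as k * LL k) * LL k + (W k + as k * (k + 2) + 1 + as k * LL k)))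

/-- the threshold -/
def V0 (k : ℕ) : ℕ := W k + gs k * HH k

theorem V0_poly {T k W g a L : ℕ} (hT : 8 ≤ T) (h1 : k + 2 ≤ T) (h2 : W ≤ T) (h3 : g ≤ T)
    (h4 : a ≤ T) (h5 : L ≤ T) :
    W + g * ((k + 2) * W + (g * (k + 2) + (k - 1)) * ((k + 2) * (1 + a * (W + a * (k + 2) +
      1 + a * L) * L + (W + a * (k + 2) + 1 + a * L)))) ≤ T ^ 13 := by
  have hp : ∀ i, 8 * T ^ i ≤ T ^ (i + 1) := by
    intro i; rw [pow_succ, mul_comm]; exact Nat.mul_le_mul_left _ hT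
  have hT1 : ∀ i, 1 ≤ T ^ i := fun i => Nat.one_le_pow _ _ (by omega)
  have e2 : T * T = T ^ 2 := by ring
  have q1 : W + a * (k + 2) + 1 + a * L ≤ T ^ 3 := by
    have i1 : a * (k + 2) ≤ T ^ 2 := by rw [← e2]; exact Nat.mul_le_mul h4 h1
    have i2 : a * L ≤ T ^ 2 := by rw [← e2]; exact Nat.mul_le_mul h4 h5
    have i3 := hp 2
    have i4 := hp 1
    have i5 := hT1 2
    simp only [pow_one] at i4
    norm_num at i3 i4
    omega
  set Q := W + a * (k + 2) + 1 + a * L with hQ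
  have q2 : a * Q * L ≤ T ^ 5 := by
    calc a * Q * L ≤ T * T ^ 3 * T := Nat.mul_le_mul (Nat.mul_le_mul h4 q1) h5
      _ = T ^ 5 := by ring
  have q3 : 1 + a * Q * L + Q ≤ T ^ 6 := by
    have i1 := hp 5
    have i2 := hp 4
    have i3 := hp 3
    have i4 := hT1 5
    norm_num at i1 i2 i3
    omega
  have q4 : (k + 2) * (1 + a * Q * L + Q) ≤ T ^ 7 := by
    calc (k + 2) * (1 + a * Q * L + Q) ≤ T * T ^ 6 := Nat.mul_le_mul h1 q3
      _ = T ^ 7 := by ring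
  have q5 : g * (k + 2) + (k - 1) ≤ T ^ 3 := by
    have i1 : g * (k + 2) ≤ T ^ 2 := by rw [← e2]; exact Nat.mul_le_mul h3 h1
    have i3 := hp 2
    have i4 := hp 1
    simp only [pow_one] at i4
    norm_num at i3 i4
    omega
  have q6 : (g * (k + 2) + (k - 1)) * ((k + 2) * (1 + a * Q * L + Q)) ≤ T ^ 10 := by
    calc _ ≤ T ^ 3 * T ^ 7 := Nat.mul_le_mul q5 q4
      _ = T ^ 10 := by ring
  have q7 : (k + 2) * W + (g * (k + 2) + (k - 1)) * ((k + 2) * (1 + a * Q * L + Q)) ≤ T ^ 11 := by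
    have i1 : (k + 2) * W ≤ T ^ 2 := by rw [← e2]; exact Nat.mul_le_mul h1 h2
    have i2 : T ^ 2 ≤ T ^ 10 := Nat.pow_le_pow_right (by omega) (by omega)
    have i3 := hp 10
    norm_num at i3
    omega
  have q8 : g * ((k + 2) * W + (g * (k + 2) + (k - 1)) * ((k + 2) * (1 + a * Q * L + Q))) ≤
      T ^ 12 := by
    calc _ ≤ T * T ^ 11 := Nat.mul_le_mul h3 q7
      _ = T ^ 12 := by ring
  have i1 : T ^ 1 ≤ T ^ 12 := Nat.pow_le_pow_right (by omega) (by omega)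
  have i3 := hp 12
  norm_num at i3
  rw [pow_one] at i1
  omega

theorem V0_le {k : ℕ} (hk : 3 ≤ k) : V0 k ≤ 2 ^ (k ^ 95) := by
  have h1 : Bd k 92 (k + 2) := bd_lin (by
    have : k ^ 2 ≤ k ^ 92 := Nat.pow_le_pow_right (by omega) (by omega)
    nlinarith)
  have hT : 8 ≤ 2 ^ (k ^ 92) := by
    have : 3 ≤ k ^ 92 := by
      calc 3 ≤ k := hk
        _ = k ^ 1 := (pow_one k).symm
        _ ≤ k ^ 92 := Nat.pow_le_pow_right (by omega) (by omega)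
    calc 8 = 2 ^ 3 := by norm_num
      _ ≤ 2 ^ (k ^ 92) := Nat.pow_le_pow_right (by omega) this
  have h := V0_poly (T := 2 ^ (k ^ 92)) (k := k) (W := W k) (g := gs k) (a := as k) (L := LL k)
    hT h1 ((W_bd hk).mono hk (by omega)) ((gs_bd hk).mono hk (by omega))
    ((as_bd hk).mono hk (by omega)) (LL_bd hk)
  refine (show V0 k ≤ _ from h).trans ?_
  rw [← pow_mul]
  apply Nat.pow_le_pow_right (by omega)
  have h3 : 3 ^ 3 ≤ k ^ 3 := Nat.pow_le_pow_left hk 3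
  calc k ^ 92 * 13 ≤ k ^ 92 * k ^ 3 := Nat.mul_le_mul_left _ (by omega)
    _ = k ^ 95 := by ring

/-- designs with block size `k` exist for all admissible `v ≥ V0 k` -/
theorem exists_of_ge {k v : ℕ} (hk : 3 ≤ k) (hA : Adm k v) (hv : V0 k ≤ v) : IG {k} 1 v 0 := by
  have hgs := gs_pos hk
  have hg0 := gg_pos k (gs k)
  have hW : W k ≤ v := le_trans (Nat.le_add_right _ _) hv
  have hV : V' k ≤ v := by
    refine le_trans ?_ hW
    unfold W
    calc V' k ≤ V' k + gs k := Nat.le_add_right _ _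
      _ ≤ _ := Nat.le_mul_of_pos_right _ hg0
  set u := V' k + (v - V' k) % gs k with hu
  have hu1 : V' k ≤ u := Nat.le_add_right _ _
  have hu2 : u < V' k + gs k := Nat.add_lt_add_left (Nat.mod_lt _ hgs) _
  have hu3 : u ≡ v [MOD gs k] := by
    have h2 := (Nat.mod_modEq (v - V' k) (gs k)).add_left (V' k)
    rwa [show V' k + (v - V' k) = v by omega] at h2
  have hn : k * (k - 1) ∣ gs k := (n_dvd_g1 hk).trans (Nat.dvd_mul_left _ _)
  have hu0 : 1 ≤ u := by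
    have : 1 ≤ V' k := by unfold V'; omega
    omega
  have hAu : Adm k u := adm_of_modEq hu0 hA (hu3.of_dvd hn)
  set w := u * gg k (gs k) with hw
  have hwm : IG {k} 1 w 0 := fam_mem hk hgs hAu hu1
  have hw1 : 1 ≤ w := Nat.mul_pos hu0 hg0
  have hwW : w ≤ W k := Nat.mul_le_mul_right _ hu2.le
  have hwv : w ≡ v [MOD gs k] := by
    have := hu3.mul (gg_modEq k (gs k))
    rwa [mul_one] at this
  have hwA : Adm k w := adm_of_modEq hw1 hA (hwv.of_dvd hn)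
  obtain ⟨η, hη⟩ := (Nat.modEq_iff_dvd' (hwW.trans hW)).1 hwv
  have hη2 : HH k ≤ η := by
    have h1 : gs k * HH k ≤ gs k * η := by
      rw [← hη]
      unfold V0 at hv
      omega
    exact Nat.le_of_mul_le_mul_left h1 hgs
  have hvη : v = gs k * η + w := by omega
  rw [hvη]
  refine assembly (L := LL k) hk hw1 hwA.1 hwm rfl ?_
  calc _ ≤ HH k := by unfold HH; gcongr
    _ ≤ 1 * η := by rw [one_mul]; exact hη2
    _ ≤ (k - 1) * η := Nat.mul_le_mul_right _ (by omega)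

theorem main {k v : ℕ} (hk : 3 ≤ k) (hA : Adm k v) (hv : 2 ^ (k ^ 95) ≤ v) : IG {k} 1 v 0 :=
  exists_of_ge hk hA ((V0_le hk).trans hv)

end H108
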