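import Pool.Agent.H108R2.Final2
import Pool.Agent.H108R2.Bound

namespace H108

open Nat

/-- the compensating factor -/
def KK2 (k : ℕ) : ℕ := ∏ p ∈ (Finset.range (k + 1)).filter Nat.Prime, p ^ Nat.clog p k

def M2 (k L N : ℕ) : ℕ := k * (k - 1) * L ^ N * KK2 k

theorem KK2_pos (k : ℕ) : 0 < KK2 k := by
  unfold KK2
  refine Finset.prod_pos fun p hp => ?_
  exact pow_pos (Finset.mem_filter.1 hp).2.pos _

theorem dvd_KK2 {k p : ℕ} (hp : p.Prime) (hpk : p ≤ k) : p ^ Nat.clog p k ∣ KK2 k := by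
  unfold KK2
  exact Finset.dvd_prod_of_mem (fun p => p ^ Nat.clog p k)
    (Finset.mem_filter.2 ⟨Finset.mem_range.2 (by omega), hp⟩)

theorem prime_dvd_KK2 {k p : ℕ} (hp : p.Prime) (hpk : p ≤ k) : p ∣ KK2 k := by
  refine dvd_trans (dvd_pow_self p ?_) (dvd_KK2 hp hpk)
  have := Nat.clog_pos hp.one_lt (by have := hp.two_le; omega : 2 ≤ k)
  omega

theorem le_of_prime_dvd_KK2 {k p : ℕ} (hp : p.Prime) (h : p ∣ KK2 k) : p ≤ k := by
  unfold KK2 at h
  obtain ⟨q, hq, hpq⟩ := (Prime.dvd_finsetProd_iff hp.prime _).1 h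
  rw [Finset.mem_filter, Finset.mem_range] at hq
  have := (Nat.prime_dvd_prime_iff_eq hp hq.2).1 (hp.dvd_of_dvd_pow hpq)
  omega

theorem M2_pos {k L N : ℕ} (hk : 3 ≤ k) (hL : GoodLN k L N) : 0 < M2 k L N :=
  Nat.mul_pos (Nat.mul_pos (n_pos hk) hL.pos) (KK2_pos k)

theorem M2_P1 {k L N D : ℕ} (hk : 3 ≤ k) (hL : GoodLN k L N) (hD : 0 < D) (h : M2 k L N ∣ D)
    {s : ℕ} (hs : k + 2 ≤ s) : IG {k} D s 0 := by
  obtain ⟨c, rfl⟩ := h
  have hc0 : 0 < c := Nat.pos_of_mul_pos_left hD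
  have hK0 : 0 < KK2 k := KK2_pos k
  have hne : KK2 k * c ≠ 0 := (Nat.mul_pos hK0 hc0).ne'
  have hc : Nice k (KK2 k * c) := by
    refine nice_of_pp (Nat.mul_pos hK0 hc0) fun p hp hpm => ?_
    rcases lt_or_ge p k with hpk | hpk
    · have h2 : p ^ Nat.clog p k ∣ KK2 k * c := (dvd_KK2 hp hpk.le).trans (Nat.dvd_mul_right _ _)
      have h3 : Nat.clog p k ≤ (KK2 k * c).factorization p :=
        (hp.pow_dvd_iff_le_factorization hne).1 h2
      calc k ≤ p ^ Nat.clog p k := Nat.le_pow_clog hp.one_lt k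
        _ ≤ p ^ _ := Nat.pow_le_pow_right hp.pos h3
    · refine hpk.trans ?_
      calc p = p ^ 1 := (pow_one p).symm
        _ ≤ p ^ _ := Nat.pow_le_pow_right hp.pos
          ((hp.dvd_iff_one_le_factorization hne).1 hpm)
  have := fam2_uniform hk hL hc s hs
  unfold M2
  rwa [mul_assoc (k * (k - 1) * L ^ N)]

theorem adm_one {k : ℕ} : Adm k 1 := ⟨by simp, by simp, le_rfl⟩

/-- solve `u * g ≡ v mod G` in an interval -/
theorem solve_mod {g G v : ℕ} (hG : 0 < G) (hc : Nat.Coprime g G) (V : ℕ) :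
    ∃ u, V ≤ u ∧ u < V + G ∧ u * g ≡ v [MOD G] := by
  obtain ⟨c, hc'⟩ : ∃ c, g * c ≡ 1 [MOD G] := by
    rcases Nat.lt_or_ge 1 G with h | h
    · obtain ⟨c, _, h1⟩ := Nat.exists_mul_mod_eq_one_of_coprime hc h
      exact ⟨c, by unfold Nat.ModEq; rw [h1, Nat.mod_eq_of_lt h]⟩
    · have : G = 1 := by omega
      subst this
      exact ⟨0, Nat.modEq_one⟩
  -- target class `r = c v`, take `u = V + (r + G V - V) % G`
  refine ⟨V + (c * v + G * V - V) % G, Nat.le_add_right _ _,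
    Nat.add_lt_add_left (Nat.mod_lt _ hG) _, ?_⟩
  have hle : V ≤ c * v + G * V := by
    have : 1 * V ≤ G * V := Nat.mul_le_mul_right _ hG
    omega
  have h1 : V + (c * v + G * V - V) % G ≡ c * v [MOD G] := by
    have h2 := (Nat.mod_modEq (c * v + G * V - V) G).add_left V
    rw [show V + (c * v + G * V - V) = c * v + G * V by omega] at h2
    refine h2.trans ?_
    have h3 : G * V ≡ 0 [MOD G] := (Nat.modEq_zero_iff_dvd).2 (Nat.dvd_mul_right _ _)
    exact h3.add_left (c * v)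
  calc (V + (c * v + G * V - V) % G) * g ≡ (c * v) * g [MOD G] := h1.mul_right g
    _ = (g * c) * v := by ring
    _ ≡ 1 * v [MOD G] := hc'.mul_right v
    _ = v := one_mul v

theorem base_exists {k N L1 L2 : ℕ} (hk : 3 ≤ k) (h1 : GoodLN k L1 N) (h2 : GoodLN k L2 N)
    (hne : L1 ≠ L2) : ∃ g1 A G, Base k (M2 k L1 N) g1 A G ∧
      g1 + 1 ≤ (V' k + M2 k L1 N) * L2 ^ N ∧ L2 ≤ g1 + 1 := by
  have hM0 := M2_pos hk h1
  have hnM : k * (k - 1) ∣ M2 k L1 N := by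
    unfold M2; rw [mul_assoc]; exact Nat.dvd_mul_right _ _
  have hN0 : N ≠ 0 := by have := h2.exp; omega
  have hcop : Nat.Coprime (L2 ^ N) (M2 k L1 N) := by
    refine Nat.Coprime.pow_left N ((Nat.Prime.coprime_iff_not_dvd h2.prime).2 fun hd => ?_)
    have hk2 := h2.k2_le hk
    unfold M2 at hd
    rcases (h2.prime.dvd_mul).1 hd with hd | hd
    · rcases (h2.prime.dvd_mul).1 hd with hd | hd
      · have h3 := Nat.le_of_dvd (n_pos hk) hd
        have h4 : k * (k - 1) < k ^ 2 := by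
          rw [pow_two]; exact Nat.mul_lt_mul_of_pos_left (by omega) (by omega)
        omega
      · exact hne ((Nat.prime_dvd_prime_iff_eq h2.prime h1.prime).1
          (h2.prime.dvd_of_dvd_pow hd)).symm
    · have h3 := le_of_prime_dvd_KK2 h2.prime hd
      have h4 : k < k ^ 2 := by nlinarith
      omega
  obtain ⟨u, hu1, hu2, hu3⟩ := solve_mod (v := 1) hM0 hcop (V' k)
  have hu0 : 1 ≤ u := by
    have : 1 ≤ V' k := by unfold V'; omega
    omega
  have hun : u ≡ 1 [MOD k * (k - 1)] := by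
    have h3 := hu3.of_dvd hnM
    have h4 := (h2.mod.mul_left u)
    rw [mul_one] at h4
    exact h4.symm.trans h3
  have hAu : Adm k u := adm_of_modEq hu0 adm_one hun
  have hmem : IG {k} 1 (u * L2 ^ N) 0 := fam2_mem hk h2 hAu hu1
  have hpos := h2.pos
  have hbig : 1 < u * L2 ^ N := by
    have h3 : 2 ≤ L2 ^ N := by
      calc 2 ≤ L2 := h2.prime.two_le
        _ = L2 ^ 1 := (pow_one _).symm
        _ ≤ L2 ^ N := Nat.pow_le_pow_right h2.prime.pos (by omega)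
    nlinarith
  obtain ⟨g1, hg1⟩ : ∃ g1, u * L2 ^ N = g1 + 1 := ⟨u * L2 ^ N - 1, by omega⟩
  rw [hg1] at hmem hbig hu3
  have hMd : M2 k L1 N ∣ g1 := by
    have := (Nat.modEq_iff_dvd' (by omega : 1 ≤ g1 + 1)).1 hu3.symm
    simpa using this
  have hnice : Nice k (g1 + 1) := by
    refine nice_of_primes (by omega) fun p hp hpv => ?_
    by_contra hc
    have h3 : p ∣ M2 k L1 N := (prime_dvd_KK2 hp (by omega)).trans (Nat.dvd_mul_left _ _)
    have h4 : p ∣ 1 := (Nat.dvd_add_right (h3.trans hMd)).1 hpv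
    exact hp.one_lt.ne' (Nat.dvd_one.1 h4)
  have hkd : (k - 1) ∣ g1 := (Nat.dvd_mul_left _ _).trans (hnM.trans hMd)
  refine ⟨g1, k * (g1 / (k - 1)), k * g1, ⟨hk, fun D hD hd s hs => M2_P1 hk h1 hD hd hs, hnM,
    by omega, hMd, hmem, hnice, rfl, ?_⟩, ?_, ?_⟩
  · rw [mul_left_comm, Nat.mul_div_cancel' hkd]
  · rw [← hg1]; exact Nat.mul_le_mul_right _ hu2.le
  · rw [← hg1]
    calc L2 = L2 ^ 1 := (pow_one _).symm
      _ ≤ L2 ^ N := Nat.pow_le_pow_right h2.prime.pos (by omega)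
      _ ≤ u * L2 ^ N := Nat.le_mul_of_pos_left _ hu0

/-- the final step -/
theorem final2 {k M g1 A G N L3 Ls v : ℕ} (hB : Base k M g1 A G) (h3 : GoodLN k L3 N)
    (hG : ¬ L3 ∣ G) (hLs : ∀ A' a0 Y : ℕ, 1 ≤ A' →
      (∀ p, p.Prime → p < A * (100 * k ^ 2) + 1 → p ∣ A' → ¬ p ∣ a0) →
      ∃ m, Y ≤ m ∧ m < Y + A' * Ls ∧ m ≡ a0 [MOD A'] ∧
        ∀ p, p.Prime → p < A * (100 * k ^ 2) + 1 → ¬ p ∣ m)
    (hA : Adm k v) {W : ℕ} (hW : W = (V' k + G) * L3 ^ N)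
    (hv : W + G * ((k + 2) * W + (G * (k + 2) + (k - 1)) * ((k + 2) * (1 + A * (W + A * (k + 2) +
      1 + A * Ls) * Ls + (W + A * (k + 2) + 1 + A * Ls)))) ≤ v) : IG {k} 1 v 0 := by
  have hk := hB.hk
  have hG0 := hB.G_pos
  have hcop : Nat.Coprime (L3 ^ N) G :=
    Nat.Coprime.pow_left N ((Nat.Prime.coprime_iff_not_dvd h3.prime).2 hG)
  obtain ⟨u, hu1, hu2, hu3⟩ := solve_mod (v := v) hG0 hcop (V' k)
  have hu0 : 1 ≤ u := by
    have : 1 ≤ V' k := by unfold V'; omega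
    omega
  have hun : u ≡ v [MOD k * (k - 1)] := by
    have h4 := hu3.of_dvd hB.n_dvd_G
    have h5 := (h3.mod.mul_left u)
    rw [mul_one] at h5
    exact h5.symm.trans h4
  have hAu : Adm k u := adm_of_modEq hu0 hA hun
  set w := u * L3 ^ N with hw
  have hwm : IG {k} 1 w 0 := fam2_mem hk h3 hAu hu1
  have hw1 : 1 ≤ w := Nat.mul_pos hu0 h3.pos
  have hwW : w ≤ W := by rw [hW]; exact Nat.mul_le_mul_right _ hu2.le
  have hwA : Adm k w := adm_of_modEq hw1 hA (hu3.of_dvd hB.n_dvd_G)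
  have hWv : W ≤ v := (Nat.le_add_right _ _).trans hv
  obtain ⟨η, hη⟩ := (Nat.modEq_iff_dvd' (hwW.trans hWv)).1 hu3
  set H := ((k + 2) * W + (G * (k + 2) + (k - 1)) * ((k + 2) * (1 + A * (W + A * (k + 2) +
      1 + A * Ls) * Ls + (W + A * (k + 2) + 1 + A * Ls)))) with hH
  have hη2 : H ≤ η := by
    have h1 : G * H ≤ G * η := by
      rw [← hη]
      omega
    exact Nat.le_of_mul_le_mul_left h1 hG0
  have hvη : v = G * η + w := by omega
  rw [hvη]
  refine hB.assembly (Ls := Ls) hw1 hwA.1 hwm hLs ?_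
  calc _ ≤ H := by rw [hH]; gcongr
    _ ≤ 1 * η := by rw [one_mul]; exact hη2
    _ ≤ (k - 1) * η := Nat.mul_le_mul_right _ (by omega)

end H108
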