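import Mathlib

/-!
# V: a cheap Brun pure sieve in arithmetic progressions
-/

open Finset

namespace H108

namespace SieveAux

/-- the truncated Möbius weight -/
noncomputable def g (R n : ℕ) : ℝ := if n ≤ R then (-1 : ℝ) ^ n else 0

/-- Bonferroni inequality for an odd level -/
theorem bonf (S : Finset ℕ) {R : ℕ} (hR : Odd R) :
    ∑ D ∈ S.powerset, g R D.card ≤ if S = ∅ then 1 else 0 := by
  rw [sum_powerset_apply_card (g R)]
  have h1 : ∑ m ∈ range (#S + 1), (#S).choose m • g R m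
      = ∑ m ∈ range (#S + R + 1), (#S).choose m • g R m := by
    refine sum_subset (range_subset_range.2 (by omega)) fun m _ hm => ?_
    rw [Nat.choose_eq_zero_of_lt (by simpa using hm), zero_smul]
  have h2 : ∑ m ∈ range (R + 1), (#S).choose m • g R m
      = ∑ m ∈ range (#S + R + 1), (#S).choose m • g R m := by
    refine sum_subset (range_subset_range.2 (by omega)) fun m _ hm => ?_
    rw [g, if_neg (by simpa using hm), smul_zero]
  rw [h1, ← h2]
  have h3 : ∑ m ∈ range (R + 1), (#S).choose m • g R m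
      = ((∑ m ∈ range (R + 1), ((-1) ^ m * (#S).choose m : ℤ) : ℤ) : ℝ) := by
    push_cast
    refine sum_congr rfl fun m hm => ?_
    rw [g, if_pos (by simpa [Nat.lt_succ_iff] using hm)]
    simp [mul_comm]
  rw [h3]
  rcases Nat.eq_zero_or_pos (#S) with h | h
  · rw [if_pos (card_eq_zero.1 h), h]
    have : (∑ m ∈ range (R + 1), ((-1) ^ m * (Nat.choose 0 m) : ℤ)) = 1 := by
      rw [sum_range_succ']
      simp
    rw [this]; norm_num
  · obtain ⟨n, hn⟩ := Nat.exists_eq_succ_of_ne_zero h.ne'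
    rw [if_neg (by rintro rfl; simp at h), hn]
    have := @Int.alternating_sum_range_choose_eq_choose n R
    rw [Nat.succ_eq_add_one, this, hR.neg_one_pow]
    push_cast
    have : (0 : ℝ) ≤ (n.choose R : ℝ) := Nat.cast_nonneg _
    linarith

/-- counting a residue class in an interval -/
theorem count_dvd {d A m0 L : ℕ} (hd : 0 < d) (hc : d.Coprime A) :
    |((#{j ∈ range L | d ∣ m0 + A * j} : ℕ) : ℝ) - L / d| ≤ 1 := by
  have : NeZero d := ⟨hd.ne'⟩
  obtain ⟨v, hv⟩ : ∃ v : ℕ, d ∣ m0 + A * v := by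
    let u := ZMod.unitOfCoprime A hc.symm
    refine ⟨(-(m0 : ZMod d) * (u⁻¹ : (ZMod d)ˣ)).val, ?_⟩
    rw [← ZMod.natCast_eq_zero_iff]
    push_cast
    rw [ZMod.natCast_val, ZMod.cast_id']
    have hu : (A : ZMod d) = (u : ZMod d) := (ZMod.coe_unitOfCoprime A hc.symm).symm
    rw [hu, id, mul_comm, mul_assoc, Units.inv_mul]
    simp
  have hset : ({j ∈ range L | d ∣ m0 + A * j} : Finset ℕ)
      = {j ∈ range L | j ≡ v [MOD d]} := by
    refine filter_congr fun j _ => ?_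
    constructor
    · intro h
      have h1 : m0 + A * j ≡ m0 + A * v [MOD d] :=
        ((Nat.modEq_zero_iff_dvd).2 h).trans ((Nat.modEq_zero_iff_dvd).2 hv).symm
      have h2 : A * j ≡ A * v [MOD d] := Nat.ModEq.add_left_cancel' m0 h1
      exact Nat.ModEq.cancel_left_of_coprime hc h2
    · intro h
      have h1 : m0 + A * j ≡ m0 + A * v [MOD d] := (h.mul_left A).add_left m0
      exact (Nat.modEq_zero_iff_dvd).1 (h1.trans ((Nat.modEq_zero_iff_dvd).2 hv))
  rw [hset, ← Nat.count_eq_card_filter_range, Nat.count_modEq_card L hd v]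
  have hdR : (0 : ℝ) < d := by exact_mod_cast hd
  have hq : (L : ℝ) / d = (L / d : ℕ) + ((L % d : ℕ) : ℝ) / d := by
    have : (L : ℝ) = d * (L / d : ℕ) + (L % d : ℕ) := by exact_mod_cast (Nat.div_add_mod L d).symm
    field_simp
    linarith
  have hr0 : (0 : ℝ) ≤ ((L % d : ℕ) : ℝ) / d := by positivity
  have hr1 : ((L % d : ℕ) : ℝ) / d ≤ 1 := by
    rw [div_le_one hdR]
    exact_mod_cast (Nat.mod_lt L hd).le
  rw [hq]
  push_cast
  split_ifs <;> rw [abs_le] <;> constructor <;> norm_num <;> linarith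

/-- telescoping products over `2 ≤ m < z` -/
theorem prod_sub (z : ℕ) (hz : 2 ≤ z) :
    ∏ m ∈ Ico 2 z, (1 - 1 / (m : ℝ)) = 1 / ((z : ℝ) - 1) := by
  induction z, hz using Nat.le_induction with
  | base => norm_num
  | succ z hz ih =>
    rw [prod_Ico_succ_top hz, ih]
    have h1 : (2 : ℝ) ≤ z := by exact_mod_cast hz
    have h2 : (z : ℝ) - 1 ≠ 0 := by linarith
    have h3 : (z : ℝ) ≠ 0 := by linarith
    push_cast
    rw [add_sub_cancel_right]
    field_simp

theorem prod_add' (z : ℕ) (hz : 2 ≤ z) :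
    ∏ m ∈ Ico 2 z, (1 + 1 / (m : ℝ)) = (z : ℝ) / 2 := by
  induction z, hz using Nat.le_induction with
  | base => norm_num
  | succ z hz ih =>
    rw [prod_Ico_succ_top hz, ih]
    have h1 : (2 : ℝ) ≤ z := by exact_mod_cast hz
    have h3 : (z : ℝ) ≠ 0 := by linarith
    push_cast
    field_simp

/-- the main term -/
theorem main_term {z R : ℕ} (hz : 2 ≤ z) {P : Finset ℕ} (hP : ∀ p ∈ P, 2 ≤ p ∧ p < z)
    (hR : (z : ℝ) ^ 8 ≤ 4 ^ (R + 1)) :
    1 / (2 * (z : ℝ)) ≤ ∑ D ∈ P.powerset, g R D.card * (1 / ((∏ p ∈ D, p : ℕ) : ℝ)) := by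
  have hzR : (2 : ℝ) ≤ z := by exact_mod_cast hz
  have hfull : ∏ p ∈ P, (1 + -(1 / (p : ℝ)))
      = ∑ D ∈ P.powerset, (-1 : ℝ) ^ D.card * (1 / ((∏ p ∈ D, p : ℕ) : ℝ)) := by
    rw [prod_one_add]
    refine sum_congr rfl fun D _ => ?_
    rw [prod_neg, prod_div_distrib, prod_const_one]
    push_cast
    ring
  have htail : ∀ D ∈ P.powerset, (-1 : ℝ) ^ D.card * (1 / ((∏ p ∈ D, p : ℕ) : ℝ))
      - (1 / 4 ^ (R + 1)) * ∏ p ∈ D, (4 / (p : ℝ)) ≤ g R D.card * (1 / ((∏ p ∈ D, p : ℕ) : ℝ)) := by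
    intro D hD
    have hpp : (0 : ℝ) < ((∏ p ∈ D, p : ℕ) : ℝ) := by
      have : 0 < ∏ p ∈ D, p := prod_pos fun p hp => by
        have := (hP p (mem_powerset.1 hD hp)).1
        omega
      exact_mod_cast this
    have hprod : ∏ p ∈ D, (4 / (p : ℝ)) = 4 ^ D.card * (1 / ((∏ p ∈ D, p : ℕ) : ℝ)) := by
      rw [prod_div_distrib, prod_const]; push_cast; ring
    have hu : (0 : ℝ) < 1 / ((∏ p ∈ D, p : ℕ) : ℝ) := by positivity
    rw [hprod]
    generalize 1 / ((∏ p ∈ D, p : ℕ) : ℝ) = u at hu ⊢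
    rw [g]
    split_ifs with hc
    · have : (0 : ℝ) ≤ 1 / 4 ^ (R + 1) * (4 ^ D.card * u) := by
        positivity
      linarith
    · rw [zero_mul]
      have h1 : (1 : ℝ) ≤ 1 / 4 ^ (R + 1) * 4 ^ D.card := by
        rw [one_div, ← div_eq_inv_mul, one_le_div (by positivity)]
        exact pow_le_pow_right₀ (by norm_num) (by omega)
      have h2 : (-1 : ℝ) ^ D.card ≤ 1 := by
        rcases neg_one_pow_eq_or ℝ D.card with h | h <;> rw [h] <;> norm_num
      have h3 := mul_le_mul_of_nonneg_right (h2.trans h1) hu.le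
      rw [mul_assoc] at h3
      linarith
  have hsum := sum_le_sum htail
  rw [sum_sub_distrib, ← hfull, ← mul_sum, ← prod_one_add] at hsum
  refine le_trans ?_ hsum
  have hsub : P ⊆ Ico 2 z := fun p hp => mem_Ico.2 (hP p hp)
  have hm1 : 1 / ((z : ℝ) - 1) ≤ ∏ p ∈ P, (1 + -(1 / (p : ℝ))) := by
    rw [← prod_sub z hz]
    have h1 : ∏ p ∈ P, (1 + -(1 / (p : ℝ))) = ∏ p ∈ P, (1 - 1 / (p : ℝ)) :=
      prod_congr rfl fun p _ => by ring
    rw [h1]
    refine prod_le_prod_of_subset_of_le_one hsub (fun m hm => ?_) (fun m hm _ => ?_)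
    · have h2 : (2 : ℝ) ≤ m := by exact_mod_cast (mem_Ico.1 hm).1
      have : 1 / (m : ℝ) ≤ 1 := by
        rw [div_le_one (by linarith)]; linarith
      linarith
    · have : (0 : ℝ) ≤ 1 / (m : ℝ) := by positivity
      linarith
  have hm2 : ∏ p ∈ P, (1 + 4 / (p : ℝ)) ≤ (z : ℝ) ^ 4 / 16 := by
    calc ∏ p ∈ P, (1 + 4 / (p : ℝ)) ≤ ∏ p ∈ P, (1 + 1 / (p : ℝ)) ^ 4 := by
          refine prod_le_prod (fun p _ => by positivity) fun p _ => ?_
          have h0 : (0 : ℝ) ≤ 1 / (p : ℝ) := by positivity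
          have := one_add_mul_le_pow (a := 1 / (p : ℝ)) (by linarith) 4
          refine le_trans (le_of_eq ?_) this
          push_cast; ring
      _ ≤ ∏ m ∈ Ico 2 z, (1 + 1 / (m : ℝ)) ^ 4 := by
          refine prod_le_prod_of_subset_of_one_le hsub (fun m _ => by positivity)
            (fun m _ _ => ?_)
          have : (0 : ℝ) ≤ 1 / (m : ℝ) := by positivity
          exact one_le_pow₀ (by linarith)
      _ = (z : ℝ) ^ 4 / 16 := by
          rw [prod_pow, prod_add' z hz]; ring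
  have hz0 : (0 : ℝ) < z := by linarith
  have hm4 : 1 / 4 ^ (R + 1) * ∏ p ∈ P, (1 + 4 / (p : ℝ)) ≤ 1 / (2 * (z : ℝ)) := by
    calc 1 / 4 ^ (R + 1) * ∏ p ∈ P, (1 + 4 / (p : ℝ))
        ≤ 1 / (z : ℝ) ^ 8 * ((z : ℝ) ^ 4 / 16) := by
          refine mul_le_mul ?_ hm2 (prod_nonneg fun p _ => by positivity) (by positivity)
          exact one_div_le_one_div_of_le (by positivity) hR
      _ = 1 / (16 * (z : ℝ) ^ 4) := by
          field_simp
      _ ≤ 1 / (2 * (z : ℝ)) := by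
          refine one_div_le_one_div_of_le (by positivity) ?_
          have h1 : (1 : ℝ) ≤ (z : ℝ) ^ 3 := one_le_pow₀ (by linarith)
          have : (z : ℝ) ^ 4 = z * z ^ 3 := by ring
          rw [this]
          nlinarith
  have hm5 : 1 / (z : ℝ) ≤ 1 / ((z : ℝ) - 1) :=
    one_div_le_one_div_of_le (by linarith) (by linarith)
  have hm6 : 1 / (z : ℝ) = 1 / (2 * (z : ℝ)) + 1 / (2 * (z : ℝ)) := by
    field_simp; norm_num
  linarith

/-- the error term -/
theorem error_term {z R : ℕ} (hz : 2 ≤ z) {P : Finset ℕ} (hPz : #P ≤ z) :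
    ∑ D ∈ P.powerset, |g R D.card| ≤ (R + 1) * (z : ℝ) ^ R := by
  rw [sum_powerset_apply_card (fun m => |g R m|)]
  have h1 : ∑ m ∈ range (#P + 1), (#P).choose m • |g R m|
      ≤ ∑ m ∈ range (#P + R + 1), (#P).choose m • |g R m| := by
    refine sum_le_sum_of_subset_of_nonneg (range_subset_range.2 (by omega)) fun m _ _ => ?_
    positivity
  have h2 : ∑ m ∈ range (R + 1), (#P).choose m • |g R m|
      = ∑ m ∈ range (#P + R + 1), (#P).choose m • |g R m| := by
    refine sum_subset (range_subset_range.2 (by omega)) fun m _ hm => ?_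
    rw [g, if_neg (by simpa using hm), abs_zero, smul_zero]
  refine h1.trans (h2.symm.le.trans ?_)
  calc ∑ m ∈ range (R + 1), (#P).choose m • |g R m|
      ≤ ∑ m ∈ range (R + 1), (z : ℝ) ^ R := by
        refine sum_le_sum fun m hm => ?_
        have hm' : m ≤ R := by simpa [Nat.lt_succ_iff] using hm
        rw [g, if_pos hm', abs_pow, abs_neg, abs_one, one_pow, nsmul_eq_mul, mul_one]
        have : (#P).choose m ≤ z ^ R :=
          ((Nat.choose_le_pow _ _).trans (Nat.pow_le_pow_left hPz m)).trans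
            (Nat.pow_le_pow_right (by omega) hm')
        exact_mod_cast this
    _ = (R + 1) * (z : ℝ) ^ R := by simp

/-- the sieve with general parameters -/
theorem core {z A m0 L R : ℕ} (hz : 2 ≤ z) (hRodd : Odd R)
    (hR : (z : ℝ) ^ 8 ≤ 4 ^ (R + 1)) (hL : (R + 1) * z ^ R * (2 * z) < L) :
    ∃ j < L, ∀ p, p.Prime → p < z → ¬ p ∣ A → ¬ p ∣ m0 + A * j := by
  classical
  obtain ⟨P, hPmem⟩ : ∃ P : Finset ℕ, ∀ p, p ∈ P ↔ p < z ∧ p.Prime ∧ ¬ p ∣ A :=
    ⟨(range z).filter (fun p => p.Prime ∧ ¬ p ∣ A), fun p => by simp⟩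
  by_contra hcon
  push Not at hcon
  have hzR : (2 : ℝ) ≤ z := by exact_mod_cast hz
  have hPz : #P ≤ z := by
    have : P ⊆ range z := fun p hp => mem_range.2 ((hPmem p).1 hp).1
    simpa using card_le_card this
  -- step 1: the Bonferroni sum is nonpositive
  have s1 : ∑ j ∈ range L, ∑ D ∈ (P.filter (fun p => p ∣ m0 + A * j)).powerset, g R D.card ≤ 0 := by
    refine sum_nonpos fun j hj => ?_
    have hb := bonf (P.filter (fun p => p ∣ m0 + A * j)) hRodd
    obtain ⟨p, hp, hpz, hpA, hpd⟩ := hcon j (mem_range.1 hj)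
    rw [if_neg (nonempty_iff_ne_empty.1 ⟨p, mem_filter.2 ⟨(hPmem p).2 ⟨hpz, hp, hpA⟩, hpd⟩⟩)] at hb
    exact hb
  -- step 2: exchange of summation
  have s2 : ∑ j ∈ range L, ∑ D ∈ (P.filter (fun p => p ∣ m0 + A * j)).powerset, g R D.card
      = ∑ D ∈ P.powerset, g R D.card * (#{j ∈ range L | (∏ p ∈ D, p) ∣ m0 + A * j} : ℕ) := by
    have e1 : ∀ j ∈ range L, ∑ D ∈ (P.filter (fun p => p ∣ m0 + A * j)).powerset, g R D.card
        = ∑ D ∈ P.powerset, if (∏ p ∈ D, p) ∣ m0 + A * j then g R D.card else 0 := by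
      intro j _
      rw [← sum_filter]
      refine sum_congr ?_ fun _ _ => rfl
      ext D
      simp only [mem_powerset, mem_filter]
      constructor
      · intro hD
        refine ⟨hD.trans (filter_subset _ _), ?_⟩
        refine Finset.prod_primes_dvd _ (fun p hp => ?_) (fun p hp => ?_)
        · exact (((hPmem p).1 (mem_filter.1 (hD hp)).1).2.1).prime
        · exact (mem_filter.1 (hD hp)).2
      · rintro ⟨hD, hdvd⟩ p hp
        exact mem_filter.2 ⟨hD hp, (dvd_prod_of_mem _ hp).trans hdvd⟩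
    rw [sum_congr rfl e1, sum_comm]
    refine sum_congr rfl fun D _ => ?_
    rw [← sum_filter, sum_const, nsmul_eq_mul, mul_comm]
  -- step 3: replace counts by `L / ∏ D`
  have hprodpos : ∀ D ∈ P.powerset, 0 < ∏ p ∈ D, p := by
    intro D hD
    refine prod_pos fun p hp => ?_
    exact ((hPmem p).1 (mem_powerset.1 hD hp)).2.1.pos
  have s3 : ∑ D ∈ P.powerset, g R D.card * (L / ((∏ p ∈ D, p : ℕ) : ℝ))
      - ∑ D ∈ P.powerset, |g R D.card|
      ≤ ∑ D ∈ P.powerset, g R D.card * (#{j ∈ range L | (∏ p ∈ D, p) ∣ m0 + A * j} : ℕ) := by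
    rw [← sum_sub_distrib]
    refine sum_le_sum fun D hD => ?_
    have hcop : (∏ p ∈ D, p).Coprime A := by
      refine Nat.Coprime.prod_left fun p hp => ?_
      have := (hPmem p).1 (mem_powerset.1 hD hp)
      exact (Nat.Prime.coprime_iff_not_dvd this.2.1).2 this.2.2
    have hcnt := count_dvd (m0 := m0) (L := L) (hprodpos D hD) hcop
    generalize ((#{j ∈ range L | (∏ p ∈ D, p) ∣ m0 + A * j} : ℕ) : ℝ) = c at hcnt ⊢
    generalize (L : ℝ) / ((∏ p ∈ D, p : ℕ) : ℝ) = e at hcnt ⊢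
    have h5 : |g R D.card * (c - e)| ≤ |g R D.card| := by
      rw [abs_mul]
      calc |g R D.card| * _ ≤ |g R D.card| * 1 := mul_le_mul_of_nonneg_left hcnt (abs_nonneg _)
        _ = |g R D.card| := mul_one _
    have h6 := (abs_le.1 h5).1
    rw [mul_sub] at h6
    linarith
  have s4 := main_term (R := R) hz (P := P) (fun p hp =>
    ⟨((hPmem p).1 hp).2.1.two_le, ((hPmem p).1 hp).1⟩) hR
  have s5 := error_term (R := R) hz hPz
  have hLpos : (0 : ℝ) < L := by
    have : 0 < L := lt_of_le_of_lt (Nat.zero_le _) hL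
    exact_mod_cast this
  have s6 : (R + 1) * (z : ℝ) ^ R < L * (1 / (2 * (z : ℝ))) := by
    have hz0 : (0 : ℝ) < z := by linarith
    rw [mul_one_div, lt_div_iff₀ (by positivity)]
    exact_mod_cast hL
  have s7 : ∑ D ∈ P.powerset, g R D.card * (L / ((∏ p ∈ D, p : ℕ) : ℝ))
      = L * ∑ D ∈ P.powerset, g R D.card * (1 / ((∏ p ∈ D, p : ℕ) : ℝ)) := by
    rw [mul_sum]
    refine sum_congr rfl fun D _ => by ring
  have s8 := mul_le_mul_of_nonneg_left s4 hLpos.le
  rw [s2] at s1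
  rw [s7] at s3
  linarith

end SieveAux

open SieveAux

theorem sieve {z A a0 Y : ℕ} (hz : 2 ≤ z) (hA : 1 ≤ A)
    (h : ∀ p, p.Prime → p < z → p ∣ A → ¬ p ∣ a0) :
    ∃ m, Y ≤ m ∧ m < Y + A * 2 ^ (100 * (Nat.log 2 z + 1) ^ 2) ∧ m ≡ a0 [MOD A] ∧
      ∀ p, p.Prime → p < z → ¬ p ∣ m := by
  obtain ⟨l, hl⟩ : ∃ l, l = Nat.log 2 z + 1 := ⟨_, rfl⟩
  have hl2 : 2 ≤ l := by
    have : 1 ≤ Nat.log 2 z := Nat.log_pos (by norm_num) hz
    omega
  have hzl : z < 2 ^ l := by
    rw [hl]; exact Nat.lt_pow_succ_log_self (by norm_num) z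
  rw [← hl]
  -- the starting point
  obtain ⟨m0, hm0Y, hm0A, hm0⟩ : ∃ m0, Y ≤ m0 ∧ m0 < Y + A ∧ m0 ≡ a0 [MOD A] := by
    have : NeZero A := ⟨by omega⟩
    refine ⟨Y + ((a0 : ZMod A) - (Y : ZMod A)).val, Nat.le_add_right _ _,
      Nat.add_lt_add_left (ZMod.val_lt _) _, ?_⟩
    rw [← ZMod.natCast_eq_natCast_iff]
    push_cast
    rw [ZMod.natCast_val, ZMod.cast_id']
    simp
  obtain ⟨R, hR⟩ : ∃ R, R + 1 = 4 * l := ⟨4 * l - 1, by omega⟩
  have hRodd : Odd R := ⟨2 * l - 1, by omega⟩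
  have hz8 : (z : ℝ) ^ 8 ≤ 4 ^ (R + 1) := by
    have h1 : z ^ 8 ≤ 4 ^ (R + 1) := by
      rw [hR, show (4 : ℕ) = 2 ^ 2 by norm_num, ← pow_mul]
      calc z ^ 8 ≤ (2 ^ l) ^ 8 := Nat.pow_le_pow_left hzl.le 8
        _ = 2 ^ (2 * (2 ^ 2 * l)) := by rw [← pow_mul]; congr 1; ring
    exact_mod_cast h1
  have hLbig : (R + 1) * z ^ R * (2 * z) < 2 ^ (100 * l ^ 2) := by
    have e : (R + 1) * z ^ R * (2 * z) = 8 * l * z ^ (4 * l) := by
      rw [← hR, pow_succ]
      have : 8 * l = 2 * (R + 1) := by omega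
      rw [this]; ring
    rw [e]
    have h2 : z ^ (4 * l) ≤ 2 ^ (l * (4 * l)) := by
      rw [pow_mul 2 l]; exact Nat.pow_le_pow_left hzl.le _
    have h3 : l < 2 ^ l := Nat.lt_two_pow_self
    calc 8 * l * z ^ (4 * l) < 8 * 2 ^ l * 2 ^ (l * (4 * l)) := by
          refine Nat.mul_lt_mul_of_lt_of_le (by omega) h2 (by positivity)
      _ = 2 ^ (3 + l + l * (4 * l)) := by rw [pow_add, pow_add]; norm_num
      _ ≤ 2 ^ (100 * l ^ 2) := by
          refine Nat.pow_le_pow_right (by norm_num) ?_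
          nlinarith
  generalize 2 ^ (100 * l ^ 2) = L at hLbig ⊢
  obtain ⟨j, hjL, hj⟩ := core (A := A) (m0 := m0) hz hRodd hz8 hLbig
  refine ⟨m0 + A * j, by omega, ?_, ?_, ?_⟩
  · have : A * j + A ≤ A * L := by
      rw [← Nat.mul_succ]; exact Nat.mul_le_mul_left _ hjL
    omega
  · have h1 : m0 + A * j ≡ m0 + 0 [MOD A] := by
      refine Nat.ModEq.add_left _ ?_
      exact (Nat.modEq_zero_iff_dvd).2 (dvd_mul_right _ _)
    exact h1.trans (by simpa using hm0)
  · intro p hp hpz hpm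
    by_cases hpA : p ∣ A
    · refine h p hp hpz hpA ?_
      have h1 : p ∣ m0 := (Nat.dvd_add_left (hpA.mul_right j)).1 hpm
      exact (Nat.ModEq.dvd_iff hm0 hpA).1 h1
    · exact hj p hp hpz hpA hpm

end H108
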