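import Pool.Agent.H108R2.Family
import Pool.Agent.H108R2.Sieve

namespace H108

open Nat

theorem nice_of_primes {N m : ℕ} (hm : 0 < m) (h : ∀ p, p.Prime → p ∣ m → N ≤ p) : Nice N m := by
  refine nice_of_pp hm fun p hp hpm => (h p hp hpm).trans ?_
  calc p = p ^ 1 := (pow_one p).symm
    _ ≤ p ^ m.factorization p :=
      Nat.pow_le_pow_right hp.pos ((hp.dvd_iff_one_le_factorization hm.ne').1 hpm)

def KK (k : ℕ) : ℕ := (k !) ^ k
def M1 (k : ℕ) : ℕ := k * (k - 1) * gg k 1 * KK k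
def v1 (k : ℕ) : ℕ := (1 + M1 k) ^ NN k
def g1 (k : ℕ) : ℕ := v1 k - 1
def gs (k : ℕ) : ℕ := k * g1 k
def as (k : ℕ) : ℕ := k * (g1 k / (k - 1))

theorem M1_pos {k : ℕ} (hk : 3 ≤ k) : 0 < M1 k :=
  Nat.mul_pos (Nat.mul_pos (n_pos hk) (gg_pos k 1)) (pow_pos (Nat.factorial_pos k) k)

theorem v1_eq (k : ℕ) : g1 k + 1 = v1 k := by
  unfold g1
  have : 0 < v1 k := pow_pos (by omega) _
  omega

theorem M1_dvd_g1 {k : ℕ} (_hk : 3 ≤ k) : M1 k ∣ g1 k := by
  have h : 1 + M1 k ≡ 1 [MOD M1 k] := by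
    have : M1 k ≡ 0 [MOD M1 k] := (Nat.modEq_zero_iff_dvd).2 dvd_rfl
    exact this.add_left 1
  have h2 := h.pow (NN k)
  rw [one_pow] at h2
  unfold g1 v1
  exact (Nat.modEq_iff_dvd' (Nat.one_le_pow _ _ (by omega))).1 h2.symm

theorem g1_pos {k : ℕ} (hk : 3 ≤ k) : 0 < g1 k := by
  have h1 : 1 < v1 k := Nat.one_lt_pow (by have := NN_ge hk; omega) (by have := M1_pos hk; omega)
  have := v1_eq k
  omega

theorem gs_pos {k : ℕ} (hk : 3 ≤ k) : 0 < gs k := Nat.mul_pos (by omega) (g1_pos hk)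

theorem n_dvd_M1 (k : ℕ) : k * (k - 1) ∣ M1 k := by
  unfold M1; rw [mul_assoc]; exact Nat.dvd_mul_right _ _

theorem n_dvd_g1 {k : ℕ} (hk : 3 ≤ k) : k * (k - 1) ∣ g1 k := (n_dvd_M1 k).trans (M1_dvd_g1 hk)

theorem as_mul {k : ℕ} (hk : 3 ≤ k) : (k - 1) * as k = gs k := by
  have h : (k - 1) ∣ g1 k := (Nat.dvd_mul_left _ _).trans (n_dvd_g1 hk)
  unfold as gs
  rw [mul_left_comm, Nat.mul_div_cancel' h]

theorem as_pos {k : ℕ} (hk : 3 ≤ k) : 0 < as k := by
  have h := as_mul hk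
  have h2 := gs_pos hk
  rcases Nat.eq_zero_or_pos (as k) with h0 | h0
  · rw [h0] at h; omega
  · exact h0

theorem k_le_as {k : ℕ} (hk : 3 ≤ k) : k ≤ as k := by
  have h := as_pos hk
  unfold as at h ⊢
  exact Nat.le_mul_of_pos_right _ (Nat.pos_of_mul_pos_left h)

/-- P1 -/
theorem P1 {k G : ℕ} (hk : 3 ≤ k) (hG : 0 < G) (h : M1 k ∣ G) {s : ℕ} (hs : k + 2 ≤ s) :
    IG {k} G s 0 := by
  obtain ⟨c, rfl⟩ := h
  have hc0 : 0 < c := Nat.pos_of_mul_pos_left hG
  have hK0 : 0 < KK k := pow_pos (Nat.factorial_pos k) k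
  have hc : Nice k (KK k * c) := by
    refine nice_of_pp (Nat.mul_pos hK0 hc0) fun p hp hpm => ?_
    rcases lt_or_ge p k with hpk | hpk
    · -- small prime
      have h1 : p ^ k ∣ KK k := pow_dvd_pow_of_dvd ((hp.dvd_factorial).2 hpk.le) k
      have h2 : p ^ k ∣ KK k * c := h1.trans (Nat.dvd_mul_right _ _)
      have h3 : k ≤ (KK k * c).factorization p :=
        (hp.pow_dvd_iff_le_factorization (Nat.mul_pos hK0 hc0).ne').1 h2
      calc k ≤ 2 ^ k := (Nat.lt_two_pow_self).le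
        _ ≤ p ^ k := Nat.pow_le_pow_left hp.two_le k
        _ ≤ p ^ _ := Nat.pow_le_pow_right hp.pos h3
    · refine hpk.trans ?_
      calc p = p ^ 1 := (pow_one p).symm
        _ ≤ p ^ _ := Nat.pow_le_pow_right hp.pos
          ((hp.dvd_iff_one_le_factorization (Nat.mul_pos hK0 hc0).ne').1 hpm)
  have := fam_uniform (k := k) (M := 1) hk one_pos hc s hs
  unfold M1
  rwa [mul_assoc (k * (k - 1) * gg k 1)]

theorem v1_mem {k : ℕ} (hk : 3 ≤ k) : IG {k} 1 (v1 k) 0 := by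
  refine pow_mem hk (totient_dvd_NN k) (NN_big hk) (by omega) ?_
  obtain ⟨c, hc⟩ := n_dvd_M1 k
  rw [hc, add_comm, mul_comm (k * (k - 1)) c]
  exact (Nat.coprime_mul_right_add_left _ _ _).2 (Nat.coprime_one_left _)

theorem v1_nice {k : ℕ} (hk : 3 ≤ k) : Nice k (v1 k) := by
  refine nice_of_primes (pow_pos (by omega) _) fun p hp hpv => ?_
  by_contra hc
  have h1 : p ∣ 1 + M1 k := hp.dvd_of_dvd_pow hpv
  have h2 : p ∣ M1 k := by
    have : p ∣ KK k := dvd_pow ((hp.dvd_factorial).2 (by omega)) (by omega)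
    exact this.trans (Nat.dvd_mul_left _ _)
  have h3 : p ∣ 1 := (Nat.dvd_add_left h2).1 h1
  exact hp.one_lt.ne' (Nat.dvd_one.1 h3)

/-- Fact A -/
theorem factA {k j : ℕ} (hk : 3 ≤ k) (hj : k + 2 ≤ j) : IG {k} 1 (j * g1 k + 1) 0 := by
  have h1 : IG {k} (1 * g1 k) j 0 := by
    rw [one_mul]; exact P1 hk (g1_pos hk) (M1_dvd_g1 hk) hj
  have h2 : IG {k} 1 (g1 k) 1 := (ig_hole_iff _ _ _).2 (by rw [v1_eq]; exact v1_mem hk)
  exact (ig_hole_iff _ _ _).1 (ig_fill h1 h2)

/-- Fact B -/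
theorem factB {k j : ℕ} (hk : 3 ≤ k) (hj : k + 2 ≤ j) : IG {k} 1 (j * gs k + k) 0 := by
  have h0 : IG {k} 1 (gs k + k) 0 := by
    have := ig_product (ig_block k) (v1_mem hk) (v1_nice hk)
    rw [← v1_eq, mul_add, mul_one] at this
    exact this
  have h1 : IG {k} 1 (gs k) k := ig_remove_block (by omega) h0
  have h2 : IG {k} (1 * gs k) j 0 := by
    rw [one_mul]; exact P1 hk (gs_pos hk) ((M1_dvd_g1 hk).trans (Nat.dvd_mul_left _ _)) hj
  have h3 : IG {k} 1 (j * gs k) (1 * k + 0) := by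
    rw [one_mul, add_zero]; exact ig_fill h2 h1
  exact ig_comp h3 (ig_block k)

theorem factA' {k nn : ℕ} (hk : 3 ≤ k) (hn : k + 2 ≤ nn) : IG {k} (k - 1) (as k * nn) 0 := by
  refine ig_delete_point (by omega) ?_
  have h : (k - 1) * (as k * nn) + 1 = (k * nn) * g1 k + 1 := by
    rw [← mul_assoc, as_mul hk, gs]; ring
  rw [h]
  exact factA hk (hn.trans (Nat.le_mul_of_pos_left _ (by omega)))

theorem factB' {k nn : ℕ} (hk : 3 ≤ k) (hn : k + 2 ≤ nn) :
    IG {k} (k - 1) (as k * nn + 1) 0 := by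
  refine ig_delete_point (by omega) ?_
  have h : (k - 1) * (as k * nn + 1) + 1 = nn * gs k + k := by
    rw [mul_add, ← mul_assoc, as_mul hk, mul_comm (gs k)]
    omega
  rw [h]
  exact factB hk hn

/-- hole lemma 1 -/
theorem hole1 {k nn j t : ℕ} (hk : 3 ≤ k) (hn : k + 2 ≤ nn) (hj : k + 2 ≤ j)
    (hN : Nice (as k * nn + 1) (as k * j + 1)) (ht : t ≤ as k * j + 1) :
    IG {k} 1 (gs k * (as k * j + 1) * nn) ((k - 1) * t + 1) := by
  have hm : IG {k} 1 ((k - 1) * (as k * j + 1)) 1 := by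
    refine (ig_hole_iff _ _ _).2 ?_
    have h : (k - 1) * (as k * j + 1) + 1 = j * gs k + k := by
      rw [mul_add, ← mul_assoc, as_mul hk, mul_comm (gs k)]
      omega
    rw [h]
    exact factB hk hj
  have := ig_stepHole (g := 1) (c := k - 1) (w := 1) hN ht
    (by rw [one_mul]; exact factA' hk hn) (by rw [one_mul]; exact factB' hk hn) hm
  rw [one_mul] at this
  convert this using 1
  rw [← mul_assoc, ← mul_assoc, as_mul hk]
  ring

/-- hole lemma 2 -/
theorem hole2 {k j t : ℕ} (hk : 3 ≤ k) (hj : k + 2 ≤ j)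
    (hp : ∀ p, p.Prime → p ∣ as k * j + 1 → as k * (100 * k ^ 2) + 1 ≤ p)
    (ht : t ≤ as k * j + 1) :
    ∀ J, k + 2 ≤ J → IG {k} 1 (gs k * (as k * j + 1) * J) ((k - 1) * t + 1) := by
  refine closure hk _ ?_ ?_
  · intro J h1 h2
    refine hole1 hk h1 hj ?_ ht
    refine nice_of_primes (by omega) fun p hpp hpm => le_trans ?_ (hp p hpp hpm)
    exact Nat.succ_le_succ (Nat.mul_le_mul_left _ h2)
  · intro s p t1 t2 hpp hs1 hs2 hsp ht1 ht2 h1 h2 h3
    have hz : IG {k} 1 (gs k * (as k * j + 1) * 0) ((k - 1) * t + 1) := by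
      simpa using ig_empty _ _ _
    refine ig_step (nice_prime hpp hsp) ht1 ht2 ?_ h3 ?_ ?_
    · intro u hu1 hu2
      rw [one_mul]
      refine P1 hk (Nat.mul_pos (gs_pos hk) (by omega)) ?_ (by omega)
      exact ((M1_dvd_g1 hk).trans (Nat.dvd_mul_left _ _)).trans (Nat.dvd_mul_right _ _)
    · rcases h1 with rfl | ⟨_, h⟩
      · exact hz
      · exact h
    · rcases h2 with rfl | ⟨_, h⟩
      · exact hz
      · exact h

/-- the main construction -/
theorem assembly {k w η L : ℕ} (hk : 3 ≤ k) (hw : 1 ≤ w) (hwd : (k - 1) ∣ (w - 1))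
    (hwm : IG {k} 1 w 0)
    (hL : L = 2 ^ (100 * (Nat.log 2 (as k * (100 * k ^ 2) + 1) + 1) ^ 2))
    (hη : (k + 2) * w + (gs k * (k + 2) + (k - 1)) * ((k + 2) * (1 + as k * (w + as k * (k + 2) +
      1 + as k * L) * L + (w + as k * (k + 2) + 1 + as k * L))) ≤ (k - 1) * η) :
    IG {k} 1 (gs k * η + w) 0 := by
  set z := as k * (100 * k ^ 2) + 1 with hz
  have has := as_pos hk
  have hkas := k_le_as hk
  have hz2 : k + 2 < z := by
    rw [hz]
    have : as k * 100 ≤ as k * (100 * k ^ 2) := Nat.mul_le_mul_left _ (by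
      have := pow_pos (by omega : 0 < k) 2
      omega)
    omega
  -- the first multiplier
  obtain ⟨m', hm1, hm2, hm3, hm4⟩ := sieve (z := z) (A := as k) (a0 := 1)
    (Y := w + as k * (k + 2) + 1) (by omega) has (fun p hp _ _ h => hp.one_lt.ne' (Nat.dvd_one.1 h))
  rw [← hL] at hm2
  obtain ⟨j', hj'⟩ : ∃ j', m' = as k * j' + 1 := by
    obtain ⟨j', hj'⟩ := (Nat.modEq_iff_dvd' (by omega : 1 ≤ m')).1 hm3.symm
    exact ⟨j', by omega⟩
  have hj'2 : k + 2 ≤ j' := by
    by_contra hc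
    have : as k * j' ≤ as k * (k + 2) := Nat.mul_le_mul_left _ (by omega)
    have h3 : as k * j' < as k * (k + 2) := Nat.mul_lt_mul_of_pos_left (by omega) has
    omega
  -- the residue class for the second multiplier
  have hcop : Nat.Coprime (as k) m' := by
    rw [hj', mul_comm]
    exact ((Nat.coprime_mul_right_add_left _ _ _).2 (Nat.coprime_one_left _)).symm
  have hcop2 : Nat.Coprime (k + 2) m' := by
    refine Nat.coprime_of_dvd fun p hp h1 h2 => hm4 p hp ?_ h2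
    exact (Nat.le_of_dvd (by omega) h1).trans_lt hz2
  obtain ⟨b, hb⟩ : ∃ b, (k + 2) * b ≡ η [MOD m'] := by
    obtain ⟨c, _, hc⟩ := Nat.exists_mul_mod_eq_one_of_coprime hcop2 (by omega)
    refine ⟨c * η, ?_⟩
    have h1 : (k + 2) * c ≡ 1 [MOD m'] := by
      unfold Nat.ModEq
      rw [hc, Nat.mod_eq_of_lt (by omega)]
    have := h1.mul_right η
    rwa [one_mul, mul_assoc] at this
  obtain ⟨a0, ha1, ha2⟩ := Nat.chineseRemainder hcop 1 b
  set D := gs k * (k + 2) + (k - 1) with hD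
  have hD0 : 0 < D := by omega
  obtain ⟨m2, hn1, hn2, hn3, hn4⟩ := sieve (z := z) (A := as k * m') (a0 := a0)
    (Y := (gs k * η + w) / D + 1) (by omega) (Nat.mul_pos has (by omega)) (by
      intro p hp hpz hpA hpa
      rcases (hp.dvd_mul).1 hpA with h | h
      · have h1 : a0 ≡ 1 [MOD p] := ha1.of_dvd h
        have h2 : a0 ≡ 0 [MOD p] := (Nat.modEq_zero_iff_dvd).2 hpa
        have h3 : p ∣ 1 := (Nat.modEq_zero_iff_dvd).1 (h1.symm.trans h2)
        exact hp.one_lt.ne' (Nat.dvd_one.1 h3)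
      · exact hm4 p hp hpz h)
  rw [← hL] at hn2
  have hn3a : m2 ≡ 1 [MOD as k] := (hn3.of_dvd (Nat.dvd_mul_right _ _)).trans ha1
  have hn3b : (k + 2) * m2 ≡ η [MOD m'] :=
    (((hn3.of_dvd (Nat.dvd_mul_left _ _)).trans ha2).mul_left (k + 2)).trans hb
  -- size of `m2` from above
  have hDm : D * m2 < gs k * η + w + D * (1 + as k * m' * L) := by
    have h1 : m2 < (gs k * η + w) / D + (1 + as k * m' * L) := by omega
    calc D * m2 < D * ((gs k * η + w) / D + (1 + as k * m' * L)) :=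
          Nat.mul_lt_mul_of_pos_left h1 hD0
      _ = D * ((gs k * η + w) / D) + D * (1 + as k * m' * L) := by ring
      _ ≤ _ := Nat.add_le_add_right (Nat.mul_div_le _ _) _
  -- the key inequality
  have hkey : (k + 2) * (m2 + m') ≤ η := by
    have hm'le : m' ≤ w + as k * (k + 2) + 1 + as k * L := hm2.le
    have h1 : D * ((k + 2) * (m2 + m')) ≤ D * η := by
      have h2 : D * ((k + 2) * (m2 + m')) = (k + 2) * (D * m2) + D * ((k + 2) * m') := by ring
      have h3 : (k + 2) * (D * m2) ≤ (k + 2) * (gs k * η + w + D * (1 + as k * m' * L)) :=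
        Nat.mul_le_mul_left _ hDm.le
      have h4 : (k + 2) * w + D * ((k + 2) * (1 + as k * m' * L + m')) ≤ (k - 1) * η := by
        refine le_trans ?_ hη
        gcongr
      have h5 : D * η = (k + 2) * (gs k * η) + (k - 1) * η := by rw [hD]; ring
      rw [h2, h5]
      calc (k + 2) * (D * m2) + D * ((k + 2) * m')
          ≤ (k + 2) * (gs k * η + w + D * (1 + as k * m' * L)) + D * ((k + 2) * m') :=
            Nat.add_le_add_right h3 _
        _ = (k + 2) * (gs k * η) + ((k + 2) * w + D * ((k + 2) * (1 + as k * m' * L + m'))) := by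
            ring
        _ ≤ (k + 2) * (gs k * η) + (k - 1) * η := Nat.add_le_add_left h4 _
    exact Nat.le_of_mul_le_mul_left h1 hD0
  have hm'0 : 0 < m' := by omega
  have hle : (k + 2) * m2 ≤ η := by nlinarith
  obtain ⟨J', hJ'⟩ := (Nat.modEq_iff_dvd' hle).1 hn3b
  have hη2 : η = (k + 2) * m2 + m' * J' := by omega
  have hJ'2 : k + 2 ≤ J' := by
    have : m' * (k + 2) ≤ m' * J' := by nlinarith
    exact Nat.le_of_mul_le_mul_left this hm'0
  -- first application
  obtain ⟨t, ht⟩ := hwd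
  have hwt : w = (k - 1) * t + 1 := by omega
  have htw : t ≤ w := by
    have : 1 * t ≤ (k - 1) * t := Nat.mul_le_mul_right _ (by omega)
    omega
  have hw1 : IG {k} 1 (gs k * m' * J' + w) 0 := by
    have h1 := hole2 (j := j') (t := t) hk hj'2 (by
      rw [← hj']
      intro p hp hpm
      by_contra hc
      exact hm4 p hp (by omega) hpm) (by rw [← hj']; omega) J' hJ'2
    rw [← hj', ← hwt] at h1
    exact ig_comp (b := w) (w := 0) (by simpa using h1) hwm
  -- second application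
  set t1 := as k * m' * J' + t with ht1
  have hw1t : gs k * m' * J' + w = (k - 1) * t1 + 1 := by
    rw [ht1, hwt, ← as_mul hk]; ring
  have ht1m : t1 ≤ m2 := by
    have h1 : gs k * η + w < D * m2 := by
      have := Nat.lt_mul_div_succ (gs k * η + w) hD0
      exact this.trans_le (Nat.mul_le_mul_left _ hn1)
    have h2 : (k - 1) * t1 + 1 ≤ (k - 1) * m2 := by
      rw [← hw1t]
      have h3 : D * m2 = gs k * ((k + 2) * m2) + (k - 1) * m2 := by rw [hD]; ring
      have h4 : gs k * η = gs k * ((k + 2) * m2) + gs k * m' * J' := by rw [hη2]; ring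
      omega
    have h3 : (k - 1) * t1 ≤ (k - 1) * m2 := by omega
    exact Nat.le_of_mul_le_mul_left h3 (by omega)
  have hm'2 : 2 ≤ m' := by omega
  have hm2big : 2 * (as k * (k + 2)) ≤ m2 := by
    have h1 : as k * 2 * (k + 2) ≤ as k * m' * J' := by gcongr
    have h2 : as k * m' * J' ≤ t1 := by omega
    calc 2 * (as k * (k + 2)) = as k * 2 * (k + 2) := by ring
      _ ≤ as k * m' * J' := h1
      _ ≤ t1 := h2
      _ ≤ m2 := ht1m
  have hask : 0 < as k * (k + 2) := Nat.mul_pos has (by omega)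
  obtain ⟨j2, hj2⟩ : ∃ j2, m2 = as k * j2 + 1 := by
    obtain ⟨j2, hj2⟩ := (Nat.modEq_iff_dvd' (by omega : 1 ≤ m2)).1 hn3a.symm
    exact ⟨j2, by omega⟩
  have hj22 : k + 2 ≤ j2 := by
    by_contra hc
    have h3 : as k * j2 < as k * (k + 2) := Nat.mul_lt_mul_of_pos_left (by omega) has
    omega
  have h2 := hole2 (j := j2) (t := t1) hk hj22 (by
      rw [← hj2]
      intro p hp hpm
      by_contra hc
      exact hn4 p hp (by omega) hpm) (by rw [← hj2]; exact ht1m) (k + 2) le_rfl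
  rw [← hj2, ← hw1t] at h2
  have h3 := ig_comp (b := gs k * m' * J' + w) (w := 0) (by simpa using h2) hw1
  convert h3 using 1
  rw [hη2]; ring

end H108
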