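import Pool.Agent.H108R2.Family2
import Pool.Agent.H108R2.Final

namespace H108

open Nat

/-- data for the final construction : `M` is such that all multiples of `M` are group sizes of
GDDs with any number of groups, `g1 + 1 ≡ 1 mod M` is the order of a design, `G = k g1` and
`A = G / (k-1)` -/
structure Base (k M g1 A G : ℕ) : Prop where
  hk : 3 ≤ k
  P1 : ∀ D, 0 < D → M ∣ D → ∀ s, k + 2 ≤ s → IG {k} D s 0
  n_dvd : k * (k - 1) ∣ M
  g1_pos : 0 < g1
  M_dvd : M ∣ g1
  mem : IG {k} 1 (g1 + 1) 0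
  nice : Nice k (g1 + 1)
  G_eq : G = k * g1
  as_mul : (k - 1) * A = G

namespace Base

variable {k M g1 A G : ℕ}

theorem G_pos (h : Base k M g1 A G) : 0 < G := by
  have := h.hk
  rw [h.G_eq]; exact Nat.mul_pos (by omega) h.g1_pos

theorem M_dvd_G (h : Base k M g1 A G) : M ∣ G := by
  rw [h.G_eq]; exact h.M_dvd.trans (Nat.dvd_mul_left _ _)

theorem n_dvd_G (h : Base k M g1 A G) : k * (k - 1) ∣ G := h.n_dvd.trans h.M_dvd_G

theorem A_pos (h : Base k M g1 A G) : 0 < A := by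
  have h1 := h.as_mul
  have h2 := h.G_pos
  rcases Nat.eq_zero_or_pos A with h0 | h0
  · rw [h0] at h1; omega
  · exact h0

theorem A_le_G (h : Base k M g1 A G) : A ≤ G := by
  have := h.hk
  rw [← h.as_mul]; exact Nat.le_mul_of_pos_left _ (by omega)

theorem k_le_A (h : Base k M g1 A G) : k ≤ A := by
  -- `k (k-1) ∣ (k-1) A`
  have hk := h.hk
  have h1 : k * (k - 1) ∣ (k - 1) * A := by rw [h.as_mul]; exact h.n_dvd_G
  rw [mul_comm k] at h1
  exact Nat.le_of_dvd h.A_pos (Nat.dvd_of_mul_dvd_mul_left (by omega) h1)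

/-- Fact A -/
theorem factA (h : Base k M g1 A G) {j : ℕ} (hj : k + 2 ≤ j) : IG {k} 1 (j * g1 + 1) 0 := by
  have h1 : IG {k} (1 * g1) j 0 := by
    rw [one_mul]; exact h.P1 _ h.g1_pos h.M_dvd _ hj
  have h2 : IG {k} 1 g1 1 := (ig_hole_iff _ _ _).2 h.mem
  exact (ig_hole_iff _ _ _).1 (ig_fill h1 h2)

/-- Fact B -/
theorem factB (h : Base k M g1 A G) {j : ℕ} (hj : k + 2 ≤ j) : IG {k} 1 (j * G + k) 0 := by
  have hk := h.hk
  have h0 : IG {k} 1 (G + k) 0 := by
    have := ig_product (ig_block k) h.mem h.nice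
    rw [mul_add, mul_one, ← h.G_eq] at this
    exact this
  have h1 : IG {k} 1 G k := ig_remove_block (by omega) h0
  have h2 : IG {k} (1 * G) j 0 := by
    rw [one_mul]; exact h.P1 _ h.G_pos h.M_dvd_G _ hj
  have h3 : IG {k} 1 (j * G) (1 * k + 0) := by
    rw [one_mul, add_zero]; exact ig_fill h2 h1
  exact ig_comp h3 (ig_block k)

theorem factA' (h : Base k M g1 A G) {nn : ℕ} (hn : k + 2 ≤ nn) :
    IG {k} (k - 1) (A * nn) 0 := by
  have hk := h.hk
  refine ig_delete_point (by omega) ?_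
  have h1 : (k - 1) * (A * nn) + 1 = (k * nn) * g1 + 1 := by
    rw [← mul_assoc, h.as_mul, h.G_eq]; ring
  rw [h1]
  exact h.factA (hn.trans (Nat.le_mul_of_pos_left _ (by omega)))

theorem factB' (h : Base k M g1 A G) {nn : ℕ} (hn : k + 2 ≤ nn) :
    IG {k} (k - 1) (A * nn + 1) 0 := by
  have hk := h.hk
  refine ig_delete_point (by omega) ?_
  have h1 : (k - 1) * (A * nn + 1) + 1 = nn * G + k := by
    rw [mul_add, ← mul_assoc, h.as_mul, mul_comm G]
    omega
  rw [h1]
  exact h.factB hn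

/-- hole lemma 1 -/
theorem hole1 (h : Base k M g1 A G) {nn j t : ℕ} (hn : k + 2 ≤ nn) (hj : k + 2 ≤ j)
    (hN : Nice (A * nn + 1) (A * j + 1)) (ht : t ≤ A * j + 1) :
    IG {k} 1 (G * (A * j + 1) * nn) ((k - 1) * t + 1) := by
  have hk := h.hk
  have hm : IG {k} 1 ((k - 1) * (A * j + 1)) 1 := by
    refine (ig_hole_iff _ _ _).2 ?_
    have h1 : (k - 1) * (A * j + 1) + 1 = j * G + k := by
      rw [mul_add, ← mul_assoc, h.as_mul, mul_comm G]
      omega
    rw [h1]
    exact h.factB hj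
  have := ig_stepHole (g := 1) (c := k - 1) (w := 1) hN ht
    (by rw [one_mul]; exact h.factA' hn) (by rw [one_mul]; exact h.factB' hn) hm
  rw [one_mul] at this
  convert this using 1
  rw [← mul_assoc, ← mul_assoc, h.as_mul]
  ring

/-- hole lemma 2 -/
theorem hole2 (h : Base k M g1 A G) {j t : ℕ} (hj : k + 2 ≤ j)
    (hp : ∀ p, p.Prime → p ∣ A * j + 1 → A * (100 * k ^ 2) + 1 ≤ p)
    (ht : t ≤ A * j + 1) :
    ∀ J, k + 2 ≤ J → IG {k} 1 (G * (A * j + 1) * J) ((k - 1) * t + 1) := by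
  refine closure h.hk _ ?_ ?_
  · intro J h1 h2
    refine h.hole1 h1 hj ?_ ht
    refine nice_of_primes (by omega) fun p hpp hpm => le_trans ?_ (hp p hpp hpm)
    exact Nat.succ_le_succ (Nat.mul_le_mul_left _ h2)
  · intro s p t1 t2 hpp hs1 hs2 hsp ht1 ht2 h1 h2 h3
    have hz : IG {k} 1 (G * (A * j + 1) * 0) ((k - 1) * t + 1) := by
      simpa using ig_empty _ _ _
    refine ig_step (nice_prime hpp hsp) ht1 ht2 ?_ h3 ?_ ?_
    · intro u hu1 hu2
      rw [one_mul]
      refine h.P1 _ (Nat.mul_pos h.G_pos (by omega)) ?_ _ (by omega)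
      exact h.M_dvd_G.trans (Nat.dvd_mul_right _ _)
    · rcases h1 with rfl | ⟨_, h⟩
      · exact hz
      · exact h
    · rcases h2 with rfl | ⟨_, h⟩
      · exact hz
      · exact h

/-- the main construction; `Ls` is the length of the sieve interval for the sifting limit
`z = A (100 k^2) + 1` -/
theorem assembly (h : Base k M g1 A G) {w η Ls : ℕ} (hw : 1 ≤ w) (hwd : (k - 1) ∣ (w - 1))
    (hwm : IG {k} 1 w 0)
    (hLs : ∀ A' a0 Y : ℕ, 1 ≤ A' →
      (∀ p, p.Prime → p < A * (100 * k ^ 2) + 1 → p ∣ A' → ¬ p ∣ a0) →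
      ∃ m, Y ≤ m ∧ m < Y + A' * Ls ∧ m ≡ a0 [MOD A'] ∧
        ∀ p, p.Prime → p < A * (100 * k ^ 2) + 1 → ¬ p ∣ m)
    (hη : (k + 2) * w + (G * (k + 2) + (k - 1)) * ((k + 2) * (1 + A * (w + A * (k + 2) +
      1 + A * Ls) * Ls + (w + A * (k + 2) + 1 + A * Ls))) ≤ (k - 1) * η) :
    IG {k} 1 (G * η + w) 0 := by
  have hk := h.hk
  set z := A * (100 * k ^ 2) + 1 with hz
  have has := h.A_pos
  have hkas := h.k_le_A
  have hz2 : k + 2 < z := by
    rw [hz]
    have : A * 100 ≤ A * (100 * k ^ 2) := Nat.mul_le_mul_left _ (by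
      have := pow_pos (by omega : 0 < k) 2
      omega)
    omega
  -- the first multiplier
  obtain ⟨m', hm1, hm2, hm3, hm4⟩ := hLs A 1 (w + A * (k + 2) + 1) has
    (fun p hp _ _ h => hp.one_lt.ne' (Nat.dvd_one.1 h))
  obtain ⟨j', hj'⟩ : ∃ j', m' = A * j' + 1 := by
    obtain ⟨j', hj'⟩ := (Nat.modEq_iff_dvd' (by omega : 1 ≤ m')).1 hm3.symm
    exact ⟨j', by omega⟩
  have hj'2 : k + 2 ≤ j' := by
    by_contra hc
    have h3 : A * j' < A * (k + 2) := Nat.mul_lt_mul_of_pos_left (by omega) has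
    omega
  -- the residue class for the second multiplier
  have hcop : Nat.Coprime A m' := by
    rw [hj', mul_comm]
    exact ((Nat.coprime_mul_right_add_left _ _ _).2 (Nat.coprime_one_left _)).symm
  have hcop2 : Nat.Coprime (k + 2) m' := by
    refine Nat.coprime_of_dvd fun p hp h1 h2 => hm4 p hp ?_ h2
    exact (Nat.le_of_dvd (by omega) h1).trans_lt hz2
  obtain ⟨b, hb⟩ : ∃ b, (k + 2) * b ≡ η [MOD m'] := by
    obtain ⟨c, _, hc⟩ := Nat.exists_mul_mod_eq_one_of_coprime hcop2 (by omega)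
    refine ⟨c * η, ?_⟩
    have h1 : (k + 2) * c ≡ 1 [MOD m'] := by
      unfold Nat.ModEq
      rw [hc, Nat.mod_eq_of_lt (by omega)]
    have := h1.mul_right η
    rwa [one_mul, mul_assoc] at this
  obtain ⟨a0, ha1, ha2⟩ := Nat.chineseRemainder hcop 1 b
  set D := G * (k + 2) + (k - 1) with hD
  have hD0 : 0 < D := by omega
  obtain ⟨m2, hn1, hn2, hn3, hn4⟩ := hLs (A * m') a0
    ((G * η + w) / D + 1) (Nat.mul_pos has (by omega)) (by
      intro p hp hpz hpA hpa
      rcases (hp.dvd_mul).1 hpA with h | h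
      · have h1 : a0 ≡ 1 [MOD p] := ha1.of_dvd h
        have h2 : a0 ≡ 0 [MOD p] := (Nat.modEq_zero_iff_dvd).2 hpa
        have h3 : p ∣ 1 := (Nat.modEq_zero_iff_dvd).1 (h1.symm.trans h2)
        exact hp.one_lt.ne' (Nat.dvd_one.1 h3)
      · exact hm4 p hp hpz h)
  have hn3a : m2 ≡ 1 [MOD A] := (hn3.of_dvd (Nat.dvd_mul_right _ _)).trans ha1
  have hn3b : (k + 2) * m2 ≡ η [MOD m'] :=
    (((hn3.of_dvd (Nat.dvd_mul_left _ _)).trans ha2).mul_left (k + 2)).trans hb
  -- size of `m2` from above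
  have hDm : D * m2 < G * η + w + D * (1 + A * m' * Ls) := by
    have h1 : m2 < (G * η + w) / D + (1 + A * m' * Ls) := by omega
    calc D * m2 < D * ((G * η + w) / D + (1 + A * m' * Ls)) :=
          Nat.mul_lt_mul_of_pos_left h1 hD0
      _ = D * ((G * η + w) / D) + D * (1 + A * m' * Ls) := by ring
      _ ≤ _ := Nat.add_le_add_right (Nat.mul_div_le _ _) _
  -- the key inequality
  have hkey : (k + 2) * (m2 + m') ≤ η := by
    have hm'le : m' ≤ w + A * (k + 2) + 1 + A * Ls := hm2.le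
    have h1 : D * ((k + 2) * (m2 + m')) ≤ D * η := by
      have h2 : D * ((k + 2) * (m2 + m')) = (k + 2) * (D * m2) + D * ((k + 2) * m') := by ring
      have h3 : (k + 2) * (D * m2) ≤ (k + 2) * (G * η + w + D * (1 + A * m' * Ls)) :=
        Nat.mul_le_mul_left _ hDm.le
      have h4 : (k + 2) * w + D * ((k + 2) * (1 + A * m' * Ls + m')) ≤ (k - 1) * η := by
        refine le_trans ?_ hη
        gcongr
      have h5 : D * η = (k + 2) * (G * η) + (k - 1) * η := by rw [hD]; ring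
      rw [h2, h5]
      calc (k + 2) * (D * m2) + D * ((k + 2) * m')
          ≤ (k + 2) * (G * η + w + D * (1 + A * m' * Ls)) + D * ((k + 2) * m') :=
            Nat.add_le_add_right h3 _
        _ = (k + 2) * (G * η) + ((k + 2) * w + D * ((k + 2) * (1 + A * m' * Ls + m'))) := by
            ring
        _ ≤ (k + 2) * (G * η) + (k - 1) * η := Nat.add_le_add_left h4 _
    exact Nat.le_of_mul_le_mul_left h1 hD0
  have hm'0 : 0 < m' := by omega
  have hle : (k + 2) * m2 ≤ η := by nlinarith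
  obtain ⟨J', hJ'⟩ := (Nat.modEq_iff_dvd' hle).1 hn3b
  have hη2 : η = (k + 2) * m2 + m' * J' := by omega
  have hJ'2 : k + 2 ≤ J' := by
    have : m' * (k + 2) ≤ m' * J' := by nlinarith
    exact Nat.le_of_mul_le_mul_left this hm'0
  -- first application
  obtain ⟨t, ht⟩ := hwd
  have hwt : w = (k - 1) * t + 1 := by omega
  have htw : t ≤ w := by
    have : 1 * t ≤ (k - 1) * t := Nat.mul_le_mul_right _ (by omega)
    omega
  have hw1 : IG {k} 1 (G * m' * J' + w) 0 := by
    have h1 := h.hole2 (j := j') (t := t) hj'2 (by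
      rw [← hj']
      intro p hp hpm
      by_contra hc
      exact hm4 p hp (by omega) hpm) (by rw [← hj']; omega) J' hJ'2
    rw [← hj', ← hwt] at h1
    exact ig_comp (b := w) (w := 0) (by simpa using h1) hwm
  -- second application
  set t1 := A * m' * J' + t with ht1
  have hw1t : G * m' * J' + w = (k - 1) * t1 + 1 := by
    rw [ht1, hwt, ← h.as_mul]; ring
  have ht1m : t1 ≤ m2 := by
    have h1 : G * η + w < D * m2 := by
      have := Nat.lt_mul_div_succ (G * η + w) hD0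
      exact this.trans_le (Nat.mul_le_mul_left _ hn1)
    have h2 : (k - 1) * t1 + 1 ≤ (k - 1) * m2 := by
      rw [← hw1t]
      have h3 : D * m2 = G * ((k + 2) * m2) + (k - 1) * m2 := by rw [hD]; ring
      have h4 : G * η = G * ((k + 2) * m2) + G * m' * J' := by rw [hη2]; ring
      omega
    have h3 : (k - 1) * t1 ≤ (k - 1) * m2 := by omega
    exact Nat.le_of_mul_le_mul_left h3 (by omega)
  have hm'2 : 2 ≤ m' := by omega
  have hm2big : 2 * (A * (k + 2)) ≤ m2 := by
    have h1 : A * 2 * (k + 2) ≤ A * m' * J' := by gcongr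
    have h2 : A * m' * J' ≤ t1 := by omega
    calc 2 * (A * (k + 2)) = A * 2 * (k + 2) := by ring
      _ ≤ A * m' * J' := h1
      _ ≤ t1 := h2
      _ ≤ m2 := ht1m
  have hask : 0 < A * (k + 2) := Nat.mul_pos has (by omega)
  obtain ⟨j2, hj2⟩ : ∃ j2, m2 = A * j2 + 1 := by
    obtain ⟨j2, hj2⟩ := (Nat.modEq_iff_dvd' (by omega : 1 ≤ m2)).1 hn3a.symm
    exact ⟨j2, by omega⟩
  have hj22 : k + 2 ≤ j2 := by
    by_contra hc
    have h3 : A * j2 < A * (k + 2) := Nat.mul_lt_mul_of_pos_left (by omega) has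
    omega
  have h2 := h.hole2 (j := j2) (t := t1) hj22 (by
      rw [← hj2]
      intro p hp hpm
      by_contra hc
      exact hn4 p hp (by omega) hpm) (by rw [← hj2]; exact ht1m) (k + 2) le_rfl
  rw [← hj2, ← hw1t] at h2
  have h3 := ig_comp (b := G * m' * J' + w) (w := 0) (by simpa using h2) hw1
  convert h3 using 1
  rw [hη2]; ring

end Base

end H108
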