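import Pool.Agent.H108R2.Mem3
import Pool.Agent.H108R2.Base2
import Pool.Agent.H108R2.Final2
import Pool.Agent.H108R2.Asym

namespace H108

open Nat

theorem M3_pos {k L N : ℕ} (hk : 3 ≤ k) (hL : GoodP k L N) : 0 < M2 k L N :=
  Nat.mul_pos (Nat.mul_pos (n_pos hk) hL.pos) (KK2_pos k)

theorem M3_P1 {k L N D : ℕ} (hk : 3 ≤ k) (hL : GoodP k L N) (hD : 0 < D) (h : M2 k L N ∣ D)
    {s : ℕ} (hs : k + 2 ≤ s) : IG {k} D s 0 := by
  obtain ⟨c, rfl⟩ := h
  have hc0 : 0 < c := Nat.pos_of_mul_pos_left hD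
  have hK0 : 0 < KK2 k := KK2_pos k
  have hne : KK2 k * c ≠ 0 := (Nat.mul_pos hK0 hc0).ne'
  have hc : Nice k (KK2 k * c) := by
    refine nice_of_pp (Nat.mul_pos hK0 hc0) fun p hp hpm => ?_
    rcases lt_or_ge p k with hpk | hpk
    · have h2 : p ^ Nat.clog p k ∣ KK2 k * c := (dvd_KK2 hp hpk.le).trans (Nat.dvd_mul_right _ _)
      have h3 : Nat.clog p k ≤ (KK2 k * c).factorization p :=
        (hp.pow_dvd_iff_le_factorization hne).1 h2
      calc k ≤ p ^ Nat.clog p k := Nat.le_pow_clog hp.one_lt k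
        _ ≤ p ^ _ := Nat.pow_le_pow_right hp.pos h3
    · refine hpk.trans ?_
      calc p = p ^ 1 := (pow_one p).symm
        _ ≤ p ^ _ := Nat.pow_le_pow_right hp.pos
          ((hp.dvd_iff_one_le_factorization hne).1 hpm)
  have := fam3_uniform hk hL hc s hs
  unfold M2
  rwa [mul_assoc (k * (k - 1) * L ^ N)]

theorem V3_le {k : ℕ} (hk : 3 ≤ k) : V3 k ≤ k ^ 4 := by
  unfold V3
  obtain ⟨r, rfl⟩ : ∃ r, k = r + 3 := ⟨k - 3, by omega⟩
  nlinarith [Nat.zero_le (r ^ 4), Nat.zero_le (r ^ 3), Nat.zero_le (r ^ 2)]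

/-- the number `g1` -/
def g3 (k L N : ℕ) : ℕ := (k - 1) * L ^ N * (k * KK2 k * V3 k)

theorem g3_pos {k L N : ℕ} (hk : 3 ≤ k) (h : Good3 k L N) : 0 < g3 k L N := by
  unfold g3 V3
  have := KK2_pos k
  have := h.goodP.pos
  have : 0 < k - 1 := by omega
  positivity

theorem base3_exists {k L N : ℕ} (hk : 3 ≤ k) (h : Good3 k L N) :
    Base k (M2 k L N) (g3 k L N) (k * (L ^ N * (k * KK2 k * V3 k))) (k * g3 k L N) := by
  have hg0 := g3_pos hk h
  have hnM : k * (k - 1) ∣ M2 k L N := by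
    unfold M2; rw [mul_assoc]; exact Nat.dvd_mul_right _ _
  have hMd : M2 k L N ∣ g3 k L N := ⟨V3 k, by unfold g3 M2; ring⟩
  have hV : V3 k ≤ k * KK2 k * V3 k :=
    Nat.le_mul_of_pos_left _ (Nat.mul_pos (by omega) (KK2_pos k))
  have hmem : IG {k} 1 (g3 k L N + 1) 0 :=
    fam3_mem hk h (u := k * KK2 k * V3 k)
      ((Dvd.intro (KK2 k * V3 k) (by ring)).trans (Nat.dvd_mul_right _ _)) hV
  have hnice : Nice k (g3 k L N + 1) := by
    refine nice_of_primes (by omega) fun p hp hpv => ?_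
    by_contra hc
    have h3 : p ∣ M2 k L N := (prime_dvd_KK2 hp (by omega)).trans (Nat.dvd_mul_left _ _)
    have h4 : p ∣ 1 := (Nat.dvd_add_right (h3.trans hMd)).1 hpv
    exact hp.one_lt.ne' (Nat.dvd_one.1 h4)
  refine ⟨hk, fun D hD hd s hs => M3_P1 hk h.goodP hD hd hs, hnM, hg0, hMd, hmem, hnice, rfl, ?_⟩
  unfold g3; ring

/-- primes at least `L00 k` different from `L` do not divide `G` -/
theorem not_dvd_G3 {k L N p : ℕ} (hk : 3 ≤ k) (h : Good3 k L N) (hp : p.Prime)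
    (hp0 : L00 k ≤ p) (hne : p ≠ L) : ¬ p ∣ k * g3 k L N := by
  have hb := L00_ge hk
  have hk4 : 1 ≤ k ^ 4 := Nat.one_le_pow _ _ (by omega)
  have hk1 : k ^ 1 ≤ k ^ 4 := Nat.pow_le_pow_right (by omega) (by omega)
  rw [pow_one] at hk1
  intro hd
  unfold g3 at hd
  rcases (hp.dvd_mul).1 hd with hd | hd
  · have := Nat.le_of_dvd (by omega) hd
    omega
  rcases (hp.dvd_mul).1 hd with hd | hd
  · rcases (hp.dvd_mul).1 hd with hd | hd
    · have := Nat.le_of_dvd (by omega) hd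
      omega
    · exact hne ((Nat.prime_dvd_prime_iff_eq hp h.prime).1 (hp.dvd_of_dvd_pow hd))
  · rcases (hp.dvd_mul).1 hd with hd | hd
    · rcases (hp.dvd_mul).1 hd with hd | hd
      · have := Nat.le_of_dvd (by omega) hd
        omega
      · have := le_of_prime_dvd_KK2 hp hd
        omega
    · have := Nat.le_of_dvd (by unfold V3; omega) hd
      have := V3_le hk
      omega

/-- the final step -/
theorem final3 {k M g1 A G N L3 Ls v : ℕ} (hB : Base k M g1 A G) (h3 : Good3 k L3 N)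
    (hG : ¬ L3 ∣ G) (hLs : ∀ A' a0 Y : ℕ, 1 ≤ A' →
      (∀ p, p.Prime → p < A * (100 * k ^ 2) + 1 → p ∣ A' → ¬ p ∣ a0) →
      ∃ m, Y ≤ m ∧ m < Y + A' * Ls ∧ m ≡ a0 [MOD A'] ∧
        ∀ p, p.Prime → p < A * (100 * k ^ 2) + 1 → ¬ p ∣ m)
    (hA : Adm k v) {W : ℕ} (hW : W = (k - 1) * L3 ^ N * (V3 k + A) + 1)
    (hv : W + G * ((k + 2) * W + (G * (k + 2) + (k - 1)) * ((k + 2) * (1 + A * (W + A * (k + 2) +
      1 + A * Ls) * Ls + (W + A * (k + 2) + 1 + A * Ls)))) ≤ v) : IG {k} 1 v 0 := by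
  have hk := hB.hk
  have hG0 := hB.G_pos
  have hA0 := hB.A_pos
  have hAG : A ∣ G := ⟨k - 1, by rw [← hB.as_mul]; ring⟩
  have hcop : Nat.Coprime (L3 ^ N) A :=
    Nat.Coprime.pow_left N ((Nat.Prime.coprime_iff_not_dvd h3.prime).2
      (fun h => hG (h.trans hAG)))
  -- `v = (k-1) r + 1`
  obtain ⟨hv1, hv2, hv3⟩ := hA
  obtain ⟨r, hr⟩ := hv1
  have hvr : v = (k - 1) * r + 1 := by omega
  -- `k ∣ A`
  have hkA : k ∣ A := by
    have h1 : k * (k - 1) ∣ (k - 1) * A := by rw [hB.as_mul]; exact hB.n_dvd_G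
    rw [mul_comm k] at h1
    exact Nat.dvd_of_mul_dvd_mul_left (by omega) h1
  obtain ⟨u, hu1, hu2, hu3⟩ := solve_mod (v := r) hA0 hcop (V3 k)
  have hu0 : 1 ≤ u := by
    have : 1 ≤ V3 k := by unfold V3; omega
    omega
  -- `L3 ^ N ≡ 1 mod k`
  have hLk : L3 ^ N ≡ 1 [MOD k] := h3.mod.of_dvd ⟨4, by ring⟩
  have huk : u ≡ r [MOD k] := by
    have h4 := hu3.of_dvd hkA
    have h5 := hLk.mul_left u
    rw [mul_one] at h5
    exact h5.symm.trans h4
  -- `k ∣ r (r - 1)`, in the form `r * r ≡ r`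
  have hrr : r * r ≡ r [MOD k] := by
    -- `k (k-1) ∣ v (v-1) = ((k-1) r + 1) (k-1) r`
    rw [hvr] at hv2
    have h1 : (k - 1) * r + 1 - 1 = (k - 1) * r := by omega
    rw [h1] at hv2
    have h2 : (k - 1) * k ∣ (k - 1) * (((k - 1) * r + 1) * r) := by
      have e : (k - 1) * (((k - 1) * r + 1) * r) = ((k - 1) * r + 1) * ((k - 1) * r) := by ring
      rw [e, mul_comm (k - 1) k]; exact hv2
    have h3 : k ∣ ((k - 1) * r + 1) * r := Nat.dvd_of_mul_dvd_mul_left (by omega) h2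
    have h4 : ((k - 1) * r + 1) * r + r * r = k * (r * r) + r := by
      obtain ⟨k', rfl⟩ : ∃ k', k = k' + 1 := ⟨k - 1, by omega⟩
      rw [Nat.add_sub_cancel]; ring
    have h5 : ((k - 1) * r + 1) * r + r * r ≡ r * r [MOD k] := by
      have := ((Nat.modEq_zero_iff_dvd).2 h3).add_right (r * r)
      rwa [zero_add] at this
    have h6 : k * (r * r) + r ≡ r [MOD k] := by
      have := ((Nat.modEq_zero_iff_dvd).2 (Nat.dvd_mul_right k (r * r))).add_right r
      rwa [zero_add] at this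
    rw [h4] at h5
    exact h5.symm.trans h6
  have huu : k ∣ u * (u - 1) := by
    have h1 : u * u ≡ u [MOD k] := (huk.mul huk).trans (hrr.trans huk.symm)
    have h2 := (Nat.modEq_iff_dvd' (Nat.le_mul_self u)).1 h1.symm
    rwa [show u * (u - 1) = u * u - u by rw [Nat.mul_sub, mul_one]]
  set w := (k - 1) * L3 ^ N * u + 1 with hw
  have hwm : IG {k} 1 w 0 := fam3_mem hk h3 huu hu1
  have hw1 : 1 ≤ w := by omega
  have hwW : w ≤ W := by
    rw [hW, hw]
    have := Nat.mul_le_mul_left ((k - 1) * L3 ^ N) hu2.le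
    omega
  have hwk : (k - 1) ∣ (w - 1) := by
    rw [hw, Nat.add_sub_cancel, mul_assoc]; exact Nat.dvd_mul_right _ _
  -- `w ≡ v mod G`
  have hwv : w ≡ v [MOD G] := by
    have h1 : (k - 1) * (u * L3 ^ N) ≡ (k - 1) * r [MOD (k - 1) * A] := hu3.mul_left' (k - 1)
    rw [hB.as_mul] at h1
    have h2 := h1.add_right 1
    rw [hvr, hw]
    have e : (k - 1) * L3 ^ N * u = (k - 1) * (u * L3 ^ N) := by ring
    rw [e]; exact h2
  have hWv : W ≤ v := (Nat.le_add_right _ _).trans hv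
  obtain ⟨η, hη⟩ := (Nat.modEq_iff_dvd' (hwW.trans hWv)).1 hwv
  set H := ((k + 2) * W + (G * (k + 2) + (k - 1)) * ((k + 2) * (1 + A * (W + A * (k + 2) +
      1 + A * Ls) * Ls + (W + A * (k + 2) + 1 + A * Ls)))) with hH
  have hη2 : H ≤ η := by
    have h1 : G * H ≤ G * η := by
      rw [← hη]
      omega
    exact Nat.le_of_mul_le_mul_left h1 hG0
  have hvη : v = G * η + w := by omega
  rw [hvη]
  refine hB.assembly (Ls := Ls) hw1 hwk hwm hLs ?_
  calc _ ≤ H := by rw [hH]; gcongr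
    _ ≤ 1 * η := by rw [one_mul]; exact hη2
    _ ≤ (k - 1) * η := Nat.mul_le_mul_right _ (by omega)

end H108
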