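import Pool.Agent.H108R2.Defs

/-! Blueprint: all module statements (with `sorry`). Never import this file from a hand-in. -/

namespace H108.Blueprint
open H108

/-! ## U: Union.lean -/

theorem GD_union {Y P : Type} {K : Set ℕ} (ρ : Y → P) {ι : Type} (Z : ι → Type) (Q : ι → Type)
    (e : ∀ i, Z i → Y) (he : ∀ i, Function.Injective (e i)) (σ : ∀ i, Z i → Q i)
    (h1 : ∀ i z z', σ i z ≠ σ i z' → ρ (e i z) ≠ ρ (e i z'))
    (h2 : ∀ y y', ρ y ≠ ρ y' → ∃! i, ∃ z z', e i z = y ∧ e i z' = y' ∧ σ i z ≠ σ i z')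
    (h3 : ∀ i, GD K (σ i)) : GD K ρ := sorry

theorem GD_congr {X X' P P' : Type} {K : Set ℕ} {π : X → P} {π' : X' → P'} (e : X ≃ X')
    (h : ∀ x y, π x = π y ↔ π' (e x) = π' (e y)) (hG : GD K π) : GD K π' := sorry

theorem GD_wfc {X P : Type} {K K' : Set ℕ} {π : X → P} (g : ℕ) (h : GD K π)
    (hK : ∀ u ∈ K, IG K' g u 0) : GD K' (fun p : X × Fin g => π p.1) := sorry

theorem GD_fill {X W P Q : Type} {K : Set ℕ} {π : X → P} {ρ : X ⊕ W → Q} (h : GD K π)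
    (hW : ∀ w w', ρ (Sum.inr w) = ρ (Sum.inr w'))
    (hρ : ∀ x y, ρ (Sum.inl x) = ρ (Sum.inl y) → π x = π y)
    (hp : ∀ p, GD K (fun y : {y : X ⊕ W // ∀ x, y = Sum.inl x → π x = p} => ρ y)) : GD K ρ := sorry

/-! ## I: IGops.lean -/

theorem ig_empty (K : Set ℕ) (g w : ℕ) : IG K g 0 w := sorry
theorem ig_one (K : Set ℕ) (g : ℕ) : IG K g 1 0 := sorry
theorem ig_block (k : ℕ) : IG {k} 1 k 0 := sorry
theorem ig_hole_iff (K : Set ℕ) (g a : ℕ) : IG K g a g ↔ IG K g (a + 1) 0 := sorry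
theorem ig_comp {K : Set ℕ} {g a b w : ℕ} (h1 : IG K g a (g * b + w)) (h2 : IG K g b w) :
    IG K g (a + b) w := sorry
theorem ig_inflate {k g a w c : ℕ} (hN : Nice k c) (h : IG {k} g a w) :
    IG {k} (g * c) a (w * c) := sorry
theorem ig_fill {k g a c w : ℕ} (h : IG {k} (g * c) a 0) (h1 : IG {k} g c w) :
    IG {k} g (a * c) w := sorry
theorem ig_delete_point {k r : ℕ} (hk : 2 ≤ k) (h : IG {k} 1 ((k - 1) * r + 1) 0) :
    IG {k} (k - 1) r 0 := sorry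
theorem ig_remove_block {k a : ℕ} (hk : 2 ≤ k) (h : IG {k} 1 (a + k) 0) : IG {k} 1 a k := sorry
theorem ig_product {k u v : ℕ} (h1 : IG {k} 1 u 0) (h2 : IG {k} 1 v 0) (hN : Nice k v) :
    IG {k} 1 (u * v) 0 := sorry
theorem ig_step {k g c w s p t1 t2 : ℕ} (hN : Nice (s + 2) p) (h1 : t1 ≤ p) (h2 : t2 ≤ p)
    (hb : ∀ u, s ≤ u → u ≤ s + 2 → IG {k} (g * c) u 0)
    (hp : IG {k} g (c * p) w) (ht1 : IG {k} g (c * t1) w) (ht2 : IG {k} g (c * t2) w) :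
    IG {k} g (c * (s * p + t1 + t2)) w := sorry
theorem ig_stepHole {k g c w s m t : ℕ} (hN : Nice (s + 1) m) (ht : t ≤ m)
    (hb : IG {k} (g * c) s 0) (hb' : IG {k} (g * c) (s + 1) 0) (hm : IG {k} g (c * m) w) :
    IG {k} g (c * (s * m)) (g * c * t + w) := sorry

/-! ## N: NiceTD.lean -/

theorem nice_one (N : ℕ) : Nice N 1 := sorry
theorem nice_mul {N a b : ℕ} (h : Nice N a) (h' : Nice N b) : Nice N (a * b) := sorry
theorem nice_prime_pow {N p e : ℕ} (hp : p.Prime) (he : e ≠ 0) (h : N ≤ p ^ e) :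
    Nice N (p ^ e) := sorry
theorem nice_of_pp {N m : ℕ} (hm : 0 < m)
    (h : ∀ p, p.Prime → p ∣ m → N ≤ p ^ m.factorization p) : Nice N m := sorry
theorem nice_mono {N N' m : ℕ} (h : Nice N m) (hN : N' ≤ N) : Nice N' m := sorry
/-- truncated transversal design -/
theorem ttd {N m : ℕ} (hN : Nice N m) (t : Fin N → ℕ) (ht : ∀ i, t i ≤ m) :
    GD (Set.Icc (Finset.univ.filter (fun i => t i = m)).card N)
      (Sigma.fst : (Σ i : Fin N, Fin (t i)) → Fin N) := sorry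

/-! ## S: Sys.lean -/

theorem sys_exists (X : Type) [Finite X] (L N : ℕ) (hL : 0 < L) (hN : 2 * Nat.card X + 2 ≤ N) :
    Sys X L (L ^ N) := sorry

/-! ## A: LemmaA.lean -/

theorem fold_inflate {X P : Type} [Finite X] {π : X → P} {k L g : ℕ} (hS : Sys X L g)
    (hF : Fold k L π) : GD {k} (fun p : X × Fin g => π p.1) := sorry

/-! ## G: Signed.lean -/

open Classical in
theorem fold_of_weights {X P : Type} [Fintype X] (π : X → P) (k : ℕ) (hk : 3 ≤ k)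
    (hparts : k + 2 ≤ (Finset.univ.image π).card)
    (hdeg : ∀ x, (k - 1) ∣ (Finset.univ.filter (fun y => π y ≠ π x)).card)
    (hE : k * (k - 1) ∣ ∑ x, (Finset.univ.filter (fun y => π y ≠ π x)).card)
    (c : Finset X → ℕ) (Λ : ℕ)
    (hc : ∀ b : Finset X, b.card = k → Set.InjOn π (b : Set X) → 1 ≤ c b)
    (hΛ : ∀ x y, π x ≠ π y →
      ∑ b ∈ (Finset.univ : Finset (Finset X)).filter
        (fun b : Finset X => b.card = k ∧ Set.InjOn π (b : Set X) ∧ x ∈ b ∧ y ∈ b), c b = Λ)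
    (F : ℕ) (hF : 100 * (Fintype.card X) ^ 5 ≤ F) : Fold k (1 + F * Λ) π := sorry

/-! ## W: Weights.lean (uses G) -/

theorem fold_uniform {k h s : ℕ} (hk : 3 ≤ k) (hs : k + 2 ≤ s) (hh : 1 ≤ h)
    (hd1 : (k - 1) ∣ h * (s - 1)) (hd2 : k * (k - 1) ∣ (h * s) * (h * (s - 1)))
    {F : ℕ} (hF : 100 * (s * h) ^ 5 ≤ F) :
    Fold k (1 + F * ((s - 2).choose (k - 2) * h ^ (k - 2)))
      (Prod.fst : Fin s × Fin h → Fin s) := sorry

theorem fold_hole {k a w : ℕ} (hk : 3 ≤ k) (hw : 1 ≤ w) (ha : (k - 2) * w + 2 ≤ a)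
    (ha' : k + 1 ≤ a) (hd1 : (k - 1) ∣ a) (hd2 : (k - 1) ∣ (w - 1))
    (hd3 : k * (k - 1) ∣ a * (a + 2 * w - 1)) {F : ℕ} (hF : 100 * (a + w) ^ 5 ≤ F) :
    Fold k (1 + F * ((a - 2).choose (k - 2) * (a - 1).choose (k - 2))) (igMap 1 a w) := sorry

/-! ## D: DF.lean -/

theorem df_field (F : Type) [Field F] [Fintype F] (k : ℕ) (hk : 3 ≤ k)
    (hmod : k * (k - 1) ∣ Fintype.card F - 1)
    (hbig : (2 * k ^ 2) ^ (2 * k + 3) ≤ Fintype.card F) :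
    GD {k} (id : F → F) := sorry

/-! ## P: DFpow.lean (uses D, N, I) -/

theorem pow_mem {k Θ V : ℕ} (hk : 3 ≤ k) (hΘ : Nat.totient (k * (k - 1)) ∣ Θ)
    (hΘ2 : (2 * k ^ 2) ^ (2 * k + 3) ≤ 2 ^ Θ) (hV : 0 < V)
    (hc : Nat.Coprime V (k * (k - 1))) : IG {k} 1 (V ^ Θ) 0 := sorry

/-! ## C: Closure.lean (pure arithmetic, Bertrand) -/

theorem closure {k : ℕ} (hk : 3 ≤ k) (S : ℕ → Prop)
    (base : ∀ J, k + 2 ≤ J → J ≤ 100 * k ^ 2 → S J)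
    (step : ∀ s p t1 t2, p.Prime → k + 2 ≤ s → s + 2 ≤ 100 * k ^ 2 → s + 2 ≤ p →
      t1 ≤ p → t2 ≤ p → (t1 = 0 ∨ (k + 2 ≤ t1 ∧ S t1)) → (t2 = 0 ∨ (k + 2 ≤ t2 ∧ S t2)) →
      S p → S (s * p + t1 + t2)) :
    ∀ J, k + 2 ≤ J → S J := sorry

/-! ## V: Sieve.lean -/

theorem sieve {z A a0 Y : ℕ} (hz : 2 ≤ z) (hA : 1 ≤ A)
    (h : ∀ p, p.Prime → p < z → p ∣ A → ¬ p ∣ a0) :
    ∃ m, Y ≤ m ∧ m < Y + A * 2 ^ (100 * (Nat.log 2 z + 1) ^ 2) ∧ m ≡ a0 [MOD A] ∧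
      ∀ p, p.Prime → p < z → ¬ p ∣ m := sorry

end H108.Blueprint
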