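import Pool.Agent.H108R2.Defs

/-! Blueprint of part 2: all module statements (with `sorry`). Never import this file from a
hand-in. -/

namespace H108.Blueprint2
open H108 Classical

/-! ## S2: SysK.lean -/

/-- `Sys` with the interpolation property restricted to `k`-sets (this def goes to SysK.lean,
namespace H108) -/
def SysK (X : Type) (k L g : ℕ) : Prop :=
  ∃ (A T C : Type) (_ : AddCommGroup A) (_ : AddCommGroup T) (_ : AddCommGroup C)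
    (_ : Finite A) (_ : Finite T) (_ : Finite C)
    (φ : X → T →+ A) (κ : X → X → A →+ C),
    Nat.card A = g ∧ Nat.card C = L ∧
    (∀ x y a, κ y x a = - κ x y a) ∧
    (∀ x y, x ≠ y → ∀ a, κ x y a = 0 → ∃! t, φ x t - φ y t = a) ∧
    (∀ x y t, x ≠ y → κ x y (φ x t - φ y t) = 0) ∧
    (∀ b : Finset X, b.card = k → ∀ x ∈ b, ∀ z : X → C, ∃ a, ∀ y ∈ b, y ≠ x → κ x y a = z y)

theorem sysk_exists (X : Type) [Finite X] {k L N : ℕ} (hk : 3 ≤ k) (hL : L.Prime)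
    (hX : Nat.card X ≤ L) (hN : k - 1 ≤ N) : SysK X k L (L ^ N) := sorry

/-! ## G2: Signed2.lean -/

theorem signed_gen {X P : Type} [Fintype X] (π : X → P) (k : ℕ) (hk : 3 ≤ k)
    (hparts : k + 2 ≤ (Finset.univ.image π).card) :
    ∃ NN : Finset (Finset X), (∀ b ∈ NN, b.card = k ∧ Set.InjOn π (b : Set X)) ∧
      NN.card ≤ 10 * (Fintype.card X) ^ 4 ∧
      ∀ (D : X → X → ℤ) (M : ℤ), (∀ x y, 0 ≤ D x y ∧ D x y ≤ M) → (∀ x y, D x y = D y x) →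
        (∀ x y, π x = π y → D x y = 0) → (∀ x, ((k : ℤ) - 1) ∣ ∑ y, D x y) →
        ((k : ℤ) * ((k : ℤ) - 1) ∣ ∑ x, ∑ y, D x y) →
        ∃ f : Finset X → ℤ, (∀ b, b ∉ NN → f b = 0) ∧
          ∑ b, |f b| ≤ 100 * (Fintype.card X : ℤ) ^ 5 * M ∧
          ∀ x y, π x ≠ π y →
            ∑ b ∈ Finset.univ.filter (fun b : Finset X => x ∈ b ∧ y ∈ b), f b = D x y := sorry

/-! ## R2: Frac.lean -/

theorem frac {X P : Type} [Fintype X] (π : X → P) (k : ℕ) (hk : 3 ≤ k)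
    (hparts : k + 2 ≤ (Finset.univ.image π).card) (c : Finset X → ℝ) (c0 B : ℝ) (hc0 : 0 < c0)
    (hB : 0 ≤ B) (hc : ∀ b : Finset X, b.card = k → Set.InjOn π (b : Set X) → c0 ≤ c b)
    (hc' : ∀ b : Finset X, ¬ (b.card = k ∧ Set.InjOn π (b : Set X)) → c b = 0)
    (hsum : ∀ x y, π x ≠ π y →
      ∑ b ∈ Finset.univ.filter (fun b : Finset X => x ∈ b ∧ y ∈ b), c b = 1)
    (hν : ∀ x y, π x ≠ π y → 1 ≤ B * c0 * ((Finset.univ.filter (fun b : Finset X =>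
      (b.card = k ∧ Set.InjOn π (b : Set X)) ∧ x ∈ b ∧ y ∈ b)).card : ℝ))
    (ω : X → X → ℝ) (hω : ∀ x y, ω x y = ω y x)
    (hω1 : ∀ x y, |ω x y - 1| * ((Fintype.card X : ℝ) ^ 4 * (k : ℝ) ^ 2 * B) ≤ 1) :
    ∃ y : Finset X → ℝ, (∀ b, 0 ≤ y b) ∧
      (∀ b : Finset X, ¬ (b.card = k ∧ Set.InjOn π (b : Set X)) → y b = 0) ∧
      ∀ u v, π u ≠ π v →
        ∑ b ∈ Finset.univ.filter (fun b : Finset X => u ∈ b ∧ v ∈ b), y b = ω u v := sorry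

/-! ## F2: FoldSmall.lean (uses G2, R2) -/

theorem fold_small {X P : Type} [Fintype X] (π : X → P) (k : ℕ) (hk : 3 ≤ k)
    (hparts : k + 2 ≤ (Finset.univ.image π).card)
    (hdeg : ∀ x, (k - 1) ∣ (Finset.univ.filter (fun y => π y ≠ π x)).card)
    (hE : k * (k - 1) ∣ ∑ x, (Finset.univ.filter (fun y => π y ≠ π x)).card)
    (c : Finset X → ℝ) (c0 B : ℝ) (hc0 : 0 < c0) (hB : 0 ≤ B) (hB' : B ≤ Fintype.card X)
    (hc : ∀ b : Finset X, b.card = k → Set.InjOn π (b : Set X) → c0 ≤ c b)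
    (hc' : ∀ b : Finset X, ¬ (b.card = k ∧ Set.InjOn π (b : Set X)) → c b = 0)
    (hsum : ∀ x y, π x ≠ π y →
      ∑ b ∈ Finset.univ.filter (fun b : Finset X => x ∈ b ∧ y ∈ b), c b = 1)
    (hν : ∀ x y, π x ≠ π y → 1 ≤ B * c0 * ((Finset.univ.filter (fun b : Finset X =>
      (b.card = k ∧ Set.InjOn π (b : Set X)) ∧ x ∈ b ∧ y ∈ b)).card : ℝ))
    (L : ℕ) (hL : 2000 * (Fintype.card X) ^ 18 ≤ L) : Fold k L π := sorry

/-! ## W2: Weights2.lean (uses F2 and Weights.lean) -/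

theorem fold_uniform2 {k h s L : ℕ} (hk : 3 ≤ k) (hs : k + 2 ≤ s) (hh : 1 ≤ h)
    (hd1 : (k - 1) ∣ h * (s - 1)) (hd2 : k * (k - 1) ∣ (h * s) * (h * (s - 1)))
    (hL : 2000 * (s * h) ^ 18 ≤ L) :
    Fold k L (Prod.fst : Fin s × Fin h → Fin s) := sorry

theorem fold_hole2 {k a w L : ℕ} (hk : 3 ≤ k) (hw : 1 ≤ w) (ha : (k - 2) * w + 2 ≤ a)
    (ha' : k + 1 ≤ a) (hd1 : (k - 1) ∣ a) (hd2 : (k - 1) ∣ (w - 1))
    (hd3 : k * (k - 1) ∣ a * (a + 2 * w - 1)) (hL : 2000 * (a + w) ^ 18 ≤ L) :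
    Fold k L (igMap 1 a w) := sorry

/-! ## V2: Sieve2.lean (from Pool.Agent.H446R2.BrunD, theorem `cover`) -/

theorem sieve2 : ∃ C : ℕ, ∀ z A a0 Y : ℕ, 2 ≤ z → 1 ≤ A →
    (∀ p, p.Prime → p < z → p ∣ A → ¬ p ∣ a0) →
    ∃ m, Y ≤ m ∧ m < Y + A * z ^ C ∧ m ≡ a0 [MOD A] ∧ ∀ p, p.Prime → p < z → ¬ p ∣ m := sorry

/-! ## P2: PrimesAP.lean (from the Siegel-Walfisz theorem of the team's library) -/

theorem primes_one_mod (B : ℕ) : ∃ x0 : ℝ, ∀ x : ℝ, x0 ≤ x → ∀ q : ℕ, 1 ≤ q →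
    (q : ℝ) ≤ (Real.log x) ^ B →
    Real.sqrt x ≤ (((Finset.Icc 1 ⌊x⌋₊).filter (fun p => p.Prime ∧ p ≡ 1 [MOD q])).card : ℝ) :=
  sorry

end H108.Blueprint2
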