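import Pool.Agent.H108R2.Defs

/-! Difference families in finite fields by a second moment argument (module D, helper143). -/

set_option autoImplicit false

namespace H108

namespace DFx

open Finset

variable {F : Type} [Field F] [Fintype F] [DecidableEq F]

lemma card_roots (f : ℕ) (hf : 0 < f) (c : F) :
    (univ.filter (fun h : F => h ^ f = c)).card ≤ f := by
  have h1 : univ.filter (fun h : F => h ^ f = c) ⊆ (Polynomial.nthRoots f c).toFinset := by
    intro x hx
    rw [Multiset.mem_toFinset, Polynomial.mem_nthRoots hf]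
    exact (mem_filter.1 hx).2
  exact (card_le_card h1).trans
    ((Multiset.toFinset_card_le _).trans (Polynomial.card_nthRoots f c))

/-- the classes of the nonzero elements -/
def M (F : Type) [Field F] [Fintype F] [DecidableEq F] (f : ℕ) : Finset F :=
  (univ.filter (fun x : F => x ≠ 0)).image (fun x => x ^ f)

lemma pow_mem_M {f : ℕ} {x : F} (hx : x ≠ 0) : x ^ f ∈ M F f :=
  mem_image.2 ⟨x, by simpa using hx, rfl⟩

lemma ne_zero_of_mem {f : ℕ} {c : F} (hc : c ∈ M F f) : c ≠ 0 := by
  obtain ⟨x, hx, rfl⟩ := mem_image.1 hc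
  exact pow_ne_zero _ (by simpa using hx)

lemma pow_mem_M_iff {f : ℕ} (hf : 0 < f) {x : F} : x ^ f ∈ M F f ↔ x ≠ 0 := by
  constructor
  · rintro h rfl
    rw [zero_pow hf.ne'] at h
    exact ne_zero_of_mem h rfl
  · exact pow_mem_M

lemma card_ne_zero' : (univ.filter (fun x : F => x ≠ 0)).card = Fintype.card F - 1 := by
  rw [filter_ne' univ (0 : F), card_erase_of_mem (mem_univ _), card_univ]

lemma card_M {e f : ℕ} (h : e * f = Fintype.card F - 1) (hf : 0 < f) (he : 0 < e) :
    (M F f).card = e := by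
  apply le_antisymm
  · have h1 : M F f ⊆ univ.filter (fun h : F => h ^ e = 1) := by
      intro z hz
      obtain ⟨x, hx, rfl⟩ := mem_image.1 hz
      simp only [mem_filter, mem_univ, true_and] at hx ⊢
      rw [← pow_mul, mul_comm, h]
      exact FiniteField.pow_card_sub_one_eq_one x hx
    exact (card_le_card h1).trans (card_roots e he 1)
  · have h2 : (univ.filter (fun x : F => x ≠ 0)).card ≤ f * (M F f).card := by
      apply card_le_mul_card_image
      intro a _
      refine (card_le_card ?_).trans (card_roots f hf a)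
      intro x hx
      simp only [mem_filter, mem_univ, true_and] at hx ⊢
      exact hx.2
    rw [card_ne_zero', ← h, mul_comm] at h2
    exact Nat.le_of_mul_le_mul_left h2 hf

/-- number of elements of `A` in relation `c` to `x` -/
def NN (A : Finset F) (f : ℕ) (x c : F) : ℕ := (A.filter (fun a => (a - x) ^ f = c)).card

omit [Fintype F] in
lemma NN_eq (A : Finset F) (f : ℕ) (x c : F) :
    (NN A f x c : ℝ) = ∑ a ∈ A, if (a - x) ^ f = c then (1 : ℝ) else 0 := by
  unfold NN
  rw [card_filter]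
  push_cast
  rfl

lemma sum_NN (A : Finset F) {f : ℕ} (hf : 0 < f) :
    ∑ x : F, ∑ c ∈ M F f, (NN A f x c : ℝ) = A.card * (Fintype.card F - 1 : ℕ) := by
  have h1 : ∀ x : F, ∑ c ∈ M F f, (NN A f x c : ℝ) =
      ∑ a ∈ A, if x ≠ a then (1 : ℝ) else 0 := by
    intro x
    simp only [NN_eq]
    rw [sum_comm]
    refine sum_congr rfl fun a _ => ?_
    rw [sum_ite_eq]
    have h2 : (a - x) ^ f ∈ M F f ↔ x ≠ a := by
      rw [pow_mem_M_iff hf, sub_ne_zero]
      exact ne_comm
    simp only [h2]
  simp only [h1]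
  rw [sum_comm]
  have h3 : ∀ a ∈ A, ∑ x : F, (if x ≠ a then (1 : ℝ) else 0) = (Fintype.card F - 1 : ℕ) := by
    intro a _
    rw [← sum_filter, sum_const, nsmul_eq_mul, mul_one, filter_ne' univ a,
      card_erase_of_mem (mem_univ _), card_univ]
  rw [sum_congr rfl h3, sum_const, nsmul_eq_mul]

lemma pair_count {f : ℕ} (hf : 0 < f) {a a' : F} (h : a ≠ a') :
    (univ.filter (fun x : F => a - x ≠ 0 ∧ (a - x) ^ f = (a' - x) ^ f)).card ≤ f := by
  have key : ∀ x : F, a - x ≠ 0 → (a - x) ^ f = (a' - x) ^ f → a' - x ≠ 0 := by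
    intro x h1 h2 h3
    rw [h3, zero_pow hf.ne'] at h2
    exact h1 (pow_eq_zero_iff hf.ne' |>.1 h2)
  refine le_trans (card_le_card_of_injOn (fun x => (a - x) / (a' - x)) ?_ ?_) (card_roots f hf 1)
  · intro x hx
    have hx' := (mem_filter.1 (mem_coe.1 hx)).2
    have h3 := key x hx'.1 hx'.2
    apply mem_coe.2
    apply mem_filter.2
    refine ⟨mem_univ _, ?_⟩
    rw [div_pow, hx'.2, div_self (pow_ne_zero _ h3)]
  · intro x hx y hy hxy
    have hx' := (mem_filter.1 (mem_coe.1 hx)).2
    have hy' := (mem_filter.1 (mem_coe.1 hy)).2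
    have h3 := key x hx'.1 hx'.2
    have h4 := key y hy'.1 hy'.2
    have h5 : (a - x) * (a' - y) = (a - y) * (a' - x) := by
      have : (a - x) / (a' - x) = (a - y) / (a' - y) := hxy
      rw [div_eq_div_iff h3 h4] at this
      exact this
    have h6 : (a - a') * (x - y) = 0 := by linear_combination h5
    rcases mul_eq_zero.1 h6 with h7 | h7
    · exact absurd (sub_eq_zero.1 h7) h
    · exact sub_eq_zero.1 h7

lemma sum_NN_sq (A : Finset F) {f : ℕ} (hf : 0 < f) :
    ∑ x : F, ∑ c ∈ M F f, (NN A f x c : ℝ) ^ 2 ≤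
      A.card * Fintype.card F + A.card * A.card * f := by
  have h1 : ∀ x c : F, (NN A f x c : ℝ) ^ 2 = ∑ a ∈ A, ∑ a' ∈ A,
      if ((a - x) ^ f = c ∧ (a' - x) ^ f = c) then (1 : ℝ) else 0 := by
    intro x c
    rw [NN_eq, sq, sum_mul_sum]
    refine sum_congr rfl fun a _ => sum_congr rfl fun a' _ => ?_
    by_cases h2 : (a - x) ^ f = c
    · by_cases h3 : (a' - x) ^ f = c <;> simp [h2, h3]
    · simp [h2]
  have h2 : ∑ x : F, ∑ c ∈ M F f, (NN A f x c : ℝ) ^ 2 = ∑ a ∈ A, ∑ a' ∈ A, ∑ x : F,
      ∑ c ∈ M F f, if ((a - x) ^ f = c ∧ (a' - x) ^ f = c) then (1 : ℝ) else 0 := by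
    simp only [h1]
    calc _ = ∑ x : F, ∑ a ∈ A, ∑ c ∈ M F f, ∑ a' ∈ A,
          (if ((a - x) ^ f = c ∧ (a' - x) ^ f = c) then (1 : ℝ) else 0) :=
          sum_congr rfl fun x _ => sum_comm
      _ = ∑ a ∈ A, ∑ x : F, ∑ c ∈ M F f, ∑ a' ∈ A,
          (if ((a - x) ^ f = c ∧ (a' - x) ^ f = c) then (1 : ℝ) else 0) := sum_comm
      _ = _ := by
          refine sum_congr rfl fun a _ => ?_
          calc _ = ∑ x : F, ∑ a' ∈ A, ∑ c ∈ M F f,
                (if ((a - x) ^ f = c ∧ (a' - x) ^ f = c) then (1 : ℝ) else 0) :=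
                sum_congr rfl fun x _ => sum_comm
            _ = _ := sum_comm
  have h3 : ∀ a a' : F, ∑ x : F, ∑ c ∈ M F f,
      (if ((a - x) ^ f = c ∧ (a' - x) ^ f = c) then (1 : ℝ) else 0) ≤
        (if a = a' then (Fintype.card F : ℝ) else 0) + f := by
    intro a a'
    have h4 : ∀ x : F, ∑ c ∈ M F f,
        (if ((a - x) ^ f = c ∧ (a' - x) ^ f = c) then (1 : ℝ) else 0) =
          if a - x ≠ 0 ∧ (a - x) ^ f = (a' - x) ^ f then 1 else 0 := by
      intro x
      have h5 : ∀ c ∈ M F f, (if ((a - x) ^ f = c ∧ (a' - x) ^ f = c) then (1 : ℝ) else 0) =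
          if (a - x) ^ f = c then (if (a - x) ^ f = (a' - x) ^ f then (1 : ℝ) else 0) else 0 := by
        intro c _
        by_cases h6 : (a - x) ^ f = c
        · rw [if_pos h6, h6]
          by_cases h7 : (a' - x) ^ f = c
          · rw [if_pos ⟨rfl, h7⟩, if_pos h7.symm]
          · rw [if_neg (fun h => h7 h.2), if_neg (fun h => h7 h.symm)]
        · rw [if_neg h6, if_neg (fun h => h6 h.1)]
      rw [sum_congr rfl h5, sum_ite_eq]
      by_cases h8 : a - x ≠ 0
      · rw [if_pos (pow_mem_M h8)]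
        by_cases h9 : (a - x) ^ f = (a' - x) ^ f
        · rw [if_pos h9, if_pos ⟨h8, h9⟩]
        · rw [if_neg h9, if_neg (fun h => h9 h.2)]
      · rw [if_neg (fun h => h8 ((pow_mem_M_iff hf).1 h)), if_neg (fun h => h8 h.1)]
    simp only [h4]
    rw [← sum_filter, sum_const, nsmul_eq_mul, mul_one]
    by_cases h5 : a = a'
    · rw [if_pos h5]
      have h6 : (univ.filter (fun x : F => a - x ≠ 0 ∧ (a - x) ^ f = (a' - x) ^ f)).card ≤
          Fintype.card F := card_le_univ _
      have h7 : ((univ.filter (fun x : F => a - x ≠ 0 ∧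
        (a - x) ^ f = (a' - x) ^ f)).card : ℝ) ≤ Fintype.card F := by exact_mod_cast h6
      have h8 : (0 : ℝ) ≤ f := by positivity
      linarith
    · rw [if_neg h5, zero_add]
      exact_mod_cast pair_count hf h5
  rw [h2]
  refine (sum_le_sum fun a _ => sum_le_sum fun a' _ => h3 a a').trans ?_
  have h5 : ∀ a ∈ A, ∑ a' ∈ A, ((if a = a' then (Fintype.card F : ℝ) else 0) + f) =
      Fintype.card F + A.card * f := by
    intro a ha
    rw [sum_add_distrib, sum_ite_eq, if_pos ha, sum_const, nsmul_eq_mul]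
  rw [sum_congr rfl h5, sum_const, nsmul_eq_mul]
  apply le_of_eq
  ring

/-- second moment -/
theorem second_moment {e f : ℕ} (h : e * f = Fintype.card F - 1) (hf : 0 < f) (he : 0 < e)
    (A : Finset F) :
    ∑ x : F, ∑ c ∈ M F f, ((NN A f x c : ℝ) - A.card * f / Fintype.card F) ^ 2 ≤
      2 * A.card * Fintype.card F := by
  have hq : 1 < Fintype.card F := Fintype.one_lt_card
  have hq0 : (0 : ℝ) < Fintype.card F := by positivity
  set q : ℝ := (Fintype.card F : ℝ) with hqdef
  set n : ℝ := (A.card : ℝ) with hn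
  have h' : (e : ℝ) * f = q - 1 := by
    have h1 : ((e * f : ℕ) : ℝ) = ((Fintype.card F - 1 : ℕ) : ℝ) := by rw [h]
    rw [Nat.cast_sub hq.le] at h1
    push_cast at h1
    exact h1
  have hcast : ((Fintype.card F - 1 : ℕ) : ℝ) = q - 1 := by
    rw [Nat.cast_sub hq.le]
    push_cast
    rfl
  have hS1 := sum_NN A hf
  have hS2 := sum_NN_sq A hf
  rw [hcast] at hS1
  have hM := card_M h hf he
  have hexp : ∑ x : F, ∑ c ∈ M F f, ((NN A f x c : ℝ) - n * f / q) ^ 2 =
      ∑ x : F, ∑ c ∈ M F f, (NN A f x c : ℝ) ^ 2 -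
        2 * (n * f / q) * ∑ x : F, ∑ c ∈ M F f, (NN A f x c : ℝ) + q * (e * (n * f / q) ^ 2) := by
    have h1 : ∀ x : F, ∑ c ∈ M F f, ((NN A f x c : ℝ) - n * f / q) ^ 2 =
        ∑ c ∈ M F f, (NN A f x c : ℝ) ^ 2 - 2 * (n * f / q) * ∑ c ∈ M F f, (NN A f x c : ℝ) +
          e * (n * f / q) ^ 2 := by
      intro x
      rw [mul_sum, ← sum_sub_distrib]
      have h2 : (e : ℝ) * (n * f / q) ^ 2 = ∑ _c ∈ M F f, (n * f / q) ^ 2 := by
        rw [sum_const, nsmul_eq_mul, hM]
      rw [h2, ← sum_add_distrib]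
      exact sum_congr rfl fun c _ => by ring
    simp only [h1]
    rw [sum_add_distrib, sum_sub_distrib, ← mul_sum, sum_const, nsmul_eq_mul, card_univ]
  rw [hexp, hS1]
  have hnq : n ≤ q := by
    have : A.card ≤ Fintype.card F := card_le_univ _
    rw [hn, hqdef]
    exact_mod_cast this
  have hn0 : 0 ≤ n := by positivity
  have hf0 : (0 : ℝ) < f := by exact_mod_cast hf
  have he1 : (1 : ℝ) ≤ e := by exact_mod_cast he
  have hfq : (f : ℝ) ≤ q := by nlinarith
  have e1 : 2 * (n * f / q) * (n * (q - 1)) - q * (e * (n * f / q) ^ 2) =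
      n ^ 2 * f - n ^ 2 * f / q := by
    have : (q : ℝ) * (e * (n * f / q) ^ 2) = n ^ 2 * f * (e * f) / q := by
      field_simp
    rw [this, h']
    field_simp
    ring
  have e2 : n ^ 2 * f / q ≤ n * q := by
    rw [div_le_iff₀ hq0]
    nlinarith [mul_le_mul hnq hfq hf0.le hq0.le, mul_nonneg hn0 hq0.le]
  nlinarith

/-- number of bad points -/
theorem bad_card {e f : ℕ} (h : e * f = Fintype.card F - 1) (hf : 0 < f) (he : 0 < e)
    (A : Finset F) {c : F} (hc : c ∈ M F f) :
    (univ.filter (fun x : F => 4 * e * NN A f x c < A.card)).card * A.card ≤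
      32 * e ^ 2 * Fintype.card F := by
  classical
  rcases Nat.eq_zero_or_pos A.card with hA | hA
  · rw [hA]
    simp
  have hq : 1 < Fintype.card F := Fintype.one_lt_card
  have hq0 : (0 : ℝ) < Fintype.card F := by positivity
  have hsm := second_moment h hf he A
  set q : ℝ := (Fintype.card F : ℝ) with hqdef
  set n : ℝ := (A.card : ℝ) with hn
  have hn0 : 0 < n := by
    rw [hn]
    exact_mod_cast hA
  have he0 : (0 : ℝ) < e := by exact_mod_cast he
  have h' : (e : ℝ) * f = q - 1 := by
    have h1 : ((e * f : ℕ) : ℝ) = ((Fintype.card F - 1 : ℕ) : ℝ) := by rw [h]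
    rw [Nat.cast_sub hq.le] at h1
    push_cast at h1
    exact h1
  have hq2 : (2 : ℝ) ≤ q := by
    rw [hqdef]
    exact_mod_cast hq
  set B := univ.filter (fun x : F => 4 * e * NN A f x c < A.card) with hB
  have h1 : ∑ x ∈ B, (n / (4 * e)) ^ 2 ≤
      ∑ x : F, ∑ c ∈ M F f, ((NN A f x c : ℝ) - n * f / q) ^ 2 := by
    calc ∑ x ∈ B, (n / (4 * e)) ^ 2 ≤ ∑ x ∈ B, ((NN A f x c : ℝ) - n * f / q) ^ 2 := by
          refine sum_le_sum fun x hx => ?_
          have h2 : (4 * e * NN A f x c : ℕ) < A.card := (mem_filter.1 hx).2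
          have h3 : 4 * (e : ℝ) * NN A f x c < n := by
            rw [hn]
            exact_mod_cast h2
          have h4 : (NN A f x c : ℝ) < n / (4 * e) := by
            rw [lt_div_iff₀ (by positivity)]
            linarith
          have h5 : 2 * (n / (4 * e)) ≤ n * f / q := by
            rw [le_div_iff₀ hq0]
            have h6 : 2 * (n / (4 * e)) * q = n * (q / (2 * e)) := by
              field_simp
              ring
            rw [h6]
            apply mul_le_mul_of_nonneg_left _ hn0.le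
            rw [div_le_iff₀ (by positivity)]
            nlinarith
          have h6 : 0 ≤ n / (4 * e) := by positivity
          nlinarith
      _ ≤ ∑ x ∈ B, ∑ c ∈ M F f, ((NN A f x c : ℝ) - n * f / q) ^ 2 := by
          refine sum_le_sum fun x _ => ?_
          exact single_le_sum (f := fun c => ((NN A f x c : ℝ) - n * f / q) ^ 2)
            (fun c _ => sq_nonneg _) hc
      _ ≤ _ := sum_le_sum_of_subset_of_nonneg (subset_univ _) fun x _ _ =>
          sum_nonneg fun c _ => sq_nonneg _
  rw [sum_const, nsmul_eq_mul] at h1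
  have h2 := h1.trans hsm
  have h3 : (B.card : ℝ) * n ≤ 32 * e ^ 2 * q := by
    have h4 : (B.card : ℝ) * (n / (4 * e)) ^ 2 = ((B.card : ℝ) * n) * (n / (16 * e ^ 2)) := by
      field_simp
      ring
    have h5 : 2 * n * q = (32 * e ^ 2 * q) * (n / (16 * e ^ 2)) := by
      field_simp
      ring
    rw [h4, h5] at h2
    exact le_of_mul_le_mul_right h2 (by positivity)
  have h4 : ((B.card * A.card : ℕ) : ℝ) ≤ ((32 * e ^ 2 * Fintype.card F : ℕ) : ℝ) := by
    push_cast
    exact h3
  exact_mod_cast h4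

/-- candidates for the position `l` -/
def AA (f : ℕ) (c : ℕ → ℕ → F) (b : ℕ → F) (i l : ℕ) : Finset F :=
  univ.filter (fun y => ∀ j < i, (y - b j) ^ f = c j l)

theorem greedy {e f k : ℕ} (h : e * f = Fintype.card F - 1) (hf : 0 < f) (he : 0 < e)
    (c : ℕ → ℕ → F) (hc : ∀ i l, c i l ∈ M F f)
    (hbig : 2 * k * (4 * e) ^ (2 * k) < Fintype.card F) (i : ℕ) (hi : i ≤ k) :
    ∃ b : ℕ → F, (∀ j' < i, ∀ j < j', (b j' - b j) ^ f = c j j') ∧
      ∀ l, i ≤ l → l < k → Fintype.card F ≤ (AA f c b i l).card * (4 * e) ^ i := by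
  induction i with
  | zero =>
    refine ⟨fun _ => 0, fun j' hj' => absurd hj' (Nat.not_lt_zero _), fun l _ _ => ?_⟩
    have : AA f c (fun _ => 0) 0 l = univ := by
      ext y
      simp [AA]
    rw [this, card_univ]
    simp
  | succ i ih =>
    obtain ⟨b, hb1, hb2⟩ := ih (by omega)
    -- choose a good point
    let Bad : ℕ → Finset F := fun l =>
      univ.filter (fun x : F => 4 * e * NN (AA f c b i l) f x (c i l) < (AA f c b i l).card)
    have hbad : ∀ l, i ≤ l → l < k → (Bad l).card ≤ 2 * (4 * e) ^ (i + 2) := by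
      intro l hl hlk
      have h1 := bad_card h hf he (AA f c b i l) (hc i l)
      have h2 := hb2 l hl hlk
      have h3 : 0 < (AA f c b i l).card := by
        rcases Nat.eq_zero_or_pos (AA f c b i l).card with h4 | h4
        · rw [h4, zero_mul] at h2
          have := Fintype.card_pos (α := F)
          omega
        · exact h4
      have h4 : (Bad l).card * (AA f c b i l).card ≤
          (2 * (4 * e) ^ (i + 2)) * (AA f c b i l).card := by
        calc (Bad l).card * (AA f c b i l).card ≤ 32 * e ^ 2 * Fintype.card F := h1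
          _ ≤ 32 * e ^ 2 * ((AA f c b i l).card * (4 * e) ^ i) := Nat.mul_le_mul_left _ h2
          _ = _ := by ring
      exact Nat.le_of_mul_le_mul_right h4 h3
    have hU : ((Finset.Ico i k).biUnion Bad).card < (AA f c b i i).card := by
      have h1 : ((Finset.Ico i k).biUnion Bad).card ≤ k * (2 * (4 * e) ^ (i + 2)) := by
        refine card_biUnion_le.trans ?_
        refine (sum_le_sum fun l hl => hbad l (Finset.mem_Ico.1 hl).1
          (Finset.mem_Ico.1 hl).2).trans ?_
        rw [sum_const, Nat.card_Ico, smul_eq_mul]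
        exact Nat.mul_le_mul_right _ (by omega)
      have h2 := hb2 i le_rfl (by omega)
      have h3 : (k * (2 * (4 * e) ^ (i + 2))) * (4 * e) ^ i < (AA f c b i i).card * (4 * e) ^ i := by
        refine lt_of_lt_of_le ?_ h2
        refine lt_of_le_of_lt ?_ hbig
        calc (k * (2 * (4 * e) ^ (i + 2))) * (4 * e) ^ i = 2 * k * (4 * e) ^ (2 * (i + 1)) := by
              ring
          _ ≤ 2 * k * (4 * e) ^ (2 * k) :=
              Nat.mul_le_mul_left _ (Nat.pow_le_pow_right (by omega) (by omega))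
      exact lt_of_le_of_lt h1 (Nat.lt_of_mul_lt_mul_right h3)
    obtain ⟨x, hx, hxU⟩ := Finset.exists_mem_notMem_of_card_lt_card hU
    have hxg : ∀ l, i ≤ l → l < k →
        (AA f c b i l).card ≤ 4 * e * NN (AA f c b i l) f x (c i l) := by
      intro l hl hlk
      by_contra hcon
      apply hxU
      apply Finset.mem_biUnion.2
      exact ⟨l, Finset.mem_Ico.2 ⟨hl, hlk⟩, Finset.mem_filter.2 ⟨mem_univ _, not_le.1 hcon⟩⟩
    have hbu : ∀ j < i, Function.update b i x j = b j := fun j hj =>
      Function.update_of_ne hj.ne x b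
    refine ⟨Function.update b i x, ?_, ?_⟩
    · intro j' hj' j hj
      rcases Nat.lt_succ_iff_lt_or_eq.1 hj' with h1 | h1
      · rw [hbu j' h1, hbu j (hj.trans h1)]
        exact hb1 j' h1 j hj
      · subst h1
        rw [Function.update_self, hbu j hj]
        exact (mem_filter.1 hx).2 j hj
    · intro l hl hlk
      have h1 : AA f c (Function.update b i x) (i + 1) l =
          (AA f c b i l).filter (fun a => (a - x) ^ f = c i l) := by
        ext y
        simp only [AA, mem_filter, mem_univ, true_and]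
        constructor
        · intro hy
          refine ⟨fun j hj => ?_, ?_⟩
          · have := hy j (by omega)
            rwa [hbu j hj] at this
          · have := hy i (by omega)
            rwa [Function.update_self] at this
        · rintro ⟨hy1, hy2⟩ j hj
          rcases Nat.lt_succ_iff_lt_or_eq.1 hj with h2 | h2
          · rw [hbu j h2]
            exact hy1 j h2
          · subst h2
            rw [Function.update_self]
            exact hy2
      rw [h1]
      have h2 := hxg l (by omega) hlk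
      have h3 := hb2 l (by omega) hlk
      unfold NN at h2
      calc Fintype.card F ≤ (AA f c b i l).card * (4 * e) ^ i := h3
        _ ≤ (4 * e * ((AA f c b i l).filter (fun a => (a - x) ^ f = c i l)).card) *
            (4 * e) ^ i := Nat.mul_le_mul_right _ h2
        _ = _ := by ring

omit [Fintype F] in
/-- the development of a difference family -/
theorem develop {k : ℕ} (S : Set F) (b : ℕ → F)
    (hb : ∀ u < k, ∀ v < k, u ≠ v → b u ≠ b v) (hS : ∀ h ∈ S, h ≠ 0)
    (hex : ∀ d : F, d ≠ 0 → ∃ h ∈ S, ∃ u < k, ∃ v < k, u ≠ v ∧ d = h * (b u - b v))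
    (huniq : ∀ h ∈ S, ∀ u < k, ∀ v < k, ∀ h' ∈ S, ∀ u' < k, ∀ v' < k, u ≠ v → u' ≠ v' →
      h * (b u - b v) = h' * (b u' - b v') → h = h' ∧ u = u' ∧ v = v') :
    GD {k} (id : F → F) := by
  let blk : F → F → Finset F := fun t h => (Finset.range k).image (fun i => t + h * b i)
  refine ⟨{s | ∃ t, ∃ h ∈ S, s = blk t h}, ?_, ?_⟩
  · rintro _ ⟨t, h, hh, rfl⟩
    refine ⟨?_, Function.injective_id.injOn⟩
    change ((Finset.range k).image (fun i => t + h * b i)).card = k
    rw [card_image_of_injOn, card_range]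
    intro u hu v hv huv
    by_contra hne
    have h1 : h * (b u - b v) = 0 := by
      have : t + h * b u = t + h * b v := huv
      linear_combination this
    rcases mul_eq_zero.1 h1 with h2 | h2
    · exact hS h hh h2
    · exact hb u (by simpa using hu) v (by simpa using hv) hne (sub_eq_zero.1 h2)
  · intro x y hxy
    have hxy' : x ≠ y := hxy
    obtain ⟨h, hh, u, hu, v, hv, huv, hd⟩ := hex (x - y) (sub_ne_zero.2 hxy')
    refine ⟨blk (x - h * b u) h, ⟨⟨_, h, hh, rfl⟩, ?_, ?_⟩, ?_⟩
    · exact mem_image.2 ⟨u, mem_range.2 hu, by ring⟩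
    · exact mem_image.2 ⟨v, mem_range.2 hv, by linear_combination hd⟩
    · rintro _ ⟨⟨t', h', hh', rfl⟩, hx, hy⟩
      obtain ⟨u', hu', hxu⟩ := mem_image.1 hx
      obtain ⟨v', hv', hyv⟩ := mem_image.1 hy
      have hne : u' ≠ v' := by
        rintro rfl
        exact hxy' (hxu.symm.trans hyv)
      have h1 : h * (b u - b v) = h' * (b u' - b v') := by
        rw [← hd, ← hxu, ← hyv]
        ring
      obtain ⟨h2, h3, h4⟩ := huniq h hh u hu v hv h' hh' u' (mem_range.1 hu') v' (mem_range.1 hv')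
        huv hne h1
      subst h2 h3 h4
      have h5 : t' = x - h * b u := by rw [← hxu]; ring
      rw [h5]

end DFx

open DFx Finset in
theorem df_field (F : Type) [Field F] [Fintype F] (k : ℕ) (hk : 3 ≤ k)
    (hmod : k * (k - 1) ∣ Fintype.card F - 1)
    (hbig : (2 * k ^ 2) ^ (2 * k + 3) ≤ Fintype.card F) :
    GD {k} (id : F → F) := by
  classical
  have hq : 1 < Fintype.card F := Fintype.one_lt_card
  obtain ⟨r, hr⟩ := hmod
  obtain ⟨e, he2⟩ : ∃ e, k * (k - 1) = 2 * e := by
    obtain ⟨e, he⟩ := Nat.even_mul_pred_self k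
    exact ⟨e, by omega⟩
  have hef : e * (2 * r) = Fintype.card F - 1 := by
    rw [hr, he2]
    ring
  have he : 0 < e := by
    have : 0 < k * (k - 1) := Nat.mul_pos (by omega) (by omega)
    omega
  have hr0 : 0 < r := by
    rcases Nat.eq_zero_or_pos r with h | h
    · subst h
      simp at hr
      omega
    · exact h
  set f := 2 * r with hfdef
  have hf : 0 < f := by omega
  have hfe : Even f := ⟨r, by omega⟩
  -- characteristic
  have h2 : (2 : F) ≠ 0 := by
    apply Ring.two_ne_zero
    intro h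
    rw [FiniteField.even_card_iff_char_two] at h
    have : (Fintype.card F - 1) % 2 = 0 := by
      rw [← hef, hfdef]
      have : e * (2 * r) = 2 * (e * r) := by ring
      omega
    omega
  have hneg : ∀ h : F, h ≠ 0 → h ≠ -h := by
    intro h h0 h1
    apply h0
    have : 2 * h = 0 := by linear_combination h1
    exact (mul_eq_zero.1 this).resolve_left h2
  -- enumeration of the classes by pairs
  set P : Finset (Σ _ : ℕ, ℕ) := (range k).sigma (fun l => range l) with hP
  have hPc : P.card = (M F f).card := by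
    rw [card_M hef hf he, hP, card_sigma]
    simp only [card_range]
    rw [Finset.sum_range_id, he2]
    omega
  let E : P ≃ M F f := Finset.equivOfCardEq hPc
  have hmemP : ∀ i l, i < l → l < k → (⟨l, i⟩ : Σ _ : ℕ, ℕ) ∈ P := by
    intro i l h1 h2
    rw [hP]
    exact mem_sigma.2 ⟨mem_range.2 h2, mem_range.2 h1⟩
  let c : ℕ → ℕ → F := fun i l =>
    if h : i < l ∧ l < k then (E ⟨⟨l, i⟩, hmemP i l h.1 h.2⟩ : F) else 1
  have hc1 : ∀ i l (h : i < l ∧ l < k), c i l = (E ⟨⟨l, i⟩, hmemP i l h.1 h.2⟩ : F) :=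
    fun i l h => dif_pos h
  have hc : ∀ i l, c i l ∈ M F f := by
    intro i l
    by_cases h : i < l ∧ l < k
    · rw [hc1 i l h]
      exact (E _).2
    · have h1 : c i l = 1 := dif_neg h
      rw [h1]
      have h2 := pow_mem_M (F := F) (f := f) one_ne_zero
      rwa [one_pow] at h2
  have hinj : ∀ i l i' l', i < l → l < k → i' < l' → l' < k → c i l = c i' l' →
      i = i' ∧ l = l' := by
    intro i l i' l' h1 h2 h3 h4 h5
    rw [hc1 i l ⟨h1, h2⟩, hc1 i' l' ⟨h3, h4⟩] at h5
    have h6 := E.injective (Subtype.ext h5)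
    have h7 := congrArg Subtype.val h6
    simp only [Sigma.mk.injEq, heq_eq_eq] at h7
    exact ⟨h7.2, h7.1⟩
  have hsurj : ∀ z ∈ M F f, ∃ i l, i < l ∧ l < k ∧ c i l = z := by
    intro z hz
    obtain ⟨⟨⟨l, i⟩, hp⟩, hE⟩ := E.surjective ⟨z, hz⟩
    have hp' := hp
    rw [hP] at hp'
    obtain ⟨h1, h2⟩ := mem_sigma.1 hp'
    have h1' : l < k := mem_range.1 h1
    have h2' : i < l := mem_range.1 h2
    refine ⟨i, l, h2', h1', ?_⟩
    rw [hc1 i l ⟨h2', h1'⟩]
    exact congrArg Subtype.val hE
  -- the greedy construction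
  have hb0 : 2 * k * (4 * e) ^ (2 * k) < Fintype.card F := by
    refine lt_of_lt_of_le ?_ hbig
    have h4e : 4 * e ≤ 2 * k ^ 2 := by
      have : 4 * e = 2 * (k * (k - 1)) := by omega
      rw [this, sq]
      exact Nat.mul_le_mul_left _ (Nat.mul_le_mul_left _ (Nat.sub_le _ _))
    have h2k : 2 * k ≤ 2 * k ^ 2 := by nlinarith
    have h1 : 1 < 2 * k ^ 2 := by nlinarith
    calc 2 * k * (4 * e) ^ (2 * k) ≤ (2 * k ^ 2) * (2 * k ^ 2) ^ (2 * k) :=
          Nat.mul_le_mul h2k (Nat.pow_le_pow_left h4e _)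
      _ = (2 * k ^ 2) ^ (2 * k + 1) := by ring
      _ < (2 * k ^ 2) ^ (2 * k + 3) := Nat.pow_lt_pow_right h1 (by omega)
  obtain ⟨b, hb1, -⟩ := greedy hef hf he c hc hb0 k le_rfl
  -- classes of differences
  have hcl : ∀ u < k, ∀ v < k, u ≠ v → (b u - b v) ^ f = c (min u v) (max u v) := by
    intro u hu v hv huv
    rcases lt_or_gt_of_ne huv with h | h
    · rw [min_eq_left h.le, max_eq_right h.le, ← hb1 v hv u h, ← hfe.neg_pow, neg_sub]
    · rw [min_eq_right (le_of_lt h), max_eq_left (le_of_lt h)]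
      exact hb1 u hu v h
  have hbne : ∀ u < k, ∀ v < k, u ≠ v → b u - b v ≠ 0 := by
    intro u hu v hv huv
    rw [← pow_mem_M_iff hf, hcl u hu v hv huv]
    exact hc _ _
  let g : F ≃ Fin (Fintype.card F) := Fintype.equivFin F
  let S : Set F := {h | h ^ f = 1 ∧ g h < g (-h)}
  have hS0 : ∀ h ∈ S, h ≠ 0 := by
    rintro h ⟨h1, -⟩ rfl
    rw [zero_pow hf.ne'] at h1
    exact zero_ne_one h1
  apply develop S b (fun u hu v hv huv h => hbne u hu v hv huv (sub_eq_zero.2 h)) hS0
  · intro d hd
    obtain ⟨i, l, hil, hlk, hcd⟩ := hsurj (d ^ f) (pow_mem_M hd)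
    have hne := hbne l hlk i (hil.trans hlk) (by omega)
    have h1 : (b l - b i) ^ f = d ^ f := by
      rw [hb1 l hlk i hil, hcd]
    have h3 : (d / (b l - b i)) ^ f = 1 := by
      rw [div_pow, h1, div_self (pow_ne_zero _ hd)]
    have h4 : d / (b l - b i) ≠ 0 := div_ne_zero hd hne
    rcases lt_or_gt_of_ne (fun h => hneg _ h4 (g.injective h) :
      g (d / (b l - b i)) ≠ g (-(d / (b l - b i)))) with h | h
    · refine ⟨d / (b l - b i), ⟨h3, h⟩, l, hlk, i, hil.trans hlk, by omega, ?_⟩
      rw [div_mul_cancel₀ _ hne]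
    · refine ⟨-(d / (b l - b i)), ⟨?_, ?_⟩, i, hil.trans hlk, l, hlk, by omega, ?_⟩
      · rw [hfe.neg_pow]
        exact h3
      · rw [neg_neg]
        exact h
      · have : -(d / (b l - b i)) * (b i - b l) = d / (b l - b i) * (b l - b i) := by ring
        rw [this, div_mul_cancel₀ _ hne]
  · intro h hh u hu v hv h' hh' u' hu' v' hv' huv huv' heq
    have h1 : c (min u v) (max u v) = c (min u' v') (max u' v') := by
      rw [← hcl u hu v hv huv, ← hcl u' hu' v' hv' huv']
      have h3 := congrArg (fun z => z ^ f) heq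
      simp only [mul_pow] at h3
      rw [hh.1, hh'.1, one_mul, one_mul] at h3
      exact h3
    have h3 := hinj _ _ _ _ (by omega) (by omega) (by omega) (by omega) h1
    rcases (by omega : (u = u' ∧ v = v') ∨ (u = v' ∧ v = u')) with ⟨rfl, rfl⟩ | ⟨rfl, rfl⟩
    · exact ⟨mul_right_cancel₀ (hbne u hu v hv huv) heq, rfl, rfl⟩
    · exfalso
      have h4 : h = -h' := by
        apply mul_right_cancel₀ (hbne u hu v hv huv)
        rw [heq]
        ring
      have h5 := hh.2
      have h6 := hh'.2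
      rw [h4, neg_neg] at h5
      exact absurd h5 (not_lt.2 h6.le)

end H108
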