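import Pool.Agent.H108R2.Weights2
import Pool.Agent.H108R2.DF

/-! Blueprint of part 3 (statements with `sorry`). Never import this file from a hand-in. -/

namespace H108.Blueprint3
open H108 Classical

/-! ## SDF : file SDF.lean -/

theorem sdf_exists (k j : ℕ) (hk : 3 ≤ k) (hj : k * (k + 1) ≤ j) :
    ∃ (B : Type) (_ : Fintype B) (m : B → Fin k → Fin (k - 1)), ∀ x y : Fin (k - 1),
      Nat.card {t : B × Fin k × Fin k // t.2.1 ≠ t.2.2 ∧ m t.1 t.2.1 = x ∧ m t.1 t.2.2 = y}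
        = 4 * k * j := sorry

/-! ## RDF : file RDF.lean (uses `H108.DFx.greedy` and the lemmas of DF.lean) -/

theorem rdf (F : Type) [Field F] [Fintype F] {k h μ f : ℕ} (hk : 1 ≤ k) (hf : Odd f)
    (hμ : μ * f = Fintype.card F - 1) (hμe : Even μ) (hμ0 : 0 < μ)
    (hbig : 2 * k * (4 * μ) ^ (2 * k) < Fintype.card F)
    (B : Type) [Finite B] (m : B → Fin k → Fin h)
    (hm : ∀ x y : Fin h, Nat.card {t : B × Fin k × Fin k //
      t.2.1 ≠ t.2.2 ∧ m t.1 t.2.1 = x ∧ m t.1 t.2.2 = y} = μ) :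
    GD {k} (Prod.fst : F × Fin h → F) := sorry

/-! ## FoldInfl : file FoldInfl.lean (uses FoldSmall.lean, Weights.lean, Weights2.lean) -/

theorem fold_small_inflate {X P : Type} [Fintype X] (π : X → P) (k h : ℕ) (hk : 3 ≤ k)
    (hh : 1 ≤ h) (hparts : k + 2 ≤ (Finset.univ.image π).card)
    (hdeg : ∀ x, (k - 1) ∣ h * (Finset.univ.filter (fun y => π y ≠ π x)).card)
    (hE : k * (k - 1) ∣ h * h * ∑ x, (Finset.univ.filter (fun y => π y ≠ π x)).card)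
    (c : Finset X → ℝ) (c0 B : ℝ) (hc0 : 0 < c0) (hB : 0 ≤ B) (hB' : B ≤ Fintype.card X)
    (hc : ∀ b : Finset X, b.card = k → Set.InjOn π (b : Set X) → c0 ≤ c b)
    (hc' : ∀ b : Finset X, ¬ (b.card = k ∧ Set.InjOn π (b : Set X)) → c b = 0)
    (hsum : ∀ x y, π x ≠ π y →
      ∑ b ∈ Finset.univ.filter (fun b : Finset X => x ∈ b ∧ y ∈ b), c b = 1)
    (hν : ∀ x y, π x ≠ π y → 1 ≤ B * c0 * ((Finset.univ.filter (fun b : Finset X =>
      (b.card = k ∧ Set.InjOn π (b : Set X)) ∧ x ∈ b ∧ y ∈ b)).card : ℝ))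
    (L : ℕ) (hL : 2000 * (Fintype.card X * h) ^ 18 ≤ L) :
    Fold k L (fun p : X × Fin h => π p.1) := sorry

theorem fold_hole3 {k h a w L : ℕ} (hk : 3 ≤ k) (hh : 1 ≤ h) (hw : 1 ≤ w)
    (ha : (k - 2) * w + 2 ≤ a) (ha' : k + 1 ≤ a) (hd1 : (k - 1) ∣ h * a)
    (hd2 : (k - 1) ∣ h * (w - 1)) (hd3 : k * (k - 1) ∣ h * h * (a * (a + 2 * w - 1)))
    (hL : 2000 * ((a + w) * h) ^ 18 ≤ L) : Fold k L (igMap h a (h * w)) := sorry

end H108.Blueprint3
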