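import Pool.Agent.H108R2.Bound

/-!
# Conversion between `H108.IG` and Steiner systems on `Fin n`
-/

namespace H108

open Finset

theorem two_mul_choose' (n : ℕ) : 2 * n.choose 2 = n * (n - 1) := by
  rw [Nat.choose_two_right]
  exact Nat.mul_div_cancel' (Nat.even_mul_pred_self n).two_dvd

/-- necessity of the divisibility condition, `i = 0` -/
theorem necessary_zero {n q : ℕ} {B : Finset (Finset (Fin n))} (h1 : ∀ b ∈ B, b.card = q)
    (h2 : ∀ T : Finset (Fin n), T.card = 2 → ∃! b, b ∈ B ∧ T ⊆ b) :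
    q.choose 2 ∣ n.choose 2 := by
  classical
  have h := Finset.sum_card_bipartiteAbove_eq_sum_card_bipartiteBelow
    (s := powersetCard 2 (univ : Finset (Fin n))) (t := B) (fun T b => T ⊆ b)
  have e1 : ∀ T ∈ powersetCard 2 (univ : Finset (Fin n)),
      (bipartiteAbove (fun T b => T ⊆ b) B T).card = 1 := by
    intro T hT
    obtain ⟨b, ⟨hb1, hb2⟩, hb3⟩ := h2 T (mem_powersetCard.1 hT).2
    rw [card_eq_one]
    refine ⟨b, ?_⟩
    ext c
    simp only [bipartiteAbove, mem_filter, mem_singleton]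
    exact ⟨fun hc => hb3 c hc, fun hc => hc ▸ ⟨hb1, hb2⟩⟩
  have e2 : ∀ b ∈ B, (bipartiteBelow (fun T b => T ⊆ b)
      (powersetCard 2 (univ : Finset (Fin n))) b).card = q.choose 2 := by
    intro b hb
    have : bipartiteBelow (fun T b => T ⊆ b) (powersetCard 2 (univ : Finset (Fin n))) b =
        powersetCard 2 b := by
      ext T
      simp only [bipartiteBelow, mem_filter, mem_powersetCard, subset_univ, true_and]
      tauto
    rw [this, card_powersetCard, h1 b hb]
  rw [sum_congr rfl e1, sum_congr rfl e2, sum_const, sum_const, card_powersetCard,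
    card_univ, Fintype.card_fin, smul_eq_mul, smul_eq_mul, mul_one] at h
  exact ⟨B.card, by rw [h, mul_comm]⟩

/-- necessity of the divisibility condition, `i = 1` -/
theorem necessary_one {n q : ℕ} (hn : 0 < n) {B : Finset (Finset (Fin n))}
    (h1 : ∀ b ∈ B, b.card = q)
    (h2 : ∀ T : Finset (Fin n), T.card = 2 → ∃! b, b ∈ B ∧ T ⊆ b) :
    (q - 1) ∣ (n - 1) := by
  classical
  let x : Fin n := ⟨0, hn⟩
  have h := Finset.sum_card_bipartiteAbove_eq_sum_card_bipartiteBelow
    (s := (univ : Finset (Fin n)).erase x) (t := B.filter (fun b => x ∈ b)) (fun y b => y ∈ b)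
  have e1 : ∀ y ∈ (univ : Finset (Fin n)).erase x,
      (bipartiteAbove (fun y b => y ∈ b) (B.filter (fun b => x ∈ b)) y).card = 1 := by
    intro y hy
    have hxy : x ≠ y := (ne_of_mem_erase hy).symm
    obtain ⟨b, ⟨hb1, hb2⟩, hb3⟩ := h2 {x, y} (card_pair hxy)
    rw [card_eq_one]
    refine ⟨b, ?_⟩
    ext c
    simp only [bipartiteAbove, mem_filter, mem_singleton]
    constructor
    · rintro ⟨⟨hc1, hc2⟩, hc3⟩
      refine hb3 c ⟨hc1, ?_⟩
      intro z hz
      rcases mem_insert.1 hz with rfl | hz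
      · exact hc2
      · rw [mem_singleton.1 hz]; exact hc3
    · rintro rfl
      exact ⟨⟨hb1, hb2 (by simp)⟩, hb2 (by simp)⟩
  have e2 : ∀ b ∈ B.filter (fun b => x ∈ b), (bipartiteBelow (fun y b => y ∈ b)
      ((univ : Finset (Fin n)).erase x) b).card = q - 1 := by
    intro b hb
    rw [mem_filter] at hb
    have : bipartiteBelow (fun y b => y ∈ b) ((univ : Finset (Fin n)).erase x) b = b.erase x := by
      ext y
      simp only [bipartiteBelow, mem_filter, mem_erase, mem_univ, and_true]
    rw [this, card_erase_of_mem hb.2, h1 b hb.1]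
  rw [sum_congr rfl e1, sum_congr rfl e2, sum_const, sum_const, card_erase_of_mem (mem_univ _),
    card_univ, Fintype.card_fin, smul_eq_mul, smul_eq_mul, mul_one] at h
  exact ⟨_, by rw [h, mul_comm]⟩

/-- If the divisibility condition gives `IG {q} 1 n 0` at `(q, n)` then the Steiner system
`S(n,q,2)` exists iff the divisibility condition holds. -/
theorem steiner_iff {q n : ℕ} (hq : 2 ≤ q) (hn0 : 0 < n)
    (H : 3 ≤ q → Adm q n → IG {q} 1 n 0) :
    ((∃ B : Finset (Finset (Fin n)), (∀ b ∈ B, b.card = q) ∧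
        ∀ T : Finset (Fin n), T.card = 2 → ∃! b, b ∈ B ∧ T ⊆ b) ↔
      ∀ i < 2, (q - i).choose (2 - i) ∣ (n - i).choose (2 - i)) := by
  classical
  constructor
  · rintro ⟨B, h1, h2⟩ i hi
    interval_cases i
    · exact necessary_zero h1 h2
    · simpa using necessary_one hn0 h1 h2
  · intro hD
    rcases Nat.lt_or_ge q 3 with h3 | h3
    · -- all pairs
      have hq2 : q = 2 := by omega
      subst hq2
      refine ⟨powersetCard 2 univ, fun b hb => (mem_powersetCard.1 hb).2, ?_⟩
      intro T hT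
      refine ⟨T, ⟨mem_powersetCard.2 ⟨subset_univ _, hT⟩, subset_rfl⟩, ?_⟩
      rintro b ⟨hb1, hb2⟩
      exact (eq_of_subset_of_card_le hb2 (by rw [hT, (mem_powersetCard.1 hb1).2])).symm
    · have hA : Adm q n := by
        refine ⟨by simpa using hD 1 (by omega), ?_, hn0⟩
        rw [← two_mul_choose', ← two_mul_choose']
        exact mul_dvd_mul_left 2 (by simpa using hD 0 (by omega))
      have hIG := H h3 hA
      obtain ⟨B, hB1, hB2⟩ := (ig_id_iff q n (X := Fin n) (by simp)).2 hIG
      refine ⟨B.toFinset, ?_, ?_⟩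
      · intro b hb
        exact (hB1 b (by simpa using hb)).1
      · intro T hT
        obtain ⟨x, y, hxy, rfl⟩ := card_eq_two.1 hT
        obtain ⟨b, ⟨hb1, hb2, hb3⟩, hb4⟩ := hB2 x y hxy
        refine ⟨b, ⟨by simpa using hb1, ?_⟩, ?_⟩
        · intro z hz
          rcases mem_insert.1 hz with rfl | hz
          · exact hb2
          · rw [mem_singleton.1 hz]; exact hb3
        · rintro c ⟨hc1, hc2⟩
          exact hb4 c ⟨by simpa using hc1, hc2 (by simp), hc2 (by simp)⟩

end H108
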