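import Pool.Agent.H108R2.Base3
import Pool.Agent.H108R2.Sieve2c
import Pool.Agent.H108R2.Conv

namespace H108

open Nat

/-- the upper bound for the primes -/
def XX (k : ℕ) : ℕ := 4 * L00 k

theorem XX_le {k : ℕ} (hk : 3 ≤ k) : XX k ≤ k ^ 183 := by
  unfold XX L00 X3
  have h1 : 3 ^ 111 ≤ k ^ 111 := Nat.pow_le_pow_left hk 111
  have h2 : 4 * (2000 * 500 ^ 18) ≤ 3 ^ 111 := by norm_num
  calc 4 * (2000 * (500 * k ^ 4) ^ 18) = (4 * (2000 * 500 ^ 18)) * k ^ 72 := by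
        rw [mul_pow, ← pow_mul]; ring
    _ ≤ k ^ 111 * k ^ 72 := Nat.mul_le_mul_right _ (h2.trans h1)
    _ = k ^ 183 := by ring

/-- a good exponent -/
theorem exists_exp {k : ℕ} (hk : 3 ≤ k) : ∃ N, Even N ∧ 8 * k + 1 ≤ N ∧ N ≤ 12 * k ∧
    Nat.totient (4 * k) ∣ N := by
  have h1 : Even (Nat.totient (4 * k)) := Nat.totient_even (by omega)
  have h2 : 0 < Nat.totient (4 * k) := Nat.totient_pos.2 (by omega)
  have h3 : Nat.totient (4 * k) ≤ 4 * k := Nat.totient_le _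
  obtain ⟨q, hq⟩ : ∃ q, q = 8 * k / Nat.totient (4 * k) := ⟨_, rfl⟩
  refine ⟨Nat.totient (4 * k) * (q + 1), h1.mul_right _, ?_, ?_, Nat.dvd_mul_right _ _⟩
  · have := Nat.lt_mul_div_succ (8 * k) h2
    rw [← hq] at this
    omega
  · have : Nat.totient (4 * k) * q ≤ 8 * k := by rw [hq]; exact Nat.mul_div_le _ _
    rw [Nat.mul_succ]; omega

theorem exists_good3 {k N y : ℕ} (hk : 3 ≤ k) (hN : Even N) (h1 : 8 * k + 1 ≤ N)
    (h2 : N ≤ 12 * k) (h3 : Nat.totient (4 * k) ∣ N) (hy : L00 k ≤ y) :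
    ∃ L, Good3 k L N ∧ y < L ∧ L ≤ 2 * y := by
  have hb := L00_ge hk
  have hk4 : 1 ≤ k ^ 4 := Nat.one_le_pow _ _ (by omega)
  have hk1 : k ^ 1 ≤ k ^ 4 := Nat.pow_le_pow_right (by omega) (by omega)
  rw [pow_one] at hk1
  obtain ⟨L, hL, hyL, hLy⟩ := Nat.exists_prime_lt_and_le_two_mul y (by omega)
  refine ⟨L, ⟨hL, by omega, hN, h1, by omega, ?_⟩, hyL, hLy⟩
  obtain ⟨t, rfl⟩ := h3
  have hc : Nat.Coprime L (4 * k) := by
    refine (Nat.Prime.coprime_iff_not_dvd hL).2 fun hd => ?_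
    have := Nat.le_of_dvd (by omega) hd
    omega
  rw [pow_mul]
  have := (Nat.ModEq.pow_totient hc).pow t
  rwa [one_pow] at this

theorem main3 {k v : ℕ} (hk : 3 ≤ k) (hA : Adm k v) (hv : k ^ (10 ^ 7 * k) ≤ v) :
    IG {k} 1 v 0 := by
  obtain ⟨N, hN1, hN2, hN3, hN4⟩ := exists_exp hk
  obtain ⟨L1, g1, hL1a, hL1b⟩ := exists_good3 (y := L00 k) hk hN1 hN2 hN3 hN4 le_rfl
  obtain ⟨L3, g2, hL3a, hL3b⟩ := exists_good3 (y := 2 * L00 k) hk hN1 hN2 hN3 hN4 (by omega)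
  have hB := base3_exists hk g1
  have hG3 : ¬ L3 ∣ k * g3 k L1 N := not_dvd_G3 hk g1 g2.prime g2.big (by omega)
  have hX1 : L1 ≤ XX k := by unfold XX; omega
  have hX3 : L3 ≤ XX k := by unfold XX; omega
  have hkp : ∀ {a b : ℕ}, a ≤ b → k ^ a ≤ k ^ b := fun h => Nat.pow_le_pow_right (by omega) h
  have hk1 : ∀ a, 1 ≤ k ^ a := fun a => Nat.one_le_pow _ _ (by omega)
  have hpw : ∀ L, L ≤ XX k → L ^ N ≤ k ^ (2196 * k) := by
    intro L hL
    calc L ^ N ≤ (k ^ 183) ^ N := Nat.pow_le_pow_left (hL.trans (XX_le hk)) N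
      _ = k ^ (183 * N) := by rw [← pow_mul]
      _ ≤ k ^ (2196 * k) := hkp (by omega)
  -- the numbers `A` and `G`
  set A := k * (L1 ^ N * (k * KK2 k * V3 k)) with hAdef
  set G := k * g3 k L1 N with hGdef
  have bA : A ≤ k ^ (2198 * k + 8) := by
    calc A ≤ k * (k ^ (2196 * k) * (k * k ^ (2 * k + 2) * k ^ 4)) := by
          rw [hAdef]
          exact Nat.mul_le_mul_left _ (Nat.mul_le_mul (hpw L1 hX1)
            (Nat.mul_le_mul (Nat.mul_le_mul_left _ (KK2_le hk)) (V3_le hk)))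
      _ = k ^ (2198 * k + 8) := by
          rw [show 2198 * k + 8 = 2196 * k + (2 * k + 2) + 4 + 1 + 1 by ring]
          simp only [pow_add, pow_one]; ring
  have bG : G ≤ k ^ (2198 * k + 9) := by
    have h1 : (k - 1) * A = G := hB.as_mul
    calc G = (k - 1) * A := h1.symm
      _ ≤ k * k ^ (2198 * k + 8) := Nat.mul_le_mul (by omega) bA
      _ = k ^ (2198 * k + 9) := by rw [pow_succ k (2198 * k + 8)]; ring
  set z := A * (100 * k ^ 2) + 1 with hz
  have bz : z ≤ k ^ (2198 * k + 16) := by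
    have h1 : 3 ^ 5 ≤ k ^ 5 := Nat.pow_le_pow_left hk 5
    have h2 : 100 * k ^ 2 ≤ k ^ 7 := by
      calc 100 * k ^ 2 ≤ k ^ 5 * k ^ 2 := Nat.mul_le_mul_right _ (by omega)
        _ = k ^ 7 := by ring
    have h3 : A * (100 * k ^ 2) ≤ k ^ (2198 * k + 15) := by
      calc A * (100 * k ^ 2) ≤ k ^ (2198 * k + 8) * k ^ 7 := Nat.mul_le_mul bA h2
        _ = k ^ (2198 * k + 15) := by rw [← pow_add]
    have h4 := hk1 (2198 * k + 15)
    calc z ≤ 2 * k ^ (2198 * k + 15) := by omega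
      _ ≤ k * k ^ (2198 * k + 15) := Nat.mul_le_mul_right _ (by omega)
      _ = k ^ (2198 * k + 16) := by rw [pow_succ k (2198 * k + 15)]; ring
  set W := (k - 1) * L3 ^ N * (V3 k + A) + 1 with hW
  have bW : W ≤ k ^ (4394 * k + 11) := by
    have h1 : V3 k ≤ k ^ (2198 * k + 8) := (V3_le hk).trans (hkp (by omega))
    have h2 : V3 k + A ≤ k ^ (2198 * k + 9) := by
      calc V3 k + A ≤ 2 * k ^ (2198 * k + 8) := by omega
        _ ≤ k * k ^ (2198 * k + 8) := Nat.mul_le_mul_right _ (by omega)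
        _ = k ^ (2198 * k + 9) := by rw [pow_succ k (2198 * k + 8)]; ring
    have h3 : (k - 1) * L3 ^ N * (V3 k + A) ≤ k ^ (4394 * k + 10) := by
      calc (k - 1) * L3 ^ N * (V3 k + A) ≤ k * k ^ (2196 * k) * k ^ (2198 * k + 9) :=
            Nat.mul_le_mul (Nat.mul_le_mul (by omega) (hpw L3 hX3)) h2
        _ = k ^ (4394 * k + 10) := by
            rw [show 4394 * k + 10 = 2196 * k + (2198 * k + 9) + 1 by ring]
            simp only [pow_add, pow_one]; ring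
    have h4 := hk1 (4394 * k + 10)
    calc W ≤ 2 * k ^ (4394 * k + 10) := by omega
      _ ≤ k * k ^ (4394 * k + 10) := Nat.mul_le_mul_right _ (by omega)
      _ = k ^ (4394 * k + 11) := by rw [pow_succ k (4394 * k + 10)]; ring
  obtain ⟨T, hT⟩ : ∃ T, T = k ^ (249 * (2198 * k + 16)) := ⟨_, rfl⟩
  have hle : ∀ {a}, a ≤ 249 * (2198 * k + 16) → k ^ a ≤ T := fun h => by rw [hT]; exact hkp h
  have hLsT : z ^ 249 ≤ T := by
    calc z ^ 249 ≤ (k ^ (2198 * k + 16)) ^ 249 := Nat.pow_le_pow_left bz 249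
      _ = T := by rw [hT, ← pow_mul]; ring_nf
  have hz2 : 2 ^ 128 < z := by
    have h1 : A ≤ A * (100 * k ^ 2) := Nat.le_mul_of_pos_right _ (by positivity)
    have h2 : L1 ≤ A := by
      have h3 : 0 < k * KK2 k * V3 k := by
        have := KK2_pos k
        have : 0 < V3 k := by unfold V3; omega
        positivity
      calc L1 = L1 ^ 1 := (pow_one _).symm
        _ ≤ L1 ^ N := Nat.pow_le_pow_right g1.prime.pos (by omega)
        _ ≤ L1 ^ N * (k * KK2 k * V3 k) := Nat.le_mul_of_pos_right _ h3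
        _ ≤ A := Nat.le_mul_of_pos_left _ (by omega)
    have h5 : 2 ^ 128 ≤ L00 k := by
      unfold L00 X3
      have h6 : 500 ≤ 500 * k ^ 4 := Nat.le_mul_of_pos_right _ (pow_pos (by omega) 4)
      calc 2 ^ 128 ≤ 2000 * 500 ^ 18 := by norm_num
        _ ≤ 2000 * (500 * k ^ 4) ^ 18 := Nat.mul_le_mul_left _ (Nat.pow_le_pow_left h6 18)
    omega
  have hT8 : 8 ≤ T := by
    have h1 : 3 ^ 2 ≤ k ^ 2 := Nat.pow_le_pow_left hk 2
    have h2 : k ^ 2 ≤ T := hle (by omega)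
    omega
  have hkT : k + 2 ≤ T := by
    have h1 : k + 2 ≤ k ^ 2 := by nlinarith
    exact h1.trans (hle (by omega))
  refine final3 hB g2 hG3 (Ls := z ^ 249)
    (fun A' a0 Y hA' h => sieve2c z A' a0 Y hz2 hA' h) hA hW ?_
  refine le_trans (V0_poly (T := T) hT8 hkT (bW.trans (hle (by omega)))
    (bG.trans (hle (by omega))) (bA.trans (hle (by omega))) hLsT) ?_
  refine le_trans ?_ hv
  rw [hT, ← pow_mul]
  apply hkp
  have : (10 : ℕ) ^ 7 = 10000000 := by norm_num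
  rw [this]
  omega

end H108
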