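import Mathlib

/-!
# Group divisible decompositions of complete multipartite graphs

Basic definitions for the single-exponential bound in Wilson's theorem.
All types live in `Type`.
-/

namespace H108

/-- `GD K π`: the complete multipartite graph on `X` whose parts are the fibres of `π`
decomposes into cliques (transversal blocks) whose sizes lie in `K`. -/
def GD {X P : Type} (K : Set ℕ) (π : X → P) : Prop :=
  ∃ B : Set (Finset X), (∀ b ∈ B, b.card ∈ K ∧ Set.InjOn π (b : Set X)) ∧
    ∀ x y, π x ≠ π y → ∃! b, b ∈ B ∧ x ∈ b ∧ y ∈ b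

/-- part map of type `g^a w^1` : `a` groups of size `g` and one group (the hole) of size `w` -/
def igMap (g a w : ℕ) : (Fin a × Fin g) ⊕ Fin w → Option (Fin a) :=
  Sum.elim (fun p => some p.1) (fun _ => none)

/-- decomposition of type `g^a w^1`.
`IG {k} 1 v 0` says that a Steiner system `S(2,k,v)` exists;
`IG K g u 0` is a GDD of type `g^u`;
`IG K 1 a w` is an incomplete design on `a + w` points with a hole of size `w`. -/
def IG (K : Set ℕ) (g a w : ℕ) : Prop := GD K (igMap g a w)

/-- `m` is the order of a finite commutative ring with `N` elements whose differences are units -/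
def Nice (N m : ℕ) : Prop :=
  ∃ (R : Type) (_ : CommRing R) (_ : Fintype R) (x : Fin N → R),
    Fintype.card R = m ∧ ∀ i j, i ≠ j → IsUnit (x i - x j)

/-- `L`-fold decomposition (repeated blocks allowed) into transversal `k`-sets -/
def Fold {X P : Type} (k L : ℕ) (π : X → P) : Prop :=
  ∃ (J : Type) (_ : Finite J) (b : J → Finset X),
    (∀ j, (b j).card = k ∧ Set.InjOn π (b j : Set X)) ∧
      ∀ x y, π x ≠ π y → Nat.card {j // x ∈ b j ∧ y ∈ b j} = L

/-- the linear system used to reduce the index `L` to `1` by inflating points `g` times -/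
def Sys (X : Type) (L g : ℕ) : Prop :=
  ∃ (A T C : Type) (_ : AddCommGroup A) (_ : AddCommGroup T) (_ : AddCommGroup C)
    (_ : Finite A) (_ : Finite T) (_ : Finite C)
    (φ : X → T →+ A) (κ : X → X → A →+ C),
    Nat.card A = g ∧ Nat.card C = L ∧
    (∀ x y a, κ y x a = - κ x y a) ∧
    (∀ x y, x ≠ y → ∀ a, κ x y a = 0 → ∃! t, φ x t - φ y t = a) ∧
    (∀ x y t, x ≠ y → κ x y (φ x t - φ y t) = 0) ∧
    (∀ x, ∀ z : X → C, ∃ a, ∀ y, y ≠ x → κ x y a = z y)

/-- admissible numbers for block size `k` : condition (D) for `S(2,k,v)` -/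
def Adm (k v : ℕ) : Prop := (k - 1) ∣ (v - 1) ∧ k * (k - 1) ∣ v * (v - 1) ∧ 1 ≤ v

/-- the type of the truncated transversal design: `s` groups of size `p` and groups of sizes
`t1`, `t2` -/
def tdSize (s p t1 t2 : ℕ) (i : Fin (s + 2)) : ℕ :=
  if i.val < s then p else if i.val = s then t1 else t2

end H108
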