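import Mathlib
import Pool.Agent.H108R2.Defs

namespace H108

theorem closure {k : ℕ} (hk : 3 ≤ k) (S : ℕ → Prop)
    (base : ∀ J, k + 2 ≤ J → J ≤ 100 * k ^ 2 → S J)
    (step : ∀ s p t1 t2, p.Prime → k + 2 ≤ s → s + 2 ≤ 100 * k ^ 2 → s + 2 ≤ p →
      t1 ≤ p → t2 ≤ p → (t1 = 0 ∨ (k + 2 ≤ t1 ∧ S t1)) → (t2 = 0 ∨ (k + 2 ≤ t2 ∧ S t2)) →
      S p → S (s * p + t1 + t2)) :
    ∀ J, k + 2 ≤ J → S J := by
  intro J
  induction J using Nat.strong_induction_on with
  | _ J ih =>
    intro hJ
    by_cases hsm : J ≤ 100 * k ^ 2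
    · exact base J hJ hsm
    push Not at hsm
    obtain ⟨x, hx⟩ : ∃ x, x = J / (2 * (k + 4)) := ⟨_, rfl⟩
    have hpos : 0 < 2 * (k + 4) := by omega
    have h1 : x * (2 * (k + 4)) ≤ J := by rw [hx]; exact Nat.div_mul_le_self _ _
    have h2 : J < (x + 1) * (2 * (k + 4)) := by
      rw [hx]
      exact Nat.lt_mul_of_div_lt (Nat.lt_succ_self _) hpos
    have h3 : 2 * k + 8 ≤ x := by
      rw [hx, Nat.le_div_iff_mul_le hpos]
      nlinarith
    obtain ⟨p, hp, hxp, hpx⟩ := Nat.exists_prime_lt_and_le_two_mul x (by omega)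
    have hp0 : 0 < p := hp.pos
    obtain ⟨q, hq⟩ : ∃ q, q = J / p := ⟨_, rfl⟩
    obtain ⟨r, hr⟩ : ∃ r, r = J % p := ⟨_, rfl⟩
    have hJqr : q * p + r = J := by rw [hq, hr]; exact Nat.div_add_mod' J p
    have hrp : r < p := by rw [hr]; exact Nat.mod_lt _ hp0
    have hq1 : k + 4 ≤ q := by
      rw [hq, Nat.le_div_iff_mul_le hp0]
      nlinarith
    have hq2 : q ≤ 2 * k + 7 := by
      by_contra hcon
      push Not at hcon
      have : (2 * k + 8) * p ≤ q * p := Nat.mul_le_mul_right _ (by omega)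
      have h4 : (x + 1) * (2 * (k + 4)) ≤ (2 * k + 8) * p := by
        have : (x + 1) ≤ p := hxp
        nlinarith
      omega
    obtain ⟨s, hs⟩ : ∃ s, q = s + 1 := ⟨q - 1, by omega⟩
    have hk2 : 2 * k + 8 ≤ 100 * k ^ 2 := by nlinarith
    have hpJ : p < J := by
      rw [← hJqr]
      nlinarith
    have hSp : S p := ih p hpJ (by omega)
    have key : J = s * p + p + r := by
      rw [← hJqr, hs]; ring
    by_cases hr0 : r = 0
    · have := step s p p 0 hp (by omega) (by omega) (by omega) le_rfl (by omega)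
        (Or.inr ⟨by omega, hSp⟩) (Or.inl rfl) hSp
      rw [key, hr0]
      exact this
    · by_cases hrk : k + 2 ≤ r
      · have := step s p p r hp (by omega) (by omega) (by omega) le_rfl hrp.le
          (Or.inr ⟨by omega, hSp⟩) (Or.inr ⟨hrk, ih r (by omega) hrk⟩) hSp
        rw [key]
        exact this
      · push Not at hrk
        have hkJ : k + 2 < J := by omega
        have := step s p (k + 2) (p + r - (k + 2)) hp (by omega) (by omega) (by omega) (by omega)
          (by omega)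
          (Or.inr ⟨le_rfl, ih (k + 2) hkJ le_rfl⟩)
          (Or.inr ⟨by omega, ih (p + r - (k + 2)) (by omega) (by omega)⟩) hSp
        have h5 : s * p + (k + 2) + (p + r - (k + 2)) = J := by
          rw [key]; omega
        rw [h5] at this
        exact this

end H108
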