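import Pool.Agent.H108R2.Defs

/-!
Nice orders and truncated transversal designs.
-/

namespace H108

open Set Function

theorem nice_one (N : ℕ) : Nice N 1 := by
  refine ⟨PUnit, inferInstance, inferInstance, fun _ => PUnit.unit, ?_, ?_⟩
  · simp
  · intro i j _
    exact isUnit_of_subsingleton _

theorem nice_mul {N a b : ℕ} (h : Nice N a) (h' : Nice N b) : Nice N (a * b) := by
  obtain ⟨R, _, _, x, hR, hx⟩ := h
  obtain ⟨S, _, _, y, hS, hy⟩ := h'
  refine ⟨R × S, inferInstance, inferInstance, fun i => (x i, y i), ?_, ?_⟩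
  · rw [Fintype.card_prod, hR, hS]
  · intro i j hij
    rw [Prod.isUnit_iff]
    exact ⟨hx i j hij, hy i j hij⟩

theorem nice_mono {N N' m : ℕ} (h : Nice N m) (hN : N' ≤ N) : Nice N' m := by
  obtain ⟨R, _, _, x, hR, hx⟩ := h
  refine ⟨R, inferInstance, inferInstance, fun i => x (Fin.castLE hN i), hR, ?_⟩
  intro i j hij
  exact hx _ _ (fun h => hij (Fin.castLE_injective hN h))

theorem nice_prime_pow {N p e : ℕ} (hp : p.Prime) (he : e ≠ 0) (h : N ≤ p ^ e) :
    Nice N (p ^ e) := by
  haveI : Fact p.Prime := ⟨hp⟩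
  letI : Fintype (GaloisField p e) := Fintype.ofFinite _
  have hcard : Fintype.card (GaloisField p e) = p ^ e := by
    rw [← Nat.card_eq_fintype_card, GaloisField.card p e he]
  have hle : Fintype.card (Fin N) ≤ Fintype.card (GaloisField p e) := by
    rw [Fintype.card_fin, hcard]
    exact h
  obtain ⟨f⟩ := Function.Embedding.nonempty_of_card_le hle
  refine ⟨GaloisField p e, inferInstance, inferInstance, f, hcard, ?_⟩
  intro i j hij
  exact (sub_ne_zero.2 (fun h => hij (f.injective h))).isUnit

theorem nice_of_pp {N m : ℕ} (hm : 0 < m)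
    (h : ∀ p, p.Prime → p ∣ m → N ≤ p ^ m.factorization p) : Nice N m := by
  have key : ∀ s : Finset ℕ, (∀ p ∈ s, p.Prime ∧ p ∣ m) →
      Nice N (∏ p ∈ s, p ^ m.factorization p) := by
    classical
    intro s
    induction s using Finset.induction_on with
    | empty =>
      intro _
      simpa using nice_one N
    | insert p s hp ih =>
      intro hs
      rw [Finset.prod_insert hp]
      obtain ⟨h1, h2⟩ := hs p (Finset.mem_insert_self _ _)
      refine nice_mul (nice_prime_pow h1 ?_ (h p h1 h2)) (ih fun q hq =>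
        hs q (Finset.mem_insert_of_mem hq))
      exact (h1.factorization_pos_of_dvd hm.ne' h2).ne'
  have h1 := key m.primeFactors (fun p hp => ⟨Nat.prime_of_mem_primeFactors hp,
    Nat.dvd_of_mem_primeFactors hp⟩)
  have h2 : ∏ p ∈ m.primeFactors, p ^ m.factorization p = m := by
    have := Nat.factorization_prod_pow_eq_self hm.ne'
    rwa [Finsupp.prod, Nat.support_factorization] at this
  rwa [h2] at h1

/-- truncated transversal design -/
theorem ttd {N m : ℕ} (hN : Nice N m) (t : Fin N → ℕ) (ht : ∀ i, t i ≤ m) :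
    GD (Set.Icc (Finset.univ.filter (fun i => t i = m)).card N)
      (Sigma.fst : (Σ i : Fin N, Fin (t i)) → Fin N) := by
  classical
  obtain ⟨R, _, _, x, hR, hx⟩ := hN
  let e : R ≃ Fin m := Fintype.equivFinOfCardEq hR
  let blk : R × R → Finset (Σ i : Fin N, Fin (t i)) := fun q =>
    Finset.univ.filter fun z => (e (q.1 + q.2 * x z.1)).1 = z.2.1
  have hmem : ∀ q z, z ∈ blk q ↔ (e (q.1 + q.2 * x z.1)).1 = z.2.1 := by
    intro q z
    simp [blk]
  have hinj : ∀ q, Set.InjOn Sigma.fst (blk q : Set (Σ i : Fin N, Fin (t i))) := by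
    rintro q ⟨i, a⟩ h1 ⟨j, a'⟩ h2 h
    rw [Finset.mem_coe, hmem] at h1 h2
    change i = j at h
    subst h
    change (e (q.1 + q.2 * x i)).1 = a.1 at h1
    change (e (q.1 + q.2 * x i)).1 = a'.1 at h2
    have : a = a' := Fin.ext (h1.symm.trans h2)
    rw [this]
  refine ⟨range blk, ?_, ?_⟩
  · rintro _ ⟨q, rfl⟩
    refine ⟨⟨?_, ?_⟩, hinj q⟩
    · -- lower bound
      have h1 : (Finset.univ.filter (fun i => t i = m)) ⊆ (blk q).image Sigma.fst := by
        intro i hi
        rw [Finset.mem_filter] at hi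
        rw [Finset.mem_image]
        refine ⟨⟨i, ⟨(e (q.1 + q.2 * x i)).1, ?_⟩⟩, ?_, rfl⟩
        · rw [hi.2]
          exact (e (q.1 + q.2 * x i)).2
        · rw [hmem]
      exact (Finset.card_le_card h1).trans Finset.card_image_le
    · have h1 : (blk q).card = ((blk q).image Sigma.fst).card :=
        (Finset.card_image_of_injOn (hinj q)).symm
      rw [h1]
      exact (Finset.card_le_univ _).trans (by rw [Fintype.card_fin])
  · rintro ⟨i, a⟩ ⟨j, b⟩ hij
    change i ≠ j at hij
    obtain ⟨u, hu⟩ := hx i j hij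
    -- values
    let α : R := e.symm ⟨a.1, a.2.trans_le (ht i)⟩
    let β : R := e.symm ⟨b.1, b.2.trans_le (ht j)⟩
    have hα : e α = ⟨a.1, a.2.trans_le (ht i)⟩ := Equiv.apply_symm_apply _ _
    have hβ : e β = ⟨b.1, b.2.trans_le (ht j)⟩ := Equiv.apply_symm_apply _ _
    have hA : ∀ q, (⟨i, a⟩ : Σ i : Fin N, Fin (t i)) ∈ blk q ↔ q.1 + q.2 * x i = α := by
      intro q
      rw [hmem]
      constructor
      · intro h
        apply e.injective
        rw [hα]
        exact Fin.ext h
      · intro h
        change (e (q.1 + q.2 * x i)).1 = a.1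
        rw [h, hα]
    have hB : ∀ q, (⟨j, b⟩ : Σ i : Fin N, Fin (t i)) ∈ blk q ↔ q.1 + q.2 * x j = β := by
      intro q
      rw [hmem]
      constructor
      · intro h
        apply e.injective
        rw [hβ]
        exact Fin.ext h
      · intro h
        change (e (q.1 + q.2 * x j)).1 = b.1
        rw [h, hβ]
    let s : R := (α - β) * (u⁻¹ : Rˣ)
    have hs : s * (x i - x j) = α - β := by
      rw [← hu]
      change (α - β) * (u⁻¹ : Rˣ) * (u : R) = α - β
      rw [Units.inv_mul_cancel_right]
    let q0 : R × R := (α - s * x i, s)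
    refine ⟨blk q0, ⟨⟨q0, rfl⟩, ?_, ?_⟩, ?_⟩
    · rw [hA]
      change α - s * x i + s * x i = α
      ring
    · rw [hB]
      change α - s * x i + s * x j = β
      linear_combination -hs
    · rintro _ ⟨⟨q, rfl⟩, h1, h2⟩
      rw [hA] at h1
      rw [hB] at h2
      have h3 : q.2 * (x i - x j) = α - β := by
        linear_combination h1 - h2
      have h4 : q.2 = s := by
        have : q.2 * (u : R) = s * (u : R) := by
          rw [hu, h3, hs]
        exact (Units.mul_left_inj u).1 this
      have h5 : q = q0 := by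
        refine Prod.ext ?_ h4
        change q.1 = α - s * x i
        rw [← h4]
        linear_combination h1
      rw [h5]

end H108
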