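import Pool.Agent.H108R2.IGops2
import Pool.Agent.H108R2.NiceTD
import Pool.Agent.H108R2.DF

namespace H108

/-- Designs on the points of a finite field whose order is a large power. -/
theorem field_mem {k Θ p e : ℕ} (hk : 3 ≤ k) (hΘ : Nat.totient (k * (k - 1)) ∣ Θ)
    (hΘ2 : (2 * k ^ 2) ^ (2 * k + 3) ≤ 2 ^ Θ) (hp : p.Prime) (he : 0 < e)
    (hc : Nat.Coprime (p ^ e) (k * (k - 1))) :
    IG {k} 1 ((p ^ e) ^ Θ) 0 ∧ Nice k ((p ^ e) ^ Θ) := by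
  have hbase : 1 < (2 * k ^ 2) ^ (2 * k + 3) :=
    Nat.one_lt_pow (by omega) (by nlinarith)
  have hΘ0 : Θ ≠ 0 := by
    rintro rfl
    rw [pow_zero] at hΘ2
    omega
  have hq2 : 2 ^ Θ ≤ (p ^ e) ^ Θ := by
    apply Nat.pow_le_pow_left
    calc 2 ≤ p := hp.two_le
      _ = p ^ 1 := (pow_one p).symm
      _ ≤ p ^ e := Nat.pow_le_pow_right hp.pos he
  have hbig : (2 * k ^ 2) ^ (2 * k + 3) ≤ (p ^ e) ^ Θ := hΘ2.trans hq2
  have hk1 : k ≤ (p ^ e) ^ Θ := by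
    refine le_trans ?_ hbig
    calc k ≤ 2 * k ^ 2 := by nlinarith
      _ = (2 * k ^ 2) ^ 1 := (pow_one _).symm
      _ ≤ (2 * k ^ 2) ^ (2 * k + 3) := Nat.pow_le_pow_right (by positivity) (by omega)
  have hmod : k * (k - 1) ∣ (p ^ e) ^ Θ - 1 := by
    obtain ⟨m, rfl⟩ := hΘ
    have h1 : (p ^ e) ^ Nat.totient (k * (k - 1)) ≡ 1 [MOD k * (k - 1)] :=
      Nat.ModEq.pow_totient hc
    have h2 : (p ^ e) ^ (Nat.totient (k * (k - 1)) * m) ≡ 1 [MOD k * (k - 1)] := by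
      rw [pow_mul]
      have := h1.pow m
      rwa [one_pow] at this
    exact (Nat.modEq_iff_dvd' (Nat.one_le_pow _ _ (Nat.pos_of_ne_zero (pow_ne_zero _ hp.ne_zero)))).1
      h2.symm
  rw [← pow_mul] at hbig hk1 hmod ⊢
  have : Fact p.Prime := ⟨hp⟩
  have hn : e * Θ ≠ 0 := Nat.mul_ne_zero he.ne' hΘ0
  have : Finite (GaloisField p (e * Θ)) := inferInstance
  have : Fintype (GaloisField p (e * Θ)) := Fintype.ofFinite _
  have hcard : Fintype.card (GaloisField p (e * Θ)) = p ^ (e * Θ) := by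
    rw [← Nat.card_eq_fintype_card]; exact GaloisField.card p _ hn
  refine ⟨?_, nice_prime_pow hp hn hk1⟩
  have hG := df_field (GaloisField p (e * Θ)) k hk (by rw [hcard]; exact hmod)
    (by rw [hcard]; exact hbig)
  set q := p ^ (e * Θ) with hq
  let e1 : GaloisField p (e * Θ) ≃ Fin q := Fintype.equivFinOfCardEq hcard
  let e2 : Fin q ≃ (Fin q × Fin 1) ⊕ Fin 0 :=
    (Equiv.prodUnique (Fin q) (Fin 1)).symm.trans (Equiv.sumEmpty (Fin q × Fin 1) (Fin 0)).symm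
  refine GD_congr (π' := igMap 1 q 0) (e1.trans e2) ?_ hG
  intro x y
  have h1 : ∀ z, igMap 1 q 0 ((e1.trans e2) z) = some (e1 z) := fun z => rfl
  rw [h1, h1, id, id, Option.some_inj]
  exact e1.injective.eq_iff.symm

theorem pow_mem_aux {k Θ : ℕ} (hk : 3 ≤ k) (hΘ : Nat.totient (k * (k - 1)) ∣ Θ)
    (hΘ2 : (2 * k ^ 2) ^ (2 * k + 3) ≤ 2 ^ Θ) (V : ℕ) : 0 < V →
    Nat.Coprime V (k * (k - 1)) → IG {k} 1 (V ^ Θ) 0 ∧ Nice k (V ^ Θ) := by
  induction V using Nat.recOnPosPrimePosCoprime with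
  | prime_pow p n hp hn =>
    intro _ hc
    exact field_mem hk hΘ hΘ2 hp hn hc
  | zero => intro h; omega
  | one =>
    intro _ _
    rw [one_pow]
    exact ⟨ig_one _ _, nice_one _⟩
  | coprime a b ha hb hab iha ihb =>
    intro _ hc
    obtain ⟨h1, h2⟩ := iha (by omega) (Nat.Coprime.coprime_mul_right hc)
    obtain ⟨h3, h4⟩ := ihb (by omega) (Nat.Coprime.coprime_mul_left hc)
    rw [mul_pow]
    exact ⟨ig_product h1 h3 h4, nice_mul h2 h4⟩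

theorem pow_mem {k Θ V : ℕ} (hk : 3 ≤ k) (hΘ : Nat.totient (k * (k - 1)) ∣ Θ)
    (hΘ2 : (2 * k ^ 2) ^ (2 * k + 3) ≤ 2 ^ Θ) (hV : 0 < V)
    (hc : Nat.Coprime V (k * (k - 1))) : IG {k} 1 (V ^ Θ) 0 :=
  (pow_mem_aux hk hΘ hΘ2 V hV hc).1

end H108
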