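import Pool.Agent.H108R2.Defs

namespace H108

/-- `Sys` with the interpolation property restricted to `k`-sets -/
def SysK (X : Type) (k L g : ℕ) : Prop :=
  ∃ (A T C : Type) (_ : AddCommGroup A) (_ : AddCommGroup T) (_ : AddCommGroup C)
    (_ : Finite A) (_ : Finite T) (_ : Finite C)
    (φ : X → T →+ A) (κ : X → X → A →+ C),
    Nat.card A = g ∧ Nat.card C = L ∧
    (∀ x y a, κ y x a = - κ x y a) ∧
    (∀ x y, x ≠ y → ∀ a, κ x y a = 0 → ∃! t, φ x t - φ y t = a) ∧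
    (∀ x y t, x ≠ y → κ x y (φ x t - φ y t) = 0) ∧
    (∀ b : Finset X, b.card = k → ∀ x ∈ b, ∀ z : X → C, ∃ a, ∀ y ∈ b, y ≠ x → κ x y a = z y)

end H108
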