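import Pool.Agent.H108R2.Defs

/-!
# The linear system used for index reduction (task S)
-/

namespace H108

open Polynomial

/-! ## products -/

theorem sys_one (X : Type) : Sys X 1 1 := by
  refine ⟨PUnit, PUnit, PUnit, inferInstance, inferInstance, inferInstance, inferInstance,
    inferInstance, inferInstance, fun _ => 0, fun _ _ => 0, by simp, by simp, ?_, ?_, ?_, ?_⟩
  · intro x y a; rfl
  · intro x y _ a _
    exact ⟨PUnit.unit, rfl, fun t _ => rfl⟩
  · intro x y t _; rfl
  · intro x z
    exact ⟨PUnit.unit, fun y _ => rfl⟩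

theorem sys_mul {X : Type} {L g L' g' : ℕ} (h : Sys X L g) (h' : Sys X L' g') :
    Sys X (L * L') (g * g') := by
  obtain ⟨A, T, C, iA, iT, iC, fA, fT, fC, φ, κ, hA, hC, h1, h2, h3, h4⟩ := h
  obtain ⟨A', T', C', iA', iT', iC', fA', fT', fC', φ', κ', hA', hC', h1', h2', h3', h4'⟩ := h'
  refine ⟨A × A', T × T', C × C', inferInstance, inferInstance, inferInstance, inferInstance,
    inferInstance, inferInstance, fun x => (φ x).prodMap (φ' x),
    fun x y => (κ x y).prodMap (κ' x y), ?_, ?_, ?_, ?_, ?_, ?_⟩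
  · rw [Nat.card_prod, hA, hA']
  · rw [Nat.card_prod, hC, hC']
  · rintro x y ⟨a, a'⟩
    simp [h1 x y, h1' x y]
  · rintro x y hxy ⟨a, a'⟩ ha
    simp only [AddMonoidHom.coe_prodMap, Prod.map_apply, Prod.mk_eq_zero] at ha
    obtain ⟨t, ht, hu⟩ := h2 x y hxy a ha.1
    obtain ⟨t', ht', hu'⟩ := h2' x y hxy a' ha.2
    refine ⟨(t, t'), ?_, ?_⟩
    · simp only [AddMonoidHom.coe_prodMap, Prod.map_apply, Prod.mk_sub_mk, Prod.mk.injEq]
      exact ⟨ht, ht'⟩
    · rintro ⟨s, s'⟩ hs
      simp only [AddMonoidHom.coe_prodMap, Prod.map_apply, Prod.mk_sub_mk, Prod.mk.injEq] at hs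
      rw [hu s hs.1, hu' s' hs.2]
  · rintro x y ⟨t, t'⟩ hxy
    simp only [AddMonoidHom.coe_prodMap, Prod.map_apply, Prod.mk_sub_mk, Prod.mk_eq_zero]
    exact ⟨h3 x y t hxy, h3' x y t' hxy⟩
  · intro x z
    obtain ⟨a, ha⟩ := h4 x (fun y => (z y).1)
    obtain ⟨a', ha'⟩ := h4' x (fun y => (z y).2)
    refine ⟨(a, a'), fun y hy => ?_⟩
    simp only [AddMonoidHom.coe_prodMap, Prod.map_apply]
    exact Prod.ext (ha y hy) (ha' y hy)

/-! ## generic points in a finite field -/

section field

variable {p : ℕ} [Fact p.Prime] {F : Type} [Field F] [Finite F] [Algebra (ZMod p) F]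

/-- all families `(x - y)⁻¹`, `y ∈ S \ {x}`, are linearly independent -/
def GoodPts (p : ℕ) [Fact p.Prime] {F : Type} [Field F] [Algebra (ZMod p) F]
    (S : Set F) : Prop :=
  ∀ x ∈ S, LinearIndepOn (ZMod p) (fun y => (x - y)⁻¹) (S \ {x})

open Classical in
/-- the polynomial whose roots have to be avoided -/
noncomputable def avoid (S : Finset F) (c : F → ZMod p) : F[X] :=
  ∑ y ∈ S, C (algebraMap (ZMod p) F (c y)) * ∏ z ∈ S.erase y, (X - C z)

omit [Finite F] in
theorem avoid_natDegree (S : Finset F) (c : F → ZMod p) : (avoid S c).natDegree ≤ S.card := by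
  classical
  unfold avoid
  refine natDegree_sum_le_of_forall_le _ _ fun y hy => ?_
  refine (natDegree_C_mul_le _ _).trans ?_
  refine (natDegree_prod_le _ _).trans ?_
  simp only [natDegree_X_sub_C, Finset.sum_const, smul_eq_mul, mul_one]
  exact Finset.card_le_card (Finset.erase_subset _ _)

omit [Finite F] in
theorem avoid_ne_zero (S : Finset F) (c : F → ZMod p) {y0 : F} (hy0 : y0 ∈ S)
    (hc : c y0 ≠ 0) : avoid S c ≠ 0 := by
  classical
  intro h
  have h1 : (avoid S c).eval y0 = 0 := by rw [h, eval_zero]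
  unfold avoid at h1
  rw [eval_finsetSum, Finset.sum_eq_single y0] at h1
  · rw [eval_mul, eval_C, eval_prod, mul_eq_zero] at h1
    rcases h1 with h1 | h1
    · exact hc (by simpa using h1)
    · rw [Finset.prod_eq_zero_iff] at h1
      obtain ⟨z, hz, hz0⟩ := h1
      simp only [eval_sub, eval_X, eval_C] at hz0
      exact (Finset.ne_of_mem_erase hz) (sub_eq_zero.mp hz0).symm
  · intro y _ hyy
    rw [eval_mul, eval_prod]
    have : ∏ z ∈ S.erase y, eval y0 (X - C z) = 0 := by
      refine Finset.prod_eq_zero (Finset.mem_erase.mpr ⟨hyy.symm, hy0⟩) ?_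
      simp
    rw [this, mul_zero]
  · intro h; exact absurd hy0 h

omit [Finite F] in
theorem avoid_eval (S : Finset F) (c : F → ZMod p) {b : F} (hb : b ∉ S) :
    (avoid S c).eval b = (∏ z ∈ S, (b - z)) * ∑ y ∈ S, c y • (b - y)⁻¹ := by
  classical
  unfold avoid
  rw [eval_finsetSum, Finset.mul_sum]
  refine Finset.sum_congr rfl fun y hy => ?_
  rw [eval_mul, eval_C, eval_prod, Algebra.smul_def, ← Finset.mul_prod_erase S _ hy]
  have h : b - y ≠ 0 := fun h => hb (by rw [sub_eq_zero.mp h]; exact hy)
  simp only [eval_sub, eval_X, eval_C]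
  field_simp

theorem step (S : Finset F) (hS : GoodPts p (S : Set F))
    (hcard : 3 * S.card * p ^ S.card < Nat.card F) :
    ∃ b, b ∉ S ∧ GoodPts p (insert b (S : Set F)) := by
  classical
  have : Fintype F := Fintype.ofFinite F
  set m := S.card with hm
  have hp := (Fact.out : p.Prime)
  -- bad sets
  let V : F → Submodule (ZMod p) F := fun x =>
    Submodule.span (ZMod p) ((fun y => (x - y)⁻¹) '' ((S : Set F) \ {x}))
  let B1 : Finset F := S.biUnion fun x => Finset.univ.filter fun b => (x - b)⁻¹ ∈ V x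
  let cs : Finset (F → ZMod p) := (Fintype.piFinset fun y : F =>
    if y ∈ S then (Finset.univ : Finset (ZMod p)) else {0})
  let B2 : Finset F := (cs.filter fun c => ∃ y ∈ S, c y ≠ 0).biUnion fun c =>
    (avoid S c).roots.toFinset
  have hcs : cs.card = p ^ m := by
    simp only [cs, Fintype.card_piFinset]
    have : ∀ y : F, (if y ∈ S then (Finset.univ : Finset (ZMod p)) else {0}).card
        = if y ∈ S then p else 1 := by
      intro y
      split_ifs
      · rw [Finset.card_univ, ZMod.card]
      · simp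
    simp only [this]
    rw [Finset.prod_ite_mem, Finset.univ_inter, Finset.prod_const]
  have hB1 : B1.card ≤ m * p ^ m := by
    refine Finset.card_biUnion_le_card_mul _ _ _ fun x hx => ?_
    have h1 : Nat.card (V x) ≤ p ^ m := by
      rw [Module.natCard_eq_pow_finrank (K := ZMod p), Nat.card_zmod]
      refine Nat.pow_le_pow_right hp.pos ?_
      have h2 : Module.finrank (ZMod p) (V x) ≤
          (((fun y => (x - y)⁻¹) '' ((S : Set F) \ {x})).toFinset).card :=
        finrank_span_le_card _
      refine h2.trans ?_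
      rw [Set.toFinset_image]
      refine Finset.card_image_le.trans ?_
      rw [hm]
      refine Finset.card_le_card fun y hy => ?_
      simp only [Set.toFinset_sdiff, Finset.toFinset_coe, Finset.mem_sdiff] at hy
      exact hy.1
    refine le_trans ?_ h1
    rw [← Fintype.card_coe, ← Nat.card_eq_fintype_card]
    refine Nat.card_le_card_of_injective
      (fun b => ⟨(x - b.1)⁻¹, by
        have hb := b.2
        rw [Finset.mem_filter] at hb
        exact hb.2⟩ : _ → V x) ?_
    intro b b' hbb
    simp only [Subtype.mk.injEq, inv_inj] at hbb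
    exact Subtype.ext (by simpa using hbb)
  have hB2 : B2.card ≤ p ^ m * m := by
    refine (Finset.card_biUnion_le_card_mul _ _ m fun c hc => ?_).trans ?_
    · exact (Multiset.toFinset_card_le _).trans ((card_roots' _).trans (avoid_natDegree S c))
    · exact Nat.mul_le_mul_right _ ((Finset.card_filter_le _ _).trans hcs.le)
  have hbad : (S ∪ B1 ∪ B2).card < (Finset.univ : Finset F).card := by
    rw [Finset.card_univ, ← Nat.card_eq_fintype_card]
    refine lt_of_le_of_lt ?_ hcard
    have h1 : (S ∪ B1 ∪ B2).card ≤ m + m * p ^ m + p ^ m * m :=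
      (Finset.card_union_le _ _).trans
        (Nat.add_le_add ((Finset.card_union_le _ _).trans (Nat.add_le_add hm.symm.le hB1)) hB2)
    have h2 : m ≤ m * p ^ m := Nat.le_mul_of_pos_right _ (pow_pos hp.pos _)
    nlinarith
  obtain ⟨b, -, hb⟩ := Finset.exists_mem_notMem_of_card_lt_card hbad
  simp only [Finset.mem_union, not_or] at hb
  obtain ⟨⟨hbS, hb1⟩, hb2⟩ := hb
  refine ⟨b, hbS, ?_⟩
  intro x hx
  rcases Set.mem_insert_iff.mp hx with rfl | hxS
  · rw [Set.insert_sdiff_of_mem _ (Set.mem_singleton _),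
      Set.sdiff_singleton_eq_self (by simpa using hbS), linearIndepOn_finset_iff]
    intro f hf
    by_contra hne
    push Not at hne
    obtain ⟨y0, hy0, hfy0⟩ := hne
    apply hb2
    refine Finset.mem_biUnion.mpr ⟨fun y => if y ∈ S then f y else 0, ?_, ?_⟩
    · refine Finset.mem_filter.mpr ⟨?_, y0, hy0, by simpa [hy0] using hfy0⟩
      rw [Fintype.mem_piFinset]
      intro y
      split_ifs <;> simp
    · rw [Multiset.mem_toFinset, mem_roots (avoid_ne_zero S _ hy0 (by simpa [hy0] using hfy0)),
        IsRoot.def, avoid_eval S _ hbS]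
      have : ∑ y ∈ S, (if y ∈ S then f y else 0) • (x - y)⁻¹ = 0 := by
        rw [← hf]
        refine Finset.sum_congr rfl fun y hy => ?_
        rw [if_pos hy]
      rw [this, mul_zero]
  · have hxS' : x ∈ S := hxS
    have hbx : b ≠ x := fun h => hbS (h ▸ hxS')
    have e : insert b (S : Set F) \ {x} = insert b ((S : Set F) \ {x}) :=
      Set.insert_sdiff_of_notMem _ (by simpa using hbx)
    rw [e, linearIndepOn_insert (by simp [hbS])]
    refine ⟨hS x hxS, fun hmem => hb1 ?_⟩
    exact Finset.mem_biUnion.mpr ⟨x, hxS', Finset.mem_filter.mpr ⟨Finset.mem_univ _, hmem⟩⟩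

theorem exists_good (n : ℕ) (hn : p ^ (2 * n + 2) ≤ Nat.card F) :
    ∀ m ≤ n, ∃ S : Finset F, S.card = m ∧ GoodPts p (S : Set F) := by
  classical
  intro m
  induction m with
  | zero => intro _; exact ⟨∅, rfl, fun x hx => by simp at hx⟩
  | succ m ih =>
    intro hm
    obtain ⟨S, hc, hS⟩ := ih (by omega)
    have hp := (Fact.out : p.Prime)
    have hlt : 3 * S.card * p ^ S.card < Nat.card F := by
      rw [hc]
      refine lt_of_lt_of_le ?_ hn
      have h1 : m < 2 ^ m := Nat.lt_two_pow_self
      have h2 : 2 ^ m ≤ p ^ m := Nat.pow_le_pow_left hp.two_le m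
      have h3 : 2 ^ 2 ≤ p ^ 2 := Nat.pow_le_pow_left hp.two_le 2
      have h4 : p ^ (2 * n + 2) = p ^ (2 * m) * p ^ 2 * p ^ (2 * (n - m)) := by
        rw [← pow_add, ← pow_add]; congr 1; omega
      have h5 : 1 ≤ p ^ (2 * (n - m)) := Nat.one_le_pow _ _ hp.pos
      have h6 : 3 * m * p ^ m < p ^ (2 * m) * p ^ 2 := by
        have : p ^ (2 * m) = p ^ m * p ^ m := by rw [← pow_add]; congr 1; omega
        rw [this]
        have h7 : 3 * m < p ^ m * p ^ 2 := by nlinarith
        have h8 : 0 < p ^ m := pow_pos hp.pos _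
        nlinarith
      rw [h4]
      exact lt_of_lt_of_le h6 (Nat.le_mul_of_pos_right _ h5)
    obtain ⟨b, hb, hG⟩ := step S hS hlt
    refine ⟨insert b S, by rw [Finset.card_insert_of_notMem hb, hc], ?_⟩
    rwa [Finset.coe_insert]

end field

/-! ## the prime case -/

theorem sys_field {X : Type} {p : ℕ} [Fact p.Prime] {F : Type} [Field F] [Finite F]
    [Algebra (ZMod p) F] (a : X → F) (ha : Function.Injective a) [Finite X]
    (hli : ∀ x, LinearIndependent (ZMod p) (fun y : {y // y ≠ x} => (a x - a y)⁻¹)) :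
    Sys X p (Nat.card F) := by
  classical
  have : Fintype X := Fintype.ofFinite X
  obtain ⟨τ, hτ⟩ : ∃ τ : F →ₗ[ZMod p] ZMod p, τ 1 ≠ 0 := by
    by_contra h
    push Not at h
    exact one_ne_zero ((Module.forall_dual_apply_eq_zero_iff (ZMod p) (1 : F)).mp h)
  have hsub : ∀ {x y : X}, x ≠ y → a x - a y ≠ 0 := fun h h0 => h (ha (sub_eq_zero.mp h0))
  refine ⟨F, LinearMap.ker τ, ZMod p, inferInstance, inferInstance, inferInstance, inferInstance,
    inferInstance, inferInstance,
    fun x => (AddMonoidHom.mulLeft (a x)).comp (LinearMap.ker τ).subtype.toAddMonoidHom,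
    fun x y => τ.toAddMonoidHom.comp (AddMonoidHom.mulRight (a x - a y)⁻¹), rfl,
    Nat.card_zmod p, ?_, ?_, ?_, ?_⟩
  · intro x y v
    simp only [AddMonoidHom.coe_comp, LinearMap.toAddMonoidHom_coe, Function.comp_apply,
      AddMonoidHom.coe_mulRight]
    rw [← map_neg]
    congr 1
    rw [← neg_sub (a x) (a y), inv_neg, mul_neg]
  · intro x y hxy v hv
    have h0 := hsub hxy
    simp only [AddMonoidHom.coe_comp, LinearMap.toAddMonoidHom_coe, Function.comp_apply,
      AddMonoidHom.coe_mulRight] at hv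
    refine ⟨⟨v * (a x - a y)⁻¹, hv⟩, ?_, ?_⟩
    · simp only [AddMonoidHom.coe_comp, LinearMap.toAddMonoidHom_coe, Function.comp_apply,
        AddMonoidHom.coe_mulLeft, Submodule.subtype_apply]
      field_simp
    · rintro ⟨t, ht⟩ h
      simp only [AddMonoidHom.coe_comp, LinearMap.toAddMonoidHom_coe, Function.comp_apply,
        AddMonoidHom.coe_mulLeft, Submodule.subtype_apply] at h
      apply Subtype.ext
      simp only
      rw [← h]
      field_simp
  · rintro x y ⟨t, ht⟩ hxy
    have h0 := hsub hxy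
    simp only [AddMonoidHom.coe_comp, LinearMap.toAddMonoidHom_coe, Function.comp_apply,
      AddMonoidHom.coe_mulLeft, Submodule.subtype_apply, AddMonoidHom.coe_mulRight]
    have : (a x * t - a y * t) * (a x - a y)⁻¹ = t := by field_simp
    rw [this]
    exact ht
  · intro x z
    let Ψ : F →ₗ[ZMod p] ({y // y ≠ x} → ZMod p) :=
      LinearMap.pi fun y => τ.comp (LinearMap.mulRight (ZMod p) (a x - a y)⁻¹)
    have hsurj : Function.Surjective Ψ := by
      rw [← LinearMap.range_eq_top]
      by_contra hne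
      obtain ⟨g, hg0, hg⟩ := Submodule.exists_le_ker_of_lt_top _ (lt_top_iff_ne_top.mpr hne)
      apply hg0
      have hsum : ∀ w : {y // y ≠ x} → ZMod p,
          g w = ∑ y, w y * g (Pi.single y 1) := by
        intro w
        conv_lhs => rw [pi_eq_sum_univ w]
        rw [map_sum]
        refine Finset.sum_congr rfl fun y _ => ?_
        rw [map_smul, smul_eq_mul]
        congr 2
        ext i
        simp [Pi.single_apply, eq_comm]
      have hkey : ∀ v : F, τ (v * ∑ y : {y // y ≠ x}, g (Pi.single y 1) • (a x - a y)⁻¹) = 0 := by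
        intro v
        have h1 : g (Ψ v) = 0 := hg ⟨v, rfl⟩
        rw [hsum] at h1
        rw [← h1, Finset.mul_sum, map_sum]
        refine Finset.sum_congr rfl fun y _ => ?_
        rw [mul_smul_comm, map_smul, smul_eq_mul, mul_comm]
        rfl
      have hw : ∑ y : {y // y ≠ x}, g (Pi.single y 1) • (a x - a y)⁻¹ = 0 := by
        by_contra hw
        apply hτ
        have := hkey (∑ y : {y // y ≠ x}, g (Pi.single y 1) • (a x - a y)⁻¹)⁻¹
        rwa [inv_mul_cancel₀ hw] at this
      have hc := Fintype.linearIndependent_iff.mp (hli x) _ hw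
      ext y
      simp [hc y]
    obtain ⟨v, hv⟩ := hsurj fun y => z y
    refine ⟨v, fun y hy => ?_⟩
    exact congrFun hv ⟨y, hy⟩

theorem sys_of_field (X : Type) [Finite X] (p : ℕ) [Fact p.Prime] (F : Type) [Field F]
    [Finite F] [Algebra (ZMod p) F] (hN : p ^ (2 * Nat.card X + 2) ≤ Nat.card F) :
    Sys X p (Nat.card F) := by
  classical
  obtain ⟨S, hc, hS⟩ := exists_good (p := p) (F := F) (Nat.card X) hN (Nat.card X) le_rfl
  let e : X ≃ S := (Finite.equivFinOfCardEq rfl).trans (S.equivFinOfCardEq hc).symm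
  have hinj : Function.Injective (fun x => ((e x : S) : F)) :=
    Subtype.val_injective.comp e.injective
  refine sys_field (fun x => ((e x : S) : F)) hinj fun x => ?_
  have h1 := hS (e x) (e x).2
  have h2 : Function.Injective (fun y : {y // y ≠ x} =>
      (⟨((e y : S) : F), (e y).2, fun h => y.2 (hinj h)⟩ :
        ((S : Set F) \ {((e x : S) : F)} : Set _))) := by
    intro y y' h
    have h3 : ((e y : S) : F) = ((e y' : S) : F) := by simpa using h
    exact Subtype.ext (hinj h3)
  exact LinearIndependent.comp h1 _ h2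

theorem sys_prime (X : Type) [Finite X] (p N : ℕ) (hp : p.Prime)
    (hN : 2 * Nat.card X + 2 ≤ N) : Sys X p (p ^ N) := by
  have : Fact p.Prime := ⟨hp⟩
  have hN0 : N ≠ 0 := by omega
  have hcardF : Nat.card (GaloisField p N) = p ^ N := GaloisField.card p N hN0
  have : Finite (GaloisField p N) := by
    apply Nat.finite_of_card_ne_zero
    rw [hcardF]
    exact pow_ne_zero _ hp.ne_zero
  have h := sys_of_field X p (GaloisField p N)
    (by rw [hcardF]; exact Nat.pow_le_pow_right hp.pos hN)
  rwa [hcardF] at h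

theorem sys_exists (X : Type) [Finite X] (L N : ℕ) (hL : 0 < L) (hN : 2 * Nat.card X + 2 ≤ N) :
    Sys X L (L ^ N) := by
  revert hL
  induction L using Nat.recOnMul with
  | zero => intro h; exact absurd h (lt_irrefl 0)
  | one => intro _; rw [one_pow]; exact sys_one X
  | prime p hp => intro _; exact sys_prime X p N hp hN
  | mul a b ha hb =>
    intro h
    rw [mul_pow]
    exact sys_mul (ha (Nat.pos_of_mul_pos_right h)) (hb (Nat.pos_of_mul_pos_left h))

end H108
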