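import Pool.Agent.H108R2.Signed

/-!
# Uniform positive fold decompositions: counting transversal `k`-sets
-/

namespace H108

/-- transport of fold decompositions -/
theorem Fold.congr {X X' P P' : Type} {k L : ℕ} {π : X → P} {π' : X' → P'} (e : X ≃ X')
    (h : ∀ x y, π x = π y ↔ π' (e x) = π' (e y)) (hF : Fold k L π') : Fold k L π := by
  obtain ⟨J, hJ, b, hb, hc⟩ := hF
  refine ⟨J, hJ, fun j => (b j).map e.symm.toEmbedding, fun j => ⟨?_, ?_⟩, fun x y hxy => ?_⟩
  · rw [Finset.card_map]; exact (hb j).1
  · intro x hx y hy hxy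
    simp only [Finset.coe_map, Equiv.coe_toEmbedding, Set.mem_image, Finset.mem_coe] at hx hy
    obtain ⟨x', hx', rfl⟩ := hx
    obtain ⟨y', hy', rfl⟩ := hy
    have := (h _ _).1 hxy
    rw [Equiv.apply_symm_apply, Equiv.apply_symm_apply] at this
    rw [(hb j).2 hx' hy' this]
  · have := hc (e x) (e y) (fun hh => hxy ((h x y).2 hh))
    rw [← this]
    apply Nat.card_congr
    apply Equiv.subtypeEquivRight
    intro j
    simp [Finset.mem_map_equiv]

open Classical in
/-- number of transversal `m`-sets inside the groups `S` -/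
theorem card_transversal {α β : Type} [Fintype α] [Fintype β] (S : Finset α) (m : ℕ) :
    ((Finset.univ : Finset (Finset (α × β))).filter
      (fun b : Finset (α × β) => b.card = m ∧ Set.InjOn Prod.fst (b : Set (α × β)) ∧ ∀ z ∈ b, z.1 ∈ S)).card
      = S.card.choose m * (Fintype.card β) ^ m := by
  rw [Finset.card_eq_sum_card_fiberwise (f := fun b : Finset (α × β) => b.image Prod.fst) (t := S.powersetCard m)]
  · rw [Finset.sum_congr rfl (g := fun _ => (Fintype.card β) ^ m), Finset.sum_const,
      Finset.card_powersetCard, smul_eq_mul]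
    intro U hU
    rw [Finset.mem_powersetCard] at hU
    have h1 : Fintype.card (U → β) = (Fintype.card β) ^ m := by
      rw [Fintype.card_fun, Fintype.card_coe, hU.2]
    rw [← h1, ← Finset.card_univ, ← Finset.card_image_of_injective (Finset.univ : Finset (U → β))
      (f := fun f => Finset.univ.image (fun u : U => ((u : α), f u)))]
    · congr 1
      ext b
      simp only [Finset.mem_filter, Finset.mem_univ, true_and, Finset.mem_image]
      constructor
      · rintro ⟨⟨hb1, hb2, hb3⟩, rfl⟩
        have : ∀ u : (b.image Prod.fst : Finset α), ∃ j : β, ((u : α), j) ∈ b := by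
          rintro ⟨u, hu⟩
          obtain ⟨⟨u', j⟩, hz, rfl⟩ := Finset.mem_image.1 hu
          exact ⟨j, hz⟩
        choose f hf using this
        refine ⟨f, ?_⟩
        ext ⟨u, j⟩
        simp only [Finset.mem_image, Finset.mem_univ, true_and, Subtype.exists, Prod.mk.injEq]
        constructor
        · rintro ⟨u', hu', rfl, rfl⟩
          exact hf ⟨u', Finset.mem_image.2 hu'⟩
        · intro huj
          refine ⟨u, ⟨(u, j), huj, rfl⟩, rfl, ?_⟩
          have := hb2 (hf ⟨u, Finset.mem_image.2 ⟨(u, j), huj, rfl⟩⟩) huj rfl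
          exact (Prod.mk.inj this).2
      · rintro ⟨f, rfl⟩
        have himg : (Finset.univ.image (fun u : U => ((u : α), f u))).image Prod.fst = U := by
          ext u
          simp
        refine ⟨⟨?_, ?_, ?_⟩, himg⟩
        · rw [Finset.card_image_of_injective _ (fun u v huv => Subtype.ext (Prod.mk.inj huv).1)]
          simp [hU.2]
        · intro x hx y hy hxy
          simp only [Finset.coe_image, Set.mem_image, Finset.coe_univ, Set.mem_univ, true_and] at hx hy
          obtain ⟨u, rfl⟩ := hx
          obtain ⟨v, rfl⟩ := hy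
          have : u = v := Subtype.ext hxy
          rw [this]
        · intro z hz
          simp only [Finset.mem_image, Finset.mem_univ, true_and] at hz
          obtain ⟨u, rfl⟩ := hz
          exact hU.1 u.2
    · intro f g hfg
      simp only at hfg
      funext u
      have : ((u : α), f u) ∈ Finset.univ.image (fun u : U => ((u : α), g u)) := by
        rw [← hfg]; exact Finset.mem_image.2 ⟨u, Finset.mem_univ _, rfl⟩
      simp only [Finset.mem_image, Finset.mem_univ, true_and] at this
      obtain ⟨v, hv⟩ := this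
      have h2 := (Prod.mk.inj hv).1
      have h3 := (Prod.mk.inj hv).2
      have : v = u := Subtype.ext h2
      rw [← h3, this]
  · intro b hb
    simp only [Finset.coe_filter, Finset.mem_univ, true_and, Set.mem_ofPred_eq] at hb
    simp only [Finset.mem_coe, Finset.mem_powersetCard]
    refine ⟨?_, ?_⟩
    · intro u hu
      obtain ⟨z, hz, rfl⟩ := Finset.mem_image.1 hu
      exact hb.2.2 z hz
    · rw [Finset.card_image_of_injOn hb.2.1]; exact hb.1

open Classical in
theorem card_transversal_pair {α β : Type} [Fintype α] [Fintype β] (k : ℕ) (hk : 2 ≤ k)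
    (x y : α × β) (hxy : x.1 ≠ y.1) :
    ((Finset.univ : Finset (Finset (α × β))).filter
      (fun b : Finset (α × β) => b.card = k ∧ Set.InjOn Prod.fst (b : Set (α × β)) ∧ x ∈ b ∧ y ∈ b)).card
      = (Fintype.card α - 2).choose (k - 2) * (Fintype.card β) ^ (k - 2) := by
  have hS : (Finset.univ \ {x.1, y.1} : Finset α).card = Fintype.card α - 2 := by
    rw [Finset.card_sdiff_of_subset (Finset.subset_univ _), Finset.card_pair hxy, Finset.card_univ]
  rw [← hS, ← card_transversal]
  refine Finset.card_nbij' (fun b => (b.erase x).erase y) (fun b => insert x (insert y b))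
    ?_ ?_ ?_ ?_
  · intro b hb
    simp only [Finset.coe_filter, Finset.mem_univ, true_and, Set.mem_ofPred_eq] at hb ⊢
    obtain ⟨h1, h2, h3, h4⟩ := hb
    have hne : y ≠ x := fun h => hxy (by rw [h])
    refine ⟨?_, ?_, ?_⟩
    · rw [Finset.card_erase_of_mem (Finset.mem_erase.2 ⟨hne, h4⟩), Finset.card_erase_of_mem h3, h1]
      omega
    · intro u hu v hv huv
      simp only [Finset.coe_erase, Set.mem_sdiff, Finset.mem_coe] at hu hv
      exact h2 hu.1.1 hv.1.1 huv
    · intro z hz
      simp only [Finset.mem_erase] at hz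
      simp only [Finset.mem_sdiff, Finset.mem_univ, true_and, Finset.mem_insert,
        Finset.mem_singleton, not_or]
      exact ⟨fun h => hz.2.1 (h2 hz.2.2 h3 h), fun h => hz.1 (h2 hz.2.2 h4 h)⟩
  · intro b hb
    simp only [Finset.coe_filter, Finset.mem_univ, true_and, Set.mem_ofPred_eq,
      Finset.mem_sdiff, Finset.mem_insert, Finset.mem_singleton, not_or] at hb ⊢
    obtain ⟨h1, h2, h3⟩ := hb
    have hx : x ∉ b := fun h => (h3 x h).1 rfl
    have hy : y ∉ b := fun h => (h3 y h).2 rfl
    have hne : x ≠ y := fun h => hxy (by rw [h])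
    refine ⟨?_, ?_, by simp, by simp⟩
    · rw [Finset.card_insert_of_notMem (by simp [hne, hx]), Finset.card_insert_of_notMem hy, h1]
      omega
    · intro u hu v hv huv
      simp only [Finset.coe_insert, Set.mem_insert_iff, Finset.mem_coe] at hu hv
      rcases hu with rfl | rfl | hu <;> rcases hv with rfl | rfl | hv
      · rfl
      · exact absurd huv hxy
      · exact absurd huv.symm (h3 v hv).1
      · exact absurd huv.symm hxy
      · rfl
      · exact absurd huv.symm (h3 v hv).2
      · exact absurd huv (h3 u hu).1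
      · exact absurd huv (h3 u hu).2
      · exact h2 hu hv huv
  · intro b hb
    simp only [Finset.coe_filter, Finset.mem_univ, true_and, Set.mem_ofPred_eq] at hb
    obtain ⟨h1, h2, h3, h4⟩ := hb
    have hne : y ≠ x := fun h => hxy (by rw [h])
    simp only
    rw [Finset.insert_erase (Finset.mem_erase.2 ⟨hne, h4⟩), Finset.insert_erase h3]
  · intro b hb
    simp only [Finset.coe_filter, Finset.mem_univ, true_and, Set.mem_ofPred_eq,
      Finset.mem_sdiff, Finset.mem_insert, Finset.mem_singleton, not_or] at hb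
    obtain ⟨h1, h2, h3⟩ := hb
    have hx : x ∉ b := fun h => (h3 x h).1 rfl
    have hy : y ∉ b := fun h => (h3 y h).2 rfl
    have hne : x ≠ y := fun h => hxy (by rw [h])
    simp only
    rw [Finset.erase_insert (by simp [hne, hx]), Finset.erase_insert hy]

open Classical in
theorem card_other_parts {α β : Type} [Fintype α] [Fintype β] (x : α × β) :
    (Finset.univ.filter (fun y : α × β => y.1 ≠ x.1)).card
      = (Fintype.card α - 1) * Fintype.card β := by
  have : (Finset.univ.filter (fun y : α × β => y.1 ≠ x.1))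
      = (Finset.univ.erase x.1) ×ˢ (Finset.univ : Finset β) := by
    ext ⟨u, v⟩; simp
  rw [this, Finset.card_product, Finset.card_erase_of_mem (Finset.mem_univ _), Finset.card_univ,
    Finset.card_univ]

open Classical in
theorem card_parts {α β : Type} [Fintype α] [Fintype β] [Nonempty β] :
    (Finset.univ.image (Prod.fst : α × β → α)).card = Fintype.card α := by
  rw [← Finset.card_univ]
  congr 1
  ext i
  simp only [Finset.mem_image, Finset.mem_univ, true_and, iff_true]
  exact ⟨(i, Classical.arbitrary β), rfl⟩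

theorem fold_uniform {k h s : ℕ} (hk : 3 ≤ k) (hs : k + 2 ≤ s) (hh : 1 ≤ h)
    (hd1 : (k - 1) ∣ h * (s - 1)) (hd2 : k * (k - 1) ∣ (h * s) * (h * (s - 1)))
    {F : ℕ} (hF : 100 * (s * h) ^ 5 ≤ F) :
    Fold k (1 + F * ((s - 2).choose (k - 2) * h ^ (k - 2)))
      (Prod.fst : Fin s × Fin h → Fin s) := by
  have : Nonempty (Fin h) := ⟨⟨0, hh⟩⟩
  refine fold_of_weights (Prod.fst : Fin s × Fin h → Fin s) k hk ?_ ?_ ?_ (fun _ => 1) _ ?_ ?_ F ?_
  · rw [card_parts, Fintype.card_fin]; exact hs
  · intro x
    rw [card_other_parts, Fintype.card_fin, Fintype.card_fin, mul_comm]; exact hd1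
  · rw [Finset.sum_congr rfl (fun x _ => card_other_parts x)]
    rw [Finset.sum_const, Finset.card_univ, Fintype.card_prod, Fintype.card_fin, Fintype.card_fin,
      smul_eq_mul, mul_comm s h, mul_comm (s - 1) h]
    exact hd2
  · intro b _ _; exact le_refl 1
  · intro x y hxy
    rw [Finset.sum_const, smul_eq_mul, mul_one]
    have := card_transversal_pair k (by omega) x y hxy
    rw [Fintype.card_fin, Fintype.card_fin] at this
    convert this
  · rw [Fintype.card_prod, Fintype.card_fin, Fintype.card_fin]; exact hF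


/-! ### designs with a hole -/

/-- part map with a hole, simplified -/
def holeMap (a w : ℕ) : Fin a ⊕ Fin w → Option (Fin a) := Sum.elim some (fun _ => none)

open Classical in
/-- `k`-sets with no hole point through two points outside the hole -/
theorem card_hole0 {α β : Type} [Fintype α] [Fintype β] (k : ℕ) (hk : 2 ≤ k) (p q : α)
    (hpq : p ≠ q) :
    ((Finset.univ : Finset (Finset (α ⊕ β))).filter
      (fun b : Finset (α ⊕ β) => b.card = k ∧ (∀ j : β, Sum.inr j ∉ b) ∧
        Sum.inl p ∈ b ∧ Sum.inl q ∈ b)).card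
      = (Fintype.card α - 2).choose (k - 2) := by
  have hS : (Finset.univ \ {p, q} : Finset α).card = Fintype.card α - 2 := by
    rw [Finset.card_sdiff_of_subset (Finset.subset_univ _), Finset.card_pair hpq, Finset.card_univ]
  rw [← hS, ← Finset.card_powersetCard]
  refine Finset.card_nbij' (fun b => (b.toLeft.erase p).erase q)
    (fun S => (insert p (insert q S)).disjSum ∅) ?_ ?_ ?_ ?_
  · intro b hb
    simp only [Finset.coe_filter, Finset.mem_univ, true_and, Set.mem_ofPred_eq,
      Finset.mem_coe, Finset.mem_powersetCard] at hb ⊢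
    obtain ⟨h1, h2, h3, h4⟩ := hb
    have hr : b.toRight = ∅ := by
      ext j; simp [h2 j]
    have hc := Finset.card_toLeft_add_card_toRight (u := b)
    rw [hr, Finset.card_empty, add_zero] at hc
    refine ⟨?_, ?_⟩
    · intro z hz
      simp only [Finset.mem_erase, Finset.mem_toLeft] at hz
      simp [hz.1, hz.2.1]
    · rw [Finset.card_erase_of_mem (Finset.mem_erase.2 ⟨hpq.symm, Finset.mem_toLeft.2 h4⟩),
        Finset.card_erase_of_mem (Finset.mem_toLeft.2 h3), hc, h1]
      omega
  · intro S hS
    simp only [Finset.coe_filter, Finset.mem_univ, true_and, Set.mem_ofPred_eq,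
      Finset.mem_coe, Finset.mem_powersetCard] at hS ⊢
    obtain ⟨h1, h2⟩ := hS
    have hp : p ∉ S := fun h => by simpa using h1 h
    have hq : q ∉ S := fun h => by simpa using h1 h
    refine ⟨?_, by simp, by simp, by simp⟩
    rw [Finset.card_disjSum, Finset.card_insert_of_notMem (by simp [hpq, hp]),
      Finset.card_insert_of_notMem hq, h2]
    simp; omega
  · intro b hb
    simp only [Finset.coe_filter, Finset.mem_univ, true_and, Set.mem_ofPred_eq] at hb
    obtain ⟨h1, h2, h3, h4⟩ := hb
    simp only
    rw [Finset.insert_erase (Finset.mem_erase.2 ⟨hpq.symm, Finset.mem_toLeft.2 h4⟩),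
      Finset.insert_erase (Finset.mem_toLeft.2 h3)]
    ext (z | z)
    · simp
    · simp [h2 z]
  · intro S hS
    simp only [Finset.mem_coe, Finset.mem_powersetCard] at hS
    obtain ⟨h1, h2⟩ := hS
    have hp : p ∉ S := fun h => by simpa using h1 h
    have hq : q ∉ S := fun h => by simpa using h1 h
    simp only [Finset.toLeft_disjSum]
    rw [Finset.erase_insert (by simp [hpq, hp]), Finset.erase_insert hq]

open Classical in
/-- `k`-sets with exactly one hole point through two points outside the hole -/
theorem card_hole1 {α β : Type} [Fintype α] [Fintype β] (k : ℕ) (hk : 3 ≤ k) (p q : α)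
    (hpq : p ≠ q) :
    ((Finset.univ : Finset (Finset (α ⊕ β))).filter
      (fun b : Finset (α ⊕ β) => b.card = k ∧ b.toRight.card = 1 ∧
        Sum.inl p ∈ b ∧ Sum.inl q ∈ b)).card
      = Fintype.card β * (Fintype.card α - 2).choose (k - 3) := by
  have hS : (Finset.univ \ {p, q} : Finset α).card = Fintype.card α - 2 := by
    rw [Finset.card_sdiff_of_subset (Finset.subset_univ _), Finset.card_pair hpq, Finset.card_univ]
  have hT : ((Finset.univ : Finset β).powersetCard 1).card = Fintype.card β := by
    rw [Finset.card_powersetCard, Finset.card_univ, Nat.choose_one_right]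
  rw [← hS, ← Finset.card_powersetCard, ← hT, ← Finset.card_product]
  refine Finset.card_nbij' (fun b => (b.toRight, (b.toLeft.erase p).erase q))
    (fun S => (insert p (insert q S.2)).disjSum S.1) ?_ ?_ ?_ ?_
  · intro b hb
    simp only [Finset.coe_filter, Finset.mem_univ, true_and, Set.mem_ofPred_eq,
      Finset.mem_coe, Finset.mem_powersetCard, Finset.mem_product] at hb ⊢
    obtain ⟨h1, h2, h3, h4⟩ := hb
    have hc := Finset.card_toLeft_add_card_toRight (u := b)
    refine ⟨⟨Finset.subset_univ _, h2⟩, ?_, ?_⟩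
    · intro z hz
      simp only [Finset.mem_erase, Finset.mem_toLeft] at hz
      simp [hz.1, hz.2.1]
    · rw [Finset.card_erase_of_mem (Finset.mem_erase.2 ⟨hpq.symm, Finset.mem_toLeft.2 h4⟩),
        Finset.card_erase_of_mem (Finset.mem_toLeft.2 h3)]
      omega
  · rintro ⟨T, S⟩ hS
    simp only [Finset.coe_filter, Finset.mem_univ, true_and, Set.mem_ofPred_eq,
      Finset.mem_coe, Finset.mem_powersetCard, Finset.mem_product] at hS ⊢
    obtain ⟨⟨_, h0⟩, h1, h2⟩ := hS
    have hp : p ∉ S := fun h => by simpa using h1 h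
    have hq : q ∉ S := fun h => by simpa using h1 h
    refine ⟨?_, ?_, by simp, by simp⟩
    · rw [Finset.card_disjSum, Finset.card_insert_of_notMem (by simp [hpq, hp]),
        Finset.card_insert_of_notMem hq, h2, h0]
      omega
    · rw [Finset.toRight_disjSum, h0]
  · intro b hb
    simp only [Finset.coe_filter, Finset.mem_univ, true_and, Set.mem_ofPred_eq] at hb
    obtain ⟨h1, h2, h3, h4⟩ := hb
    simp only
    rw [Finset.insert_erase (Finset.mem_erase.2 ⟨hpq.symm, Finset.mem_toLeft.2 h4⟩),
      Finset.insert_erase (Finset.mem_toLeft.2 h3)]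
    ext (z | z) <;> simp
  · rintro ⟨T, S⟩ hS
    simp only [Finset.mem_coe, Finset.mem_powersetCard, Finset.mem_product] at hS
    obtain ⟨⟨_, h0⟩, h1, h2⟩ := hS
    have hp : p ∉ S := fun h => by simpa using h1 h
    have hq : q ∉ S := fun h => by simpa using h1 h
    simp only [Finset.toLeft_disjSum, Finset.toRight_disjSum]
    rw [Finset.erase_insert (by simp [hpq, hp]), Finset.erase_insert hq]

open Classical in
/-- `k`-sets with exactly one hole point through a given point outside and a given hole point -/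
theorem card_hole2 {α β : Type} [Fintype α] [Fintype β] (k : ℕ) (hk : 2 ≤ k) (p : α) (j : β) :
    ((Finset.univ : Finset (Finset (α ⊕ β))).filter
      (fun b : Finset (α ⊕ β) => b.card = k ∧ b.toRight.card = 1 ∧
        Sum.inl p ∈ b ∧ Sum.inr j ∈ b)).card
      = (Fintype.card α - 1).choose (k - 2) := by
  have hS : (Finset.univ \ {p} : Finset α).card = Fintype.card α - 1 := by
    rw [Finset.card_sdiff_of_subset (Finset.subset_univ _), Finset.card_singleton, Finset.card_univ]
  rw [← hS, ← Finset.card_powersetCard]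
  refine Finset.card_nbij' (fun b => b.toLeft.erase p)
    (fun S => (insert p S).disjSum {j}) ?_ ?_ ?_ ?_
  · intro b hb
    simp only [Finset.coe_filter, Finset.mem_univ, true_and, Set.mem_ofPred_eq,
      Finset.mem_coe, Finset.mem_powersetCard] at hb ⊢
    obtain ⟨h1, h2, h3, h4⟩ := hb
    have hc := Finset.card_toLeft_add_card_toRight (u := b)
    refine ⟨?_, ?_⟩
    · intro z hz
      simp only [Finset.mem_erase, Finset.mem_toLeft] at hz
      simp [hz.1]
    · rw [Finset.card_erase_of_mem (Finset.mem_toLeft.2 h3)]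
      omega
  · intro S hS
    simp only [Finset.coe_filter, Finset.mem_univ, true_and, Set.mem_ofPred_eq,
      Finset.mem_coe, Finset.mem_powersetCard] at hS ⊢
    obtain ⟨h1, h2⟩ := hS
    have hp : p ∉ S := fun h => by simpa using h1 h
    refine ⟨?_, ?_, by simp, by simp⟩
    · rw [Finset.card_disjSum, Finset.card_insert_of_notMem hp, h2, Finset.card_singleton]
      omega
    · rw [Finset.toRight_disjSum, Finset.card_singleton]
  · intro b hb
    simp only [Finset.coe_filter, Finset.mem_univ, true_and, Set.mem_ofPred_eq] at hb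
    obtain ⟨h1, h2, h3, h4⟩ := hb
    simp only
    rw [Finset.insert_erase (Finset.mem_toLeft.2 h3)]
    obtain ⟨j', hj'⟩ := Finset.card_eq_one.1 h2
    have : j = j' := by
      have := Finset.mem_toRight.2 h4
      rw [hj'] at this
      simpa using this
    subst this
    rw [← hj']
    ext (z | z) <;> simp
  · intro S hS
    simp only [Finset.mem_coe, Finset.mem_powersetCard] at hS
    obtain ⟨h1, h2⟩ := hS
    have hp : p ∉ S := fun h => by simpa using h1 h
    simp only [Finset.toLeft_disjSum]
    rw [Finset.erase_insert hp]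


open Classical in
theorem injOn_holeMap {a w : ℕ} (b : Finset (Fin a ⊕ Fin w)) :
    Set.InjOn (holeMap a w) (b : Set (Fin a ⊕ Fin w)) ↔ b.toRight.card ≤ 1 := by
  rw [Finset.card_le_one]
  constructor
  · intro h i hi j hj
    have := h (Finset.mem_coe.2 (Finset.mem_toRight.1 hi)) (Finset.mem_coe.2 (Finset.mem_toRight.1 hj)) rfl
    exact Sum.inr_injective this
  · rintro h (x | x) hx (y | y) hy hxy
    · simp only [holeMap, Sum.elim_inl, Option.some.injEq] at hxy
      rw [hxy]
    · simp [holeMap] at hxy
    · simp [holeMap] at hxy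
    · rw [h x (Finset.mem_toRight.2 (Finset.mem_coe.1 hx)) y
        (Finset.mem_toRight.2 (Finset.mem_coe.1 hy))]

open Classical in
/-- the weight function for the designs with a hole -/
noncomputable def holeWt (a w k : ℕ) (b : Finset (Fin a ⊕ Fin w)) : ℕ :=
  if b.toRight.card = 1 then (a - 2).choose (k - 2)
  else (a - 1).choose (k - 2) - w * (a - 2).choose (k - 3)

theorem hole_arith {k a w : ℕ} (hk : 3 ≤ k) (ha : (k - 2) * w + 2 ≤ a)
    (ha' : k + 1 ≤ a) : w * (a - 2).choose (k - 3) < (a - 1).choose (k - 2) := by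
  obtain ⟨t, rfl⟩ : ∃ t, k = t + 3 := ⟨k - 3, by omega⟩
  obtain ⟨n, rfl⟩ : ∃ n, a = n + 2 := ⟨a - 2, by omega⟩
  have e1 : t + 3 - 2 = t + 1 := by omega
  have e2 : t + 3 - 3 = t := by omega
  have e3 : n + 2 - 2 = n := by omega
  have e4 : n + 2 - 1 = n + 1 := by omega
  rw [e1] at ha
  rw [e1, e2, e3, e4]
  have h := Nat.add_one_mul_choose_eq n t
  have hpos : 0 < n.choose t := Nat.choose_pos (by omega)
  have h2 : (w * n.choose t) * (t + 1) < (n + 1).choose (t + 1) * (t + 1) := by
    rw [← h]
    calc w * n.choose t * (t + 1) = ((t + 1) * w) * n.choose t := by ring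
      _ < (n + 1) * n.choose t := by
        apply Nat.mul_lt_mul_of_pos_right _ hpos
        omega
  exact lt_of_mul_lt_mul_right h2 (Nat.zero_le _)

open Classical in
theorem hole_filter1 {a w k : ℕ} (x y : Fin a ⊕ Fin w)
    (D : DecidablePred (fun b : Finset (Fin a ⊕ Fin w) => b.card = k ∧
          Set.InjOn (holeMap a w) (b : Set (Fin a ⊕ Fin w)) ∧ x ∈ b ∧ y ∈ b)) :
    ∑ b ∈ @Finset.filter _ (fun b : Finset (Fin a ⊕ Fin w) => b.card = k ∧
          Set.InjOn (holeMap a w) (b : Set (Fin a ⊕ Fin w)) ∧ x ∈ b ∧ y ∈ b) D Finset.univ,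
        holeWt a w k b
      = (Finset.univ.filter (fun b : Finset (Fin a ⊕ Fin w) => b.card = k ∧ b.toRight.card = 1 ∧
          x ∈ b ∧ y ∈ b)).card * (a - 2).choose (k - 2)
        + (Finset.univ.filter (fun b : Finset (Fin a ⊕ Fin w) => b.card = k ∧
          (∀ j : Fin w, Sum.inr j ∉ b) ∧ x ∈ b ∧ y ∈ b)).card
          * ((a - 1).choose (k - 2) - w * (a - 2).choose (k - 3)) := by
  unfold holeWt
  rw [Finset.sum_ite, Finset.sum_const, Finset.sum_const, Finset.filter_filter,
    Finset.filter_filter, smul_eq_mul, smul_eq_mul]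
  congr 3
  · ext b
    simp only [Finset.mem_filter, Finset.mem_univ, true_and, injOn_holeMap]
    constructor
    · rintro ⟨⟨h1, h2, h3, h4⟩, h5⟩; exact ⟨h1, h5, h3, h4⟩
    · rintro ⟨h1, h2, h3, h4⟩; exact ⟨⟨h1, by omega, h3, h4⟩, h2⟩
  · ext b
    simp only [Finset.mem_filter, Finset.mem_univ, true_and, injOn_holeMap]
    constructor
    · rintro ⟨⟨h1, h2, h3, h4⟩, h5⟩
      refine ⟨h1, ?_, h3, h4⟩
      have : b.toRight.card = 0 := by omega
      rw [Finset.card_eq_zero] at this
      intro j hj
      have h6 := Finset.mem_toRight.2 hj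
      rw [this] at h6
      simp at h6
    · rintro ⟨h1, h2, h3, h4⟩
      have : b.toRight = ∅ := by ext j; simp [h2 j]
      refine ⟨⟨h1, ?_, h3, h4⟩, ?_⟩ <;> rw [this] <;> simp

open Classical in
theorem hole_sum {a w k : ℕ} (hk : 3 ≤ k) (ha : (k - 2) * w + 2 ≤ a)
    (ha' : k + 1 ≤ a) (x y : Fin a ⊕ Fin w) (hxy : holeMap a w x ≠ holeMap a w y) :
    ∑ b ∈ (Finset.univ : Finset (Finset (Fin a ⊕ Fin w))).filter
        (fun b : Finset (Fin a ⊕ Fin w) => b.card = k ∧
          Set.InjOn (holeMap a w) (b : Set (Fin a ⊕ Fin w)) ∧ x ∈ b ∧ y ∈ b), holeWt a w k b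
      = (a - 2).choose (k - 2) * (a - 1).choose (k - 2) := by
  have key := hole_arith hk ha ha'
  rw [hole_filter1]
  rcases x with p | i <;> rcases y with q | j
  · have hpq : p ≠ q := fun h => hxy (by rw [h])
    have h0 := card_hole0 (β := Fin w) k (by omega) p q hpq
    have h1 := card_hole1 (β := Fin w) k hk p q hpq
    rw [Fintype.card_fin] at h0
    rw [Fintype.card_fin, Fintype.card_fin] at h1
    have e1 : (Finset.univ.filter (fun b : Finset (Fin a ⊕ Fin w) => b.card = k ∧
      b.toRight.card = 1 ∧ Sum.inl p ∈ b ∧ Sum.inl q ∈ b)).card = w * (a - 2).choose (k - 3) := by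
      convert h1
    have e0 : (Finset.univ.filter (fun b : Finset (Fin a ⊕ Fin w) => b.card = k ∧
      (∀ j : Fin w, Sum.inr j ∉ b) ∧ Sum.inl p ∈ b ∧ Sum.inl q ∈ b)).card
        = (a - 2).choose (k - 2) := by
      convert h0
    rw [e1, e0]
    have hP : (a - 1).choose (k - 2) = (a - 1).choose (k - 2) - w * (a - 2).choose (k - 3)
        + w * (a - 2).choose (k - 3) := by omega
    generalize (a - 1).choose (k - 2) - w * (a - 2).choose (k - 3) = A at hP ⊢
    rw [hP]; ring
  · have h2 := card_hole2 k (by omega) p j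
    rw [Fintype.card_fin] at h2
    have e1 : (Finset.univ.filter (fun b : Finset (Fin a ⊕ Fin w) => b.card = k ∧
      b.toRight.card = 1 ∧ Sum.inl p ∈ b ∧ Sum.inr j ∈ b)).card = (a - 1).choose (k - 2) := by
      convert h2
    have e0 : (Finset.univ.filter (fun b : Finset (Fin a ⊕ Fin w) => b.card = k ∧
      (∀ j : Fin w, Sum.inr j ∉ b) ∧ Sum.inl p ∈ b ∧ Sum.inr j ∈ b)).card = 0 := by
      rw [Finset.card_eq_zero, Finset.filter_eq_empty_iff]
      rintro b _ ⟨_, h, _, h'⟩
      exact h j h'
    rw [e1, e0]; ring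
  · have h2 := card_hole2 k (by omega) q i
    rw [Fintype.card_fin] at h2
    have e1 : (Finset.univ.filter (fun b : Finset (Fin a ⊕ Fin w) => b.card = k ∧
      b.toRight.card = 1 ∧ Sum.inr i ∈ b ∧ Sum.inl q ∈ b)).card = (a - 1).choose (k - 2) := by
      rw [← h2]
      congr 1
      ext b
      simp only [Finset.mem_filter, Finset.mem_univ, true_and]
      tauto
    have e0 : (Finset.univ.filter (fun b : Finset (Fin a ⊕ Fin w) => b.card = k ∧
      (∀ j : Fin w, Sum.inr j ∉ b) ∧ Sum.inr i ∈ b ∧ Sum.inl q ∈ b)).card = 0 := by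
      rw [Finset.card_eq_zero, Finset.filter_eq_empty_iff]
      rintro b _ ⟨_, h, h', _⟩
      exact h i h'
    rw [e1, e0]; ring
  · exact absurd rfl hxy

theorem hole_deg {a w : ℕ} (x : Fin a ⊕ Fin w)
    (D : DecidablePred (fun y => holeMap a w y ≠ holeMap a w x)) :
    (@Finset.filter _ (fun y => holeMap a w y ≠ holeMap a w x) D Finset.univ).card
      = Sum.elim (fun _ => (a - 1) + w) (fun _ => a) x := by
  rcases x with p | i
  · have : (@Finset.filter _ (fun y => holeMap a w y ≠ holeMap a w (Sum.inl p)) D Finset.univ)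
      = (Finset.univ.erase p).disjSum (Finset.univ : Finset (Fin w)) := by
      ext (z | z) <;> rw [Finset.mem_filter] <;> simp [holeMap]
    rw [this, Finset.card_disjSum, Finset.card_erase_of_mem (Finset.mem_univ _)]
    simp
  · have : (@Finset.filter _ (fun y => holeMap a w y ≠ holeMap a w (Sum.inr i)) D Finset.univ)
      = (Finset.univ : Finset (Fin a)).disjSum (∅ : Finset (Fin w)) := by
      ext (z | z) <;> rw [Finset.mem_filter] <;> simp [holeMap]
    rw [this, Finset.card_disjSum]
    simp

theorem hole_parts {a w : ℕ} (hw : 1 ≤ w) (D : DecidableEq (Option (Fin a))) :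
    (@Finset.image _ _ D (holeMap a w) Finset.univ).card = a + 1 := by
  have : @Finset.image _ _ D (holeMap a w) Finset.univ = Finset.univ := by
    ext o
    rw [Finset.mem_image]
    simp only [Finset.mem_univ, true_and, iff_true]
    rcases o with _ | p
    · exact ⟨Sum.inr ⟨0, hw⟩, rfl⟩
    · exact ⟨Sum.inl p, rfl⟩
  rw [this, Finset.card_univ]; simp

theorem fold_hole {k a w : ℕ} (hk : 3 ≤ k) (hw : 1 ≤ w) (ha : (k - 2) * w + 2 ≤ a)
    (ha' : k + 1 ≤ a) (hd1 : (k - 1) ∣ a) (hd2 : (k - 1) ∣ (w - 1))
    (hd3 : k * (k - 1) ∣ a * (a + 2 * w - 1)) {F : ℕ} (hF : 100 * (a + w) ^ 5 ≤ F) :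
    Fold k (1 + F * ((a - 2).choose (k - 2) * (a - 1).choose (k - 2))) (igMap 1 a w) := by
  have hmain : Fold k (1 + F * ((a - 2).choose (k - 2) * (a - 1).choose (k - 2)))
      (holeMap a w) := by
    refine fold_of_weights (holeMap a w) k hk ?_ ?_ ?_ (holeWt a w k) _ ?_ ?_ F ?_
    · rw [hole_parts hw]; omega
    · intro x
      rw [hole_deg]
      rcases x with p | i
      · simp only [Sum.elim_inl]
        have : a - 1 + w = a + (w - 1) := by omega
        rw [this]; exact dvd_add hd1 hd2
      · simpa using hd1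
    · simp only [hole_deg]
      rw [Fintype.sum_sum_type]
      simp only [Sum.elim_inl, Sum.elim_inr, Finset.sum_const, Finset.card_univ, Fintype.card_fin,
        smul_eq_mul]
      have : a * (a - 1 + w) + w * a = a * (a + 2 * w - 1) := by
        obtain ⟨n, rfl⟩ : ∃ n, a = n + 1 := ⟨a - 1, by omega⟩
        have e1 : n + 1 - 1 = n := by omega
        have e2 : n + 1 + 2 * w - 1 = n + 2 * w := by omega
        rw [e1, e2]; ring
      rw [this]; exact hd3
    · intro b hb1 hb2
      unfold holeWt
      split_ifs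
      · exact Nat.choose_pos (by omega)
      · have := hole_arith hk ha ha'
        omega
    · intro x y hxy
      convert hole_sum hk ha ha' x y hxy
    · rw [Fintype.card_sum, Fintype.card_fin, Fintype.card_fin]; exact hF
  refine Fold.congr (Equiv.sumCongr (Equiv.prodUnique (Fin a) (Fin 1)) (Equiv.refl _)) ?_ hmain
  rintro (⟨p, p'⟩ | i) (⟨q, q'⟩ | j) <;> simp [igMap, holeMap]

end H108
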