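import Pool.Agent.H108R2.DFpow
import Pool.Agent.H108R2.Weights
import Pool.Agent.H108R2.Sys
import Pool.Agent.H108R2.LemmaA
import Pool.Agent.H108R2.Closure

namespace H108

open Nat

/-- bound for the number of points of the base designs -/
def XM (k : ℕ) : ℕ := 200 * k ^ 4

/-- the exponent -/
def NN (k : ℕ) : ℕ := Nat.totient (k * (k - 1)) * (2 * XM k + 2)

/-- the index of the base designs -/
def lam (k M : ℕ) : ℕ := 1 + (XM k)! ^ k * M * (100 * XM k ^ 5)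

/-- the inflation factor -/
def gg (k M : ℕ) : ℕ := lam k M ^ NN k

theorem lam_pos (k M : ℕ) : 0 < lam k M := by unfold lam; omega

theorem gg_pos (k M : ℕ) : 0 < gg k M := pow_pos (lam_pos k M) _

theorem n_pos {k : ℕ} (hk : 3 ≤ k) : 0 < k * (k - 1) := Nat.mul_pos (by omega) (by omega)

theorem n_le {k : ℕ} : k * (k - 1) ≤ k ^ 2 := by
  rw [pow_two]; exact Nat.mul_le_mul_left _ (by omega)

theorem NN_ge {k : ℕ} (hk : 3 ≤ k) : 2 * XM k + 2 ≤ NN k := by
  unfold NN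
  exact Nat.le_mul_of_pos_left _ (Nat.totient_pos.2 (n_pos hk))

theorem dvd_XM {k c : ℕ} (h0 : 0 < c) (h : c ≤ XM k) : c ∣ (XM k)! := Nat.dvd_factorial h0 h

theorem choose_dvd_XM {k a b : ℕ} (hb : b ≤ a) (h : a ≤ XM k) : a.choose b ∣ (XM k)! := by
  have h1 : a.choose b ∣ a ! := by
    rw [← Nat.choose_mul_factorial_mul_factorial hb, mul_assoc]
    exact Nat.dvd_mul_right _ _
  exact h1.trans (Nat.factorial_dvd_factorial h)

/-- passing from a fold design of index dividing data to a design with index one -/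
theorem lam_split {k M Λ : ℕ} (hM : 0 < M) (h : Λ ∣ (XM k)! ^ k) :
    ∃ F, 100 * XM k ^ 5 ≤ F ∧ 1 + F * Λ = lam k M := by
  obtain ⟨c, hc⟩ := h
  have hpos : 0 < (XM k)! ^ k := pow_pos (Nat.factorial_pos _) _
  have hc0 : 0 < c := by
    rcases Nat.eq_zero_or_pos c with h | h
    · subst h; rw [hc] at hpos; simp at hpos
    · exact h
  refine ⟨c * M * (100 * XM k ^ 5), ?_, ?_⟩
  · exact Nat.le_mul_of_pos_left _ (Nat.mul_pos hc0 hM)
  · unfold lam; rw [hc]; ring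

theorem fold_to_gd {X P : Type} [Finite X] {π : X → P} {k M : ℕ} (hk : 3 ≤ k)
    (hX : Nat.card X ≤ XM k) (hF : Fold k (lam k M) π) :
    GD {k} (fun p : X × Fin (gg k M) => π p.1) :=
  fold_inflate (sys_exists X (lam k M) (NN k) (lam_pos k M) ((by omega : _ ≤ 2 * XM k + 2).trans
    (NN_ge hk))) hF

/-- uniform base ingredient -/
theorem base_uniform {k M h s : ℕ} (hk : 3 ≤ k) (hM : 0 < M) (hs : k + 2 ≤ s) (hh : 1 ≤ h)
    (hX : s * h ≤ XM k)
    (hd1 : (k - 1) ∣ h * (s - 1)) (hd2 : k * (k - 1) ∣ (h * s) * (h * (s - 1))) :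
    IG {k} (h * gg k M) s 0 := by
  have hsX : s ≤ XM k := (Nat.le_mul_of_pos_right s hh).trans hX
  have hhX : h ≤ XM k := (Nat.le_mul_of_pos_left h (by omega : 0 < s)).trans hX
  have hΛ : (s - 2).choose (k - 2) * h ^ (k - 2) ∣ (XM k)! ^ k := by
    have h1 : (s - 2).choose (k - 2) ∣ (XM k)! := choose_dvd_XM (by omega) (by omega)
    have h2 : h ^ (k - 2) ∣ (XM k)! ^ (k - 2) := pow_dvd_pow_of_dvd (dvd_XM hh hhX) _
    have h3 := mul_dvd_mul h1 h2
    rw [← pow_succ'] at h3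
    exact h3.trans (pow_dvd_pow _ (by omega))
  obtain ⟨F, hF, hFe⟩ := lam_split hM hΛ
  have hfold := fold_uniform hk hs hh hd1 hd2 (F := F)
    ((Nat.mul_le_mul_left _ (Nat.pow_le_pow_left hX 5)).trans hF)
  rw [hFe] at hfold
  have hgd := fold_to_gd hk (by simpa using hX) hfold
  refine (ig_of_fibers0 ?_ (by simp)).1 hgd
  intro b
  have e : {y : (Fin s × Fin h) × Fin (gg k M) // y.1.1 = b} ≃ Fin h × Fin (gg k M) :=
    { toFun := fun y => (y.1.1.2, y.1.2)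
      invFun := fun z => ⟨((b, z.1), z.2), rfl⟩
      left_inv := by
        rintro ⟨⟨⟨x, y⟩, z⟩, h⟩
        simp only at h
        subst h; rfl
      right_inv := fun z => rfl }
  rw [Nat.card_congr e]; simp

/-- hole base ingredient -/
theorem base_hole {k M J w : ℕ} (hk : 3 ≤ k) (hM : 0 < M) (hJ : k + 2 ≤ J)
    (hJ' : J ≤ 100 * k ^ 2) (hw : 1 ≤ w) (hw' : w ≤ k * (k - 1) + k + 2)
    (hd : (k - 1) ∣ (w - 1)) :
    IG {k} (gg k M) (k * (k - 1) * J) (gg k M * w) := by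
  obtain ⟨r, rfl⟩ : ∃ r, k = r + 3 := ⟨k - 3, by omega⟩
  have e1 : r + 3 - 1 = r + 2 := by omega
  have e2 : r + 3 - 2 = r + 1 := by omega
  set a := (r + 3) * (r + 3 - 1) * J with ha
  have hXa : a + w ≤ XM (r + 3) := by
    unfold XM
    rw [ha, e1]
    rw [e1] at hw'
    have : (r + 3) * (r + 2) * J ≤ (r + 3) * (r + 2) * (100 * (r + 3) ^ 2) :=
      Nat.mul_le_mul_left _ hJ'
    nlinarith [Nat.zero_le (r ^ 4), Nat.zero_le (r ^ 3), Nat.zero_le (r ^ 2)]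
  have ha2 : (r + 3 - 2) * w + 2 ≤ a := by
    rw [ha, e1, e2]
    rw [e1] at hw'
    have h1 : (r + 1) * w ≤ (r + 1) * ((r + 3) * (r + 2) + (r + 3) + 2) :=
      Nat.mul_le_mul_left _ hw'
    have h2 : (r + 3) * (r + 2) * (r + 3 + 2) ≤ (r + 3) * (r + 2) * J := Nat.mul_le_mul_left _ hJ
    nlinarith [Nat.zero_le (r ^ 3), Nat.zero_le (r ^ 2)]
  have ha3 : r + 3 + 1 ≤ a := by
    rw [ha, e1]
    have h2 : (r + 3) * (r + 2) * (r + 3 + 2) ≤ (r + 3) * (r + 2) * J := Nat.mul_le_mul_left _ hJ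
    nlinarith [Nat.zero_le (r ^ 3), Nat.zero_le (r ^ 2)]
  have hΛ : (a - 2).choose (r + 3 - 2) * (a - 1).choose (r + 3 - 2) ∣ (XM (r + 3))! ^ (r + 3) := by
    have h1 : (a - 2).choose (r + 3 - 2) ∣ (XM (r + 3))! :=
      choose_dvd_XM (by omega) (by omega)
    have h2 : (a - 1).choose (r + 3 - 2) ∣ (XM (r + 3))! :=
      choose_dvd_XM (by omega) (by omega)
    have h3 := mul_dvd_mul h1 h2
    rw [← pow_two] at h3
    exact h3.trans (pow_dvd_pow _ (by omega))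
  obtain ⟨F, hF, hFe⟩ := lam_split hM hΛ
  have hfold := fold_hole (k := r + 3) (a := a) (w := w) hk hw ha2 ha3
    (by rw [ha]; exact ⟨(r + 3) * J, by ring⟩) hd
    (by rw [ha]; exact ⟨J * ((r + 3) * (r + 3 - 1) * J + 2 * w - 1), by ring⟩) (F := F)
    ((Nat.mul_le_mul_left _ (Nat.pow_le_pow_left hXa 5)).trans hF)
  rw [hFe] at hfold
  have hgd := fold_to_gd (M := M) hk (by simpa using hXa) hfold
  refine (ig_of_fibers ?_ (by simp) ?_).1 hgd
  · intro b
    have e : {y : ((Fin a × Fin 1) ⊕ Fin w) × Fin (gg (r + 3) M) // igMap 1 a w y.1 = some b} ≃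
        {y : ((Fin a × Fin 1) ⊕ Fin w) // igMap 1 a w y = some b} × Fin (gg (r + 3) M) :=
      { toFun := fun y => (⟨y.1.1, y.2⟩, y.1.2)
        invFun := fun z => ⟨(z.1.1, z.2), z.1.2⟩
        left_inv := fun y => rfl
        right_inv := fun z => rfl }
    rw [Nat.card_congr e, Nat.card_prod, card_igMap_some]; simp
  · have e : {y : ((Fin a × Fin 1) ⊕ Fin w) × Fin (gg (r + 3) M) // igMap 1 a w y.1 = none} ≃
        {y : ((Fin a × Fin 1) ⊕ Fin w) // igMap 1 a w y = none} × Fin (gg (r + 3) M) :=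
      { toFun := fun y => (⟨y.1.1, y.2⟩, y.1.2)
        invFun := fun z => ⟨(z.1.1, z.2), z.1.2⟩
        left_inv := fun y => rfl
        right_inv := fun z => rfl }
    rw [Nat.card_congr e, Nat.card_prod, card_igMap_none, Nat.card_fin, mul_comm]

theorem nice_prime {N p : ℕ} (hp : p.Prime) (h : N ≤ p) : Nice N p := by
  have := nice_prime_pow (N := N) hp one_ne_zero (by simpa using h)
  simpa using this

/-- base (ii) -/
theorem base_ii {k M s : ℕ} (hk : 3 ≤ k) (hM : 0 < M) (hs : k + 2 ≤ s)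
    (hs' : s ≤ 100 * k ^ 2) : IG {k} (k * (k - 1) * gg k M) s 0 := by
  refine base_uniform hk hM hs (n_pos hk) ?_ ?_ ?_
  · unfold XM
    calc s * (k * (k - 1)) ≤ (100 * k ^ 2) * k ^ 2 := Nat.mul_le_mul hs' n_le
      _ ≤ 200 * k ^ 4 := by nlinarith [Nat.zero_le (k ^ 4)]
  · exact ⟨k * (s - 1), by ring⟩
  · exact ⟨s * (k * (k - 1) * (s - 1)), by ring⟩

/-- F1 -/
theorem fam_uniform {k M c : ℕ} (hk : 3 ≤ k) (hM : 0 < M) (hc : Nice k c) :
    ∀ s, k + 2 ≤ s → IG {k} (k * (k - 1) * gg k M * c) s 0 := by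
  have hbase : ∀ s, k + 2 ≤ s → s ≤ 100 * k ^ 2 → IG {k} (k * (k - 1) * gg k M * c) s 0 := by
    intro s h1 h2
    simpa using ig_inflate hc (base_ii hk hM h1 h2)
  refine closure hk _ hbase ?_
  intro s p t1 t2 hp hs1 hs2 hsp ht1 ht2 h1 h2 h3
  have hz : IG {k} (k * (k - 1) * gg k M * c) (1 * 0) 0 := by simpa using ig_empty _ _ _
  have := ig_step (k := k) (g := k * (k - 1) * gg k M * c) (c := 1) (w := 0)
    (nice_prime hp hsp) ht1 ht2
    (fun u hu1 hu2 => by rw [mul_one]; exact hbase u (by omega) (by omega))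
    (by rw [one_mul]; exact h3)
    (by rcases h1 with rfl | ⟨_, h⟩
        · exact hz
        · rw [one_mul]; exact h)
    (by rcases h2 with rfl | ⟨_, h⟩
        · exact hz
        · rw [one_mul]; exact h)
  rwa [one_mul] at this

/-- F2 -/
theorem fam_hole {k M w : ℕ} (hk : 3 ≤ k) (hM : 0 < M) (hw : 1 ≤ w)
    (hw' : w ≤ k * (k - 1) + k + 2) (hd : (k - 1) ∣ (w - 1)) :
    ∀ J, k + 2 ≤ J → IG {k} (gg k M) (k * (k - 1) * J) (gg k M * w) := by
  refine closure hk _ (fun J h1 h2 => base_hole hk hM h1 h2 hw hw' hd) ?_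
  intro s p t1 t2 hp hs1 hs2 hsp ht1 ht2 h1 h2 h3
  have hz : IG {k} (gg k M) (k * (k - 1) * 0) (gg k M * w) := by simpa using ig_empty _ _ _
  refine ig_step (nice_prime hp hsp) ht1 ht2 ?_ h3 ?_ ?_
  · intro u hu1 hu2
    have := base_ii (k := k) (M := M) (s := u) hk hM (by omega) (by omega)
    rwa [mul_comm] at this
  · rcases h1 with rfl | ⟨_, h⟩
    · exact hz
    · exact h
  · rcases h2 with rfl | ⟨_, h⟩
    · exact hz
    · exact h

theorem adm_of_modEq {k u w : ℕ} (hw : 1 ≤ w) (hu : Adm k u)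
    (h : w ≡ u [MOD k * (k - 1)]) : Adm k w := by
  obtain ⟨h1, h2, h3⟩ := hu
  refine ⟨?_, ?_, hw⟩
  · have h4 : w ≡ u [MOD (k - 1)] := h.of_dvd (Nat.dvd_mul_left _ _)
    have h5 : 1 ≡ u [MOD (k - 1)] := (Nat.modEq_iff_dvd' h3).2 h1
    exact (Nat.modEq_iff_dvd' hw).1 (h5.trans h4.symm)
  · have h4 : w * (w - 1) + w = w * w := by
      obtain ⟨w, rfl⟩ : ∃ w', w = w' + 1 := ⟨w - 1, by omega⟩
      simp; ring
    have h5 : u * (u - 1) + u = u * u := by
      obtain ⟨w, rfl⟩ : ∃ w', u = w' + 1 := ⟨u - 1, by omega⟩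
      simp; ring
    have h6 : w * (w - 1) + w ≡ u * (u - 1) + u [MOD k * (k - 1)] := by
      rw [h4, h5]; exact h.mul h
    have h7 : w * (w - 1) ≡ u * (u - 1) [MOD k * (k - 1)] := Nat.ModEq.add_right_cancel h h6
    exact (Nat.modEq_zero_iff_dvd).1 (h7.trans ((Nat.modEq_zero_iff_dvd).2 h2))

/-- base (i) -/
theorem base_i {k M w : ℕ} (hk : 3 ≤ k) (hM : 0 < M) (hw : k + 2 ≤ w)
    (hw' : w ≤ k * (k - 1) + k + 2) (hA : Adm k w) : IG {k} (gg k M) w 0 := by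
  have := base_uniform (k := k) (M := M) (h := 1) (s := w) hk hM hw le_rfl ?_ ?_ ?_
  · rwa [one_mul] at this
  · unfold XM
    have := n_le (k := k)
    nlinarith [pow_pos (by omega : 0 < k) 4, pow_pos (by omega : 0 < k) 3,
      pow_pos (by omega : 0 < k) 2]
  · simpa using hA.1
  · simpa using hA.2.1

/-- F3 -/
theorem fam_adm {k M u : ℕ} (hk : 3 ≤ k) (hM : 0 < M) (hu : Adm k u)
    (hV : k * (k - 1) * (k + 2) + (k + 2) + k * (k - 1) ≤ u) : IG {k} (gg k M) u 0 := by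
  set n := k * (k - 1) with hn
  have hn0 : 0 < n := n_pos hk
  -- choose `w ∈ [k+2, k+2+n)` congruent to `u`
  obtain ⟨w, hw1, hw2, hw3⟩ : ∃ w, k + 2 ≤ w ∧ w < k + 2 + n ∧ w ≡ u [MOD n] := by
    refine ⟨k + 2 + (u - (k + 2)) % n, by omega, ?_, ?_⟩
    · have := Nat.mod_lt (u - (k + 2)) hn0
      omega
    · have h1 : (u - (k + 2)) % n ≡ u - (k + 2) [MOD n] := Nat.mod_modEq _ _
      have h2 := h1.add_left (k + 2)
      rwa [show k + 2 + (u - (k + 2)) = u by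
        have : k + 2 ≤ u := by
          have := Nat.zero_le (n * (k + 2)); omega
        omega] at h2
  have hwu : w ≤ u := by
    have := Nat.zero_le (n * (k + 2)); omega
  obtain ⟨J, hJ⟩ := (Nat.modEq_iff_dvd' hwu).1 hw3
  have hJ2 : k + 2 ≤ J := by
    by_contra hc
    have : J ≤ k + 1 := by omega
    have h3 : n * J ≤ n * (k + 1) := Nat.mul_le_mul_left _ this
    have h4 : n * (k + 2) = n * (k + 1) + n := by ring
    omega
  have hAw : Adm k w := adm_of_modEq (by omega) hu hw3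
  have h1 : IG {k} (gg k M) (n * J) (gg k M * w + 0) :=
    fam_hole hk hM (by omega) (by omega) hAw.1 J hJ2
  have h2 : IG {k} (gg k M) w 0 := base_i hk hM hw1 (by omega) hAw
  have h3 := ig_comp h1 h2
  rwa [← hJ, Nat.sub_add_cancel hwu] at h3

theorem prime_dvd_gg {k M p : ℕ} (hk : 3 ≤ k) (hp : p.Prime) (h : p ∣ gg k M) : XM k < p := by
  have h1 : p ∣ lam k M := hp.dvd_of_dvd_pow h
  by_contra hc
  have h2 : p ∣ (XM k)! := (hp.dvd_factorial).2 (by omega)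
  have h3 : p ∣ (XM k)! ^ k * M * (100 * XM k ^ 5) := by
    refine Dvd.dvd.mul_right (Dvd.dvd.mul_right (dvd_pow h2 (by omega)) _) _
  have h4 : p ∣ 1 := (Nat.dvd_add_left h3).1 h1
  exact hp.one_lt.ne' (Nat.dvd_one.1 h4)

theorem k_le_XM {k : ℕ} (hk : 3 ≤ k) : k ^ 2 ≤ XM k := by
  unfold XM
  calc k ^ 2 ≤ k ^ 4 := Nat.pow_le_pow_right (by omega) (by omega)
    _ ≤ 200 * k ^ 4 := by omega

theorem gg_coprime_n {k M : ℕ} (hk : 3 ≤ k) : Nat.Coprime (gg k M) (k * (k - 1)) := by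
  refine Nat.Coprime.symm (Nat.Coprime.symm ?_)
  refine Nat.coprime_of_dvd fun p hp h1 h2 => ?_
  have h3 := prime_dvd_gg hk hp h1
  have h4 := Nat.le_of_dvd (n_pos hk) h2
  have := n_le (k := k)
  have := k_le_XM hk
  omega

theorem lam_coprime_n {k M : ℕ} (hk : 3 ≤ k) : Nat.Coprime (lam k M) (k * (k - 1)) := by
  have h := gg_coprime_n (k := k) (M := M) hk
  unfold gg at h
  have h0 : 0 < NN k := by have := NN_ge hk; omega
  exact Nat.Coprime.coprime_dvd_left (dvd_pow_self _ h0.ne') h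

/-- `NN` is a good exponent for `pow_mem` -/
theorem NN_big {k : ℕ} (hk : 3 ≤ k) : (2 * k ^ 2) ^ (2 * k + 3) ≤ 2 ^ NN k := by
  have h1 : k ≤ 2 ^ k := (Nat.lt_two_pow_self).le
  have h2 : 2 * k ^ 2 ≤ 2 ^ (2 * k + 1) := by
    calc 2 * k ^ 2 ≤ 2 * (2 ^ k) ^ 2 := Nat.mul_le_mul_left _ (Nat.pow_le_pow_left h1 2)
      _ = 2 ^ (2 * k + 1) := by rw [← pow_mul]; ring
  calc (2 * k ^ 2) ^ (2 * k + 3) ≤ (2 ^ (2 * k + 1)) ^ (2 * k + 3) := Nat.pow_le_pow_left h2 _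
    _ = 2 ^ ((2 * k + 1) * (2 * k + 3)) := by rw [← pow_mul]
    _ ≤ 2 ^ NN k := by
        apply Nat.pow_le_pow_right (by omega)
        refine le_trans ?_ (NN_ge hk)
        unfold XM
        have h4 : k ^ 4 = k ^ 2 * k ^ 2 := by ring
        nlinarith [Nat.pow_le_pow_left hk 2]

theorem totient_dvd_NN (k : ℕ) : Nat.totient (k * (k - 1)) ∣ NN k := Nat.dvd_mul_right _ _

/-- F4 -/
theorem gg_mem {k M : ℕ} (hk : 3 ≤ k) : IG {k} 1 (gg k M) 0 :=
  pow_mem hk (totient_dvd_NN k) (NN_big hk) (lam_pos k M) (lam_coprime_n hk)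

/-- F6 -/
theorem fam_mem {k M u : ℕ} (hk : 3 ≤ k) (hM : 0 < M) (hu : Adm k u)
    (hV : k * (k - 1) * (k + 2) + (k + 2) + k * (k - 1) ≤ u) : IG {k} 1 (u * gg k M) 0 := by
  have h := fam_adm hk hM hu hV
  refine ig_fill ?_ (gg_mem hk)
  rw [one_mul]; exact h

/-- F7 -/
theorem gg_modEq (k M : ℕ) : gg k M ≡ 1 [MOD M] := by
  have h : lam k M ≡ 1 [MOD M] := by
    unfold lam
    have : (XM k)! ^ k * M * (100 * XM k ^ 5) ≡ 0 [MOD M] :=
      (Nat.modEq_zero_iff_dvd).2 ((Nat.dvd_mul_left M _).mul_right _)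
    simpa using this.add_left 1
  have := h.pow (NN k)
  rwa [one_pow] at this

end H108
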