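import Pool.Agent.H108R2.DefsK

/-!
Reduction of the index of a fold decomposition by inflating the points.
-/

namespace H108

open Set Function

theorem foldk_inflate {X P : Type} [Finite X] {π : X → P} {k L g : ℕ} (hS : SysK X k L g)
    (hF : Fold k L π) : GD {k} (fun p : X × Fin g => π p.1) := by
  classical
  obtain ⟨A, T, C, _, _, _, _, _, _, φ, κ, hA, hC, hanti, huniq, hzero, hsurj⟩ := hS
  obtain ⟨J, _, b, hb, hcov⟩ := hF
  let _ : LinearOrder X := linearOrderOfSTO WellOrderingRel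
  -- the bijections
  have hbij : ∀ x x' : X, π x ≠ π x' → Nonempty ({j // x ∈ b j ∧ x' ∈ b j} ≃ C) := by
    intro x x' h
    refine Finite.card_eq.1 ?_
    rw [hcov x x' h, hC]
  choose e he using fun (x x' : X) (h : π x ≠ π x') => (⟨(hbij x x' h).some, trivial⟩ :
    ∃ e : {j // x ∈ b j ∧ x' ∈ b j} ≃ C, True)
  -- target values
  let z : J → X → X → C := fun j x x' =>
    if h : (x < x' ∧ π x ≠ π x') ∧ (x ∈ b j ∧ x' ∈ b j) then e x x' h.1.2 ⟨j, h.2⟩ else 0
  have hsurj' : ∀ (j : J) (x : X), ∃ a, x ∈ b j → ∀ y ∈ b j, y ≠ x → κ x y a = z j x y := by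
    intro j x
    by_cases hx : x ∈ b j
    · obtain ⟨a, ha⟩ := hsurj (b j) (hb j).1 x hx (z j x)
      exact ⟨a, fun _ => ha⟩
    · exact ⟨0, fun h => absurd h hx⟩
  choose y hy using hsurj'
  -- equivalence
  let eA : A ≃ Fin g := Finite.equivFinOfCardEq hA
  -- blocks
  let pt : J → A → T → X → X × Fin g := fun j c t x => (x, eA (c + φ x t + y j x))
  have hptinj : ∀ j c t, Injective (pt j c t) := by
    intro j c t x x' h
    exact congrArg Prod.fst h
  let blk : J × A × T → Finset (X × Fin g) := fun q =>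
    (b q.1).map ⟨pt q.1 q.2.1 q.2.2, hptinj _ _ _⟩
  have hmem : ∀ j c t x (a : Fin g), (x, a) ∈ blk (j, c, t) ↔
      x ∈ b j ∧ c + φ x t + y j x = eA.symm a := by
    intro j c t x a
    simp only [blk, Finset.mem_map, Embedding.coeFn_mk, pt, Prod.mk.injEq]
    constructor
    · rintro ⟨x', hx', rfl, h⟩
      exact ⟨hx', by rw [← h, Equiv.symm_apply_apply]⟩
    · rintro ⟨h1, h2⟩
      exact ⟨x, h1, rfl, by rw [h2, Equiv.apply_symm_apply]⟩
  -- existence and uniqueness for ordered pairs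
  have main : ∀ x x' : X, x < x' → π x ≠ π x' → ∀ a a' : A, ∃! q : J × A × T,
      (x ∈ b q.1 ∧ q.2.1 + φ x q.2.2 + y q.1 x = a) ∧
      (x' ∈ b q.1 ∧ q.2.1 + φ x' q.2.2 + y q.1 x' = a') := by
    intro x x' hlt hπ a a'
    have hne : x ≠ x' := hlt.ne
    -- kappa of y
    have hk1 : ∀ j, (hj : x ∈ b j ∧ x' ∈ b j) → κ x x' (y j x) = e x x' hπ ⟨j, hj⟩ := by
      intro j hj
      rw [hy j x hj.1 x' hj.2 hne.symm]
      simp only [z]
      rw [dif_pos ⟨⟨hlt, hπ⟩, hj⟩]
    have hk2 : ∀ j, (x ∈ b j ∧ x' ∈ b j) → κ x x' (y j x') = 0 := by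
      intro j hj
      rw [hanti x' x, hy j x' hj.2 x hj.1 hne]
      simp only [z]
      rw [dif_neg, neg_zero]
      rintro ⟨⟨h, -⟩, -⟩
      exact absurd h hlt.not_gt
    let j0 : {j // x ∈ b j ∧ x' ∈ b j} := (e x x' hπ).symm (κ x x' (a - a'))
    have hj0 : κ x x' (y j0.1 x) = κ x x' (a - a') := by
      rw [hk1 j0.1 j0.2]
      exact (e x x' hπ).apply_symm_apply _
    have h0 : κ x x' ((a - a') - (y j0.1 x - y j0.1 x')) = 0 := by
      rw [map_sub (κ x x'), map_sub (κ x x') (y j0.1 x), hj0, hk2 j0.1 j0.2, sub_zero, sub_self]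
    obtain ⟨t, ht, htu⟩ := huniq x x' hne _ h0
    refine ⟨(j0.1, a - φ x t - y j0.1 x, t), ⟨⟨j0.2.1, ?_⟩, j0.2.2, ?_⟩, ?_⟩
    · change a - φ x t - y j0.1 x + φ x t + y j0.1 x = a
      abel
    · change a - φ x t - y j0.1 x + φ x' t + y j0.1 x' = a'
      have : φ x t = φ x' t + ((a - a') - (y j0.1 x - y j0.1 x')) := by
        rw [← ht]; abel
      rw [this]
      abel
    · rintro ⟨j, c, s⟩ ⟨⟨h1, h2⟩, h3, h4⟩
      change x ∈ b j at h1
      change x' ∈ b j at h3
      change c + φ x s + y j x = a at h2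
      change c + φ x' s + y j x' = a' at h4
      have h5 : φ x s - φ x' s = (a - a') - (y j x - y j x') := by
        rw [← h2, ← h4]; abel
      have h6 : κ x x' (a - a') = κ x x' (y j x) := by
        have := hzero x x' s hne
        rw [h5, map_sub (κ x x'), map_sub (κ x x') (y j x), hk2 j ⟨h1, h3⟩, sub_zero, sub_eq_zero]
          at this
        exact this
      have h7 : j = j0.1 := by
        have h8 : e x x' hπ ⟨j, h1, h3⟩ = κ x x' (a - a') := by
          rw [h6, hk1 j ⟨h1, h3⟩]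
        have h9 : (⟨j, h1, h3⟩ : {j // x ∈ b j ∧ x' ∈ b j}) = j0 := by
          change _ = (e x x' hπ).symm (κ x x' (a - a'))
          rw [← h8, Equiv.symm_apply_apply]
        exact congrArg Subtype.val h9
      subst h7
      have h10 : s = t := htu s h5
      subst h10
      refine Prod.ext rfl (Prod.ext ?_ rfl)
      change c = a - φ x s - y j0.1 x
      rw [← h2]
      abel
  refine ⟨range blk, ?_, ?_⟩
  · rintro _ ⟨⟨j, c, t⟩, rfl⟩
    constructor
    · simp only [blk, Finset.card_map]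
      exact (hb j).1
    · rintro ⟨x, a⟩ hx ⟨x', a'⟩ hx' h
      rw [Finset.mem_coe, hmem] at hx hx'
      have h1 : x = x' := (hb j).2 hx.1 hx'.1 h
      subst h1
      have h2 : eA.symm a = eA.symm a' := hx.2.symm.trans hx'.2
      rw [eA.symm.injective h2]
  · -- cover
    have key : ∀ x x' : X, x < x' → π x ≠ π x' → ∀ a a' : Fin g, ∃! s, s ∈ range blk ∧
        (x, a) ∈ s ∧ (x', a') ∈ s := by
      intro x x' hlt hπ a a'
      obtain ⟨q, hq, hqu⟩ := main x x' hlt hπ (eA.symm a) (eA.symm a')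
      refine ⟨blk q, ⟨⟨q, rfl⟩, ?_, ?_⟩, ?_⟩
      · obtain ⟨j, c, t⟩ := q
        rw [hmem]
        exact hq.1
      · obtain ⟨j, c, t⟩ := q
        rw [hmem]
        exact hq.2
      · rintro _ ⟨⟨q', rfl⟩, h1, h2⟩
        obtain ⟨j, c, t⟩ := q'
        rw [hmem] at h1 h2
        rw [hqu (j, c, t) ⟨h1, h2⟩]
    rintro ⟨x, a⟩ ⟨x', a'⟩ h
    have hne : x ≠ x' := by
      rintro rfl
      exact h rfl
    rcases lt_or_gt_of_ne hne with hlt | hlt
    · exact key x x' hlt h a a'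
    · obtain ⟨s, hs, hsu⟩ := key x' x hlt (Ne.symm h) a' a
      exact ⟨s, ⟨hs.1, hs.2.2, hs.2.1⟩, fun s' h' => hsu s' ⟨h'.1, h'.2.2, h'.2.1⟩⟩

end H108
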