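import Mathlib
import Pool.Agent.H108R2.DefsK

/-!
# The linear system over `F_L` with `g = L ^ N`, `N ≥ k - 1`
-/

namespace H108

open Polynomial

section

variable {F : Type} [Field F]

/-- multiplication by `c ^ 2 + c Z` -/
private noncomputable def phi (N : ℕ) (hN : 2 ≤ N) (c : F) :
    Polynomial.degreeLT F (N - 1) →+ Polynomial.degreeLT F N where
  toFun t := ⟨(C (c ^ 2) + C c * X) * (t : F[X]), by
    rw [Polynomial.mem_degreeLT]
    have ht := Polynomial.mem_degreeLT.1 t.2
    rcases eq_or_ne (t : F[X]) 0 with h0 | h0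
    · rw [h0, mul_zero, degree_zero]
      exact WithBot.bot_lt_coe _
    · have h1 : (C (c ^ 2) + C c * X : F[X]).degree ≤ 1 := by
        rw [add_comm]
        exact Polynomial.degree_linear_le
      rw [degree_mul]
      have h2 : (t : F[X]).degree = ((t : F[X]).natDegree : WithBot ℕ) := degree_eq_natDegree h0
      rw [h2] at ht ⊢
      have h3 : (t : F[X]).natDegree < N - 1 := by exact_mod_cast ht
      calc (C (c ^ 2) + C c * X : F[X]).degree + ((t : F[X]).natDegree : WithBot ℕ)
          ≤ 1 + ((t : F[X]).natDegree : WithBot ℕ) := by gcongr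
        _ = ((1 + (t : F[X]).natDegree : ℕ) : WithBot ℕ) := by push_cast; rfl
        _ < (N : WithBot ℕ) := by
            have : 1 + (t : F[X]).natDegree < N := by omega
            exact_mod_cast this⟩
  map_zero' := by
    apply Subtype.ext
    simp
  map_add' s t := by
    apply Subtype.ext
    simp [mul_add]

private lemma phi_sub (N : ℕ) (hN : 2 ≤ N) (c d : F) (t : Polynomial.degreeLT F (N - 1)) :
    ((phi N hN c t - phi N hN d t : Polynomial.degreeLT F N) : F[X]) =
      C (c - d) * ((X + C (c + d)) * (t : F[X])) := by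
  simp only [phi, AddMonoidHom.coe_mk, ZeroHom.coe_mk, AddSubgroupClass.coe_sub, C_sub, C_add,
    C_pow]
  ring

/-- `(c - d) a(-(c+d))` -/
private noncomputable def kap (N : ℕ) (c d : F) : Polynomial.degreeLT F N →+ F where
  toFun a := (c - d) * (a : F[X]).eval (-(c + d))
  map_zero' := by simp
  map_add' a b := by simp [mul_add]

private lemma kap_apply (N : ℕ) (c d : F) (a : Polynomial.degreeLT F N) :
    kap N c d a = (c - d) * (a : F[X]).eval (-(c + d)) := rfl

private lemma card_degreeLT [Finite F] (n : ℕ) :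
    Nat.card (Polynomial.degreeLT F n) = Nat.card F ^ n := by
  rw [Nat.card_congr (Polynomial.degreeLTEquiv F n).toEquiv]
  have := Fintype.ofFinite F
  simp

private instance [Finite F] (n : ℕ) : Finite (Polynomial.degreeLT F n) :=
  Finite.of_equiv _ (Polynomial.degreeLTEquiv F n).toEquiv.symm

end

theorem sysk_exists (X : Type) [Finite X] {k L N : ℕ} (hk : 3 ≤ k) (hL : L.Prime)
    (hX : Nat.card X ≤ L) (hN : k - 1 ≤ N) : SysK X k L (L ^ N) := by
  classical
  have : Fact L.Prime := ⟨hL⟩
  have : NeZero L := ⟨hL.ne_zero⟩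
  have : Fintype X := Fintype.ofFinite X
  have hN2 : 2 ≤ N := by omega
  obtain ⟨i⟩ : Nonempty (X ↪ ZMod L) := by
    apply Function.Embedding.nonempty_of_card_le
    rw [ZMod.card, ← Nat.card_eq_fintype_card]
    exact hX
  have hi : ∀ x y, x ≠ y → i x - i y ≠ 0 := fun x y h => sub_ne_zero.2 (i.injective.ne h)
  refine ⟨Polynomial.degreeLT (ZMod L) N, Polynomial.degreeLT (ZMod L) (N - 1), ZMod L,
    inferInstance, inferInstance, inferInstance, inferInstance, inferInstance, inferInstance,
    fun x => phi N hN2 (i x), fun x y => kap N (i x) (i y), ?_, ?_, ?_, ?_, ?_, ?_⟩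
  · rw [card_degreeLT]; simp
  · simp
  · intro x y a
    rw [kap_apply, kap_apply, add_comm (i y) (i x)]
    ring
  · intro x y hxy a ha
    rw [kap_apply] at ha
    have hroot : (a : (ZMod L)[X]).IsRoot (-(i x + i y)) :=
      (mul_eq_zero.1 ha).resolve_left (hi x y hxy)
    have hdiv : (Polynomial.X - C (-(i x + i y))) *
        ((a : (ZMod L)[X]) /ₘ (Polynomial.X - C (-(i x + i y)))) = (a : (ZMod L)[X]) :=
      mul_divByMonic_eq_iff_isRoot.2 hroot
    set t' : (ZMod L)[X] := (a : (ZMod L)[X]) /ₘ (Polynomial.X - C (-(i x + i y))) with ht'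
    have hXC : (Polynomial.X - C (-(i x + i y)) : (ZMod L)[X]) =
        Polynomial.X + C (i x + i y) := by
      rw [C_neg, sub_neg_eq_add]
    have hadeg : (a : (ZMod L)[X]).natDegree < N := by
      rcases eq_or_ne (a : (ZMod L)[X]) 0 with h0 | h0
      · rw [h0, natDegree_zero]; omega
      · have h1 := Polynomial.mem_degreeLT.1 a.2
        rw [degree_eq_natDegree h0] at h1
        exact_mod_cast h1
    have htdeg : t'.natDegree < N - 1 := by
      rw [ht', natDegree_divByMonic _ (monic_X_sub_C _), natDegree_X_sub_C]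
      omega
    have htmem : C ((i x - i y)⁻¹) * t' ∈ Polynomial.degreeLT (ZMod L) (N - 1) := by
      rw [Polynomial.mem_degreeLT]
      refine lt_of_le_of_lt (degree_mul_le _ _) ?_
      refine lt_of_le_of_lt (add_le_add degree_C_le degree_le_natDegree) ?_
      rw [zero_add]
      exact_mod_cast htdeg
    refine ⟨⟨_, htmem⟩, ?_, ?_⟩
    · apply Subtype.ext
      change ((phi N hN2 (i x) ⟨_, htmem⟩ - phi N hN2 (i y) ⟨_, htmem⟩ :
        Polynomial.degreeLT (ZMod L) N) : (ZMod L)[X]) = a
      rw [phi_sub]
      calc C (i x - i y) * ((Polynomial.X + C (i x + i y)) * (C ((i x - i y)⁻¹) * t'))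
          = (C (i x - i y) * C ((i x - i y)⁻¹)) * ((Polynomial.X + C (i x + i y)) * t') := by
            ring
        _ = (a : (ZMod L)[X]) := by
            rw [← C_mul, mul_inv_cancel₀ (hi x y hxy), C_1, one_mul, ← hXC, hdiv]
    · intro s hs
      have h1 := congrArg (fun v : Polynomial.degreeLT (ZMod L) N => (v : (ZMod L)[X])) hs
      simp only at h1
      rw [phi_sub] at h1
      apply Subtype.ext
      change (s : (ZMod L)[X]) = C ((i x - i y)⁻¹) * t'
      have h2 : (Polynomial.X + C (i x + i y)) * (C (i x - i y) * (s : (ZMod L)[X])) =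
          (Polynomial.X + C (i x + i y)) * t' := by
        rw [← hXC, hdiv, ← h1, hXC]
        ring
      have h3 : (Polynomial.X + C (i x + i y) : (ZMod L)[X]) ≠ 0 := (monic_X_add_C _).ne_zero
      have h4 := mul_left_cancel₀ h3 h2
      rw [← h4, ← mul_assoc, ← C_mul, inv_mul_cancel₀ (hi x y hxy), C_1, one_mul]
  · intro x y t hxy
    rw [kap_apply, phi_sub]
    simp
  · intro b hb x hx z
    let v : X → ZMod L := fun y => -(i x + i y)
    have hv : Set.InjOn v (b.erase x : Finset X) := by
      intro y _ y' _ h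
      have : i y = i y' := by simpa [v] using h
      exact i.injective this
    refine ⟨⟨Lagrange.interpolate (b.erase x) v (fun y => (i x - i y)⁻¹ * z y), ?_⟩, ?_⟩
    · rw [Polynomial.mem_degreeLT]
      refine lt_of_lt_of_le (Lagrange.degree_interpolate_lt _ hv) ?_
      rw [Finset.card_erase_of_mem hx, hb]
      exact_mod_cast hN
    · intro y hy hyx
      rw [kap_apply]
      have h1 := Lagrange.eval_interpolate_at_node (fun y => (i x - i y)⁻¹ * z y) hv
        (Finset.mem_erase.2 ⟨hyx, hy⟩)
      change (i x - i y) * eval (v y) _ = z y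
      rw [h1, ← mul_assoc, mul_inv_cancel₀ (hi x y (Ne.symm hyx)), one_mul]

end H108
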