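import Pool.Agent.H108R2.FoldSmall
import Pool.Agent.H108R2.Weights

/-!
# Fold designs of every large index: the uniform case and the case of one hole
-/

namespace H108

theorem fold_uniform2 {k h s L : ℕ} (hk : 3 ≤ k) (hs : k + 2 ≤ s) (hh : 1 ≤ h)
    (hd1 : (k - 1) ∣ h * (s - 1)) (hd2 : k * (k - 1) ∣ (h * s) * (h * (s - 1)))
    (hL : 2000 * (s * h) ^ 18 ≤ L) :
    Fold k L (Prod.fst : Fin s × Fin h → Fin s) := by
  classical
  have : Nonempty (Fin h) := ⟨⟨0, hh⟩⟩
  have hΛpos : 0 < (s - 2).choose (k - 2) * h ^ (k - 2) :=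
    Nat.mul_pos (Nat.choose_pos (by omega)) (by positivity)
  have hcount : ∀ x y : Fin s × Fin h, x.1 ≠ y.1 →
      ((Finset.univ : Finset (Finset (Fin s × Fin h))).filter
        (fun b : Finset (Fin s × Fin h) => (b.card = k ∧
          Set.InjOn Prod.fst (b : Set (Fin s × Fin h))) ∧ x ∈ b ∧ y ∈ b)).card
        = (s - 2).choose (k - 2) * h ^ (k - 2) := by
    intro x y hxy
    have h1 := card_transversal_pair k (by omega) x y hxy
    rw [Fintype.card_fin, Fintype.card_fin] at h1
    rw [← h1]
    congr 1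
    ext b
    simp only [Finset.mem_filter, Finset.mem_univ, true_and]
    tauto
  generalize (s - 2).choose (k - 2) * h ^ (k - 2) = Λ at hΛpos hcount
  have hΛR : (0:ℝ) < Λ := by exact_mod_cast hΛpos
  refine fold_small (Prod.fst : Fin s × Fin h → Fin s) k hk ?_ ?_ ?_
    (fun b => if b.card = k ∧ Set.InjOn Prod.fst (b : Set (Fin s × Fin h)) then 1 / (Λ:ℝ) else 0)
    (1 / (Λ:ℝ)) 1 (by positivity) zero_le_one ?_ ?_ ?_ ?_ ?_ L ?_
  · rw [card_parts, Fintype.card_fin]; exact hs
  · intro x
    rw [card_other_parts, Fintype.card_fin, Fintype.card_fin, mul_comm]; exact hd1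
  · rw [Finset.sum_congr rfl (fun x _ => card_other_parts x)]
    rw [Finset.sum_const, Finset.card_univ, Fintype.card_prod, Fintype.card_fin, Fintype.card_fin,
      smul_eq_mul, mul_comm s h, mul_comm (s - 1) h]
    exact hd2
  · rw [Fintype.card_prod, Fintype.card_fin, Fintype.card_fin]
    exact_mod_cast Nat.mul_pos (by omega) hh
  · intro b hb1 hb2
    simp only [hb1, hb2, and_self, if_true, le_refl]
  · intro b hb
    simp only [hb, if_false]
  · intro x y hxy
    have h1 := hcount x y hxy
    rw [← Finset.sum_filter, Finset.filter_filter, Finset.sum_const, nsmul_eq_mul]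
    convert_to (Λ : ℝ) * (1 / (Λ : ℝ)) = 1
    · congr 2
      rw [← h1]
      congr 1
      ext b
      simp only [Finset.mem_filter, Finset.mem_univ, true_and]
      tauto
    · field_simp
  · intro x y hxy
    convert_to (1 : ℝ) ≤ 1 * (1 / (Λ : ℝ)) * (Λ : ℝ)
    · congr 2
      rw [← hcount x y hxy]
      congr 1
      ext b
      simp only [Finset.mem_filter, Finset.mem_univ, true_and]
    · apply le_of_eq
      field_simp
  · rw [Fintype.card_prod, Fintype.card_fin, Fintype.card_fin]; exact hL

theorem hole_arith2 {k a w : ℕ} (hk : 3 ≤ k) (ha : (k - 2) * w + 2 ≤ a)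
    (ha' : k + 1 ≤ a) : (a - 1).choose (k - 2) ≤
      (a - 1) * ((a - 1).choose (k - 2) - w * (a - 2).choose (k - 3)) := by
  obtain ⟨t, rfl⟩ : ∃ t, k = t + 3 := ⟨k - 3, by omega⟩
  obtain ⟨n, rfl⟩ : ∃ n, a = n + 2 := ⟨a - 2, by omega⟩
  have e1 : t + 3 - 2 = t + 1 := by omega
  have e2 : t + 3 - 3 = t := by omega
  have e3 : n + 2 - 2 = n := by omega
  have e4 : n + 2 - 1 = n + 1 := by omega
  rw [e1] at ha
  rw [e1, e2, e3, e4]
  have h := Nat.add_one_mul_choose_eq n t
  -- (n+1) * choose n t = choose (n+1) (t+1) * (t+1)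
  rw [Nat.mul_sub]
  have h2 : (n + 1) * (w * n.choose t) = w * (t + 1) * (n + 1).choose (t + 1) := by
    calc (n + 1) * (w * n.choose t) = w * ((n + 1) * n.choose t) := by ring
      _ = w * ((n + 1).choose (t + 1) * (t + 1)) := by rw [h]
      _ = _ := by ring
  rw [h2, ← Nat.sub_mul]
  have h3 : 1 ≤ n + 1 - w * (t + 1) := by
    have : w * (t + 1) = (t + 1) * w := by ring
    omega
  calc (n + 1).choose (t + 1) = 1 * (n + 1).choose (t + 1) := by ring
    _ ≤ _ := Nat.mul_le_mul_right _ h3

theorem hole_arith3 {k a : ℕ} (hk : 3 ≤ k) (ha' : k + 1 ≤ a) :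
    (a - 1).choose (k - 2) ≤ (a - 1) * (a - 2).choose (k - 2) := by
  obtain ⟨t, rfl⟩ : ∃ t, k = t + 3 := ⟨k - 3, by omega⟩
  obtain ⟨n, rfl⟩ : ∃ n, a = n + 2 := ⟨a - 2, by omega⟩
  have e1 : t + 3 - 2 = t + 1 := by omega
  have e3 : n + 2 - 2 = n := by omega
  have e4 : n + 2 - 1 = n + 1 := by omega
  rw [e1, e3, e4]
  have h := Nat.choose_mul_succ_eq n (t + 1)
  -- n.choose k * (n + 1) = (n + 1).choose k * (n + 1 - k)
  rw [mul_comm, h]
  exact Nat.le_mul_of_pos_right _ (by omega)

theorem fold_hole2 {k a w L : ℕ} (hk : 3 ≤ k) (hw : 1 ≤ w) (ha : (k - 2) * w + 2 ≤ a)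
    (ha' : k + 1 ≤ a) (hd1 : (k - 1) ∣ a) (hd2 : (k - 1) ∣ (w - 1))
    (hd3 : k * (k - 1) ∣ a * (a + 2 * w - 1)) (hL : 2000 * (a + w) ^ 18 ≤ L) :
    Fold k L (igMap 1 a w) := by
  classical
  have hmain : Fold k L (holeMap a w) := by
    have hQpos : 0 < (a - 2).choose (k - 2) := Nat.choose_pos (by omega)
    have hPpos : 0 < (a - 1).choose (k - 2) := Nat.choose_pos (by omega)
    have hQR : (0:ℝ) < ((a - 2).choose (k - 2) : ℝ) := by exact_mod_cast hQpos
    have hPR : (0:ℝ) < ((a - 1).choose (k - 2) : ℝ) := by exact_mod_cast hPpos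
    have ha1 : (0:ℝ) < ((a - 1 : ℕ) : ℝ) := by
      have : 0 < a - 1 := by omega
      exact_mod_cast this
    refine fold_small (holeMap a w) k hk ?_ ?_ ?_
      (fun b => if b.card = k ∧ Set.InjOn (holeMap a w) (b : Set (Fin a ⊕ Fin w)) then
        (holeWt a w k b : ℝ) / (((a - 2).choose (k - 2) : ℝ) * ((a - 1).choose (k - 2) : ℝ)) else 0)
      (1 / (((a - 1 : ℕ) : ℝ) * ((a - 2).choose (k - 2) : ℝ))) ((a - 1 : ℕ) : ℝ)
      (by positivity) (by positivity) ?_ ?_ ?_ ?_ ?_ L ?_
    · rw [hole_parts hw]; omega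
    · intro x
      rw [hole_deg]
      rcases x with p | i
      · simp only [Sum.elim_inl]
        have : a - 1 + w = a + (w - 1) := by omega
        rw [this]; exact dvd_add hd1 hd2
      · simpa using hd1
    · simp only [hole_deg]
      rw [Fintype.sum_sum_type]
      simp only [Sum.elim_inl, Sum.elim_inr, Finset.sum_const, Finset.card_univ, Fintype.card_fin,
        smul_eq_mul]
      have : a * (a - 1 + w) + w * a = a * (a + 2 * w - 1) := by
        obtain ⟨n, rfl⟩ : ∃ n, a = n + 1 := ⟨a - 1, by omega⟩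
        have e1 : n + 1 - 1 = n := by omega
        have e2 : n + 1 + 2 * w - 1 = n + 2 * w := by omega
        rw [e1, e2]; ring
      rw [this]; exact hd3
    · rw [Fintype.card_sum, Fintype.card_fin, Fintype.card_fin]
      have : a - 1 ≤ a + w := by omega
      exact_mod_cast this
    · intro b hb1 hb2
      simp only [hb1, hb2, and_self, if_true]
      unfold holeWt
      split_ifs
      · rw [div_le_div_iff₀ (by positivity) (by positivity), one_mul]
        have h3 : ((a - 1).choose (k - 2) : ℝ) ≤ ((a - 1 : ℕ) : ℝ) * ((a - 2).choose (k - 2) : ℝ) := by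
          exact_mod_cast hole_arith3 hk ha'
        nlinarith
      · rw [div_le_div_iff₀ (by positivity) (by positivity), one_mul]
        have h3 : ((a - 1).choose (k - 2) : ℝ) ≤ ((a - 1 : ℕ) : ℝ) *
            (((a - 1).choose (k - 2) - w * (a - 2).choose (k - 3) : ℕ) : ℝ) := by
          exact_mod_cast hole_arith2 hk ha ha'
        nlinarith
    · intro b hb
      simp only [hb, if_false]
    · intro x y hxy
      have h1 := hole_sum hk ha ha' x y hxy
      rw [← Finset.sum_filter, Finset.filter_filter, ← Finset.sum_div,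
        div_eq_one_iff_eq (by positivity)]
      rw [← Nat.cast_mul, ← h1]
      push_cast
      apply Finset.sum_congr
      · ext b
        simp only [Finset.mem_filter, Finset.mem_univ, true_and]
        tauto
      · intro b _; rfl
    · intro x y hxy
      have h1 : (a - 2).choose (k - 2) ≤ ((Finset.univ : Finset (Finset (Fin a ⊕ Fin w))).filter
          (fun b : Finset (Fin a ⊕ Fin w) => (b.card = k ∧
            Set.InjOn (holeMap a w) (b : Set (Fin a ⊕ Fin w))) ∧ x ∈ b ∧ y ∈ b)).card := by
        have hmono : (a - 2).choose (k - 2) ≤ (a - 1).choose (k - 2) :=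
          Nat.choose_le_choose _ (by omega)
        rcases x with p | i <;> rcases y with q | j
        · have hpq : p ≠ q := fun h => hxy (by rw [h])
          have h0 := card_hole0 (β := Fin w) k (by omega) p q hpq
          rw [Fintype.card_fin] at h0
          rw [← h0]
          apply Finset.card_le_card
          intro b
          simp only [Finset.mem_filter, Finset.mem_univ, true_and, injOn_holeMap]
          rintro ⟨h1, h2, h3, h4⟩
          have : b.toRight = ∅ := by ext j; simp [h2 j]
          exact ⟨⟨h1, by rw [this]; simp⟩, h3, h4⟩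
        · have h2 := card_hole2 k (by omega) p j
          rw [Fintype.card_fin] at h2
          refine hmono.trans ?_
          rw [← h2]
          apply Finset.card_le_card
          intro b
          simp only [Finset.mem_filter, Finset.mem_univ, true_and, injOn_holeMap]
          rintro ⟨h1, h2, h3, h4⟩
          exact ⟨⟨h1, by omega⟩, h3, h4⟩
        · have h2 := card_hole2 k (by omega) q i
          rw [Fintype.card_fin] at h2
          refine hmono.trans ?_
          rw [← h2]
          apply Finset.card_le_card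
          intro b
          simp only [Finset.mem_filter, Finset.mem_univ, true_and, injOn_holeMap]
          rintro ⟨h1, h2, h3, h4⟩
          exact ⟨⟨h1, by omega⟩, h4, h3⟩
        · exact absurd rfl hxy
      have h2 : ((a - 1 : ℕ) : ℝ) * (1 / (((a - 1 : ℕ) : ℝ) * ((a - 2).choose (k - 2) : ℝ))) =
          1 / ((a - 2).choose (k - 2) : ℝ) := by
        field_simp
      rw [h2, div_mul_eq_mul_div, one_mul, le_div_iff₀ hQR, one_mul]
      refine Nat.cast_le.2 (h1.trans (le_of_eq ?_))
      congr 1
      ext b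
      simp only [Finset.mem_filter, Finset.mem_univ, true_and]
    · rw [Fintype.card_sum, Fintype.card_fin, Fintype.card_fin]; exact hL
  refine Fold.congr (Equiv.sumCongr (Equiv.prodUnique (Fin a) (Fin 1)) (Equiv.refl _)) ?_ hmain
  rintro (⟨p, p'⟩ | i) (⟨q, q'⟩ | j) <;> simp [igMap, holeMap]

end H108
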