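import Pool.Agent.H108R2.Family
import Pool.Agent.H108R2.SysK
import Pool.Agent.H108R2.InflateK
import Pool.Agent.H108R2.Weights2

namespace H108

open Nat

/-- lower bound for the primes -/
def L0 (k : ℕ) : ℕ := 2000 * XM k ^ 18

/-- good parameters : a prime `L` and an exponent `N` -/
structure GoodLN (k L N : ℕ) : Prop where
  prime : L.Prime
  big : L0 k ≤ L
  exp : k - 1 ≤ N
  mod : L ^ N ≡ 1 [MOD k * (k - 1)]

theorem XM_pos {k : ℕ} (hk : 3 ≤ k) : 0 < XM k := by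
  have := k_le_XM hk
  have : 0 < k ^ 2 := pow_pos (by omega) 2
  omega

theorem XM_le_L0 {k : ℕ} (hk : 3 ≤ k) : XM k ≤ L0 k := by
  unfold L0
  have h := XM_pos hk
  calc XM k = XM k ^ 1 := (pow_one _).symm
    _ ≤ XM k ^ 18 := Nat.pow_le_pow_right h (by omega)
    _ ≤ 2000 * XM k ^ 18 := Nat.le_mul_of_pos_left _ (by omega)

theorem GoodLN.pos {k L N : ℕ} (h : GoodLN k L N) : 0 < L ^ N := pow_pos h.prime.pos N

theorem GoodLN.XM_le {k L N : ℕ} (hk : 3 ≤ k) (h : GoodLN k L N) : XM k ≤ L :=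
  (XM_le_L0 hk).trans h.big

theorem GoodLN.k2_le {k L N : ℕ} (hk : 3 ≤ k) (h : GoodLN k L N) : k ^ 2 ≤ L :=
  (k_le_XM hk).trans (h.XM_le hk)

theorem fold_to_gd2 {X P : Type} [Finite X] {π : X → P} {k L N : ℕ} (hk : 3 ≤ k)
    (hL : GoodLN k L N) (hX : Nat.card X ≤ XM k) (hF : Fold k L π) :
    GD {k} (fun p : X × Fin (L ^ N) => π p.1) :=
  foldk_inflate (sysk_exists X hk hL.prime (hX.trans (hL.XM_le hk)) hL.exp) hF

/-- uniform base ingredient -/
theorem base_uniform2 {k L N h s : ℕ} (hk : 3 ≤ k) (hL : GoodLN k L N) (hs : k + 2 ≤ s)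
    (hh : 1 ≤ h) (hX : s * h ≤ XM k)
    (hd1 : (k - 1) ∣ h * (s - 1)) (hd2 : k * (k - 1) ∣ (h * s) * (h * (s - 1))) :
    IG {k} (h * L ^ N) s 0 := by
  have hfold := fold_uniform2 hk hs hh hd1 hd2 (L := L)
    ((Nat.mul_le_mul_left _ (Nat.pow_le_pow_left hX 18)).trans hL.big)
  have hgd := fold_to_gd2 hk hL (by simpa using hX) hfold
  refine (ig_of_fibers0 ?_ (by simp)).1 hgd
  intro b
  have e : {y : (Fin s × Fin h) × Fin (L ^ N) // y.1.1 = b} ≃ Fin h × Fin (L ^ N) :=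
    { toFun := fun y => (y.1.1.2, y.1.2)
      invFun := fun z => ⟨((b, z.1), z.2), rfl⟩
      left_inv := by
        rintro ⟨⟨⟨x, y⟩, z⟩, h⟩
        simp only at h
        subst h; rfl
      right_inv := fun z => rfl }
  rw [Nat.card_congr e]; simp

/-- hole base ingredient -/
theorem base_hole2 {k L N J w : ℕ} (hk : 3 ≤ k) (hL : GoodLN k L N) (hJ : k + 2 ≤ J)
    (hJ' : J ≤ 100 * k ^ 2) (hw : 1 ≤ w) (hw' : w ≤ k * (k - 1) + k + 2)
    (hd : (k - 1) ∣ (w - 1)) :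
    IG {k} (L ^ N) (k * (k - 1) * J) (L ^ N * w) := by
  obtain ⟨r, rfl⟩ : ∃ r, k = r + 3 := ⟨k - 3, by omega⟩
  have e1 : r + 3 - 1 = r + 2 := by omega
  have e2 : r + 3 - 2 = r + 1 := by omega
  set a := (r + 3) * (r + 3 - 1) * J with ha
  have hXa : a + w ≤ XM (r + 3) := by
    unfold XM
    rw [ha, e1]
    rw [e1] at hw'
    have : (r + 3) * (r + 2) * J ≤ (r + 3) * (r + 2) * (100 * (r + 3) ^ 2) :=
      Nat.mul_le_mul_left _ hJ'
    nlinarith [Nat.zero_le (r ^ 4), Nat.zero_le (r ^ 3), Nat.zero_le (r ^ 2)]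
  have ha2 : (r + 3 - 2) * w + 2 ≤ a := by
    rw [ha, e1, e2]
    rw [e1] at hw'
    have h1 : (r + 1) * w ≤ (r + 1) * ((r + 3) * (r + 2) + (r + 3) + 2) :=
      Nat.mul_le_mul_left _ hw'
    have h2 : (r + 3) * (r + 2) * (r + 3 + 2) ≤ (r + 3) * (r + 2) * J := Nat.mul_le_mul_left _ hJ
    nlinarith [Nat.zero_le (r ^ 3), Nat.zero_le (r ^ 2)]
  have ha3 : r + 3 + 1 ≤ a := by
    rw [ha, e1]
    have h2 : (r + 3) * (r + 2) * (r + 3 + 2) ≤ (r + 3) * (r + 2) * J := Nat.mul_le_mul_left _ hJ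
    nlinarith [Nat.zero_le (r ^ 3), Nat.zero_le (r ^ 2)]
  have hfold := fold_hole2 (k := r + 3) (a := a) (w := w) (L := L) hk hw ha2 ha3
    (by rw [ha]; exact ⟨(r + 3) * J, by ring⟩) hd
    (by rw [ha]; exact ⟨J * ((r + 3) * (r + 3 - 1) * J + 2 * w - 1), by ring⟩)
    ((Nat.mul_le_mul_left _ (Nat.pow_le_pow_left hXa 18)).trans hL.big)
  have hgd := fold_to_gd2 hk hL (by simpa using hXa) hfold
  refine (ig_of_fibers ?_ (by simp) ?_).1 hgd
  · intro b
    have e : {y : ((Fin a × Fin 1) ⊕ Fin w) × Fin (L ^ N) // igMap 1 a w y.1 = some b} ≃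
        {y : ((Fin a × Fin 1) ⊕ Fin w) // igMap 1 a w y = some b} × Fin (L ^ N) :=
      { toFun := fun y => (⟨y.1.1, y.2⟩, y.1.2)
        invFun := fun z => ⟨(z.1.1, z.2), z.1.2⟩
        left_inv := fun y => rfl
        right_inv := fun z => rfl }
    rw [Nat.card_congr e, Nat.card_prod, card_igMap_some]; simp
  · have e : {y : ((Fin a × Fin 1) ⊕ Fin w) × Fin (L ^ N) // igMap 1 a w y.1 = none} ≃
        {y : ((Fin a × Fin 1) ⊕ Fin w) // igMap 1 a w y = none} × Fin (L ^ N) :=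
      { toFun := fun y => (⟨y.1.1, y.2⟩, y.1.2)
        invFun := fun z => ⟨(z.1.1, z.2), z.1.2⟩
        left_inv := fun y => rfl
        right_inv := fun z => rfl }
    rw [Nat.card_congr e, Nat.card_prod, card_igMap_none, Nat.card_fin, mul_comm]

/-- base (ii) -/
theorem base2_ii {k L N s : ℕ} (hk : 3 ≤ k) (hL : GoodLN k L N) (hs : k + 2 ≤ s)
    (hs' : s ≤ 100 * k ^ 2) : IG {k} (k * (k - 1) * L ^ N) s 0 := by
  refine base_uniform2 hk hL hs (n_pos hk) ?_ ?_ ?_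
  · unfold XM
    calc s * (k * (k - 1)) ≤ (100 * k ^ 2) * k ^ 2 := Nat.mul_le_mul hs' n_le
      _ ≤ 200 * k ^ 4 := by nlinarith [Nat.zero_le (k ^ 4)]
  · exact ⟨k * (s - 1), by ring⟩
  · exact ⟨s * (k * (k - 1) * (s - 1)), by ring⟩

/-- F1 -/
theorem fam2_uniform {k L N c : ℕ} (hk : 3 ≤ k) (hL : GoodLN k L N) (hc : Nice k c) :
    ∀ s, k + 2 ≤ s → IG {k} (k * (k - 1) * L ^ N * c) s 0 := by
  have hbase : ∀ s, k + 2 ≤ s → s ≤ 100 * k ^ 2 → IG {k} (k * (k - 1) * L ^ N * c) s 0 := by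
    intro s h1 h2
    simpa using ig_inflate hc (base2_ii hk hL h1 h2)
  refine closure hk _ hbase ?_
  intro s p t1 t2 hp hs1 hs2 hsp ht1 ht2 h1 h2 h3
  have hz : IG {k} (k * (k - 1) * L ^ N * c) (1 * 0) 0 := by simpa using ig_empty _ _ _
  have := ig_step (k := k) (g := k * (k - 1) * L ^ N * c) (c := 1) (w := 0)
    (nice_prime hp hsp) ht1 ht2
    (fun u hu1 hu2 => by rw [mul_one]; exact hbase u (by omega) (by omega))
    (by rw [one_mul]; exact h3)
    (by rcases h1 with rfl | ⟨_, h⟩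
        · exact hz
        · rw [one_mul]; exact h)
    (by rcases h2 with rfl | ⟨_, h⟩
        · exact hz
        · rw [one_mul]; exact h)
  rwa [one_mul] at this

/-- F2 -/
theorem fam2_hole {k L N w : ℕ} (hk : 3 ≤ k) (hL : GoodLN k L N) (hw : 1 ≤ w)
    (hw' : w ≤ k * (k - 1) + k + 2) (hd : (k - 1) ∣ (w - 1)) :
    ∀ J, k + 2 ≤ J → IG {k} (L ^ N) (k * (k - 1) * J) (L ^ N * w) := by
  refine closure hk _ (fun J h1 h2 => base_hole2 hk hL h1 h2 hw hw' hd) ?_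
  intro s p t1 t2 hp hs1 hs2 hsp ht1 ht2 h1 h2 h3
  have hz : IG {k} (L ^ N) (k * (k - 1) * 0) (L ^ N * w) := by simpa using ig_empty _ _ _
  refine ig_step (nice_prime hp hsp) ht1 ht2 ?_ h3 ?_ ?_
  · intro u hu1 hu2
    have := base2_ii (k := k) (L := L) (N := N) (s := u) hk hL (by omega) (by omega)
    rwa [mul_comm] at this
  · rcases h1 with rfl | ⟨_, h⟩
    · exact hz
    · exact h
  · rcases h2 with rfl | ⟨_, h⟩
    · exact hz
    · exact h

/-- base (i) -/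
theorem base2_i {k L N w : ℕ} (hk : 3 ≤ k) (hL : GoodLN k L N) (hw : k + 2 ≤ w)
    (hw' : w ≤ k * (k - 1) + k + 2) (hA : Adm k w) : IG {k} (L ^ N) w 0 := by
  have := base_uniform2 (k := k) (L := L) (N := N) (h := 1) (s := w) hk hL hw le_rfl ?_ ?_ ?_
  · rwa [one_mul] at this
  · unfold XM
    have := n_le (k := k)
    nlinarith [pow_pos (by omega : 0 < k) 4, pow_pos (by omega : 0 < k) 3,
      pow_pos (by omega : 0 < k) 2]
  · simpa using hA.1
  · simpa using hA.2.1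

/-- F3 -/
theorem fam2_adm {k L N u : ℕ} (hk : 3 ≤ k) (hL : GoodLN k L N) (hu : Adm k u)
    (hV : k * (k - 1) * (k + 2) + (k + 2) + k * (k - 1) ≤ u) : IG {k} (L ^ N) u 0 := by
  set n := k * (k - 1) with hn
  have hn0 : 0 < n := n_pos hk
  obtain ⟨w, hw1, hw2, hw3⟩ : ∃ w, k + 2 ≤ w ∧ w < k + 2 + n ∧ w ≡ u [MOD n] := by
    refine ⟨k + 2 + (u - (k + 2)) % n, by omega, ?_, ?_⟩
    · have := Nat.mod_lt (u - (k + 2)) hn0
      omega
    · have h1 : (u - (k + 2)) % n ≡ u - (k + 2) [MOD n] := Nat.mod_modEq _ _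
      have h2 := h1.add_left (k + 2)
      rwa [show k + 2 + (u - (k + 2)) = u by
        have : k + 2 ≤ u := by
          have := Nat.zero_le (n * (k + 2)); omega
        omega] at h2
  have hwu : w ≤ u := by
    have := Nat.zero_le (n * (k + 2)); omega
  obtain ⟨J, hJ⟩ := (Nat.modEq_iff_dvd' hwu).1 hw3
  have hJ2 : k + 2 ≤ J := by
    by_contra hc
    have : J ≤ k + 1 := by omega
    have h3 : n * J ≤ n * (k + 1) := Nat.mul_le_mul_left _ this
    have h4 : n * (k + 2) = n * (k + 1) + n := by ring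
    omega
  have hAw : Adm k w := adm_of_modEq (by omega) hu hw3
  have h1 : IG {k} (L ^ N) (n * J) (L ^ N * w + 0) :=
    fam2_hole hk hL (by omega) (by omega) hAw.1 J hJ2
  have h2 : IG {k} (L ^ N) w 0 := base2_i hk hL hw1 (by omega) hAw
  have h3 := ig_comp h1 h2
  rwa [← hJ, Nat.sub_add_cancel hwu] at h3

/-- designs on the points of a finite field -/
theorem field_mem2 {k p m : ℕ} (hk : 3 ≤ k) (hp : p.Prime) (hm : m ≠ 0)
    (hmod : k * (k - 1) ∣ p ^ m - 1) (hbig : (2 * k ^ 2) ^ (2 * k + 3) ≤ p ^ m) :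
    IG {k} 1 (p ^ m) 0 := by
  have : Fact p.Prime := ⟨hp⟩
  have : Finite (GaloisField p m) := inferInstance
  have : Fintype (GaloisField p m) := Fintype.ofFinite _
  have hcard : Fintype.card (GaloisField p m) = p ^ m := by
    rw [← Nat.card_eq_fintype_card]; exact GaloisField.card p _ hm
  have hG := df_field (GaloisField p m) k hk (by rw [hcard]; exact hmod)
    (by rw [hcard]; exact hbig)
  exact (ig_id_iff k (p ^ m) (by rw [Nat.card_eq_fintype_card, hcard])).1 hG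

theorem GoodLN.big_pow {k L N : ℕ} (hk : 3 ≤ k) (h : GoodLN k L N) :
    (2 * k ^ 2) ^ (2 * k + 3) ≤ L ^ N := by
  have h1 : (2 * k ^ 2) ^ 9 ≤ L := by
    refine le_trans ?_ h.big
    unfold L0 XM
    have h2 : 1 ≤ k ^ 4 := Nat.one_le_pow _ _ (by omega)
    calc (2 * k ^ 2) ^ 9 = 512 * k ^ 18 := by ring
      _ ≤ 2000 * (200 ^ 18 * (k ^ 4) ^ 18) := by
          have h3 : k ^ 18 ≤ (k ^ 4) ^ 18 := by
            rw [← pow_mul]; exact Nat.pow_le_pow_right (by omega) (by omega)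
          have h4 : (512 : ℕ) ≤ 2000 * 200 ^ 18 := by norm_num
          calc 512 * k ^ 18 ≤ (2000 * 200 ^ 18) * (k ^ 4) ^ 18 := Nat.mul_le_mul h4 h3
            _ = 2000 * (200 ^ 18 * (k ^ 4) ^ 18) := by ring
      _ = 2000 * (200 * k ^ 4) ^ 18 := by rw [mul_pow]
  calc (2 * k ^ 2) ^ (2 * k + 3) ≤ (2 * k ^ 2) ^ (9 * (k - 1)) :=
        Nat.pow_le_pow_right (by positivity) (by omega)
    _ = ((2 * k ^ 2) ^ 9) ^ (k - 1) := by rw [← pow_mul]
    _ ≤ L ^ (k - 1) := Nat.pow_le_pow_left h1 _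
    _ ≤ L ^ N := Nat.pow_le_pow_right h.prime.pos h.exp

/-- F4 -/
theorem gg2_mem {k L N : ℕ} (hk : 3 ≤ k) (h : GoodLN k L N) : IG {k} 1 (L ^ N) 0 := by
  refine field_mem2 hk h.prime ?_ ?_ (h.big_pow hk)
  · have := h.exp; omega
  · exact (Nat.modEq_iff_dvd' h.pos).1 h.mod.symm

/-- F6 -/
theorem fam2_mem {k L N u : ℕ} (hk : 3 ≤ k) (hL : GoodLN k L N) (hu : Adm k u)
    (hV : k * (k - 1) * (k + 2) + (k + 2) + k * (k - 1) ≤ u) : IG {k} 1 (u * L ^ N) 0 := by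
  have h := fam2_adm hk hL hu hV
  refine ig_fill ?_ (gg2_mem hk hL)
  rw [one_mul]; exact h

end H108
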