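import Pool.Agent.H108R2.Weights2

/-!
# Inflation of weights: fold designs of type `h^a (hw)^1`
-/

namespace H108

namespace Infl
open Classical

/-- `k`-sets above a given `k`-set through two given points -/
theorem count {X : Type} [Fintype X] {k h : ℕ} (hk : 2 ≤ k) (b : Finset X) (hb : b.card = k)
    (x y : X) (hx : x ∈ b) (hy : y ∈ b) (hxy : x ≠ y) (i i' : Fin h) :
    ((Finset.univ : Finset (Finset (X × Fin h))).filter
      (fun b' : Finset (X × Fin h) => (b'.card = k ∧ Set.InjOn Prod.fst (b' : Set (X × Fin h))) ∧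
        b'.image Prod.fst = b ∧ (x, i) ∈ b' ∧ (y, i') ∈ b')).card = h ^ (k - 2) := by
  have hyx : y ∈ b.erase x := Finset.mem_erase.2 ⟨hxy.symm, hy⟩
  have hS : ((b.erase x).erase y).card = k - 2 := by
    rw [Finset.card_erase_of_mem hyx, Finset.card_erase_of_mem hx, hb]; omega
  have h1 := card_transversal (β := Fin h) ((b.erase x).erase y) (k - 2)
  rw [hS, Nat.choose_self, one_mul, Fintype.card_fin] at h1
  rw [← h1]
  refine Finset.card_nbij' (fun b' => (b'.erase (x, i)).erase (y, i'))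
    (fun b' => insert (x, i) (insert (y, i') b')) ?_ ?_ ?_ ?_
  · intro b' hb'
    simp only [Finset.coe_filter, Finset.mem_univ, true_and, Set.mem_ofPred_eq] at hb' ⊢
    obtain ⟨⟨h1, h2⟩, h3, h4, h5⟩ := hb'
    have hne : (y, i') ≠ (x, i) := fun h => hxy (Prod.mk.inj h).1.symm
    refine ⟨?_, ?_, ?_⟩
    · rw [Finset.card_erase_of_mem (Finset.mem_erase.2 ⟨hne, h5⟩), Finset.card_erase_of_mem h4, h1]
      omega
    · intro u hu v hv huv
      simp only [Finset.coe_erase, Set.mem_sdiff, Finset.mem_coe] at hu hv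
      exact h2 hu.1.1 hv.1.1 huv
    · intro z hz
      simp only [Finset.mem_erase] at hz
      rw [Finset.mem_erase, Finset.mem_erase]
      refine ⟨fun h => hz.1 (h2 hz.2.2 h5 h), fun h => hz.2.1 (h2 hz.2.2 h4 h), ?_⟩
      rw [← h3]
      exact Finset.mem_image_of_mem _ hz.2.2
  · intro b' hb'
    simp only [Finset.coe_filter, Finset.mem_univ, true_and, Set.mem_ofPred_eq] at hb' ⊢
    obtain ⟨h1, h2, h3⟩ := hb'
    have h3' : ∀ z ∈ b', z.1 ≠ x ∧ z.1 ≠ y ∧ z.1 ∈ b := by
      intro z hz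
      have := h3 z hz
      simp only [Finset.mem_erase] at this
      exact ⟨this.2.1, this.1, this.2.2⟩
    have hxn : (x, i) ∉ b' := fun h => (h3' _ h).1 rfl
    have hyn : (y, i') ∉ b' := fun h => (h3' _ h).2.1 rfl
    have hne : (x, i) ≠ (y, i') := fun h => hxy (Prod.mk.inj h).1
    have hcard : (insert (x, i) (insert (y, i') b')).card = k := by
      rw [Finset.card_insert_of_notMem (by simp [hne, hxn]), Finset.card_insert_of_notMem hyn, h1]
      omega
    have hinj : Set.InjOn Prod.fst ((insert (x, i) (insert (y, i') b') : Finset (X × Fin h)) :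
        Set (X × Fin h)) := by
      intro u hu v hv huv
      simp only [Finset.coe_insert, Set.mem_insert_iff, Finset.mem_coe] at hu hv
      rcases hu with rfl | rfl | hu <;> rcases hv with rfl | rfl | hv
      · rfl
      · exact absurd huv hxy
      · exact absurd huv.symm (h3' v hv).1
      · exact absurd huv.symm hxy
      · rfl
      · exact absurd huv.symm (h3' v hv).2.1
      · exact absurd huv (h3' u hu).1
      · exact absurd huv (h3' u hu).2.1
      · exact h2 hu hv huv
    refine ⟨⟨hcard, hinj⟩, ?_, by simp, by simp⟩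
    apply Finset.eq_of_subset_of_card_le
    · intro z hz
      simp only [Finset.mem_image, Finset.mem_insert] at hz
      obtain ⟨u, hu, rfl⟩ := hz
      rcases hu with rfl | rfl | hu
      · exact hx
      · exact hy
      · exact (h3' u hu).2.2
    · rw [Finset.card_image_of_injOn hinj, hcard, hb]
  · intro b' hb'
    simp only [Finset.coe_filter, Finset.mem_univ, true_and, Set.mem_ofPred_eq] at hb'
    obtain ⟨⟨h1, h2⟩, h3, h4, h5⟩ := hb'
    have hne : (y, i') ≠ (x, i) := fun h => hxy (Prod.mk.inj h).1.symm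
    simp only
    rw [Finset.insert_erase (Finset.mem_erase.2 ⟨hne, h5⟩), Finset.insert_erase h4]
  · intro b' hb'
    simp only [Finset.coe_filter, Finset.mem_univ, true_and, Set.mem_ofPred_eq] at hb'
    obtain ⟨h1, h2, h3⟩ := hb'
    have h3' : ∀ z ∈ b', z.1 ≠ x ∧ z.1 ≠ y ∧ z.1 ∈ b := by
      intro z hz
      have := h3 z hz
      simp only [Finset.mem_erase] at this
      exact ⟨this.2.1, this.1, this.2.2⟩
    have hxn : (x, i) ∉ b' := fun h => (h3' _ h).1 rfl
    have hyn : (y, i') ∉ b' := fun h => (h3' _ h).2.1 rfl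
    have hne : (x, i) ≠ (y, i') := fun h => hxy (Prod.mk.inj h).1
    simp only
    rw [Finset.erase_insert (by simp [hne, hxn]), Finset.erase_insert hyn]

theorem injOn_iff {X P : Type} {h : ℕ} (π : X → P) (b' : Finset (X × Fin h)) :
    Set.InjOn (fun p : X × Fin h => π p.1) (b' : Set (X × Fin h)) ↔
      Set.InjOn Prod.fst (b' : Set (X × Fin h)) ∧
        Set.InjOn π ((b'.image Prod.fst : Finset X) : Set X) := by
  constructor
  · intro H
    refine ⟨fun u hu v hv huv => H hu hv (by simp only [huv]), ?_⟩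
    intro u hu v hv huv
    simp only [Finset.coe_image, Set.mem_image, Finset.mem_coe] at hu hv
    obtain ⟨u', hu', rfl⟩ := hu
    obtain ⟨v', hv', rfl⟩ := hv
    rw [H hu' hv' huv]
  · rintro ⟨h1, h2⟩ u hu v hv huv
    apply h1 hu hv
    apply h2 _ _ huv
    · simp only [Finset.coe_image, Set.mem_image]; exact ⟨u, hu, rfl⟩
    · simp only [Finset.coe_image, Set.mem_image]; exact ⟨v, hv, rfl⟩

theorem sum_infl {X P : Type} [Fintype X] (π : X → P) {k h : ℕ} (hk : 2 ≤ k)
    (x y : X) (hxy : π x ≠ π y) (i i' : Fin h) (g : Finset X → ℝ) :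
    ∑ b' ∈ (Finset.univ : Finset (Finset (X × Fin h))).filter (fun b' : Finset (X × Fin h) =>
        (b'.card = k ∧ Set.InjOn (fun p : X × Fin h => π p.1) (b' : Set (X × Fin h))) ∧
          (x, i) ∈ b' ∧ (y, i') ∈ b'), g (b'.image Prod.fst)
      = (h : ℝ) ^ (k - 2) * ∑ b ∈ (Finset.univ : Finset (Finset X)).filter (fun b : Finset X =>
        (b.card = k ∧ Set.InjOn π (b : Set X)) ∧ x ∈ b ∧ y ∈ b), g b := by
  have hne : x ≠ y := fun h => hxy (by rw [h])
  rw [← Finset.sum_fiberwise_of_maps_to (g := fun b' : Finset (X × Fin h) => b'.image Prod.fst)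
    (t := (Finset.univ : Finset (Finset X)).filter (fun b : Finset X =>
        (b.card = k ∧ Set.InjOn π (b : Set X)) ∧ x ∈ b ∧ y ∈ b)), Finset.mul_sum]
  · apply Finset.sum_congr rfl
    intro b hb
    simp only [Finset.mem_filter, Finset.mem_univ, true_and] at hb
    obtain ⟨⟨hb1, hb2⟩, hb3, hb4⟩ := hb
    rw [Finset.sum_congr rfl (g := fun _ => g b), Finset.sum_const, nsmul_eq_mul]
    · congr 1
      rw [← Nat.cast_pow, ← count hk b hb1 x y hb3 hb4 hne i i']
      congr 2
      ext b'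
      simp only [Finset.mem_filter, Finset.mem_univ, true_and, injOn_iff]
      constructor
      · rintro ⟨⟨⟨h1, h2, h3⟩, h4, h5⟩, h6⟩
        exact ⟨⟨h1, h2⟩, h6, h4, h5⟩
      · rintro ⟨⟨h1, h2⟩, h6, h4, h5⟩
        exact ⟨⟨⟨h1, h2, by rw [h6]; exact hb2⟩, h4, h5⟩, h6⟩
    · intro b' hb'
      simp only [Finset.mem_filter] at hb'
      rw [hb'.2]
  · intro b' hb'
    simp only [Finset.mem_filter, Finset.mem_univ, true_and, injOn_iff] at hb' ⊢
    obtain ⟨⟨h1, h2, h3⟩, h4, h5⟩ := hb'
    refine ⟨⟨by rw [Finset.card_image_of_injOn h2, h1], h3⟩, ?_, ?_⟩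
    · exact Finset.mem_image.2 ⟨_, h4, rfl⟩
    · exact Finset.mem_image.2 ⟨_, h5, rfl⟩

end Infl

open Classical in
theorem fold_small_inflate {X P : Type} [Fintype X] (π : X → P) (k h : ℕ) (hk : 3 ≤ k)
    (hh : 1 ≤ h) (hparts : k + 2 ≤ (Finset.univ.image π).card)
    (hdeg : ∀ x, (k - 1) ∣ h * (Finset.univ.filter (fun y => π y ≠ π x)).card)
    (hE : k * (k - 1) ∣ h * h * ∑ x, (Finset.univ.filter (fun y => π y ≠ π x)).card)
    (c : Finset X → ℝ) (c0 B : ℝ) (hc0 : 0 < c0) (hB : 0 ≤ B) (hB' : B ≤ Fintype.card X)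
    (hc : ∀ b : Finset X, b.card = k → Set.InjOn π (b : Set X) → c0 ≤ c b)
    (hc' : ∀ b : Finset X, ¬ (b.card = k ∧ Set.InjOn π (b : Set X)) → c b = 0)
    (hsum : ∀ x y, π x ≠ π y →
      ∑ b ∈ Finset.univ.filter (fun b : Finset X => x ∈ b ∧ y ∈ b), c b = 1)
    (hν : ∀ x y, π x ≠ π y → 1 ≤ B * c0 * ((Finset.univ.filter (fun b : Finset X =>
      (b.card = k ∧ Set.InjOn π (b : Set X)) ∧ x ∈ b ∧ y ∈ b)).card : ℝ))
    (L : ℕ) (hL : 2000 * (Fintype.card X * h) ^ 18 ≤ L) :
    Fold k L (fun p : X × Fin h => π p.1) := by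
  have : Nonempty (Fin h) := ⟨⟨0, hh⟩⟩
  have hhR : (0:ℝ) < (h:ℝ) ^ (k - 2) := by
    have : (0:ℝ) < h := by exact_mod_cast hh
    positivity
  have hf : ∀ x' : X × Fin h, (Finset.univ.filter (fun y' : X × Fin h => π y'.1 ≠ π x'.1)).card =
      h * (Finset.univ.filter (fun y => π y ≠ π x'.1)).card := by
    intro x'
    have : (Finset.univ.filter (fun y' : X × Fin h => π y'.1 ≠ π x'.1)) =
        (Finset.univ.filter (fun y => π y ≠ π x'.1)) ×ˢ (Finset.univ : Finset (Fin h)) := by
      ext ⟨u, v⟩; simp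
    rw [this, Finset.card_product, Finset.card_univ, Fintype.card_fin, mul_comm]
  refine fold_small (fun p : X × Fin h => π p.1) k hk ?_ ?_ ?_
    (fun b' => if b'.card = k ∧ Set.InjOn (fun p : X × Fin h => π p.1) (b' : Set (X × Fin h)) then
      c (b'.image Prod.fst) / (h:ℝ) ^ (k - 2) else 0) (c0 / (h:ℝ) ^ (k - 2)) B (by positivity) hB
      ?_ ?_ ?_ ?_ ?_ L ?_
  · refine hparts.trans (Finset.card_le_card ?_)
    intro p hp
    obtain ⟨x, -, rfl⟩ := Finset.mem_image.1 hp
    exact Finset.mem_image.2 ⟨(x, Classical.arbitrary _), Finset.mem_univ _, rfl⟩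
  · intro x'
    rw [hf]; exact hdeg x'.1
  · rw [Finset.sum_congr rfl (fun x' _ => hf x'), Fintype.sum_prod_type]
    simp only [Finset.sum_const, Finset.card_univ, Fintype.card_fin, smul_eq_mul]
    rw [← Finset.mul_sum, ← Finset.mul_sum, ← mul_assoc]
    exact hE
  · refine hB'.trans ?_
    rw [Fintype.card_prod, Fintype.card_fin]
    push_cast
    have h1 : (1:ℝ) ≤ h := by exact_mod_cast hh
    nlinarith [(by positivity : (0:ℝ) ≤ (Fintype.card X : ℝ))]
  · intro b' hb1 hb2
    simp only [hb1, hb2, and_self, if_true]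
    rw [Infl.injOn_iff] at hb2
    gcongr
    exact hc _ (by rw [Finset.card_image_of_injOn hb2.1, hb1]) hb2.2
  · intro b' hb'
    simp only [hb', if_false]
  · rintro ⟨x, i⟩ ⟨y, i'⟩ hxy
    have h1 := Infl.sum_infl π (k := k) (by omega) x y hxy i i' (fun b => c b / (h:ℝ) ^ (k - 2))
    rw [← Finset.sum_filter, Finset.filter_filter]
    have h2 : ∀ A : Finset (Finset (X × Fin h)), A = (Finset.univ : Finset (Finset (X × Fin h))).filter
        (fun b' : Finset (X × Fin h) =>
        (b'.card = k ∧ Set.InjOn (fun p : X × Fin h => π p.1) (b' : Set (X × Fin h))) ∧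
          (x, i) ∈ b' ∧ (y, i') ∈ b') → ∑ b' ∈ A, c (b'.image Prod.fst) / (h:ℝ) ^ (k - 2) = 1 := by
      rintro A rfl
      rw [h1, ← Finset.sum_div, mul_div_cancel₀ _ hhR.ne', ← hsum x y hxy]
      apply Finset.sum_subset
      · intro b hb
        simp only [Finset.mem_filter, Finset.mem_univ, true_and] at hb ⊢
        exact hb.2
      · intro b hb hb2
        simp only [Finset.mem_filter, Finset.mem_univ, true_and] at hb hb2
        apply hc'
        intro hb3
        exact hb2 ⟨hb3, hb⟩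
    apply h2
    ext b'
    simp only [Finset.mem_filter, Finset.mem_univ, true_and]
    tauto
  · rintro ⟨x, i⟩ ⟨y, i'⟩ hxy
    have h1 := Infl.sum_infl π (k := k) (by omega) x y hxy i i' (fun b => 1)
    simp only [Finset.sum_const, nsmul_eq_mul, mul_one] at h1
    have h2 : ∀ A : Finset (Finset (X × Fin h)), A = (Finset.univ : Finset (Finset (X × Fin h))).filter
        (fun b' : Finset (X × Fin h) =>
        (b'.card = k ∧ Set.InjOn (fun p : X × Fin h => π p.1) (b' : Set (X × Fin h))) ∧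
          (x, i) ∈ b' ∧ (y, i') ∈ b') → 1 ≤ B * (c0 / (h:ℝ) ^ (k - 2)) * (A.card : ℝ) := by
      rintro A rfl
      rw [h1]
      refine (hν x y hxy).trans (le_of_eq ?_)
      field_simp
    apply h2
    ext b'
    simp only [Finset.mem_filter, Finset.mem_univ, true_and]
  · rw [Fintype.card_prod, Fintype.card_fin]; exact hL

open Classical in
/-- the weights of `fold_hole2` -/
theorem hole_data {k a w : ℕ} (hk : 3 ≤ k) (ha : (k - 2) * w + 2 ≤ a) (ha' : k + 1 ≤ a) :
    ∃ (c : Finset (Fin a ⊕ Fin w) → ℝ) (c0 B : ℝ), 0 < c0 ∧ 0 ≤ B ∧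
      B ≤ Fintype.card (Fin a ⊕ Fin w) ∧
      (∀ b : Finset (Fin a ⊕ Fin w), b.card = k →
        Set.InjOn (holeMap a w) (b : Set (Fin a ⊕ Fin w)) → c0 ≤ c b) ∧
      (∀ b : Finset (Fin a ⊕ Fin w),
        ¬ (b.card = k ∧ Set.InjOn (holeMap a w) (b : Set (Fin a ⊕ Fin w))) → c b = 0) ∧
      (∀ x y, holeMap a w x ≠ holeMap a w y →
        ∑ b ∈ Finset.univ.filter (fun b : Finset (Fin a ⊕ Fin w) => x ∈ b ∧ y ∈ b), c b = 1) ∧
      (∀ x y, holeMap a w x ≠ holeMap a w y →
        1 ≤ B * c0 * ((Finset.univ.filter (fun b : Finset (Fin a ⊕ Fin w) =>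
          (b.card = k ∧ Set.InjOn (holeMap a w) (b : Set (Fin a ⊕ Fin w))) ∧
            x ∈ b ∧ y ∈ b)).card : ℝ)) := by
  have hQpos : 0 < (a - 2).choose (k - 2) := Nat.choose_pos (by omega)
  have hPpos : 0 < (a - 1).choose (k - 2) := Nat.choose_pos (by omega)
  have hQR : (0:ℝ) < ((a - 2).choose (k - 2) : ℝ) := by exact_mod_cast hQpos
  have hPR : (0:ℝ) < ((a - 1).choose (k - 2) : ℝ) := by exact_mod_cast hPpos
  have ha1 : (0:ℝ) < ((a - 1 : ℕ) : ℝ) := by
    have : 0 < a - 1 := by omega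
    exact_mod_cast this
  refine ⟨(fun b => if b.card = k ∧ Set.InjOn (holeMap a w) (b : Set (Fin a ⊕ Fin w)) then
        (holeWt a w k b : ℝ) / (((a - 2).choose (k - 2) : ℝ) * ((a - 1).choose (k - 2) : ℝ)) else 0),
      (1 / (((a - 1 : ℕ) : ℝ) * ((a - 2).choose (k - 2) : ℝ))), ((a - 1 : ℕ) : ℝ),
      (by positivity), (by positivity), ?_, ?_, ?_, ?_, ?_⟩
  · rw [Fintype.card_sum, Fintype.card_fin, Fintype.card_fin]
    have : a - 1 ≤ a + w := by omega
    exact_mod_cast this
  · intro b hb1 hb2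
    simp only [hb1, hb2, and_self, if_true]
    unfold holeWt
    split_ifs
    · rw [div_le_div_iff₀ (by positivity) (by positivity), one_mul]
      have h3 : ((a - 1).choose (k - 2) : ℝ) ≤ ((a - 1 : ℕ) : ℝ) * ((a - 2).choose (k - 2) : ℝ) := by
        exact_mod_cast hole_arith3 hk ha'
      nlinarith
    · rw [div_le_div_iff₀ (by positivity) (by positivity), one_mul]
      have h3 : ((a - 1).choose (k - 2) : ℝ) ≤ ((a - 1 : ℕ) : ℝ) *
          (((a - 1).choose (k - 2) - w * (a - 2).choose (k - 3) : ℕ) : ℝ) := by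
        exact_mod_cast hole_arith2 hk ha ha'
      nlinarith
  · intro b hb
    simp only [hb, if_false]
  · intro x y hxy
    have h1 := hole_sum hk ha ha' x y hxy
    rw [← Finset.sum_filter, Finset.filter_filter, ← Finset.sum_div,
      div_eq_one_iff_eq (by positivity)]
    rw [← Nat.cast_mul, ← h1]
    push_cast
    apply Finset.sum_congr
    · ext b
      simp only [Finset.mem_filter, Finset.mem_univ, true_and]
      tauto
    · intro b _; rfl
  · intro x y hxy
    have h1 : (a - 2).choose (k - 2) ≤ ((Finset.univ : Finset (Finset (Fin a ⊕ Fin w))).filter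
        (fun b : Finset (Fin a ⊕ Fin w) => (b.card = k ∧
          Set.InjOn (holeMap a w) (b : Set (Fin a ⊕ Fin w))) ∧ x ∈ b ∧ y ∈ b)).card := by
      have hmono : (a - 2).choose (k - 2) ≤ (a - 1).choose (k - 2) :=
        Nat.choose_le_choose _ (by omega)
      rcases x with p | i <;> rcases y with q | j
      · have hpq : p ≠ q := fun h => hxy (by rw [h])
        have h0 := card_hole0 (β := Fin w) k (by omega) p q hpq
        rw [Fintype.card_fin] at h0
        rw [← h0]
        apply Finset.card_le_card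
        intro b
        simp only [Finset.mem_filter, Finset.mem_univ, true_and, injOn_holeMap]
        rintro ⟨h1, h2, h3, h4⟩
        have : b.toRight = ∅ := by ext j; simp [h2 j]
        exact ⟨⟨h1, by rw [this]; simp⟩, h3, h4⟩
      · have h2 := card_hole2 k (by omega) p j
        rw [Fintype.card_fin] at h2
        refine hmono.trans ?_
        rw [← h2]
        apply Finset.card_le_card
        intro b
        simp only [Finset.mem_filter, Finset.mem_univ, true_and, injOn_holeMap]
        rintro ⟨h1, h2, h3, h4⟩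
        exact ⟨⟨h1, by omega⟩, h3, h4⟩
      · have h2 := card_hole2 k (by omega) q i
        rw [Fintype.card_fin] at h2
        refine hmono.trans ?_
        rw [← h2]
        apply Finset.card_le_card
        intro b
        simp only [Finset.mem_filter, Finset.mem_univ, true_and, injOn_holeMap]
        rintro ⟨h1, h2, h3, h4⟩
        exact ⟨⟨h1, by omega⟩, h4, h3⟩
      · exact absurd rfl hxy
    have h2 : ((a - 1 : ℕ) : ℝ) * (1 / (((a - 1 : ℕ) : ℝ) * ((a - 2).choose (k - 2) : ℝ))) =
        1 / ((a - 2).choose (k - 2) : ℝ) := by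
      field_simp
    rw [h2, div_mul_eq_mul_div, one_mul, le_div_iff₀ hQR, one_mul]
    exact_mod_cast h1

theorem fold_hole3 {k h a w L : ℕ} (hk : 3 ≤ k) (hh : 1 ≤ h) (hw : 1 ≤ w)
    (ha : (k - 2) * w + 2 ≤ a) (ha' : k + 1 ≤ a) (hd1 : (k - 1) ∣ h * a)
    (hd2 : (k - 1) ∣ h * (w - 1)) (hd3 : k * (k - 1) ∣ h * h * (a * (a + 2 * w - 1)))
    (hL : 2000 * ((a + w) * h) ^ 18 ≤ L) : Fold k L (igMap h a (h * w)) := by
  obtain ⟨c, c0, B, hc0, hB, hB', hc, hc', hsum, hν⟩ := hole_data hk ha ha'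
  have hmain : Fold k L (fun p : (Fin a ⊕ Fin w) × Fin h => holeMap a w p.1) := by
    refine fold_small_inflate (holeMap a w) k h hk hh ?_ ?_ ?_ c c0 B hc0 hB hB' hc hc'
      (fun x y hxy => by convert hsum x y hxy) (fun x y hxy => by convert hν x y hxy) L ?_
    · rw [hole_parts hw]; omega
    · intro x
      rw [hole_deg]
      rcases x with p | i
      · simp only [Sum.elim_inl]
        have : h * (a - 1 + w) = h * a + h * (w - 1) := by
          rw [← Nat.mul_add]; congr 1; omega
        rw [this]; exact dvd_add hd1 hd2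
      · simpa using hd1
    · simp only [hole_deg]
      rw [Fintype.sum_sum_type]
      simp only [Sum.elim_inl, Sum.elim_inr, Finset.sum_const, Finset.card_univ, Fintype.card_fin,
        smul_eq_mul]
      have : a * (a - 1 + w) + w * a = a * (a + 2 * w - 1) := by
        obtain ⟨n, rfl⟩ : ∃ n, a = n + 1 := ⟨a - 1, by omega⟩
        have e1 : n + 1 - 1 = n := by omega
        have e2 : n + 1 + 2 * w - 1 = n + 2 * w := by omega
        rw [e1, e2]; ring
      rw [this]; exact hd3
    · rw [Fintype.card_sum, Fintype.card_fin, Fintype.card_fin]; exact hL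
  have e0 : Fin (h * w) ≃ Fin w × Fin h := (finCongr (mul_comm h w)).trans finProdFinEquiv.symm
  refine Fold.congr ((Equiv.sumCongr (Equiv.refl _) e0).trans (Equiv.sumProdDistrib _ _ _).symm)
    ?_ hmain
  rintro (⟨p, p'⟩ | i) (⟨q, q'⟩ | j) <;> simp [igMap, holeMap]

end H108
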