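import Pool.Agent.H108R2.Family
import Pool.Agent.H108R2.SysK
import Pool.Agent.H108R2.InflateK
import Pool.Agent.H108R2.Weights2
import Pool.Agent.H108R2.FoldInfl

namespace H108

open Nat

/-- bound for the number of points of the base designs -/
def X3 (k : ℕ) : ℕ := 500 * k ^ 4

/-- lower bound for the primes -/
def L00 (k : ℕ) : ℕ := 2000 * X3 k ^ 18

/-- good parameters for the inflation : a prime `L` and an exponent `N` -/
structure GoodP (k L N : ℕ) : Prop where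
  prime : L.Prime
  big : L00 k ≤ L
  exp : k - 1 ≤ N

theorem X3_pos {k : ℕ} (hk : 3 ≤ k) : 0 < X3 k := by
  have : 0 < k ^ 4 := pow_pos (by omega) 4
  unfold X3; omega

theorem k_le_X3 {k : ℕ} (hk : 3 ≤ k) : k ^ 2 ≤ X3 k := by
  unfold X3
  have : k ^ 2 ≤ k ^ 4 := Nat.pow_le_pow_right (by omega) (by omega)
  omega

theorem X3_le_L00 {k : ℕ} (hk : 3 ≤ k) : X3 k ≤ L00 k := by
  unfold L00
  have h := X3_pos hk
  calc X3 k = X3 k ^ 1 := (pow_one _).symm
    _ ≤ X3 k ^ 18 := Nat.pow_le_pow_right h (by omega)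
    _ ≤ 2000 * X3 k ^ 18 := Nat.le_mul_of_pos_left _ (by omega)

theorem GoodP.pos {k L N : ℕ} (h : GoodP k L N) : 0 < L ^ N := pow_pos h.prime.pos N

theorem GoodP.X3_le {k L N : ℕ} (hk : 3 ≤ k) (h : GoodP k L N) : X3 k ≤ L :=
  (X3_le_L00 hk).trans h.big

theorem GoodP.k2_le {k L N : ℕ} (hk : 3 ≤ k) (h : GoodP k L N) : k ^ 2 ≤ L :=
  (k_le_X3 hk).trans (h.X3_le hk)

theorem fold_to_gd3 {X P : Type} [Finite X] {π : X → P} {k L N : ℕ} (hk : 3 ≤ k)
    (hL : GoodP k L N) (hX : Nat.card X ≤ X3 k) (hF : Fold k L π) :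
    GD {k} (fun p : X × Fin (L ^ N) => π p.1) :=
  foldk_inflate (sysk_exists X hk hL.prime (hX.trans (hL.X3_le hk)) hL.exp) hF

/-- uniform base ingredient -/
theorem base_uniform3 {k L N h s : ℕ} (hk : 3 ≤ k) (hL : GoodP k L N) (hs : k + 2 ≤ s)
    (hh : 1 ≤ h) (hX : s * h ≤ X3 k)
    (hd1 : (k - 1) ∣ h * (s - 1)) (hd2 : k * (k - 1) ∣ (h * s) * (h * (s - 1))) :
    IG {k} (h * L ^ N) s 0 := by
  have hfold := fold_uniform2 hk hs hh hd1 hd2 (L := L)
    ((Nat.mul_le_mul_left _ (Nat.pow_le_pow_left hX 18)).trans hL.big)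
  have hgd := fold_to_gd3 hk hL (by simpa using hX) hfold
  refine (ig_of_fibers0 ?_ (by simp)).1 hgd
  intro b
  have e : {y : (Fin s × Fin h) × Fin (L ^ N) // y.1.1 = b} ≃ Fin h × Fin (L ^ N) :=
    { toFun := fun y => (y.1.1.2, y.1.2)
      invFun := fun z => ⟨((b, z.1), z.2), rfl⟩
      left_inv := by
        rintro ⟨⟨⟨x, y⟩, z⟩, h⟩
        simp only at h
        subst h; rfl
      right_inv := fun z => rfl }
  rw [Nat.card_congr e]; simp

/-- hole base ingredient -/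
theorem base_hole3 {k L N J w : ℕ} (hk : 3 ≤ k) (hL : GoodP k L N) (hJ : 2 * k + 2 ≤ J)
    (hJ' : J ≤ 100 * (2 * k) ^ 2) (hw : 1 ≤ w) (hw' : w ≤ 2 * k + 1) :
    IG {k} ((k - 1) * L ^ N) (k * J) ((k - 1) * L ^ N * w) := by
  obtain ⟨r, rfl⟩ : ∃ r, k = r + 3 := ⟨k - 3, by omega⟩
  have e1 : r + 3 - 1 = r + 2 := by omega
  have e2 : r + 3 - 2 = r + 1 := by omega
  set a := (r + 3) * J with ha
  have hXa : (a + w) * (r + 2) ≤ X3 (r + 3) := by
    unfold X3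
    have h1 : a + w ≤ 401 * (r + 3) ^ 3 := by
      have h2 : (r + 3) * J ≤ (r + 3) * (100 * (2 * (r + 3)) ^ 2) := Nat.mul_le_mul_left _ hJ'
      have h3 : (r + 3) * (100 * (2 * (r + 3)) ^ 2) = 400 * (r + 3) ^ 3 := by ring
      have h4 : w ≤ (r + 3) ^ 3 := by
        refine hw'.trans ?_
        nlinarith [Nat.zero_le (r ^ 3), Nat.zero_le (r ^ 2)]
      omega
    calc (a + w) * (r + 2) ≤ 401 * (r + 3) ^ 3 * (r + 3) := Nat.mul_le_mul h1 (by omega)
      _ = 401 * (r + 3) ^ 4 := by ring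
      _ ≤ 500 * (r + 3) ^ 4 := Nat.mul_le_mul_right _ (by omega)
  have ha2 : (r + 3 - 2) * w + 2 ≤ a := by
    rw [ha, e2]
    have h1 : (r + 1) * w ≤ (r + 1) * (2 * (r + 3) + 1) := Nat.mul_le_mul_left _ hw'
    have h2 : (r + 3) * (2 * (r + 3) + 2) ≤ (r + 3) * J := Nat.mul_le_mul_left _ hJ
    nlinarith [Nat.zero_le (r ^ 3), Nat.zero_le (r ^ 2)]
  have ha3 : r + 3 + 1 ≤ a := by
    rw [ha]
    have h2 : (r + 3) * (2 * (r + 3) + 2) ≤ (r + 3) * J := Nat.mul_le_mul_left _ hJ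
    nlinarith [Nat.zero_le (r ^ 3), Nat.zero_le (r ^ 2)]
  have hfold := fold_hole3 (k := r + 3) (h := r + 2) (a := a) (w := w) (L := L) hk (by omega) hw
    ha2 ha3 (by rw [e1]; exact Nat.dvd_mul_right _ _) (by rw [e1]; exact Nat.dvd_mul_right _ _)
    (by rw [e1, ha]; exact ⟨(r + 2) * (J * ((r + 3) * J + 2 * w - 1)), by ring⟩)
    ((Nat.mul_le_mul_left _ (Nat.pow_le_pow_left hXa 18)).trans hL.big)
  have hgd := fold_to_gd3 hk hL (by
    have : Nat.card ((Fin a × Fin (r + 2)) ⊕ Fin ((r + 2) * w)) = (a + w) * (r + 2) := by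
      rw [Nat.card_sum, Nat.card_prod, Nat.card_fin, Nat.card_fin, Nat.card_fin]; ring
    rw [this]; exact hXa) hfold
  rw [e1]
  refine (ig_of_fibers ?_ (by simp) ?_).1 hgd
  · intro b
    have e : {y : ((Fin a × Fin (r + 2)) ⊕ Fin ((r + 2) * w)) × Fin (L ^ N) //
        igMap (r + 2) a ((r + 2) * w) y.1 = some b} ≃
        {y : ((Fin a × Fin (r + 2)) ⊕ Fin ((r + 2) * w)) //
          igMap (r + 2) a ((r + 2) * w) y = some b} × Fin (L ^ N) :=
      { toFun := fun y => (⟨y.1.1, y.2⟩, y.1.2)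
        invFun := fun z => ⟨(z.1.1, z.2), z.1.2⟩
        left_inv := fun y => rfl
        right_inv := fun z => rfl }
    rw [Nat.card_congr e, Nat.card_prod, card_igMap_some]; simp
  · have e : {y : ((Fin a × Fin (r + 2)) ⊕ Fin ((r + 2) * w)) × Fin (L ^ N) //
        igMap (r + 2) a ((r + 2) * w) y.1 = none} ≃
        {y : ((Fin a × Fin (r + 2)) ⊕ Fin ((r + 2) * w)) //
          igMap (r + 2) a ((r + 2) * w) y = none} × Fin (L ^ N) :=
      { toFun := fun y => (⟨y.1.1, y.2⟩, y.1.2)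
        invFun := fun z => ⟨(z.1.1, z.2), z.1.2⟩
        left_inv := fun y => rfl
        right_inv := fun z => rfl }
    rw [Nat.card_congr e, Nat.card_prod, card_igMap_none, Nat.card_fin]; ring

/-- base (ii) -/
theorem base3_ii {k L N s : ℕ} (hk : 3 ≤ k) (hL : GoodP k L N) (hs : k + 2 ≤ s)
    (hs' : s ≤ 100 * (2 * k) ^ 2) : IG {k} (k * (k - 1) * L ^ N) s 0 := by
  refine base_uniform3 hk hL hs (n_pos hk) ?_ ?_ ?_
  · unfold X3
    calc s * (k * (k - 1)) ≤ (100 * (2 * k) ^ 2) * k ^ 2 := Nat.mul_le_mul hs' n_le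
      _ ≤ 500 * k ^ 4 := by nlinarith [Nat.zero_le (k ^ 4)]
  · exact ⟨k * (s - 1), by ring⟩
  · exact ⟨s * (k * (k - 1) * (s - 1)), by ring⟩

/-- F1 -/
theorem fam3_uniform {k L N c : ℕ} (hk : 3 ≤ k) (hL : GoodP k L N) (hc : Nice k c) :
    ∀ s, k + 2 ≤ s → IG {k} (k * (k - 1) * L ^ N * c) s 0 := by
  have hbase : ∀ s, k + 2 ≤ s → s ≤ 100 * k ^ 2 → IG {k} (k * (k - 1) * L ^ N * c) s 0 := by
    intro s h1 h2
    have h3 : s ≤ 100 * (2 * k) ^ 2 := by
      refine h2.trans (Nat.mul_le_mul_left _ (Nat.pow_le_pow_left (by omega) 2))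
    simpa using ig_inflate hc (base3_ii hk hL h1 h3)
  refine closure hk _ hbase ?_
  intro s p t1 t2 hp hs1 hs2 hsp ht1 ht2 h1 h2 h3
  have hz : IG {k} (k * (k - 1) * L ^ N * c) (1 * 0) 0 := by simpa using ig_empty _ _ _
  have := ig_step (k := k) (g := k * (k - 1) * L ^ N * c) (c := 1) (w := 0)
    (nice_prime hp hsp) ht1 ht2
    (fun u hu1 hu2 => by rw [mul_one]; exact hbase u (by omega) (by omega))
    (by rw [one_mul]; exact h3)
    (by rcases h1 with rfl | ⟨_, h⟩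
        · exact hz
        · rw [one_mul]; exact h)
    (by rcases h2 with rfl | ⟨_, h⟩
        · exact hz
        · rw [one_mul]; exact h)
  rwa [one_mul] at this

/-- F2 -/
theorem fam3_hole {k L N w : ℕ} (hk : 3 ≤ k) (hL : GoodP k L N) (hw : 1 ≤ w)
    (hw' : w ≤ 2 * k + 1) :
    ∀ J, 2 * k + 2 ≤ J → IG {k} ((k - 1) * L ^ N) (k * J) ((k - 1) * L ^ N * w) := by
  refine closure (k := 2 * k) (by omega) _ (fun J h1 h2 => base_hole3 hk hL h1 h2 hw hw') ?_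
  intro s p t1 t2 hp hs1 hs2 hsp ht1 ht2 h1 h2 h3
  have hz : IG {k} ((k - 1) * L ^ N) (k * 0) ((k - 1) * L ^ N * w) := by
    simpa using ig_empty _ _ _
  refine ig_step (nice_prime hp hsp) ht1 ht2 ?_ h3 ?_ ?_
  · intro u hu1 hu2
    have := base3_ii (k := k) (L := L) (N := N) (s := u) hk hL (by omega) (by omega)
    have e : (k - 1) * L ^ N * k = k * (k - 1) * L ^ N := by ring
    rwa [e]
  · rcases h1 with rfl | ⟨_, h⟩
    · exact hz
    · exact h
  · rcases h2 with rfl | ⟨_, h⟩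
    · exact hz
    · exact h

/-- base (i) -/
theorem base3_i {k L N w : ℕ} (hk : 3 ≤ k) (hL : GoodP k L N) (hw : k + 2 ≤ w)
    (hw' : w ≤ 2 * k + 1) (hA : k ∣ w * (w - 1)) : IG {k} ((k - 1) * L ^ N) w 0 := by
  refine base_uniform3 (k := k) (L := L) (N := N) (h := k - 1) (s := w) hk hL hw (by omega)
    ?_ ?_ ?_
  · unfold X3
    calc w * (k - 1) ≤ (2 * k + 1) * k := Nat.mul_le_mul hw' (by omega)
      _ ≤ 500 * k ^ 4 := by
        have h1 : k ^ 2 ≤ k ^ 4 := Nat.pow_le_pow_right (by omega) (by omega)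
        nlinarith
  · exact Nat.dvd_mul_right _ _
  · obtain ⟨t, ht⟩ := hA
    refine ⟨(k - 1) * t, ?_⟩
    calc (k - 1) * w * ((k - 1) * (w - 1)) = (k - 1) * (k - 1) * (w * (w - 1)) := by ring
      _ = _ := by rw [ht]; ring

/-- threshold for `u` -/
def V3 (k : ℕ) : ℕ := k * (2 * k + 2) + (2 * k + 2)

theorem idem_modEq {k u w : ℕ} (hw : 1 ≤ w) (hu1 : 1 ≤ u) (hu : k ∣ u * (u - 1))
    (h : w ≡ u [MOD k]) : k ∣ w * (w - 1) := by
  have h1 : w - 1 ≡ u - 1 [MOD k] := by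
    have : (w - 1) + 1 ≡ (u - 1) + 1 [MOD k] := by
      rwa [Nat.sub_add_cancel hw, Nat.sub_add_cancel hu1]
    exact Nat.ModEq.add_right_cancel' 1 this
  have h2 : w * (w - 1) ≡ u * (u - 1) [MOD k] := h.mul h1
  exact (Nat.modEq_zero_iff_dvd).1 (h2.trans ((Nat.modEq_zero_iff_dvd).2 hu))

/-- F3 -/
theorem fam3_idem {k L N u : ℕ} (hk : 3 ≤ k) (hL : GoodP k L N) (hu : k ∣ u * (u - 1))
    (hV : V3 k ≤ u) : IG {k} ((k - 1) * L ^ N) u 0 := by
  unfold V3 at hV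
  obtain ⟨w, hw1, hw2, hw3⟩ : ∃ w, k + 2 ≤ w ∧ w < k + 2 + k ∧ w ≡ u [MOD k] := by
    refine ⟨k + 2 + (u - (k + 2)) % k, by omega, ?_, ?_⟩
    · have := Nat.mod_lt (u - (k + 2)) (by omega : 0 < k)
      omega
    · have h1 : (u - (k + 2)) % k ≡ u - (k + 2) [MOD k] := Nat.mod_modEq _ _
      have h2 := h1.add_left (k + 2)
      rwa [show k + 2 + (u - (k + 2)) = u by
        have : k + 2 ≤ u := by
          have := Nat.zero_le (k * (2 * k + 2)); omega
        omega] at h2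
  have hwu : w ≤ u := by
    have := Nat.zero_le (k * (2 * k + 2)); omega
  obtain ⟨J, hJ⟩ := (Nat.modEq_iff_dvd' hwu).1 hw3
  have hJ2 : 2 * k + 2 ≤ J := by
    by_contra hc
    have : J ≤ 2 * k + 1 := by omega
    have h3 : k * J ≤ k * (2 * k + 1) := Nat.mul_le_mul_left _ this
    have h4 : k * (2 * k + 2) = k * (2 * k + 1) + k := by ring
    omega
  have hAw : k ∣ w * (w - 1) := idem_modEq (by omega) (by omega) hu hw3
  have h1 : IG {k} ((k - 1) * L ^ N) (k * J) ((k - 1) * L ^ N * w + 0) :=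
    fam3_hole hk hL (by omega) (by omega) J hJ2
  have h2 : IG {k} ((k - 1) * L ^ N) w 0 := base3_i hk hL hw1 (by omega) hAw
  have h3 := ig_comp h1 h2
  rwa [← hJ, Nat.sub_add_cancel hwu] at h3

end H108
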