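import Pool.Agent.H108R2.Defs

/-!
# Signed decompositions of complete multipartite graphs into transversal `k`-sets
-/

namespace H108
namespace SG

open Classical

variable {X P : Type} [Fintype X]

/-- transversal `k`-sets -/
def TRs (π : X → P) (k : ℕ) (b : Finset X) : Prop := b.card = k ∧ Set.InjOn π (b : Set X)

noncomputable def ind (b : Finset X) (x : X) : ℤ := if x ∈ b then 1 else 0

noncomputable def dl (a x : X) : ℤ := if x = a then 1 else 0

/-- symmetric indicator of the pair `a b` -/
noncomputable def ed (a b x y : X) : ℤ := dl a x * dl b y + dl b x * dl a y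

/-- alternating 4-cycle -/
noncomputable def cyc (a b c d x y : X) : ℤ := ed a b x y - ed b c x y + ed c d x y - ed d a x y

/-- `D` is achieved on the edges by a signed combination of transversal sets of total weight `≤ N` -/
def Ach (π : X → P) (k : ℕ) (D : X → X → ℤ) (N : ℤ) : Prop :=
  ∃ f : Finset X → ℤ, (∀ b, ¬ TRs π k b → f b = 0) ∧ ∑ b, |f b| ≤ N ∧
    ∀ x y, π x ≠ π y → ∑ b, f b * (ind b x * ind b y) = D x y

variable {π : X → P} {k : ℕ}

lemma Ach.zero : Ach π k (fun _ _ => 0) 0 :=
  ⟨fun _ => 0, fun _ _ => rfl, by simp, fun x y _ => by simp⟩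

lemma Ach.mono {D : X → X → ℤ} {N N' : ℤ} (h : Ach π k D N) (hN : N ≤ N') : Ach π k D N' := by
  obtain ⟨f, h1, h2, h3⟩ := h
  exact ⟨f, h1, h2.trans hN, h3⟩

lemma Ach.congr {D D' : X → X → ℤ} {N : ℤ} (h : Ach π k D N)
    (hD : ∀ x y, π x ≠ π y → D x y = D' x y) : Ach π k D' N := by
  obtain ⟨f, h1, h2, h3⟩ := h
  exact ⟨f, h1, h2, fun x y hxy => (h3 x y hxy).trans (hD x y hxy)⟩

lemma Ach.add {D D' : X → X → ℤ} {N N' : ℤ} (h : Ach π k D N) (h' : Ach π k D' N') :
    Ach π k (fun x y => D x y + D' x y) (N + N') := by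
  obtain ⟨f, h1, h2, h3⟩ := h
  obtain ⟨f', h1', h2', h3'⟩ := h'
  refine ⟨fun b => f b + f' b, fun b hb => by simp [h1 b hb, h1' b hb], ?_, fun x y hxy => ?_⟩
  · refine le_trans (Finset.sum_le_sum fun b _ => abs_add_le (f b) (f' b)) ?_
    rw [Finset.sum_add_distrib]
    exact add_le_add h2 h2'
  · simp only [add_mul]
    rw [Finset.sum_add_distrib, h3 x y hxy, h3' x y hxy]

lemma Ach.smul {D : X → X → ℤ} {N : ℤ} (c : ℤ) (h : Ach π k D N) :
    Ach π k (fun x y => c * D x y) (|c| * N) := by
  obtain ⟨f, h1, h2, h3⟩ := h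
  refine ⟨fun b => c * f b, fun b hb => by simp [h1 b hb], ?_, fun x y hxy => ?_⟩
  · simp only [abs_mul]
    rw [← Finset.mul_sum]
    exact mul_le_mul_of_nonneg_left h2 (abs_nonneg c)
  · simp only [mul_assoc]
    rw [← Finset.mul_sum, h3 x y hxy]

lemma Ach.sum {ι : Type} (s : Finset ι) (D : ι → X → X → ℤ) (N : ι → ℤ)
    (h : ∀ i ∈ s, Ach π k (D i) (N i)) :
    Ach π k (fun x y => ∑ i ∈ s, D i x y) (∑ i ∈ s, N i) := by
  induction s using Finset.induction_on with
  | empty => simpa using Ach.zero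
  | insert a s ha ih =>
    have h1 := (h a (Finset.mem_insert_self a s)).add
      (ih fun i hi => h i (Finset.mem_insert_of_mem hi))
    simp only [Finset.sum_insert ha]
    exact h1

lemma Ach.block {b : Finset X} (hb : TRs π k b) : Ach π k (fun x y => ind b x * ind b y) 1 := by
  refine ⟨fun b' => if b' = b then 1 else 0, fun b' hb' => ?_, ?_, fun x y _ => ?_⟩
  · have : b' ≠ b := fun h => hb' (h ▸ hb)
    simp [this]
  · have : ∀ b' : Finset X, |(if b' = b then (1:ℤ) else 0)| = if b' = b then 1 else 0 := by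
      intro b'; split_ifs <;> simp
    simp [this]
  · simp [ite_mul]

lemma exists_trans (T : Finset P) (m : ℕ) (h : m + T.card ≤ (Finset.univ.image π).card) :
    ∃ S : Finset X, S.card = m ∧ Set.InjOn π (S : Set X) ∧ ∀ x ∈ S, π x ∉ T := by
  rcases isEmpty_or_nonempty X with hX | hX
  · have h0 : (Finset.univ.image π).card = 0 := by simp
    exact ⟨∅, by simp; omega, by simp, by simp⟩
  have h1 : m ≤ ((Finset.univ.image π) \ T).card := by
    have := Finset.le_card_sdiff T (Finset.univ.image π)
    omega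
  obtain ⟨U, hU, hUc⟩ := Finset.exists_subset_card_eq h1
  have hs : ∀ p ∈ U, ∃ x, π x = p := by
    intro p hp
    have := hU hp
    simp only [Finset.mem_sdiff, Finset.mem_image, Finset.mem_univ, true_and] at this
    exact this.1
  have hex : ∃ g : P → X, ∀ p ∈ U, π (g p) = p := by
    obtain ⟨x0⟩ := hX
    refine ⟨fun p => if hp : p ∈ U then (hs p hp).choose else x0, fun p hp => ?_⟩
    simp only [hp, dif_pos]
    exact (hs p hp).choose_spec
  obtain ⟨g, hg⟩ := hex
  refine ⟨U.image g, ?_, ?_, ?_⟩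
  · rw [Finset.card_image_of_injOn, hUc]
    intro p hp q hq h
    rw [← hg p hp, ← hg q hq, h]
  · intro x hx y hy h
    simp only [Finset.coe_image, Set.mem_image, Finset.mem_coe] at hx hy
    obtain ⟨p, hp, rfl⟩ := hx
    obtain ⟨q, hq, rfl⟩ := hy
    rw [hg p hp, hg q hq] at h
    rw [h]
  · intro x hx
    simp only [Finset.mem_image] at hx
    obtain ⟨p, hp, rfl⟩ := hx
    rw [hg p hp]
    have := hU hp
    simp only [Finset.mem_sdiff] at this
    exact this.2

lemma ind_insert {b : Finset X} {a : X} (ha : a ∉ b) (x : X) :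
    ind (insert a b) x = dl a x + ind b x := by
  unfold ind dl
  by_cases h : x = a
  · subst h; simp [ha]
  · simp [h]

lemma TRs.insert2 {S : Finset X} {a b : X} (hk : 2 ≤ k) (hc : S.card = k - 2)
    (hS : Set.InjOn π (S : Set X)) (ha : ∀ x ∈ S, π x ≠ π a) (hb : ∀ x ∈ S, π x ≠ π b)
    (hab : π a ≠ π b) : TRs π k (insert a (insert b S)) := by
  have hbS : b ∉ S := fun h => hb b h rfl
  have haS : a ∉ insert b S := by
    intro h
    rcases Finset.mem_insert.1 h with h | h
    · exact hab (by rw [h])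
    · exact ha a h rfl
  refine ⟨by rw [Finset.card_insert_of_notMem haS, Finset.card_insert_of_notMem hbS, hc]; omega, ?_⟩
  rw [Finset.coe_insert, Finset.coe_insert]
  have h1 : Set.InjOn π (insert b (S : Set X)) := by
    rw [Set.injOn_insert (by simpa using hbS)]
    refine ⟨hS, ?_⟩
    rintro ⟨x, hx, hxb⟩
    exact hb x (by simpa using hx) hxb
  rw [Set.injOn_insert (by simpa using haS)]
  refine ⟨h1, ?_⟩
  rintro ⟨x, hx, hxa⟩
  rcases hx with hx | hx
  · exact hab (by rw [← hxa, hx])
  · exact ha x (by simpa using hx) hxa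

lemma Ach.cyc (hparts : k + 2 ≤ (Finset.univ.image π).card) (hk : 2 ≤ k) {a b c d : X}
    (hab : π a ≠ π b) (hbc : π b ≠ π c) (hcd : π c ≠ π d) (hda : π d ≠ π a) :
    Ach π k (SG.cyc a b c d) 4 := by
  have hT : ({π a, π b, π c, π d} : Finset P).card ≤ 4 := Finset.card_le_four
  obtain ⟨S, hSc, hSi, hST⟩ := exists_trans (π := π) {π a, π b, π c, π d} (k - 2) (by omega)
  have hSa : ∀ x ∈ S, π x ≠ π a := fun x hx h => hST x hx (by simp [h])
  have hSb : ∀ x ∈ S, π x ≠ π b := fun x hx h => hST x hx (by simp [h])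
  have hSc' : ∀ x ∈ S, π x ≠ π c := fun x hx h => hST x hx (by simp [h])
  have hSd : ∀ x ∈ S, π x ≠ π d := fun x hx h => hST x hx (by simp [h])
  have naS : a ∉ S := fun h => hSa a h rfl
  have nbS : b ∉ S := fun h => hSb b h rfl
  have ncS : c ∉ S := fun h => hSc' c h rfl
  have ndS : d ∉ S := fun h => hSd d h rfl
  have e1 : ∀ {u v : X}, u ∉ S → v ∉ S → π u ≠ π v → ∀ x,
      ind (insert u (insert v S)) x = dl u x + (dl v x + ind S x) := by
    intro u v hu hv huv x
    rw [ind_insert, ind_insert hv]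
    intro h
    rcases Finset.mem_insert.1 h with h | h
    · exact huv (by rw [h])
    · exact hu h
  have B1 := Ach.block (TRs.insert2 (π := π) hk hSc hSi hSa hSb hab)
  have B2 := (Ach.block (TRs.insert2 (π := π) hk hSc hSi hSb hSc' hbc)).smul (-1)
  have B3 := Ach.block (TRs.insert2 (π := π) hk hSc hSi hSc' hSd hcd)
  have B4 := (Ach.block (TRs.insert2 (π := π) hk hSc hSi hSd hSa hda)).smul (-1)
  refine (((B1.add B2).add (B3.add B4)).mono (by norm_num)).congr ?_
  intro x y _
  simp only [e1 naS nbS hab, e1 nbS ncS hbc, e1 ncS ndS hcd, e1 ndS naS hda, SG.cyc, ed]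
  ring

lemma sum_dl (b : X) : ∑ w, dl b w = 1 := by simp [dl]

lemma sum_mul_dl (h : X → ℤ) (w : X) : ∑ x, h x * dl x w = h w := by
  simp [dl]

lemma dl_self (a : X) : dl a a = 1 := by simp [dl]

lemma dl_ne {a x : X} (h : x ≠ a) : dl a x = 0 := by simp [dl, h]

lemma cyc_symm (a b c d x y : X) : SG.cyc a b c d x y = SG.cyc a b c d y x := by
  unfold SG.cyc ed; ring

lemma ed_na {a b u w : X} (hab : π a ≠ π b) (h : π u = π w) : ed a b u w = 0 := by
  unfold ed dl
  by_cases h1 : u = a
  · subst h1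
    have h2 : w ≠ b := fun h2 => hab (by rw [h, h2])
    by_cases h3 : u = b
    · exact absurd (by rw [h3]) hab
    · simp [h2, h3]
  · by_cases h3 : u = b
    · subst h3
      have h2 : w ≠ a := fun h2 => hab (by rw [h, h2])
      simp [h1, h2]
    · simp [h1, h3]

lemma ed_abs {a b : X} (hab : a ≠ b) (u w : X) : |ed a b u w| ≤ 1 := by
  unfold ed dl
  by_cases h1 : u = a
  · subst h1
    by_cases h2 : w = b <;> simp [h2, hab]
  · by_cases h3 : u = b
    · subst h3
      by_cases h2 : w = a <;> simp [h1, h2]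
    · simp [h1, h3]

lemma cyc_na {a b c d u w : X} (hab : π a ≠ π b) (hbc : π b ≠ π c) (hcd : π c ≠ π d)
    (hda : π d ≠ π a) (h : π u = π w) : SG.cyc a b c d u w = 0 := by
  unfold SG.cyc
  rw [ed_na hab h, ed_na hbc h, ed_na hcd h, ed_na hda h]; ring

lemma cyc_abs {a b c d : X} (hab : a ≠ b) (hbc : b ≠ c) (hcd : c ≠ d) (hda : d ≠ a) (u w : X) :
    |SG.cyc a b c d u w| ≤ 4 := by
  unfold SG.cyc
  have h1 := abs_le.1 (ed_abs hab u w)
  have h2 := abs_le.1 (ed_abs hbc u w)
  have h3 := abs_le.1 (ed_abs hcd u w)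
  have h4 := abs_le.1 (ed_abs hda u w)
  rw [abs_le]
  constructor <;> linarith [h1.1, h1.2, h2.1, h2.2, h3.1, h3.2, h4.1, h4.2]

lemma ed_row (a b u : X) : ∑ w, ed a b u w = dl a u + dl b u := by
  unfold ed
  rw [Finset.sum_add_distrib, ← Finset.mul_sum, ← Finset.mul_sum, sum_dl, sum_dl]
  ring

lemma cyc_row (a b c d u : X) : ∑ w, SG.cyc a b c d u w = 0 := by
  unfold SG.cyc
  rw [Finset.sum_sub_distrib, Finset.sum_add_distrib, Finset.sum_sub_distrib, ed_row, ed_row,
    ed_row, ed_row]
  ring

/-- Kernel lemma -/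
lemma Ach.kernel (hparts : k + 2 ≤ (Finset.univ.image π).card) (hk : 2 ≤ k)
    (D : X → X → ℤ) (M : ℤ) (hM : ∀ x y, |D x y| ≤ M) (hsym : ∀ x y, D x y = D y x)
    (hna : ∀ x y, π x = π y → D x y = 0) (hrow : ∀ x, ∑ y, D x y = 0) :
    Ach π k D (4 * (Fintype.card X : ℤ) ^ 2 * M +
      4 * (Fintype.card X : ℤ) * (M + 4 * (Fintype.card X : ℤ) ^ 2 * M)) := by
  set n0 : ℤ := (Fintype.card X : ℤ) with hn0
  have hn0' : (Finset.univ : Finset X).card = Fintype.card X := Finset.card_univ
  obtain ⟨S, hSc, hSi, -⟩ := exists_trans (π := π) ∅ 3 (by simp; omega)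
  obtain ⟨v0, v1, v2, h01, h02, h12, hSe⟩ := Finset.card_eq_three.1 hSc
  subst hSe
  have p01 : π v0 ≠ π v1 := fun h => h01 (hSi (by simp) (by simp) h)
  have p02 : π v0 ≠ π v2 := fun h => h02 (hSi (by simp) (by simp) h)
  have p12 : π v1 ≠ π v2 := fun h => h12 (hSi (by simp) (by simp) h)
  have hM0 : 0 ≤ M := (abs_nonneg _).trans (hM v0 v0)
  -- orientation
  let ord : X → ℕ := fun x => (Fintype.equivFin X x).val
  have hord : ∀ x y, x ≠ y → ord x ≠ ord y := by
    intro x y hxy h
    exact hxy ((Fintype.equivFin X).injective (Fin.ext h))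
  let good : X → X → Prop := fun x y => x ≠ v0 ∧ x ≠ v1 ∧ y ≠ v0 ∧ y ≠ v1 ∧ π x ≠ π y ∧
    π y ≠ π v0 ∧ π x ≠ π v1
  let Sel : X → X → Prop := fun x y => good x y ∧ (¬ good y x ∨ ord x < ord y)
  have hSel : ∀ u w, u ≠ v0 → u ≠ v1 → w ≠ v0 → w ≠ v1 → π u ≠ π w →
      (if Sel u w then (1:ℤ) else 0) + (if Sel w u then 1 else 0) = 1 := by
    intro u w hu0 hu1 hw0 hw1 huw
    have hgood : good u w ∨ good w u := by
      by_cases h1 : π w = π v0
      · right
        exact ⟨hw0, hw1, hu0, hu1, huw.symm, fun h => huw (by rw [h, h1]), by rw [h1]; exact p01⟩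
      · by_cases h2 : π u = π v1
        · right
          exact ⟨hw0, hw1, hu0, hu1, huw.symm, by rw [h2]; exact p01.symm, fun h => huw (by rw [h, h2])⟩
        · left
          exact ⟨hu0, hu1, hw0, hw1, huw, h1, h2⟩
    have hne : u ≠ w := fun h => huw (by rw [h])
    have hlt := hord u w hne
    by_cases g1 : good u w
    · by_cases g2 : good w u
      · rcases lt_or_gt_of_ne hlt with h | h
        · have s1 : Sel u w := ⟨g1, Or.inr h⟩
          have s2 : ¬ Sel w u := by
            rintro ⟨_, h' | h'⟩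
            · exact h' g1
            · omega
          simp [s1, s2]
        · have s1 : Sel w u := ⟨g2, Or.inr h⟩
          have s2 : ¬ Sel u w := by
            rintro ⟨_, h' | h'⟩
            · exact h' g2
            · omega
          simp [s1, s2]
      · have s1 : Sel u w := ⟨g1, Or.inl g2⟩
        have s2 : ¬ Sel w u := fun h => g2 h.1
        simp [s1, s2]
    · have g2 : good w u := hgood.resolve_left g1
      have s1 : Sel w u := ⟨g2, Or.inl g1⟩
      have s2 : ¬ Sel u w := fun h => g1 h.1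
      simp [s1, s2]
  let G : X → X → X → X → ℤ := fun x y u w => if Sel x y then D x y * SG.cyc x y v0 v1 u w else 0
  have hG : ∀ x y, Ach π k (G x y) (4 * M) := by
    intro x y
    by_cases h : Sel x y
    · obtain ⟨⟨g1, g2, g3, g4, g5, g6, g7⟩, -⟩ := id h
      have := (Ach.cyc hparts hk g5 g6 p01 (Ne.symm g7)).smul (D x y)
      refine (this.mono ?_).congr ?_
      · have := hM x y
        nlinarith
      · intro u w _
        simp only [G, h, if_true]
    · refine (Ach.zero.mono (by linarith)).congr ?_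
      intro u w _
      simp only [G, h, if_false]
  have hGs : Ach π k (fun u w => ∑ x, ∑ y, G x y u w) (4 * n0 ^ 2 * M) := by
    have h1 : ∀ x ∈ (Finset.univ : Finset X), Ach π k (fun u w => ∑ y, G x y u w) (∑ _y : X, 4 * M) :=
      fun x _ => Ach.sum Finset.univ (G x) (fun _ => 4 * M) (fun y _ => hG x y)
    refine (Ach.sum Finset.univ _ _ h1).mono ?_
    simp only [Finset.sum_const, Finset.card_univ, nsmul_eq_mul]
    apply le_of_eq
    rw [hn0]; ring
  let R : X → X → ℤ := fun u w => D u w - ∑ x, ∑ y, G x y u w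
  have hGsym : ∀ x y u w, G x y u w = G x y w u := by
    intro x y u w
    simp only [G]
    rw [cyc_symm]
  have hR1 : ∀ u w, R u w = R w u := by
    intro u w
    simp only [R]
    rw [hsym u w]
    congr 1
    exact Finset.sum_congr rfl fun x _ => Finset.sum_congr rfl fun y _ => hGsym x y u w
  have hR2 : ∀ u w, π u = π w → R u w = 0 := by
    intro u w h
    simp only [R]
    rw [hna u w h]
    have : ∀ x y, G x y u w = 0 := by
      intro x y
      simp only [G]
      split_ifs with hs
      · obtain ⟨⟨g1, g2, g3, g4, g5, g6, g7⟩, -⟩ := hs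
        rw [cyc_na g5 g6 p01 (Ne.symm g7) h, mul_zero]
      · rfl
    simp [this]
  have hR3 : ∀ u, ∑ w, R u w = 0 := by
    intro u
    simp only [R]
    rw [Finset.sum_sub_distrib, hrow u, zero_sub, neg_eq_zero, Finset.sum_comm]
    refine Finset.sum_eq_zero fun x _ => ?_
    rw [Finset.sum_comm]
    refine Finset.sum_eq_zero fun y _ => ?_
    simp only [G]
    split_ifs with hs
    · rw [← Finset.mul_sum, cyc_row, mul_zero]
    · simp
  have hR4 : ∀ u w, u ≠ v0 → u ≠ v1 → w ≠ v0 → w ≠ v1 → R u w = 0 := by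
    intro u w hu0 hu1 hw0 hw1
    by_cases huw : π u = π w
    · exact hR2 u w huw
    simp only [R]
    have e1 : ∀ x y, G x y u w = (if Sel x y then D x y else 0) * dl x u * dl y w +
        (if Sel x y then D x y else 0) * dl x w * dl y u := by
      intro x y
      simp only [G]
      split_ifs with hs
      · simp only [SG.cyc, ed, dl_ne hu0, dl_ne hu1, dl_ne hw0, dl_ne hw1]
        ring
      · simp
    have e2 : ∀ p q : X, ∑ x, ∑ y, (if Sel x y then D x y else 0) * dl x p * dl y q =
        if Sel p q then D p q else 0 := by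
      intro p q
      have : ∀ x, ∑ y, (if Sel x y then D x y else 0) * dl x p * dl y q =
          (if Sel x q then D x q else 0) * dl x p := by
        intro x
        exact sum_mul_dl (fun y => (if Sel x y then D x y else 0) * dl x p) q
      simp only [this]
      exact sum_mul_dl (fun x => if Sel x q then D x q else 0) p
    simp only [e1, Finset.sum_add_distrib, e2]
    have h3 := hSel u w hu0 hu1 hw0 hw1 huw
    have h4 := hsym w u
    by_cases s1 : Sel u w
    · by_cases s2 : Sel w u
      · simp [s1, s2] at h3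
      · simp [s1, s2]
    · by_cases s2 : Sel w u
      · simp [s1, s2, h4]
      · simp [s1, s2] at h3
  have hR5 : ∀ u w, |R u w| ≤ M + 4 * n0 ^ 2 * M := by
    intro u w
    have e1 : ∀ x y, |G x y u w| ≤ 4 * M := by
      intro x y
      simp only [G]
      split_ifs with hs
      · obtain ⟨⟨g1, g2, g3, g4, g5, g6, g7⟩, -⟩ := hs
        rw [abs_mul]
        have h1 := cyc_abs (fun h => g5 (by rw [h])) g3 h01 (Ne.symm g2) u w
        have h2 := hM x y
        nlinarith [abs_nonneg (D x y), abs_nonneg (SG.cyc x y v0 v1 u w)]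
      · simp; linarith
    have e2 : |∑ x, ∑ y, G x y u w| ≤ 4 * n0 ^ 2 * M := by
      refine (Finset.abs_sum_le_sum_abs _ _).trans ?_
      refine (Finset.sum_le_sum fun x _ => (Finset.abs_sum_le_sum_abs _ _).trans
        (Finset.sum_le_sum fun y _ => e1 x y)).trans ?_
      simp only [Finset.sum_const, Finset.card_univ, nsmul_eq_mul]
      apply le_of_eq
      rw [hn0]; ring
    have h2 := hM u w
    have h3 : |R u w| ≤ |D u w| + |∑ x, ∑ y, G x y u w| := by
      simp only [R]
      exact abs_sub _ _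
    linarith
  -- second step
  let ee : X → ℤ := fun x => if x = v0 ∨ x = v1 then 0 else R v0 x
  have he0 : ee v0 = 0 := by simp [ee]
  have he1 : ee v1 = 0 := by simp [ee]
  have hee : ∀ x, x ≠ v0 → x ≠ v1 → ee x = R v0 x := by
    intro x h0 h1; simp [ee, h0, h1]
  have hcol : ∀ w, w ≠ v0 → w ≠ v1 → R v1 w = - R v0 w := by
    intro w hw0 hw1
    have h1 := hR3 w
    have h2 : ∑ u, R w u = R w v0 + R w v1 := by
      rw [← Finset.sum_pair h01]
      symm
      refine Finset.sum_subset (Finset.subset_univ _) fun u _ hu => ?_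
      simp only [Finset.mem_insert, Finset.mem_singleton, not_or] at hu
      exact hR4 w u hw0 hw1 hu.1 hu.2
    rw [h2] at h1
    rw [hR1 v1 w, hR1 v0 w]
    linarith
  have hrow0 : (∑ w, ee w) + R v0 v1 = 0 := by
    have h1 := hR3 v0
    have h2 : ∀ w, R v0 w = ee w + (if w = v1 then R v0 v1 else 0) := by
      intro w
      by_cases h : w = v0
      · subst h; rw [hR2 w w rfl, he0]; simp [h01]
      · by_cases h' : w = v1
        · subst h'; rw [he1]; simp
        · rw [hee w h h']; simp [h']
    rw [Finset.sum_congr rfl fun w _ => h2 w, Finset.sum_add_distrib] at h1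
    simpa using h1
  have hrow1 : - (∑ w, ee w) + R v0 v1 = 0 := by
    have h1 := hR3 v1
    have h2 : ∀ w, R v1 w = - ee w + (if w = v0 then R v1 v0 else 0) := by
      intro w
      by_cases h : w = v0
      · subst h; rw [he0]; simp
      · by_cases h' : w = v1
        · subst h'; rw [hR2 w w rfl, he1]; simp [Ne.symm h01]
        · rw [hee w h h', hcol w h h']; simp [h]
    rw [Finset.sum_congr rfl fun w _ => h2 w, Finset.sum_add_distrib] at h1
    simp only [Finset.sum_neg_distrib, Finset.sum_ite_eq', Finset.mem_univ, if_true] at h1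
    rw [hR1 v1 v0] at h1
    exact h1
  have hs0 : ∑ w, ee w = 0 := by linarith
  have hR01 : R v0 v1 = 0 := by linarith
  have hid : ∀ u w, R u w = ∑ x, ee x * SG.cyc v0 x v1 v2 u w := by
    intro u w
    have e1 : ∑ x, ee x * SG.cyc v0 x v1 v2 u w =
        dl v0 u * ee w + ee u * dl v0 w - (ee u * dl v1 w + dl v1 u * ee w) := by
      have : ∀ x, ee x * SG.cyc v0 x v1 v2 u w = dl v0 u * (ee x * dl x w) + dl v0 w * (ee x * dl x u)
          - dl v1 w * (ee x * dl x u) - dl v1 u * (ee x * dl x w)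
          + (ed v1 v2 u w - ed v2 v0 u w) * ee x := by
        intro x
        simp only [SG.cyc, ed]
        ring
      simp only [this, Finset.sum_add_distrib, Finset.sum_sub_distrib, ← Finset.mul_sum, sum_mul_dl,
        hs0]
      ring
    rw [e1]
    by_cases hu0 : u = v0
    · subst hu0
      rw [dl_self, he0, dl_ne h01]
      by_cases hw0 : w = u
      · subst hw0; rw [hR2 w w rfl, he0]; ring
      · by_cases hw1 : w = v1
        · subst hw1; rw [hR01, he1]; ring
        · rw [hee w hw0 hw1]; ring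
    · by_cases hu1 : u = v1
      · subst hu1
        rw [dl_self, he1, dl_ne hu0]
        by_cases hw0 : w = v0
        · subst hw0; rw [hR1, hR01, he0]; ring
        · by_cases hw1 : w = u
          · subst hw1; rw [hR2 w w rfl, he1]; ring
          · rw [hee w hw0 hw1, hcol w hw0 hw1]; ring
      · rw [dl_ne hu0, dl_ne hu1]
        by_cases hw0 : w = v0
        · subst hw0; rw [hR1, hee u hu0 hu1, dl_self, dl_ne h01]; ring
        · by_cases hw1 : w = v1
          · subst hw1; rw [hR1, hcol u hu0 hu1, hee u hu0 hu1, dl_self, dl_ne hw0]; ring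
          · rw [hR4 u w hu0 hu1 hw0 hw1, dl_ne hw0, dl_ne hw1]; ring
  have hE : ∀ x ∈ (Finset.univ : Finset X), Ach π k (fun u w => ee x * SG.cyc v0 x v1 v2 u w)
      (4 * (M + 4 * n0 ^ 2 * M)) := by
    intro x _
    by_cases hx : ee x = 0
    · refine (Ach.zero.mono ?_).congr (fun u w _ => by rw [hx, zero_mul])
      have := hR5 v0 v0
      have := abs_nonneg (R v0 v0)
      linarith
    · have hx0 : x ≠ v0 := fun h => hx (by rw [h, he0])
      have hx1 : x ≠ v1 := fun h => hx (by rw [h, he1])
      have q0 : π v0 ≠ π x := by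
        intro h
        apply hx
        rw [hee x hx0 hx1, hR2 v0 x h]
      have q1 : π x ≠ π v1 := by
        intro h
        apply hx
        have := hcol x hx0 hx1
        rw [hR2 v1 x h.symm] at this
        rw [hee x hx0 hx1]
        linarith
      refine ((Ach.cyc hparts hk q0 q1 p12 (Ne.symm p02)).smul (ee x)).mono ?_
      have := hR5 v0 x
      rw [← hee x hx0 hx1] at this
      linarith
  have hEs := Ach.sum Finset.univ _ _ hE
  refine ((hGs.add hEs).mono ?_).congr ?_
  · simp only [Finset.sum_const, Finset.card_univ, nsmul_eq_mul]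
    apply le_of_eq
    rw [hn0]; ring
  · intro u w _
    have := hid u w
    simp only [R] at this
    linarith

lemma TRs.insert1 {S : Finset X} {a : X} (hk : 1 ≤ k) (hc : S.card = k - 1)
    (hS : Set.InjOn π (S : Set X)) (ha : ∀ x ∈ S, π x ≠ π a) : TRs π k (insert a S) := by
  have haS : a ∉ S := fun h => ha a h rfl
  refine ⟨by rw [Finset.card_insert_of_notMem haS, hc]; omega, ?_⟩
  rw [Finset.coe_insert, Set.injOn_insert (by simpa using haS)]
  refine ⟨hS, ?_⟩
  rintro ⟨x, hx, hxb⟩
  exact ha x (by simpa using hx) hxb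

lemma sum_ind (b : Finset X) : ∑ x, ind b x = (b.card : ℤ) := by
  simp [ind]

lemma ind_nonneg (b : Finset X) (x : X) : 0 ≤ ind b x := by
  unfold ind; split_ifs <;> simp

lemma ind_le_one (b : Finset X) (x : X) : ind b x ≤ 1 := by
  unfold ind; split_ifs <;> simp

/-- prescribed vertex degrees -/
lemma exists_deg (hparts : k + 2 ≤ (Finset.univ.image π).card) (hk : 1 ≤ k) (d : X → ℤ)
    (hd0 : ∀ x, 0 ≤ d x) (c0 : ℤ) (hc00 : 0 ≤ c0) (hc0 : ∑ x, d x = k * c0) :
    ∃ f : Finset X → ℤ, (∀ b, ¬ TRs π k b → f b = 0) ∧ ∑ b, |f b| ≤ c0 + 4 * ∑ x, d x ∧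
      ∀ x, ∑ b, f b * ind b x = d x := by
  obtain ⟨b0, hb0c, hb0i, -⟩ := exists_trans (π := π) ∅ k (by simp; omega)
  have hb0 : TRs π k b0 := ⟨hb0c, hb0i⟩
  have hne : b0.Nonempty := by
    rw [← Finset.card_pos, hb0c]; omega
  obtain ⟨x0, -⟩ := hne
  have hex : ∀ z : X, ∃ S : Finset X, S.card = k - 1 ∧ Set.InjOn π (S : Set X) ∧
      ∀ x ∈ S, π x ∉ ({π z, π x0} : Finset P) := by
    intro z
    refine exists_trans (π := π) {π z, π x0} (k - 1) ?_
    have : ({π z, π x0} : Finset P).card ≤ 2 := Finset.card_le_two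
    omega
  choose S hSc hSi hST using hex
  have hSz : ∀ z, ∀ x ∈ S z, π x ≠ π z := fun z x hx h => hST z x hx (by simp [h])
  have hS0 : ∀ z, ∀ x ∈ S z, π x ≠ π x0 := fun z x hx h => hST z x hx (by simp [h])
  have hA : ∀ z, TRs π k (insert z (S z)) := fun z => TRs.insert1 hk (hSc z) (hSi z) (hSz z)
  have hB : ∀ z, TRs π k (insert x0 (S z)) := fun z => TRs.insert1 hk (hSc z) (hSi z) (hS0 z)
  let δ : X → ℤ := fun x => d x - c0 * ind b0 x
  have hδ0 : ∑ x, δ x = 0 := by
    simp only [δ]
    rw [Finset.sum_sub_distrib, ← Finset.mul_sum, sum_ind, hb0c, hc0]; ring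
  have hδa : ∑ x, |δ x| ≤ 2 * ∑ x, d x := by
    have : ∀ x, |δ x| ≤ d x + c0 * ind b0 x := by
      intro x
      refine (abs_sub _ _).trans ?_
      rw [abs_of_nonneg (hd0 x), abs_of_nonneg (mul_nonneg hc00 (ind_nonneg _ _))]
    refine (Finset.sum_le_sum fun x _ => this x).trans ?_
    rw [Finset.sum_add_distrib, ← Finset.mul_sum, sum_ind, hb0c, hc0]
    linarith
  let f : Finset X → ℤ := fun b => (if b = b0 then c0 else 0) +
    ∑ z, δ z * ((if b = insert z (S z) then 1 else 0) - (if b = insert x0 (S z) then 1 else 0))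
  refine ⟨f, ?_, ?_, ?_⟩
  · intro b hb
    have h1 : b ≠ b0 := fun h => hb (h ▸ hb0)
    have h2 : ∀ z, b ≠ insert z (S z) := fun z h => hb (h ▸ hA z)
    have h3 : ∀ z, b ≠ insert x0 (S z) := fun z h => hb (h ▸ hB z)
    simp [f, h1, h2, h3]
  · have h1 : ∀ b, |f b| ≤ (if b = b0 then c0 else 0) +
        ∑ z, |δ z| * ((if b = insert z (S z) then 1 else 0) + (if b = insert x0 (S z) then 1 else 0)) := by
      intro b
      refine (abs_add_le _ _).trans (add_le_add ?_ ?_)
      · split_ifs
        · rw [abs_of_nonneg hc00]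
        · simp
      · refine (Finset.abs_sum_le_sum_abs _ _).trans (Finset.sum_le_sum fun z _ => ?_)
        rw [abs_mul]
        refine mul_le_mul_of_nonneg_left ?_ (abs_nonneg _)
        split_ifs <;> simp
    refine (Finset.sum_le_sum fun b _ => h1 b).trans ?_
    rw [Finset.sum_add_distrib, Finset.sum_comm]
    have h2 : ∀ z, ∑ b : Finset X, |δ z| * ((if b = insert z (S z) then (1:ℤ) else 0) +
        (if b = insert x0 (S z) then 1 else 0)) = 2 * |δ z| := by
      intro z
      rw [← Finset.mul_sum, Finset.sum_add_distrib]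
      simp; ring
    simp only [h2]
    rw [← Finset.mul_sum]
    simp only [Finset.sum_ite_eq', Finset.mem_univ, if_true]
    linarith
  · intro x
    have h1 : ∑ b, f b * ind b x = c0 * ind b0 x +
        ∑ z, δ z * (ind (insert z (S z)) x - ind (insert x0 (S z)) x) := by
      simp only [f, add_mul, Finset.sum_add_distrib, Finset.sum_mul]
      congr 1
      · simp
      · rw [Finset.sum_comm]
        refine Finset.sum_congr rfl fun z _ => ?_
        simp only [mul_assoc, ← Finset.mul_sum, sub_mul, Finset.sum_sub_distrib]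
        simp
    rw [h1]
    have h2 : ∀ z, ind (insert z (S z)) x - ind (insert x0 (S z)) x = dl z x - dl x0 x := by
      intro z
      rw [ind_insert (fun h => hSz z z h rfl), ind_insert (fun h => hS0 z x0 h rfl)]
      ring
    simp only [h2, mul_sub, Finset.sum_sub_distrib, sum_mul_dl]
    rw [← Finset.sum_mul, hδ0]
    simp only [δ]
    ring

/-- an integral signed decomposition with bounded total weight -/
lemma exists_signed (hparts : k + 2 ≤ (Finset.univ.image π).card) (hk : 3 ≤ k)
    (hdeg : ∀ x, (k - 1) ∣ (Finset.univ.filter (fun y => π y ≠ π x)).card)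
    (hE : k * (k - 1) ∣ ∑ x, (Finset.univ.filter (fun y => π y ≠ π x)).card) :
    Ach π k (fun _ _ => 1) (100 * (Fintype.card X : ℤ) ^ 5) := by
  choose d hd using hdeg
  obtain ⟨c0, hc0⟩ := hE
  have hsum : ∑ x, d x = k * c0 := by
    have h1 : (k - 1) * ∑ x, d x = (k - 1) * (k * c0) := by
      rw [Finset.mul_sum, ← Finset.sum_congr rfl fun x _ => hd x, hc0]; ring
    exact Nat.eq_of_mul_eq_mul_left (by omega) h1
  have hsum' : ∑ x, (d x : ℤ) = k * (c0 : ℤ) := by exact_mod_cast hsum
  obtain ⟨f0, h01, h02, h03⟩ := exists_deg hparts (by omega) (fun x => (d x : ℤ))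
    (fun x => by positivity) (c0 : ℤ) (by positivity) hsum'
  set n : ℤ := (Fintype.card X : ℤ) with hn
  have hn1 : 1 ≤ n := by
    have h1 : (Finset.univ.image π).card ≤ Fintype.card X := by
      refine Finset.card_image_le.trans ?_
      rw [Finset.card_univ]
    rw [hn]; exact_mod_cast (by omega : 1 ≤ Fintype.card X)
  have hb2 : 2 * ∑ x, (d x : ℤ) ≤ n ^ 2 := by
    have h1 : (k - 1) * ∑ x, d x ≤ Fintype.card X * Fintype.card X := by
      rw [Finset.mul_sum, ← Finset.sum_congr rfl fun x _ => hd x]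
      refine (Finset.sum_le_sum fun x _ => (Finset.card_le_univ _)).trans ?_
      simp
    have h2 : 2 * ∑ x, d x ≤ Fintype.card X * Fintype.card X := by
      refine le_trans (Nat.mul_le_mul_right _ (by omega)) h1
    have h3 : (2:ℤ) * ∑ x, (d x : ℤ) ≤ n * n := by rw [hn]; exact_mod_cast h2
    nlinarith
  have hc3 : 3 * (c0 : ℤ) ≤ ∑ x, (d x : ℤ) := by
    rw [hsum']
    have : (3:ℤ) ≤ k := by exact_mod_cast hk
    nlinarith [(by positivity : (0:ℤ) ≤ c0)]
  have hf0 : ∑ b, |f0 b| ≤ 3 * n ^ 2 := by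
    have : (0:ℤ) ≤ c0 := by positivity
    have h3 : (0:ℤ) ≤ n ^ 2 := by positivity
    linarith
  let D : X → X → ℤ := fun x y => if π x = π y then 0 else 1 - ∑ b, f0 b * (ind b x * ind b y)
  have hker := Ach.kernel hparts (by omega) D (3 * n ^ 2 + 1) ?_ ?_ ?_ ?_
  · obtain ⟨f1, h11, h12, h13⟩ := hker
    refine ⟨fun b => f0 b + f1 b, fun b hb => by simp [h01 b hb, h11 b hb], ?_, fun x y hxy => ?_⟩
    · refine (Finset.sum_le_sum fun b _ => abs_add_le (f0 b) (f1 b)).trans ?_
      rw [Finset.sum_add_distrib]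
      refine (add_le_add hf0 h12).trans ?_
      rw [← hn]
      have e2 : n ^ 2 ≤ n ^ 5 := pow_le_pow_right₀ hn1 (by norm_num)
      have e3 : n ^ 3 ≤ n ^ 5 := pow_le_pow_right₀ hn1 (by norm_num)
      have e4 : n ^ 4 ≤ n ^ 5 := pow_le_pow_right₀ hn1 (by norm_num)
      have e1 : n ≤ n ^ 5 := by
        calc n = n ^ 1 := (pow_one n).symm
          _ ≤ n ^ 5 := pow_le_pow_right₀ hn1 (by norm_num)
      nlinarith
    · simp only [add_mul, Finset.sum_add_distrib]
      rw [h13 x y hxy]
      simp only [D, hxy, if_false]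
      ring
  · intro x y
    simp only [D]
    split_ifs with h
    · simp; positivity
    · refine (abs_sub _ _).trans ?_
      have h1 : |∑ b, f0 b * (ind b x * ind b y)| ≤ ∑ b, |f0 b| := by
        refine (Finset.abs_sum_le_sum_abs _ _).trans (Finset.sum_le_sum fun b _ => ?_)
        rw [abs_mul, abs_of_nonneg (mul_nonneg (ind_nonneg b x) (ind_nonneg b y))]
        have h2 : ind b x * ind b y ≤ 1 := by
          nlinarith [ind_nonneg b x, ind_nonneg b y, ind_le_one b x, ind_le_one b y]
        nlinarith [abs_nonneg (f0 b)]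
      rw [abs_one]
      linarith
  · intro x y
    simp only [D]
    by_cases h : π x = π y
    · simp [h]
    · have h' : ¬ π y = π x := fun e => h e.symm
      simp only [h, h', if_false]
      congr 1
      exact Finset.sum_congr rfl fun b _ => by ring
  · intro x y h
    simp [D, h]
  · intro x
    have h1 : ∀ y, D x y = (if π y ≠ π x then 1 else 0) -
        ∑ b, f0 b * ind b x * ((if π y ≠ π x then 1 else 0) * ind b y) := by
      intro y
      simp only [D]
      by_cases h : π x = π y
      · simp [h]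
      · have h' : π y ≠ π x := fun e => h e.symm
        simp only [h, if_false, h', ne_eq, not_false_eq_true, if_true, one_mul]
        congr 1
        exact Finset.sum_congr rfl fun b _ => by ring
    simp only [h1, Finset.sum_sub_distrib]
    rw [Finset.sum_comm]
    simp only [← Finset.mul_sum]
    have h2 : ∀ b, f0 b * ind b x * ∑ y, ((if π y ≠ π x then (1:ℤ) else 0) * ind b y) =
        (f0 b * ind b x) * ((k:ℤ) - 1) := by
      intro b
      by_cases hb : TRs π k b
      · by_cases hx : x ∈ b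
        · congr 1
          have h3 : ∀ y, (if π y ≠ π x then (1:ℤ) else 0) * ind b y = ind (b.erase x) y := by
            intro y
            unfold ind
            by_cases hy : y ∈ b
            · by_cases hyx : y = x
              · subst hyx; simp
              · have : π y ≠ π x := fun h => hyx (hb.2 (by simpa using hy) (by simpa using hx) h)
                simp [hy, hyx, this]
            · simp [hy]
          simp only [h3, sum_ind]
          rw [Finset.card_erase_of_mem hx, hb.1]
          push_cast [Nat.cast_sub (by omega : 1 ≤ k)]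
          ring
        · have : ind b x = 0 := by simp [ind, hx]
          rw [this]; ring
      · rw [h01 b hb]; ring
    simp only [h2]
    rw [← Finset.sum_mul, h03 x]
    have h4 : ∑ y, (if π y ≠ π x then (1:ℤ) else 0) =
        ((Finset.univ.filter (fun y => π y ≠ π x)).card : ℤ) := by
      rw [Finset.sum_boole]
    rw [h4, hd x]
    push_cast [Nat.cast_sub (by omega : 1 ≤ k)]
    ring

end SG

open Classical in
theorem fold_of_weights {X P : Type} [Fintype X] (π : X → P) (k : ℕ) (hk : 3 ≤ k)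
    (hparts : k + 2 ≤ (Finset.univ.image π).card)
    (hdeg : ∀ x, (k - 1) ∣ (Finset.univ.filter (fun y => π y ≠ π x)).card)
    (hE : k * (k - 1) ∣ ∑ x, (Finset.univ.filter (fun y => π y ≠ π x)).card)
    (c : Finset X → ℕ) (Λ : ℕ)
    (hc : ∀ b : Finset X, b.card = k → Set.InjOn π (b : Set X) → 1 ≤ c b)
    (hΛ : ∀ x y, π x ≠ π y →
      ∑ b ∈ (Finset.univ : Finset (Finset X)).filter
        (fun b : Finset X => b.card = k ∧ Set.InjOn π (b : Set X) ∧ x ∈ b ∧ y ∈ b), c b = Λ)
    (F : ℕ) (hF : 100 * (Fintype.card X) ^ 5 ≤ F) : Fold k (1 + F * Λ) π := by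
  obtain ⟨f, h1, h2, h3⟩ := SG.exists_signed hparts hk hdeg hE
  have hF' : (100:ℤ) * (Fintype.card X : ℤ) ^ 5 ≤ F := by exact_mod_cast hF
  let m : Finset X → ℕ := fun b => if SG.TRs π k b then (f b + F * c b).toNat else 0
  have hm : ∀ b, (m b : ℤ) = f b + (if SG.TRs π k b then (F:ℤ) * c b else 0) := by
    intro b
    simp only [m]
    split_ifs with hb
    · rw [Int.toNat_of_nonneg]
      have e1 : |f b| ≤ ∑ b, |f b| :=
        Finset.single_le_sum (f := fun b => |f b|) (fun b _ => abs_nonneg (f b)) (Finset.mem_univ b)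
      have e2 := (abs_le.1 (e1.trans (h2.trans hF'))).1
      have e3 : (1:ℤ) ≤ c b := by exact_mod_cast hc b hb.1 hb.2
      nlinarith [(by positivity : (0:ℤ) ≤ F)]
    · rw [h1 b hb]; simp
  refine ⟨Σ b : Finset X, Fin (m b), inferInstance, fun j => j.1, ?_, ?_⟩
  · rintro ⟨b, i⟩
    have hb : SG.TRs π k b := by
      by_contra hb
      have : m b = 0 := by simp [m, hb]
      exact absurd i.2 (by omega)
    exact hb
  · intro x y hxy
    have e1 : Nat.card {j : Σ b : Finset X, Fin (m b) // x ∈ j.1 ∧ y ∈ j.1} =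
        ∑ b ∈ (Finset.univ : Finset (Finset X)).filter (fun b => x ∈ b ∧ y ∈ b), m b := by
      rw [Nat.card_congr (Equiv.subtypeSigmaEquiv (fun b : Finset X => Fin (m b))
        (fun b : Finset X => x ∈ b ∧ y ∈ b)), Nat.card_eq_fintype_card, Fintype.card_sigma]
      simp only [Fintype.card_fin]
      rw [Finset.sum_subtype (p := fun b : Finset X => x ∈ b ∧ y ∈ b) _ (by simp)]
    rw [e1]
    have e2 : ((∑ b ∈ (Finset.univ : Finset (Finset X)).filter (fun b => x ∈ b ∧ y ∈ b), m b : ℕ) : ℤ)
        = ((1 + F * Λ : ℕ) : ℤ) := by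
      rw [← hΛ x y hxy]
      push_cast
      simp only [hm]
      rw [Finset.sum_add_distrib]
      congr 1
      · have h3' := h3 x y hxy
        simp only at h3'
        rw [← h3', Finset.sum_filter]
        refine Finset.sum_congr rfl fun b _ => ?_
        unfold SG.ind
        by_cases hx : x ∈ b <;> by_cases hy : y ∈ b <;> simp [hx, hy]
      · rw [Finset.mul_sum, Finset.sum_filter, Finset.sum_filter]
        refine Finset.sum_congr rfl fun b _ => ?_
        unfold SG.TRs
        by_cases hx : x ∈ b <;> by_cases hy : y ∈ b <;> by_cases h4 : b.card = k <;>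
          by_cases h5 : Set.InjOn π (b : Set X) <;> simp [hx, hy, h4, h5]
    exact_mod_cast e2

end H108
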