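import Mathlib
import Pool.Agent.H108R2.Signed

/-!
# Fractional decomposition of near-uniform edge weights
-/

namespace H108
namespace FR

open Classical

variable {X P : Type} [Fintype X]

/-- the local weight of a `k`-set with respect to the pair `x y` -/
private noncomputable def wt (k : ℕ) (x y : X) (b : Finset X) : ℝ :=
  ((k : ℝ) - 2) / k - ((k : ℝ) - 2) / ((k : ℝ) - 1) *
    ((if x ∈ b then 1 else 0) + (if y ∈ b then 1 else 0)) +
    (if x ∈ b ∧ y ∈ b then 1 else 0)

private lemma abs_wt_le (k : ℕ) (hk : 3 ≤ k) (x y : X) (b : Finset X) : |wt k x y b| ≤ 1 := by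
  have hk' : (3 : ℝ) ≤ k := by exact_mod_cast hk
  have h1 : ((k : ℝ) - 2) / k ≤ 1 := by
    rw [div_le_one (by linarith)]; linarith
  have h2 : 0 ≤ ((k : ℝ) - 2) / k := div_nonneg (by linarith) (by linarith)
  have h3 : ((k : ℝ) - 2) / ((k : ℝ) - 1) ≤ 1 := by
    rw [div_le_one (by linarith)]; linarith
  have h4 : ((k : ℝ) - 2) / k ≤ ((k : ℝ) - 2) / ((k : ℝ) - 1) :=
    div_le_div_of_nonneg_left (by linarith) (by linarith) (by linarith)
  have h5 : 2 * (((k : ℝ) - 2) / ((k : ℝ) - 1)) ≤ 1 + ((k : ℝ) - 2) / k := by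
    have hk0 : (k : ℝ) ≠ 0 := by linarith
    have hk1 : (k : ℝ) - 1 ≠ 0 := by linarith
    have : 1 + ((k : ℝ) - 2) / k - 2 * (((k : ℝ) - 2) / ((k : ℝ) - 1)) =
        2 / (k * ((k : ℝ) - 1)) := by
      field_simp
      ring
    have h6 : 0 ≤ 2 / (k * ((k : ℝ) - 1)) :=
      div_nonneg (by norm_num) (mul_nonneg (by linarith) (by linarith))
    linarith
  unfold wt
  rw [abs_le]
  by_cases hx : x ∈ b <;> by_cases hy : y ∈ b <;> simp only [hx, hy, if_true, if_false,
    and_true, and_false, and_self] <;> constructor <;> linarith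

/-- number of `k`-subsets of a `(k+2)`-set containing a given set -/
private lemma cnt (k : ℕ) (T S : Finset X) (hT : T.card = k + 2) (hS : S ⊆ T) :
    ((T.powersetCard k).filter (fun b => S ⊆ b)).card = (k + 2 - S.card).choose 2 := by
  rw [← hT, ← Finset.card_sdiff_of_subset hS, ← Finset.card_powersetCard]
  refine Finset.card_nbij' (fun b => T \ b) (fun R => T \ R) ?_ ?_ ?_ ?_
  · intro b hb
    simp only [Finset.coe_filter, Set.mem_ofPred_eq, Finset.mem_powersetCard] at hb
    simp only [Finset.mem_coe, Finset.mem_powersetCard]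
    refine ⟨Finset.sdiff_subset_sdiff (Finset.Subset.refl _) hb.2, ?_⟩
    rw [Finset.card_sdiff_of_subset hb.1.1, hT, hb.1.2]
    omega
  · intro R hR
    simp only [Finset.mem_coe, Finset.mem_powersetCard] at hR
    simp only [Finset.coe_filter, Set.mem_ofPred_eq, Finset.mem_powersetCard]
    refine ⟨⟨Finset.sdiff_subset, ?_⟩, ?_⟩
    · rw [Finset.card_sdiff_of_subset (hR.1.trans Finset.sdiff_subset), hT, hR.2]
      omega
    · intro x hx
      rw [Finset.mem_sdiff]
      exact ⟨hS hx, fun h => (Finset.mem_sdiff.1 (hR.1 h)).2 hx⟩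
  · intro b hb
    simp only [Finset.coe_filter, Set.mem_ofPred_eq, Finset.mem_powersetCard] at hb
    exact Finset.sdiff_sdiff_eq_self hb.1.1
  · intro R hR
    simp only [Finset.mem_coe, Finset.mem_powersetCard] at hR
    exact Finset.sdiff_sdiff_eq_self (hR.1.trans Finset.sdiff_subset)

private lemma ident (k : ℕ) (hk : 3 ≤ k) (T : Finset X) (hT : T.card = k + 2) {x y u v : X}
    (hx : x ∈ T) (hy : y ∈ T) (hu : u ∈ T) (hv : v ∈ T) (hxy : x ≠ y) (huv : u ≠ v) :
    ∑ b ∈ (T.powersetCard k).filter (fun b => {u, v} ⊆ b), wt k x y b =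
      (if x = u ∧ y = v then 1 else 0) + (if x = v ∧ y = u then 1 else 0) := by
  have hk' : (3 : ℝ) ≤ k := by exact_mod_cast hk
  have hk0 : (k : ℝ) ≠ 0 := by linarith
  have hk1 : (k : ℝ) - 1 ≠ 0 := by linarith
  set F := (T.powersetCard k).filter (fun b => ({u, v} : Finset X) ⊆ b) with hF
  have hsub : ({u, v} : Finset X) ⊆ T := by
    intro z hz
    simp only [Finset.mem_insert, Finset.mem_singleton] at hz
    rcases hz with rfl | rfl
    · exact hu
    · exact hv
  have hcuv : ({u, v} : Finset X).card = 2 := Finset.card_pair huv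
  have hsx : insert x ({u, v} : Finset X) ⊆ T := Finset.insert_subset hx hsub
  have hsy : insert y ({u, v} : Finset X) ⊆ T := Finset.insert_subset hy hsub
  have hsxy : insert x (insert y ({u, v} : Finset X)) ⊆ T := Finset.insert_subset hx hsy
  have e0 : (F.card : ℝ) = (k : ℝ) * ((k : ℝ) - 1) / 2 := by
    rw [hF, cnt k T _ hT hsub, hcuv]
    rw [show k + 2 - 2 = k by omega, Nat.cast_choose_two]
  have e1 : ∀ z : X, ∑ b ∈ F, (if z ∈ b then (1 : ℝ) else 0) =
      (((T.powersetCard k).filter (fun b => insert z ({u, v} : Finset X) ⊆ b)).card : ℝ) := by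
    intro z
    rw [Finset.sum_boole, hF, Finset.filter_filter]
    congr 2
    apply Finset.filter_congr
    intro b _
    simp only [Finset.insert_subset_iff, Finset.singleton_subset_iff]
    tauto
  have e2 : ∑ b ∈ F, (if x ∈ b ∧ y ∈ b then (1 : ℝ) else 0) =
      (((T.powersetCard k).filter
        (fun b => insert x (insert y ({u, v} : Finset X)) ⊆ b)).card : ℝ) := by
    rw [Finset.sum_boole, hF, Finset.filter_filter]
    congr 2
    apply Finset.filter_congr
    intro b _
    simp only [Finset.insert_subset_iff, Finset.singleton_subset_iff]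
    tauto
  have c3 : ((k + 2 - 3).choose 2 : ℝ) = ((k : ℝ) - 1) * ((k : ℝ) - 2) / 2 := by
    rw [Nat.cast_choose_two]
    have : ((k + 2 - 3 : ℕ) : ℝ) = (k : ℝ) - 1 := by
      rw [show k + 2 - 3 = k - 1 by omega, Nat.cast_sub (by omega)]; simp
    rw [this]; ring
  have c4 : ((k + 2 - 4).choose 2 : ℝ) = ((k : ℝ) - 2) * ((k : ℝ) - 3) / 2 := by
    rw [Nat.cast_choose_two]
    have : ((k + 2 - 4 : ℕ) : ℝ) = (k : ℝ) - 2 := by
      rw [show k + 2 - 4 = k - 2 by omega, Nat.cast_sub (by omega)]; simp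
    rw [this]; ring
  have c2 : ((k + 2 - 2).choose 2 : ℝ) = (k : ℝ) * ((k : ℝ) - 1) / 2 := by
    rw [Nat.cast_choose_two]
    have : ((k + 2 - 2 : ℕ) : ℝ) = (k : ℝ) := by
      rw [show k + 2 - 2 = k by omega]
    rw [this]
  have hsum : ∑ b ∈ F, wt k x y b =
      (F.card : ℝ) * (((k : ℝ) - 2) / k) - ((k : ℝ) - 2) / ((k : ℝ) - 1) *
        (∑ b ∈ F, (if x ∈ b then (1 : ℝ) else 0) + ∑ b ∈ F, (if y ∈ b then (1 : ℝ) else 0)) +
        ∑ b ∈ F, (if x ∈ b ∧ y ∈ b then (1 : ℝ) else 0) := by
    unfold wt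
    rw [Finset.sum_add_distrib, Finset.sum_sub_distrib, Finset.sum_const, nsmul_eq_mul,
      ← Finset.mul_sum, Finset.sum_add_distrib]
  rw [hsum, e0, e1, e1, e2, cnt k T _ hT hsx, cnt k T _ hT hsy, cnt k T _ hT hsxy]
  by_cases hxm : x ∈ ({u, v} : Finset X) <;> by_cases hym : y ∈ ({u, v} : Finset X)
  · have hxm' : x ∈ insert y ({u, v} : Finset X) := Finset.mem_insert_of_mem hxm
    rw [Finset.card_insert_of_mem hxm', Finset.card_insert_of_mem hxm,
      Finset.card_insert_of_mem hym, hcuv, c2]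
    have hR : (if x = u ∧ y = v then (1 : ℝ) else 0) + (if x = v ∧ y = u then 1 else 0) = 1 := by
      simp only [Finset.mem_insert, Finset.mem_singleton] at hxm hym
      rcases hxm with rfl | rfl <;> rcases hym with rfl | rfl
      · exact absurd rfl hxy
      · simp [huv]
      · simp [huv.symm]
      · exact absurd rfl hxy
    rw [hR]
    field_simp
    ring
  · have hxm' : x ∈ insert y ({u, v} : Finset X) := Finset.mem_insert_of_mem hxm
    rw [Finset.card_insert_of_mem hxm', Finset.card_insert_of_mem hxm,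
      Finset.card_insert_of_notMem hym, hcuv, show 2 + 1 = 3 by rfl, c2, c3]
    have hR : (if x = u ∧ y = v then (1 : ℝ) else 0) + (if x = v ∧ y = u then 1 else 0) = 0 := by
      simp only [Finset.mem_insert, Finset.mem_singleton, not_or] at hym
      simp [hym.1, hym.2]
    rw [hR]
    field_simp
    ring
  · have hxm' : x ∉ insert y ({u, v} : Finset X) := by
      rw [Finset.mem_insert, not_or]
      exact ⟨hxy, hxm⟩
    rw [Finset.card_insert_of_notMem hxm', Finset.card_insert_of_notMem hxm,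
      Finset.card_insert_of_mem hym, hcuv, show 2 + 1 = 3 by rfl, c2, c3]
    have hR : (if x = u ∧ y = v then (1 : ℝ) else 0) + (if x = v ∧ y = u then 1 else 0) = 0 := by
      simp only [Finset.mem_insert, Finset.mem_singleton, not_or] at hxm
      simp [hxm.1, hxm.2]
    rw [hR]
    field_simp
    ring
  · have hxm' : x ∉ insert y ({u, v} : Finset X) := by
      rw [Finset.mem_insert, not_or]
      exact ⟨hxy, hxm⟩
    rw [Finset.card_insert_of_notMem hxm', Finset.card_insert_of_notMem hxm,
      Finset.card_insert_of_notMem hym, hcuv, show 2 + 1 = 3 by rfl, show 3 + 1 = 4 by rfl, c3, c4]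
    have hR : (if x = u ∧ y = v then (1 : ℝ) else 0) + (if x = v ∧ y = u then 1 else 0) = 0 := by
      simp only [Finset.mem_insert, Finset.mem_singleton, not_or] at hxm
      simp [hxm.1, hxm.2]
    rw [hR]
    field_simp
    ring

/-- the `(k+2)`-transversals containing `x` and `y` -/
private noncomputable def TT (π : X → P) (k : ℕ) (x y : X) : Finset (Finset X) :=
  Finset.univ.filter (fun T : Finset X => T.card = k + 2 ∧ Set.InjOn π (T : Set X) ∧
    x ∈ T ∧ y ∈ T)

private lemma mem_TT {π : X → P} {k : ℕ} {x y : X} {T : Finset X} :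
    T ∈ TT π k x y ↔ T.card = k + 2 ∧ Set.InjOn π (T : Set X) ∧ x ∈ T ∧ y ∈ T := by
  simp [TT]

/-- local fractional combination isolating the edge `x y` -/
private noncomputable def zz (π : X → P) (k : ℕ) (x y : X) (b : Finset X) : ℝ :=
  ((TT π k x y).card : ℝ)⁻¹ * ∑ T ∈ TT π k x y, if b ⊆ T ∧ b.card = k then wt k x y b else 0

private lemma zz_zero (π : X → P) (k : ℕ) (x y : X) (b : Finset X)
    (hb : ¬ (b.card = k ∧ Set.InjOn π (b : Set X))) : zz π k x y b = 0 := by
  unfold zz
  rw [Finset.sum_eq_zero, mul_zero]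
  intro T hT
  rw [if_neg]
  rintro ⟨h1, h2⟩
  exact hb ⟨h2, (mem_TT.1 hT).2.1.mono (by exact_mod_cast h1)⟩

private lemma zz_sum (π : X → P) (k : ℕ) (hk : 3 ≤ k) (x y : X) (hxy : π x ≠ π y)
    (hne : 0 < (TT π k x y).card) (u v : X) (huv : π u ≠ π v) :
    ∑ b ∈ Finset.univ.filter (fun b : Finset X => u ∈ b ∧ v ∈ b), zz π k x y b =
      (if x = u ∧ y = v then 1 else 0) + (if x = v ∧ y = u then 1 else 0) := by
  have hxy' : x ≠ y := fun h => hxy (by rw [h])
  have huv' : u ≠ v := fun h => huv (by rw [h])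
  unfold zz
  rw [← Finset.mul_sum, Finset.sum_comm]
  have h1 : ∀ T ∈ TT π k x y, (∑ b ∈ Finset.univ.filter (fun b : Finset X => u ∈ b ∧ v ∈ b),
      if b ⊆ T ∧ b.card = k then wt k x y b else 0) =
      (if x = u ∧ y = v then 1 else 0) + (if x = v ∧ y = u then 1 else 0) := by
    intro T hT
    obtain ⟨hT1, hT2, hT3, hT4⟩ := mem_TT.1 hT
    rw [← Finset.sum_filter, Finset.filter_filter]
    by_cases hu : u ∈ T
    · by_cases hv : v ∈ T
      · rw [← ident k hk T hT1 hT3 hT4 hu hv hxy' huv']
        apply Finset.sum_congr _ (fun _ _ => rfl)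
        ext b
        simp only [Finset.mem_filter, Finset.mem_univ, true_and, Finset.mem_powersetCard,
          Finset.insert_subset_iff, Finset.singleton_subset_iff]
        tauto
      · rw [Finset.sum_eq_zero]
        · have h2 : ¬ (x = u ∧ y = v) := by rintro ⟨-, rfl⟩; exact hv hT4
          have h3 : ¬ (x = v ∧ y = u) := by rintro ⟨rfl, -⟩; exact hv hT3
          simp [h2, h3]
        · intro b hb
          simp only [Finset.mem_filter, Finset.mem_univ, true_and] at hb
          exact absurd (hb.2.1 hb.1.2) hv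
    · rw [Finset.sum_eq_zero]
      · have h2 : ¬ (x = u ∧ y = v) := by rintro ⟨rfl, -⟩; exact hu hT3
        have h3 : ¬ (x = v ∧ y = u) := by rintro ⟨-, rfl⟩; exact hu hT4
        simp [h2, h3]
      · intro b hb
        simp only [Finset.mem_filter, Finset.mem_univ, true_and] at hb
        exact absurd (hb.2.1 hb.1.1) hu
  rw [Finset.sum_congr rfl h1, Finset.sum_const, nsmul_eq_mul, ← mul_assoc, inv_mul_cancel₀,
    one_mul]
  exact_mod_cast hne.ne'

private lemma card_sup (k : ℕ) (S : Finset (Finset X)) (b : Finset X)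
    (hS : ∀ T ∈ S, T.card = k + 2) (hb : b.card = k) :
    (S.filter (fun T => b ⊆ T)).card ≤ (Fintype.card X) ^ 2 := by
  have h1 : (S.filter (fun T => b ⊆ T)).card ≤
      ((Finset.univ : Finset X).powersetCard 2).card := by
    apply Finset.card_le_card_of_injOn (fun T => T \ b)
    · intro T hT
      simp only [Finset.coe_filter, Set.mem_ofPred_eq] at hT
      simp only [Finset.mem_coe, Finset.mem_powersetCard]
      refine ⟨Finset.subset_univ _, ?_⟩
      rw [Finset.card_sdiff_of_subset hT.2, hS T hT.1, hb]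
      omega
    · intro T hT T' hT' h
      simp only [Finset.coe_filter, Set.mem_ofPred_eq] at hT hT'
      simp only at h
      rw [← Finset.sdiff_union_of_subset hT.2, ← Finset.sdiff_union_of_subset hT'.2, h]
  rw [Finset.card_powersetCard, Finset.card_univ] at h1
  exact h1.trans (Nat.choose_le_pow _ _)

private lemma abs_zz_le (π : X → P) (k : ℕ) (hk : 3 ≤ k) (x y : X) (b : Finset X)
    (hb : b.card = k) :
    |zz π k x y b| ≤ ((TT π k x y).card : ℝ)⁻¹ * (Fintype.card X : ℝ) ^ 2 := by
  unfold zz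
  rw [abs_mul, abs_of_nonneg (inv_nonneg.2 (Nat.cast_nonneg _))]
  apply mul_le_mul_of_nonneg_left _ (inv_nonneg.2 (Nat.cast_nonneg _))
  calc |∑ T ∈ TT π k x y, if b ⊆ T ∧ b.card = k then wt k x y b else 0|
      ≤ ∑ T ∈ TT π k x y, |if b ⊆ T ∧ b.card = k then wt k x y b else 0| :=
        Finset.abs_sum_le_sum_abs _ _
    _ ≤ ∑ T ∈ TT π k x y, if b ⊆ T then (1 : ℝ) else 0 := by
        refine Finset.sum_le_sum fun T _ => ?_
        by_cases h : b ⊆ T
        · rw [if_pos ⟨h, hb⟩, if_pos h]
          exact abs_wt_le k hk x y b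
        · rw [if_neg (fun h' => h h'.1), if_neg h, abs_zero]
    _ = (((TT π k x y).filter (fun T => b ⊆ T)).card : ℝ) := by
        rw [Finset.sum_boole]
    _ ≤ (Fintype.card X : ℝ) ^ 2 := by
        exact_mod_cast card_sup k _ b (fun T hT => (mem_TT.1 hT).1) hb

private lemma nu_le (π : X → P) (k : ℕ) (hk : 3 ≤ k)
    (hparts : k + 2 ≤ (Finset.univ.image π).card) (x y : X) (hxy : π x ≠ π y) :
    (Finset.univ.filter (fun b : Finset X =>
      (b.card = k ∧ Set.InjOn π (b : Set X)) ∧ x ∈ b ∧ y ∈ b)).card ≤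
      (TT π k x y).card * k.choose 2 := by
  have hxy' : x ≠ y := fun h => hxy (by rw [h])
  have h1 : Finset.univ.filter (fun b : Finset X =>
      (b.card = k ∧ Set.InjOn π (b : Set X)) ∧ x ∈ b ∧ y ∈ b) ⊆
      (TT π k x y).biUnion (fun T => (T.powersetCard k).filter
        (fun b => ({x, y} : Finset X) ⊆ b)) := by
    intro b hb
    simp only [Finset.mem_filter, Finset.mem_univ, true_and] at hb
    obtain ⟨⟨hb1, hb2⟩, hb3, hb4⟩ := hb
    have him : (b.image π).card = k := by
      rw [Finset.card_image_of_injOn hb2, hb1]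
    obtain ⟨S, hS1, hS2, hS3⟩ := SG.exists_trans (π := π) (b.image π) 2 (by omega)
    have hdisj : Disjoint b S := by
      rw [Finset.disjoint_left]
      intro z hz hz'
      exact hS3 z hz' (Finset.mem_image_of_mem π hz)
    rw [Finset.mem_biUnion]
    refine ⟨b ∪ S, mem_TT.2 ⟨?_, ?_, Finset.mem_union_left _ hb3, Finset.mem_union_left _ hb4⟩, ?_⟩
    · rw [Finset.card_union_of_disjoint hdisj, hb1, hS1]
    · rw [Finset.coe_union, Set.injOn_union (by exact_mod_cast hdisj)]
      refine ⟨hb2, hS2, ?_⟩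
      intro p hp q hq h
      exact hS3 q hq (by rw [← h]; exact Finset.mem_image_of_mem π hp)
    · rw [Finset.mem_filter, Finset.mem_powersetCard]
      refine ⟨⟨Finset.subset_union_left, hb1⟩, ?_⟩
      intro z hz
      simp only [Finset.mem_insert, Finset.mem_singleton] at hz
      rcases hz with rfl | rfl
      · exact hb3
      · exact hb4
  refine (Finset.card_le_card h1).trans (Finset.card_biUnion_le.trans ?_)
  rw [← smul_eq_mul, ← Finset.sum_const]
  refine Finset.sum_le_sum fun T hT => ?_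
  obtain ⟨hT1, hT2, hT3, hT4⟩ := mem_TT.1 hT
  rw [cnt k T _ hT1 (by
    intro z hz
    simp only [Finset.mem_insert, Finset.mem_singleton] at hz
    rcases hz with rfl | rfl
    · exact hT3
    · exact hT4), Finset.card_pair hxy', show k + 2 - 2 = k by omega]

end FR

open Classical in
theorem frac {X P : Type} [Fintype X] (π : X → P) (k : ℕ) (hk : 3 ≤ k)
    (hparts : k + 2 ≤ (Finset.univ.image π).card) (c : Finset X → ℝ) (c0 B : ℝ) (hc0 : 0 < c0)
    (hB : 0 ≤ B) (hc : ∀ b : Finset X, b.card = k → Set.InjOn π (b : Set X) → c0 ≤ c b)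
    (hc' : ∀ b : Finset X, ¬ (b.card = k ∧ Set.InjOn π (b : Set X)) → c b = 0)
    (hsum : ∀ x y, π x ≠ π y →
      ∑ b ∈ Finset.univ.filter (fun b : Finset X => x ∈ b ∧ y ∈ b), c b = 1)
    (hν : ∀ x y, π x ≠ π y → 1 ≤ B * c0 * ((Finset.univ.filter (fun b : Finset X =>
      (b.card = k ∧ Set.InjOn π (b : Set X)) ∧ x ∈ b ∧ y ∈ b)).card : ℝ))
    (ω : X → X → ℝ) (hω : ∀ x y, ω x y = ω y x)
    (hω1 : ∀ x y, |ω x y - 1| * ((Fintype.card X : ℝ) ^ 4 * (k : ℝ) ^ 2 * B) ≤ 1) :
    ∃ y : Finset X → ℝ, (∀ b, 0 ≤ y b) ∧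
      (∀ b : Finset X, ¬ (b.card = k ∧ Set.InjOn π (b : Set X)) → y b = 0) ∧
      ∀ u v, π u ≠ π v →
        ∑ b ∈ Finset.univ.filter (fun b : Finset X => u ∈ b ∧ v ∈ b), y b = ω u v := by
  have hk' : (3 : ℝ) ≤ k := by exact_mod_cast hk
  set n : ℝ := (Fintype.card X : ℝ) with hn
  -- the size of `TT`
  have hTT : ∀ x y, π x ≠ π y → 0 < ((FR.TT π k x y).card : ℝ) ∧
      ((FR.TT π k x y).card : ℝ)⁻¹ ≤ B * c0 * ((k : ℝ) ^ 2 / 2) := by
    intro x y hxy
    have h1 := hν x y hxy
    have h2 : ((Finset.univ.filter (fun b : Finset X =>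
      (b.card = k ∧ Set.InjOn π (b : Set X)) ∧ x ∈ b ∧ y ∈ b)).card : ℝ) ≤
      ((FR.TT π k x y).card : ℝ) * ((k : ℝ) * ((k : ℝ) - 1) / 2) := by
      rw [← Nat.cast_choose_two]
      exact_mod_cast FR.nu_le π k hk hparts x y hxy
    have h3 : 1 ≤ B * c0 * (((FR.TT π k x y).card : ℝ) * ((k : ℝ) * ((k : ℝ) - 1) / 2)) :=
      h1.trans (mul_le_mul_of_nonneg_left h2 (mul_nonneg hB hc0.le))
    have h4 : 0 < ((FR.TT π k x y).card : ℝ) := by
      rcases (Nat.cast_nonneg (α := ℝ) (FR.TT π k x y).card).eq_or_lt with h | h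
      · rw [← h] at h3
        norm_num at h3
      · exact h
    refine ⟨h4, ?_⟩
    rw [inv_eq_one_div, div_le_iff₀ h4]
    refine h3.trans ?_
    have h5 : (k : ℝ) * ((k : ℝ) - 1) / 2 ≤ (k : ℝ) ^ 2 / 2 := by nlinarith
    calc B * c0 * (((FR.TT π k x y).card : ℝ) * ((k : ℝ) * ((k : ℝ) - 1) / 2))
        ≤ B * c0 * (((FR.TT π k x y).card : ℝ) * ((k : ℝ) ^ 2 / 2)) := by
          apply mul_le_mul_of_nonneg_left _ (mul_nonneg hB hc0.le)
          exact mul_le_mul_of_nonneg_left h5 h4.le
      _ = _ := by ring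
  let corr : Finset X → ℝ := fun b => ∑ x, ∑ y,
    if π x ≠ π y then (ω x y - 1) * FR.zz π k x y b else 0
  refine ⟨fun b => c b + 1 / 2 * corr b, fun b => ?_, fun b hb => ?_, fun u v huv => ?_⟩
  · by_cases hb : b.card = k ∧ Set.InjOn π (b : Set X)
    · have hcb := hc b hb.1 hb.2
      rcases isEmpty_or_nonempty X with hX | hX
      · have : corr b = 0 := by simp [corr]
        simp only [this]
        linarith
      have hn1 : 0 < n := by
        rw [hn]
        exact_mod_cast Fintype.card_pos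
      have hterm : ∀ x y, n ^ 2 * |if π x ≠ π y then (ω x y - 1) * FR.zz π k x y b else 0| ≤
          c0 / 2 := by
        intro x y
        by_cases hxy : π x ≠ π y
        · rw [if_pos hxy, abs_mul]
          have h1 := FR.abs_zz_le π k hk x y b hb.1
          have h2 := (hTT x y hxy).2
          have h3 : |FR.zz π k x y b| ≤ B * c0 * ((k : ℝ) ^ 2 / 2) * n ^ 2 :=
            h1.trans (mul_le_mul_of_nonneg_right h2 (sq_nonneg _))
          calc n ^ 2 * (|ω x y - 1| * |FR.zz π k x y b|)
              ≤ n ^ 2 * (|ω x y - 1| * (B * c0 * ((k : ℝ) ^ 2 / 2) * n ^ 2)) := by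
                apply mul_le_mul_of_nonneg_left _ (sq_nonneg _)
                exact mul_le_mul_of_nonneg_left h3 (abs_nonneg _)
            _ = (|ω x y - 1| * (n ^ 4 * (k : ℝ) ^ 2 * B)) * (c0 / 2) := by ring
            _ ≤ 1 * (c0 / 2) := mul_le_mul_of_nonneg_right (hω1 x y) (by linarith)
            _ = c0 / 2 := one_mul _
        · rw [if_neg hxy, abs_zero, mul_zero]
          linarith
      have hcorr : n ^ 2 * |corr b| ≤ n ^ 2 * (c0 / 2) := by
        calc n ^ 2 * |corr b| ≤ n ^ 2 * ∑ x, ∑ y,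
              |if π x ≠ π y then (ω x y - 1) * FR.zz π k x y b else 0| := by
              apply mul_le_mul_of_nonneg_left _ (sq_nonneg _)
              refine (Finset.abs_sum_le_sum_abs _ _).trans (Finset.sum_le_sum fun x _ => ?_)
              exact Finset.abs_sum_le_sum_abs _ _
          _ = ∑ x, ∑ y, n ^ 2 *
              |if π x ≠ π y then (ω x y - 1) * FR.zz π k x y b else 0| := by
              rw [Finset.mul_sum]
              refine Finset.sum_congr rfl fun x _ => ?_
              rw [Finset.mul_sum]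
          _ ≤ ∑ _x : X, ∑ _y : X, c0 / 2 :=
              Finset.sum_le_sum fun x _ => Finset.sum_le_sum fun y _ => hterm x y
          _ = n ^ 2 * (c0 / 2) := by
              simp only [Finset.sum_const, Finset.card_univ, nsmul_eq_mul]
              rw [← hn]; ring
      have h6 : |corr b| ≤ c0 / 2 := le_of_mul_le_mul_left hcorr (by positivity)
      have h7 := (abs_le.1 h6).1
      change 0 ≤ c b + 1 / 2 * corr b
      linarith
    · have h1 : corr b = 0 := by
        refine Finset.sum_eq_zero fun x _ => Finset.sum_eq_zero fun y _ => ?_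
        rw [FR.zz_zero π k x y b hb, mul_zero]
        simp
      change 0 ≤ c b + 1 / 2 * corr b
      rw [h1, hc' b hb]
      simp
  · have h1 : corr b = 0 := by
      refine Finset.sum_eq_zero fun x _ => Finset.sum_eq_zero fun y _ => ?_
      rw [FR.zz_zero π k x y b hb, mul_zero]
      simp
    change c b + 1 / 2 * corr b = 0
    rw [h1, hc' b hb]
    simp
  · change ∑ b ∈ Finset.univ.filter (fun b : Finset X => u ∈ b ∧ v ∈ b),
      (c b + 1 / 2 * corr b) = ω u v
    rw [Finset.sum_add_distrib, hsum u v huv, ← Finset.mul_sum]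
    have h1 : ∑ b ∈ Finset.univ.filter (fun b : Finset X => u ∈ b ∧ v ∈ b), corr b =
        ∑ x, ∑ y, (ω x y - 1) * ((if x = u ∧ y = v then 1 else 0) +
          (if x = v ∧ y = u then 1 else 0)) := by
      simp only [corr]
      rw [Finset.sum_comm]
      refine Finset.sum_congr rfl fun x _ => ?_
      rw [Finset.sum_comm]
      refine Finset.sum_congr rfl fun y _ => ?_
      by_cases hxy : π x ≠ π y
      · simp only [if_pos hxy]
        rw [← Finset.mul_sum, FR.zz_sum π k hk x y hxy (by exact_mod_cast (hTT x y hxy).1) u v huv]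
      · simp only [if_neg hxy]
        have h2 : ¬ (x = u ∧ y = v) := by
          rintro ⟨rfl, rfl⟩; exact hxy huv
        have h3 : ¬ (x = v ∧ y = u) := by
          rintro ⟨rfl, rfl⟩; exact hxy huv.symm
        simp [h2, h3]
    have h2 : ∑ x, ∑ y, (ω x y - 1) * ((if x = u ∧ y = v then 1 else 0) +
          (if x = v ∧ y = u then 1 else 0)) = (ω u v - 1) + (ω v u - 1) := by
      simp only [mul_add, Finset.sum_add_distrib]
      congr 1
      · rw [Finset.sum_eq_single u, Finset.sum_eq_single v]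
        · simp
        · intro y _ hy; simp [hy]
        · intro h; exact absurd (Finset.mem_univ _) h
        · intro x _ hx
          exact Finset.sum_eq_zero fun y _ => by simp [hx]
        · intro h; exact absurd (Finset.mem_univ _) h
      · rw [Finset.sum_eq_single v, Finset.sum_eq_single u]
        · simp
        · intro y _ hy; simp [hy]
        · intro h; exact absurd (Finset.mem_univ _) h
        · intro x _ hx
          exact Finset.sum_eq_zero fun y _ => by simp [hx]
        · intro h; exact absurd (Finset.mem_univ _) h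
    rw [h1, h2, hω v u]
    ring

end H108
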