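import Pool.Agent.H108R2.Signed2
import Pool.Agent.H108R2.Frac

/-!
# Fold designs of every large index (Caratheodory rounding)
-/

namespace H108
namespace FS2
open Classical

/-- Conic Carathéodory -/
lemma conic {B E : Type} [Fintype B] [Fintype E] (v : B → E → ℝ) (Y : B → ℝ)
    (hY : ∀ b, 0 ≤ Y b) (S : Set B) (hS : ∀ b, b ∉ S → Y b = 0) (hpos : 0 < ∑ b, Y b) :
    ∃ (ι : Type) (_ : Fintype ι) (bb : ι → B) (A : ι → ℝ),
      Fintype.card ι ≤ Fintype.card E + 1 ∧ (∀ i, bb i ∈ S) ∧ (∀ i, 0 ≤ A i) ∧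
        ∀ e, ∑ b, Y b * v b e = ∑ i, A i * v (bb i) e := by
  set m := ∑ b, Y b with hm
  have hmem : (∑ b ∈ Finset.univ.filter (fun b => b ∈ S), (Y b / m) • v b) ∈
      convexHull ℝ (v '' S) := by
    apply (convex_convexHull ℝ (v '' S)).sum_mem
    · intro b _; exact div_nonneg (hY b) hpos.le
    · rw [← Finset.sum_div, div_eq_one_iff_eq hpos.ne', hm]
      apply Finset.sum_subset (Finset.subset_univ _)
      intro b _ hb
      apply hS
      simpa using hb
    · intro b hb
      apply subset_convexHull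
      exact ⟨b, by simpa using hb, rfl⟩
  obtain ⟨ι, hι, z, w, h1, h2, h3, h4, h5⟩ := eq_pos_convex_span_of_mem_convexHull hmem
  have hz : ∀ i, ∃ b ∈ S, v b = z i := by
    intro i
    have := h1 ⟨i, rfl⟩
    simpa using this
  choose bb hbb1 hbb2 using hz
  refine ⟨ι, hι, bb, fun i => m * w i, ?_, hbb1, fun i => mul_nonneg hpos.le (h3 i).le, ?_⟩
  · have := h2.card_le_finrank_succ
    refine this.trans ?_
    have h6 := Submodule.finrank_le (vectorSpan ℝ (Set.range z))
    rw [Module.finrank_fintype_fun_eq_card] at h6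
    omega
  · intro e
    have h7 := congrFun h5 e
    simp only [Finset.sum_apply, Pi.smul_apply, smul_eq_mul] at h7
    have h8 : ∑ b, Y b * v b e = ∑ b ∈ Finset.univ.filter (fun b => b ∈ S), Y b * v b e := by
      symm
      apply Finset.sum_subset (Finset.subset_univ _)
      intro b _ hb
      rw [hS b (by simpa using hb), zero_mul]
    have h9 : ∀ i, m * w i * v (bb i) e = m * (w i * z i e) := by
      intro i; rw [hbb2]; ring
    simp only [h9]
    rw [← Finset.mul_sum, h7, h8, Finset.mul_sum]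
    apply Finset.sum_congr rfl
    intro b _
    field_simp

set_option linter.unusedSectionVars false

variable {X P : Type} [Fintype X] {π : X → P} {k : ℕ}

/-- indicator of an edge inside `b` -/
noncomputable def vv (π : X → P) (b : Finset X) (x y : X) : ℤ :=
  if π x ≠ π y ∧ x ∈ b ∧ y ∈ b then 1 else 0

lemma vv_row {b : Finset X} (hk : 1 ≤ k) (hb : b.card = k) (hi : Set.InjOn π (b : Set X)) (x : X) :
    ∑ y, vv π b x y = if x ∈ b then (k : ℤ) - 1 else 0 := by
  unfold vv
  split_ifs with hx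
  · rw [Finset.sum_ite, Finset.sum_const_zero, add_zero, Finset.sum_const, nsmul_eq_mul, mul_one]
    have : Finset.univ.filter (fun y => π x ≠ π y ∧ x ∈ b ∧ y ∈ b) = b.erase x := by
      ext y
      simp only [Finset.mem_filter, Finset.mem_univ, true_and, Finset.mem_erase]
      constructor
      · rintro ⟨h1, _, h3⟩
        exact ⟨fun h => h1 (by rw [h]), h3⟩
      · rintro ⟨h1, h3⟩
        exact ⟨fun h => h1 (hi h3 hx h.symm), hx, h3⟩
    rw [this, Finset.card_erase_of_mem hx, hb]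
    push_cast [Nat.cast_sub hk]
    ring
  · apply Finset.sum_eq_zero
    intro y _
    rw [if_neg]
    rintro ⟨-, h, -⟩
    exact hx h

lemma vv_tot {b : Finset X} (hk : 1 ≤ k) (hb : b.card = k) (hi : Set.InjOn π (b : Set X)) :
    ∑ x, ∑ y, vv π b x y = (k : ℤ) * ((k : ℤ) - 1) := by
  simp only [vv_row hk hb hi]
  rw [Finset.sum_ite_mem, Finset.univ_inter, Finset.sum_const, nsmul_eq_mul, hb]

lemma vv_symm (b : Finset X) (x y : X) : vv π b x y = vv π b y x := by
  unfold vv
  congr 1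
  apply propext
  constructor
  · rintro ⟨h1, h2, h3⟩; exact ⟨h1.symm, h3, h2⟩
  · rintro ⟨h1, h2, h3⟩; exact ⟨h1.symm, h3, h2⟩

lemma vv_na (b : Finset X) {x y : X} (h : π x = π y) : vv π b x y = 0 := by
  unfold vv; simp [h]

end FS2

open Classical in
theorem fold_small {X P : Type} [Fintype X] (π : X → P) (k : ℕ) (hk : 3 ≤ k)
    (hparts : k + 2 ≤ (Finset.univ.image π).card)
    (hdeg : ∀ x, (k - 1) ∣ (Finset.univ.filter (fun y => π y ≠ π x)).card)
    (hE : k * (k - 1) ∣ ∑ x, (Finset.univ.filter (fun y => π y ≠ π x)).card)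
    (c : Finset X → ℝ) (c0 B : ℝ) (hc0 : 0 < c0) (hB : 0 ≤ B) (hB' : B ≤ Fintype.card X)
    (hc : ∀ b : Finset X, b.card = k → Set.InjOn π (b : Set X) → c0 ≤ c b)
    (hc' : ∀ b : Finset X, ¬ (b.card = k ∧ Set.InjOn π (b : Set X)) → c b = 0)
    (hsum : ∀ x y, π x ≠ π y →
      ∑ b ∈ Finset.univ.filter (fun b : Finset X => x ∈ b ∧ y ∈ b), c b = 1)
    (hν : ∀ x y, π x ≠ π y → 1 ≤ B * c0 * ((Finset.univ.filter (fun b : Finset X =>
      (b.card = k ∧ Set.InjOn π (b : Set X)) ∧ x ∈ b ∧ y ∈ b)).card : ℝ))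
    (L : ℕ) (hL : 2000 * (Fintype.card X) ^ 18 ≤ L) : Fold k L π := by
  obtain ⟨NN, hNN1, hNN2, hNN3⟩ := signed_gen π k hk hparts
  set n := Fintype.card X with hn
  have hkn : k + 2 ≤ n := hparts.trans (Finset.card_image_le.trans (by simp [hn]))
  have hn5 : 5 ≤ n := by omega
  set W : ℕ := 100 * n ^ 5 * (n ^ 2 + 1) with hW
  set w : X → X → ℕ := fun x y => W * (NN.filter (fun b => x ∈ b ∧ y ∈ b)).card with hw
  have hwle : ∀ x y, w x y ≤ 2000 * n ^ 11 := by
    intro x y
    have h1 : (NN.filter (fun b => x ∈ b ∧ y ∈ b)).card ≤ 10 * n ^ 4 :=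
      (Finset.card_filter_le _ _).trans hNN2
    have h2 : W ≤ 200 * n ^ 7 := by
      rw [hW]
      have : n ^ 2 + 1 ≤ 2 * n ^ 2 := by nlinarith
      calc 100 * n ^ 5 * (n ^ 2 + 1) ≤ 100 * n ^ 5 * (2 * n ^ 2) := Nat.mul_le_mul_left _ this
        _ = 200 * n ^ 7 := by ring
    calc w x y ≤ (200 * n ^ 7) * (10 * n ^ 4) := Nat.mul_le_mul h2 h1
      _ = 2000 * n ^ 11 := by ring
  have hn0 : 0 < n := by omega
  have hLpos : 0 < L := lt_of_lt_of_le (by positivity) hL
  have hLR : (0:ℝ) < L := by exact_mod_cast hLpos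
  have hnR : (1:ℝ) ≤ n := by exact_mod_cast hn0
  have hwL : ∀ x y, w x y < L := by
    intro x y
    refine lt_of_le_of_lt (hwle x y) (lt_of_lt_of_le ?_ hL)
    have : n ^ 11 < n ^ 18 := Nat.pow_lt_pow_right (by omega) (by norm_num)
    omega
  have hwsymm : ∀ x y, w x y = w y x := by
    intro x y
    simp only [hw]
    congr 3
    ext b
    exact and_comm
  obtain ⟨y, hy0, hy1, hy2⟩ := frac π k hk hparts c c0 B hc0 hB hc hc' hsum hν
    (fun x y => 1 - (w x y : ℝ) / L) (fun x y => by rw [hwsymm]) (by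
      intro x y
      have h1 : |(1 - (w x y : ℝ) / L) - 1| = (w x y : ℝ) / L := by
        rw [show (1 - (w x y : ℝ) / L) - 1 = - ((w x y : ℝ) / L) by ring, abs_neg, abs_of_nonneg]
        positivity
      rw [h1, div_mul_eq_mul_div, div_le_one hLR]
      have h2 : (w x y : ℝ) ≤ 2000 * (n:ℝ) ^ 11 := by exact_mod_cast hwle x y
      have h3 : ((2000 * n ^ 18 : ℕ) : ℝ) ≤ L := by exact_mod_cast hL
      have h4 : (k:ℝ) ≤ n := by exact_mod_cast (by omega : k ≤ n)
      refine le_trans ?_ h3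
      push_cast
      have h5 : ((n:ℝ) ^ 4 * (k : ℝ) ^ 2 * B) ≤ (n:ℝ) ^ 7 := by
        have h6 : (k:ℝ) ^ 2 ≤ (n:ℝ) ^ 2 := by gcongr
        calc ((n:ℝ) ^ 4 * (k : ℝ) ^ 2 * B) ≤ (n:ℝ) ^ 4 * (n:ℝ) ^ 2 * n := by gcongr
          _ = (n:ℝ) ^ 7 := by ring
      calc (w x y : ℝ) * ((n:ℝ) ^ 4 * (k : ℝ) ^ 2 * B) ≤ (2000 * (n:ℝ) ^ 11) * (n:ℝ) ^ 7 := by
            gcongr
        _ = 2000 * (n:ℝ) ^ 18 := by ring)
  -- an edge
  have hedge : ∃ x y, π x ≠ π y := by
    have h1 : 1 < (Finset.univ.image π).card := by omega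
    obtain ⟨p, hp, q, hq, hpq⟩ := Finset.one_lt_card.1 h1
    obtain ⟨x, -, rfl⟩ := Finset.mem_image.1 hp
    obtain ⟨y, -, rfl⟩ := Finset.mem_image.1 hq
    exact ⟨x, y, hpq⟩
  have hwlt : ∀ x y, (0:ℝ) < 1 - (w x y : ℝ) / L := by
    intro x y
    have : (w x y : ℝ) < L := by exact_mod_cast hwL x y
    rw [sub_pos, div_lt_one hLR]; exact this
  have hpos : 0 < ∑ b, (L:ℝ) * y b := by
    obtain ⟨x0, y0, hxy0⟩ := hedge
    rw [← Finset.mul_sum]
    apply mul_pos hLR
    refine lt_of_lt_of_le (hwlt x0 y0) ?_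
    rw [← hy2 x0 y0 hxy0]
    exact Finset.sum_le_sum_of_subset_of_nonneg (Finset.filter_subset _ _) (fun b _ _ => hy0 b)
  obtain ⟨ι, hι, bb, A, hA1, hA2, hA3, hA4⟩ := FS2.conic
    (fun (b : Finset X) (e : X × X) => (FS2.vv π b e.1 e.2 : ℝ)) (fun b => (L:ℝ) * y b)
    (fun b => mul_nonneg hLR.le (hy0 b)) {b : Finset X | b.card = k ∧ Set.InjOn π (b : Set X)}
    (fun b hb => by rw [hy1 b hb, mul_zero]) hpos
  have hA4' : ∀ u v, π u ≠ π v → ∑ i, A i * (FS2.vv π (bb i) u v : ℝ) = L - w u v := by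
    intro u v huv
    rw [← hA4 (u, v)]
    have h1 : ∀ b : Finset X, (L:ℝ) * y b * (FS2.vv π b u v : ℝ) =
        L * (if u ∈ b ∧ v ∈ b then y b else 0) := by
      intro b
      unfold FS2.vv
      by_cases h : u ∈ b ∧ v ∈ b
      · simp [h, huv]
      · simp [h, huv]
    simp only [h1]
    rw [← Finset.mul_sum, ← Finset.sum_filter, hy2 u v huv]
    field_simp
  let D : X → X → ℤ := fun u v => (if π u ≠ π v then (L:ℤ) - w u v else 0) -
    ∑ i, (⌊A i⌋₊ : ℤ) * FS2.vv π (bb i) u v
  have hDna : ∀ u v, π u = π v → D u v = 0 := by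
    intro u v huv
    simp only [D, huv, ne_eq, not_true_eq_false, if_false]
    simp [FS2.vv_na (π := π) _ huv]
  have hDR : ∀ u v, π u ≠ π v → (D u v : ℝ) = ∑ i, (A i - ⌊A i⌋₊) * (FS2.vv π (bb i) u v : ℝ) := by
    intro u v huv
    simp only [D, huv, ne_eq, not_false_eq_true, if_true]
    push_cast
    simp only [sub_mul]
    rw [Finset.sum_sub_distrib, hA4' u v huv]
  have hvv01 : ∀ (b : Finset X) u v, (0:ℝ) ≤ (FS2.vv π b u v : ℝ) ∧ (FS2.vv π b u v : ℝ) ≤ 1 := by
    intro b u v
    unfold FS2.vv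
    split_ifs <;> simp
  have hDrange : ∀ u v, 0 ≤ D u v ∧ D u v ≤ ((n ^ 2 + 1 : ℕ) : ℤ) := by
    intro u v
    by_cases huv : π u = π v
    · rw [hDna u v huv]; exact ⟨le_refl _, by positivity⟩
    · have h1 := hDR u v huv
      have hfl : ∀ i, 0 ≤ A i - ⌊A i⌋₊ ∧ A i - ⌊A i⌋₊ ≤ 1 := by
        intro i
        have h2 := Nat.floor_le (hA3 i)
        have h3 := Nat.lt_floor_add_one (A i)
        exact ⟨by linarith, by linarith⟩
      constructor
      · have : (0:ℝ) ≤ D u v := by
          rw [h1]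
          exact Finset.sum_nonneg fun i _ => mul_nonneg (hfl i).1 (hvv01 _ _ _).1
        exact_mod_cast this
      · have h2 : (D u v : ℝ) ≤ Fintype.card ι := by
          rw [h1]
          refine (Finset.sum_le_sum (g := fun _ => (1:ℝ)) fun i _ => ?_).trans ?_
          · have := hfl i
            have := hvv01 (bb i) u v
            nlinarith
          · simp
        have h3 : (Fintype.card ι : ℝ) ≤ ((n ^ 2 + 1 : ℕ) : ℝ) := by
          refine Nat.cast_le.2 (hA1.trans ?_)
          rw [Fintype.card_prod]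
          apply le_of_eq
          ring
        have h4 : (D u v : ℝ) ≤ (((n ^ 2 + 1 : ℕ) : ℤ) : ℝ) := by
          push_cast at h3 ⊢; linarith
        exact_mod_cast h4
  have hDsymm : ∀ u v, D u v = D v u := by
    intro u v
    simp only [D]
    rw [hwsymm u v]
    congr 1
    · simp only [ne_comm]
    · exact Finset.sum_congr rfl fun i _ => by rw [FS2.vv_symm]
  have hwvv : ∀ u v, (if π u ≠ π v then (L:ℤ) - w u v else 0) =
      (if π v ≠ π u then (L:ℤ) else 0) - W * ∑ b ∈ NN, FS2.vv π b u v := by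
    intro u v
    by_cases huv : π u = π v
    · simp [huv, FS2.vv_na (π := π) _ huv]
    · have huv' : π v ≠ π u := fun h => huv h.symm
      simp only [huv, huv', ne_eq, not_false_eq_true, if_true, hw]
      congr 1
      rw [Finset.card_filter]
      push_cast
      congr 1
      apply Finset.sum_congr rfl
      intro b _
      unfold FS2.vv
      simp [huv]
  have hk1 : ((k - 1 : ℕ) : ℤ) = (k:ℤ) - 1 := by push_cast [Nat.cast_sub (by omega : 1 ≤ k)]; ring
  have hrow : ∀ x, ((k : ℤ) - 1) ∣ ∑ y, D x y := by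
    intro x
    simp only [D, hwvv]
    rw [Finset.sum_sub_distrib, Finset.sum_sub_distrib]
    apply dvd_sub
    · apply dvd_sub
      · rw [Finset.sum_ite, Finset.sum_const_zero, add_zero, Finset.sum_const, nsmul_eq_mul]
        apply Dvd.dvd.mul_right
        have := hdeg x
        rw [← hk1]
        exact_mod_cast this
      · rw [← Finset.mul_sum, Finset.sum_comm]
        apply Dvd.dvd.mul_left
        apply Finset.dvd_sum
        intro b hb
        rw [FS2.vv_row (k := k) (by omega) (hNN1 b hb).1 (hNN1 b hb).2]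
        split_ifs <;> simp
    · rw [Finset.sum_comm]
      apply Finset.dvd_sum
      intro i _
      rw [← Finset.mul_sum, FS2.vv_row (k := k) (by omega) (hA2 i).1 (hA2 i).2]
      apply Dvd.dvd.mul_left
      split_ifs <;> simp
  have htot : ((k : ℤ) * ((k : ℤ) - 1) ∣ ∑ x, ∑ y, D x y) := by
    simp only [D, hwvv]
    simp only [Finset.sum_sub_distrib]
    apply dvd_sub
    · apply dvd_sub
      · have h1 : ∀ x, ∑ y, (if π y ≠ π x then (L:ℤ) else 0) =
            ((Finset.univ.filter (fun y => π y ≠ π x)).card : ℤ) * L := by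
          intro x
          rw [Finset.sum_ite, Finset.sum_const_zero, add_zero, Finset.sum_const, nsmul_eq_mul]
        simp only [h1]
        rw [← Finset.sum_mul]
        apply Dvd.dvd.mul_right
        rw [← hk1]
        exact_mod_cast hE
      · simp only [← Finset.mul_sum]
        apply Dvd.dvd.mul_left
        have h1 : ∑ x, ∑ y, ∑ b ∈ NN, FS2.vv π b x y = ∑ b ∈ NN, ∑ x, ∑ y, FS2.vv π b x y := by
          rw [Finset.sum_comm]
          rw [Finset.sum_comm]
          rw [Finset.sum_congr rfl (fun x _ => Finset.sum_comm)]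
          rw [Finset.sum_comm]
        rw [h1]
        apply Finset.dvd_sum
        intro b hb
        rw [FS2.vv_tot (k := k) (by omega) (hNN1 b hb).1 (hNN1 b hb).2]
    · have h1 : ∑ x, ∑ y, ∑ i, (⌊A i⌋₊ : ℤ) * FS2.vv π (bb i) x y =
          ∑ i, (⌊A i⌋₊ : ℤ) * ∑ x, ∑ y, FS2.vv π (bb i) x y := by
        rw [Finset.sum_congr rfl (fun x _ => Finset.sum_comm)]
        rw [Finset.sum_comm]
        simp only [Finset.mul_sum]
      rw [h1]
      apply Finset.dvd_sum
      intro i _
      rw [FS2.vv_tot (k := k) (by omega) (hA2 i).1 (hA2 i).2]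
      exact Dvd.intro_left _ rfl
  obtain ⟨f, hf1, hf2, hf3⟩ := hNN3 D ((n ^ 2 + 1 : ℕ) : ℤ) hDrange hDsymm hDna hrow htot
  have hfW : ∀ b, |f b| ≤ (W : ℤ) := by
    intro b
    have e1 : |f b| ≤ ∑ b, |f b| :=
      Finset.single_le_sum (f := fun b => |f b|) (fun b _ => abs_nonneg (f b)) (Finset.mem_univ b)
    refine (e1.trans hf2).trans ?_
    rw [hW]; push_cast; exact le_refl _
  let M : Finset X → ℕ := fun b => ∑ i, (if bb i = b then ⌊A i⌋₊ else 0)
  let mult : Finset X → ℕ := fun b => M b + (((if b ∈ NN then (W:ℤ) else 0) + f b).toNat)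
  have hmult : ∀ b, (mult b : ℤ) = M b + (if b ∈ NN then (W:ℤ) else 0) + f b := by
    intro b
    simp only [mult]
    push_cast
    rw [Int.toNat_of_nonneg]
    · ring
    · split_ifs with hb
      · have := (abs_le.1 (hfW b)).1
        linarith
      · rw [hf1 b hb]; simp
  refine ⟨Σ b : Finset X, Fin (mult b), inferInstance, fun j => j.1, ?_, ?_⟩
  · rintro ⟨b, i⟩
    by_contra hb
    have h0 : mult b = 0 := by
      have h1 : M b = 0 := by
        simp only [M]
        apply Finset.sum_eq_zero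
        intro i' _
        rw [if_neg]
        intro h
        exact hb (h ▸ hA2 i')
      have h2 : b ∉ NN := fun h => hb (hNN1 b h)
      simp [mult, h1, h2, hf1 b h2]
    exact absurd i.2 (by omega)
  · intro x y hxy
    have e1 : Nat.card {j : Σ b : Finset X, Fin (mult b) // x ∈ j.1 ∧ y ∈ j.1} =
        ∑ b ∈ (Finset.univ : Finset (Finset X)).filter (fun b => x ∈ b ∧ y ∈ b), mult b := by
      rw [Nat.card_congr (Equiv.subtypeSigmaEquiv (fun b : Finset X => Fin (mult b))
        (fun b : Finset X => x ∈ b ∧ y ∈ b)), Nat.card_eq_fintype_card, Fintype.card_sigma]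
      simp only [Fintype.card_fin]
      rw [Finset.sum_subtype (p := fun b : Finset X => x ∈ b ∧ y ∈ b) _ (by simp)]
    rw [e1]
    have e2 : ((∑ b ∈ (Finset.univ : Finset (Finset X)).filter (fun b => x ∈ b ∧ y ∈ b),
        mult b : ℕ) : ℤ) = (L : ℤ) := by
      push_cast
      simp only [hmult]
      rw [Finset.sum_add_distrib, Finset.sum_add_distrib, hf3 x y hxy]
      have g1 : ∑ b ∈ (Finset.univ : Finset (Finset X)).filter (fun b => x ∈ b ∧ y ∈ b), (M b : ℤ) =
          ∑ i, (⌊A i⌋₊ : ℤ) * FS2.vv π (bb i) x y := by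
        simp only [M]
        push_cast
        rw [Finset.sum_comm]
        apply Finset.sum_congr rfl
        intro i _
        rw [Finset.sum_ite_eq]
        unfold FS2.vv
        by_cases h : x ∈ bb i ∧ y ∈ bb i
        · simp [h, hxy]
        · simp [h, hxy]
      have g2 : ∑ b ∈ (Finset.univ : Finset (Finset X)).filter (fun b => x ∈ b ∧ y ∈ b),
          (if b ∈ NN then (W:ℤ) else 0) = w x y := by
        rw [Finset.sum_ite_mem, Finset.sum_const, nsmul_eq_mul, hw]
        push_cast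
        rw [mul_comm]
        congr 3
        ext b
        simp [and_comm]
      rw [g1, g2]
      simp only [D, hxy, ne_eq, not_false_eq_true, if_true]
      ring
    exact_mod_cast e2

end H108
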