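import Pool.Agent.H108R2.Union

namespace H108

theorem GD_of_fibers {Y Y' O O' : Type} {K : Set ℕ} [Finite Y] [Finite Y'] {ρ : Y → O}
    {ρ' : Y' → O'} (f : O ≃ O')
    (h : ∀ o, Nat.card {y // ρ y = o} = Nat.card {y // ρ' y = f o}) (hG : GD K ρ) : GD K ρ' := by
  classical
  have e1 : ∀ o, ({y // ρ y = o} ≃ {y // ρ' y = f o}) := fun o =>
    (Finite.card_eq.1 (h o)).some
  let e : Y ≃ Y' := (Equiv.sigmaFiberEquiv ρ).symm.trans
    ((Equiv.sigmaCongr f e1).trans (Equiv.sigmaFiberEquiv ρ'))
  have he : ∀ y, ρ' (e y) = f (ρ y) := by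
    intro y
    exact (e1 (ρ y) ⟨y, rfl⟩).2
  refine GD_congr e ?_ hG
  intro x y
  rw [he, he]
  exact f.injective.eq_iff.symm

theorem card_igMap_some (g a w : ℕ) (i : Fin a) :
    Nat.card {y // igMap g a w y = some i} = g := by
  have e : {y // igMap g a w y = some i} ≃ Fin g :=
    { toFun := fun y => match y with
        | ⟨Sum.inl p, _⟩ => p.2
        | ⟨Sum.inr q, h⟩ => absurd h (by simp [igMap])
      invFun := fun j => ⟨Sum.inl (i, j), by simp [igMap]⟩
      left_inv := by
        rintro ⟨(⟨x, y⟩ | q), h⟩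
        · have : x = i := by simpa [igMap] using h
          subst this; rfl
        · exact absurd h (by simp [igMap])
      right_inv := fun j => rfl }
  rw [Nat.card_congr e, Nat.card_fin]

theorem card_igMap_none (g a w : ℕ) :
    Nat.card {y // igMap g a w y = none} = w := by
  have e : {y // igMap g a w y = none} ≃ Fin w :=
    { toFun := fun y => match y with
        | ⟨Sum.inr q, _⟩ => q
        | ⟨Sum.inl p, h⟩ => absurd h (by simp [igMap])
      invFun := fun j => ⟨Sum.inr j, by simp [igMap]⟩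
      left_inv := by
        rintro ⟨(p | q), h⟩
        · exact absurd h (by simp [igMap])
        · rfl
      right_inv := fun j => rfl }
  rw [Nat.card_congr e, Nat.card_fin]

theorem ig_of_fibers {Y B : Type} {K : Set ℕ} [Finite Y] [Finite B] {ρ : Y → Option B}
    {g a w : ℕ} (hg : ∀ b, Nat.card {y // ρ y = some b} = g) (ha : Nat.card B = a)
    (hw : Nat.card {y // ρ y = none} = w) : GD K ρ ↔ IG K g a w := by
  have eB : B ≃ Fin a := (Finite.card_eq.1 (by rw [ha, Nat.card_fin])).some
  constructor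
  · refine GD_of_fibers (Equiv.optionCongr eB) ?_
    rintro (_ | b)
    · rw [hw]; exact (card_igMap_none g a w).symm
    · rw [hg]; exact (card_igMap_some g a w _).symm
  · refine GD_of_fibers (Equiv.optionCongr eB.symm) ?_
    rintro (_ | b)
    · rw [card_igMap_none]; exact hw.symm
    · rw [card_igMap_some]; exact (hg _).symm

/-- version of `ig_of_fibers` without hole -/
theorem ig_of_fibers0 {Y B : Type} {K : Set ℕ} [Finite Y] [Finite B] {ρ : Y → B}
    {g a : ℕ} (hg : ∀ b, Nat.card {y // ρ y = b} = g) (ha : Nat.card B = a) :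
    GD K ρ ↔ IG K g a 0 := by
  rw [← ig_of_fibers (K := K) (ρ := fun y => some (ρ y)) (g := g) (a := a) (w := 0) ?_ ha ?_]
  · constructor
    · exact GD_congr (Equiv.refl _) (by simp)
    · exact GD_congr (Equiv.refl _) (by simp)
  · intro b; simpa using hg b
  · simp

theorem GD_refine {Y P Q : Type} {K : Set ℕ} {π : Y → P} {ρ : Y → Q} (h : GD K π)
    (hρ : ∀ x y, ρ x = ρ y → π x = π y) (hp : ∀ p, GD K (fun y : {y // π y = p} => ρ y)) :
    GD K ρ := by
  have h1 : GD K (fun y : Y ⊕ Empty => Sum.elim ρ (fun e => nomatch e) y) := by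
    refine GD_fill (π := π) h (by rintro ⟨⟩) (by simpa using hρ) ?_
    intro p
    let e : {y : Y // π y = p} ≃ {y : Y ⊕ Empty // ∀ x, y = Sum.inl x → π x = p} :=
      { toFun := fun y => ⟨Sum.inl y.1, by rintro x hx; rw [← Sum.inl_injective hx]; exact y.2⟩
        invFun := fun y => match y with
          | ⟨Sum.inl y, h⟩ => ⟨y, h y rfl⟩
        left_inv := fun y => rfl
        right_inv := by rintro ⟨(y | y), h⟩ <;> first | rfl | exact nomatch y }
    exact GD_congr e (fun x y => Iff.rfl) (hp p)
  refine GD_congr (Equiv.sumEmpty _ _) ?_ h1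
  rintro (x | x) (y | y)
  · exact Iff.rfl
  · exact nomatch y
  · exact nomatch x
  · exact nomatch x

end H108
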