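import Pool.Agent.H108R2.IGbase
import Pool.Agent.H108R2.NiceTD

namespace H108

/-- typed version of `igMap` -/
def igm (A G W : Type) : (A × G) ⊕ W → Option A := Sum.elim (fun p => some p.1) (fun _ => none)

@[simp] theorem igm_inl (A G W : Type) (p : A × G) : igm A G W (Sum.inl p) = some p.1 := rfl
@[simp] theorem igm_inr (A G W : Type) (p : W) : igm A G W (Sum.inr p) = none := rfl

theorem igm_iff {K : Set ℕ} {A G W : Type} [Finite A] [Finite G] [Finite W] {g a w : ℕ}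
    (hg : Nat.card G = g) (ha : Nat.card A = a) (hw : Nat.card W = w) :
    GD K (igm A G W) ↔ IG K g a w := by
  subst hg; subst ha; subst hw
  have eA : A ≃ Fin (Nat.card A) := (Finite.card_eq.1 (by rw [Nat.card_fin])).some
  have eG : G ≃ Fin (Nat.card G) := (Finite.card_eq.1 (by rw [Nat.card_fin])).some
  have eW : W ≃ Fin (Nat.card W) := (Finite.card_eq.1 (by rw [Nat.card_fin])).some
  constructor
  · refine GD_congr (Equiv.sumCongr (Equiv.prodCongr eA eG) eW) ?_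
    rintro (⟨x, i⟩ | x) (⟨y, j⟩ | y) <;> simp [igMap]
  · refine GD_congr (Equiv.sumCongr (Equiv.prodCongr eA.symm eG.symm) eW.symm) ?_
    rintro (⟨x, i⟩ | x) (⟨y, j⟩ | y) <;> simp [igMap]

/-- transport along a bijective function given as an injective surjective map -/
theorem GD_bij {X X' P P' : Type} {K : Set ℕ} {π : X → P} {π' : X' → P'} (f : X → X')
    (hf : Function.Bijective f)
    (h : ∀ x y, π x = π y ↔ π' (f x) = π' (f y)) (hG : GD K π) : GD K π' :=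
  GD_congr (Equiv.ofBijective f hf) h hG

theorem GD_bij' {X X' P P' : Type} {K : Set ℕ} {π : X → P} {π' : X' → P'} (f : X → X')
    (hf : Function.Bijective f)
    (h : ∀ x y, π x = π y ↔ π' (f x) = π' (f y)) (hG : GD K π') : GD K π := by
  refine GD_congr (Equiv.ofBijective f hf).symm ?_ hG
  intro x y
  rw [h]
  have h1 : ∀ z, f ((Equiv.ofBijective f hf).symm z) = z := fun z =>
    (Equiv.ofBijective f hf).apply_symm_apply z
  rw [h1, h1]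

theorem ig_empty (K : Set ℕ) (g w : ℕ) : IG K g 0 w := by
  apply GD_trivial
  rintro (⟨x, _⟩ | x) (⟨y, _⟩ | y)
  · exact x.elim0
  · exact x.elim0
  · exact y.elim0
  · rfl

theorem ig_one (K : Set ℕ) (g : ℕ) : IG K g 1 0 := by
  apply GD_trivial
  rintro (⟨x, _⟩ | x) (⟨y, _⟩ | y)
  · simp only [igMap, Sum.elim_inl]
    rw [Subsingleton.elim x y]
  · exact y.elim0
  · exact x.elim0
  · exact x.elim0

/-- a Steiner system on a set of `v` points -/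
theorem ig_id_iff (k v : ℕ) {X : Type} [Finite X] (hX : Nat.card X = v) :
    GD {k} (id : X → X) ↔ IG {k} 1 v 0 :=
  ig_of_fibers0 (by intro b; simp) hX

theorem ig_block (k : ℕ) : IG {k} 1 k 0 := by
  rw [← ig_id_iff k k (X := Fin k) (by simp)]
  refine ⟨{Finset.univ}, ?_, ?_⟩
  · rintro b rfl
    exact ⟨by simp, Function.injective_id.injOn⟩
  · intro x y _
    exact ⟨Finset.univ, by simp, by rintro b ⟨rfl, -, -⟩; rfl⟩

theorem ig_hole_iff (K : Set ℕ) (g a : ℕ) : IG K g a g ↔ IG K g (a + 1) 0 := by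
  rw [← ig_of_fibers0 (K := K) (ρ := igMap g a g) (g := g) (a := a + 1) ?_ (by simp)]
  · rfl
  · rintro (_ | b)
    · exact card_igMap_none g a g
    · exact card_igMap_some g a g b

theorem ig_comp {K : Set ℕ} {g a b w : ℕ} (h1 : IG K g a (g * b + w)) (h2 : IG K g b w) :
    IG K g (a + b) w := by
  have h1' : GD K (igm (Fin a) (Fin g) ((Fin b × Fin g) ⊕ Fin w)) :=
    (igm_iff (by simp) (by simp) (by simp [mul_comm])).2 h1
  have h2' : GD K (igm (Fin b) (Fin g) (Fin w)) := h2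
  suffices H : GD K (igm (Fin a ⊕ Fin b) (Fin g) (Fin w)) from
    (igm_iff (by simp) (by simp) (by simp)).1 H
  let π : ((Fin a ⊕ Fin b) × Fin g) ⊕ Fin w → Option (Fin a) :=
    Sum.elim (fun p => Sum.elim some (fun _ => none) p.1) (fun _ => none)
  refine GD_refine (π := π) ?_ ?_ ?_
  · refine GD_bij (Sum.elim (fun p => Sum.inl (Sum.inl p.1, p.2))
      (Sum.elim (fun p => Sum.inl (Sum.inr p.1, p.2)) Sum.inr)) ⟨?_, ?_⟩ ?_ h1'
    · rintro (⟨x, i⟩ | ⟨x, i⟩ | x) (⟨y, j⟩ | ⟨y, j⟩ | y) h <;> simp_all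
    · rintro (⟨x | x, i⟩ | x) <;> simp
    · rintro (⟨x, i⟩ | ⟨x, i⟩ | x) (⟨y, j⟩ | ⟨y, j⟩ | y) <;> simp [π]
  · rintro (⟨x | x, i⟩ | x) (⟨y | y, j⟩ | y) h <;> simp_all [π]
  · rintro (_ | i)
    · refine GD_bij (fun z => ⟨Sum.elim (fun p => Sum.inl (Sum.inr p.1, p.2)) Sum.inr z, ?_⟩)
        ⟨?_, ?_⟩ ?_ h2'
      · rcases z with (⟨z, i⟩ | z) <;> simp [π]
      · rintro (⟨x, i⟩ | x) (⟨y, j⟩ | y) h <;> simp_all
      · rintro ⟨(⟨x | x, i⟩ | x), hx⟩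
        · simp [π] at hx
        · exact ⟨Sum.inl (x, i), rfl⟩
        · exact ⟨Sum.inr x, rfl⟩
      · rintro (⟨x, i⟩ | x) (⟨y, j⟩ | y) <;> simp
    · apply GD_trivial
      rintro ⟨(⟨x | x, i⟩ | x), hx⟩ ⟨(⟨y | y, j⟩ | y), hy⟩ <;> simp [π] at hx hy <;> simp_all

theorem ig_td {N m : ℕ} (hN : Nice N m) : IG {N} m N 0 := by
  have h := ttd hN (fun _ => m) (fun _ => le_rfl)
  have h2 : (Finset.univ.filter (fun i : Fin N => (fun _ => m) i = m)).card = N := by simp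
  rw [h2, Set.Icc_self] at h
  rw [← ig_of_fibers0 (K := {N}) (ρ := (Sigma.fst : (Σ _ : Fin N, Fin m) → Fin N)) (g := m)
    (a := N) ?_ (by simp)]
  · exact h
  · intro b
    have e : {y : (Σ _ : Fin N, Fin m) // y.1 = b} ≃ Fin m :=
      { toFun := fun y => y.1.2
        invFun := fun j => ⟨⟨b, j⟩, rfl⟩
        left_inv := by rintro ⟨⟨x, j⟩, hx⟩; subst hx; rfl
        right_inv := fun j => rfl }
    rw [Nat.card_congr e, Nat.card_fin]

theorem ig_inflate {k g a w c : ℕ} (hN : Nice k c) (h : IG {k} g a w) :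
    IG {k} (g * c) a (w * c) := by
  have h1 : GD {k} (fun p : ((Fin a × Fin g) ⊕ Fin w) × Fin c => igMap g a w p.1) :=
    GD_wfc c h (by rintro u rfl; exact ig_td hN)
  suffices H : GD {k} (igm (Fin a) (Fin g × Fin c) (Fin w × Fin c)) from
    (igm_iff (by simp) (by simp) (by simp)).1 H
  refine GD_bij' (Sum.elim (fun p => (Sum.inl (p.1, p.2.1), p.2.2))
    (fun p => (Sum.inr p.1, p.2))) ⟨?_, ?_⟩ ?_ h1
  · rintro (⟨x, i, i'⟩ | ⟨x, i⟩) (⟨y, j, j'⟩ | ⟨y, j⟩) h <;> simp_all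
  · rintro ⟨(⟨x, i⟩ | x), j⟩
    · exact ⟨Sum.inl (x, i, j), rfl⟩
    · exact ⟨Sum.inr (x, j), rfl⟩
  · rintro (⟨x, i, i'⟩ | ⟨x, i⟩) (⟨y, j, j'⟩ | ⟨y, j⟩) <;> simp [igMap]

/-- the general recursive construction -/
theorem ig_master {k g c w : ℕ} {K0 : Set ℕ} {X0 I : Type} [Finite X0] (π0 : X0 → I)
    (hG : GD K0 π0) (hb : ∀ u ∈ K0, IG {k} (g * c) u 0)
    (hf : ∀ i, IG {k} g (c * Nat.card {x // π0 x = i}) w) :
    IG {k} g (c * Nat.card X0) w := by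
  have h1 : GD {k} (fun p : X0 × Fin (g * c) => π0 p.1) := GD_wfc (g * c) hG hb
  have eF : Fin (g * c) ≃ Fin c × Fin g :=
    (Finite.card_eq.1 (by simp [mul_comm])).some
  have h2 : GD {k} (fun p : X0 × (Fin c × Fin g) => π0 p.1) :=
    GD_congr (Equiv.prodCongr (Equiv.refl X0) eF) (by simp) h1
  suffices H : GD {k} (igm (X0 × Fin c) (Fin g) (Fin w)) from
    (igm_iff (by simp) (by simp [mul_comm]) (by simp)).1 H
  have H : GD {k} (Sum.elim (fun p => some (p.1, p.2.1)) (fun _ => none) :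
      (X0 × (Fin c × Fin g)) ⊕ Fin w → Option (X0 × Fin c)) := by
    refine GD_fill h2 (by simp) ?_ ?_
    · rintro ⟨x, i, i'⟩ ⟨y, j, j'⟩ h
      simp_all
    · intro p
      have h3 : GD {k} (igm ({x // π0 x = p} × Fin c) (Fin g) (Fin w)) :=
        (igm_iff (by simp) (by simp [mul_comm]) (by simp)).2 (hf p)
      refine GD_bij (fun z => ⟨Sum.elim (fun q => Sum.inl (q.1.1.1, q.1.2, q.2)) Sum.inr z, ?_⟩)
        ⟨?_, ?_⟩ ?_ h3
      · rcases z with (⟨⟨⟨z, hz⟩, i⟩, j⟩ | z)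
        · rintro x hx
          rw [← Sum.inl_injective hx]; exact hz
        · rintro x hx; exact absurd hx (by simp)
      · rintro (⟨⟨⟨x, hx⟩, i⟩, i'⟩ | x) (⟨⟨⟨y, hy⟩, j⟩, j'⟩ | y) h <;> simp_all
      · rintro ⟨(⟨x, i, i'⟩ | x), hx⟩
        · exact ⟨Sum.inl ((⟨x, hx _ rfl⟩, i), i'), rfl⟩
        · exact ⟨Sum.inr x, rfl⟩
      · rintro (⟨⟨⟨x, hx⟩, i⟩, i'⟩ | x) (⟨⟨⟨y, hy⟩, j⟩, j'⟩ | y) <;> simp
  refine GD_bij' (Sum.elim (fun p => Sum.inl (p.1.1, p.1.2, p.2)) Sum.inr) ⟨?_, ?_⟩ ?_ H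
  · rintro (⟨⟨x, i⟩, i'⟩ | x) (⟨⟨y, j⟩, j'⟩ | y) h <;> simp_all
  · rintro (⟨x, i, i'⟩ | x)
    · exact ⟨Sum.inl ((x, i), i'), rfl⟩
    · exact ⟨Sum.inr x, rfl⟩
  · rintro (⟨⟨x, i⟩, i'⟩ | x) (⟨⟨y, j⟩, j'⟩ | y) <;> simp

/-- the general recursive construction, one part becoming part of the hole -/
theorem ig_masterHole {k g c w : ℕ} {K0 : Set ℕ} {X0 I : Type} [Finite X0] (π0 : X0 → I) (i0 : I)
    (hG : GD K0 π0) (hb : ∀ u ∈ K0, IG {k} (g * c) u 0)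
    (hf : ∀ i, i ≠ i0 → IG {k} g (c * Nat.card {x // π0 x = i}) w) :
    IG {k} g (c * Nat.card {x // π0 x ≠ i0}) (g * c * Nat.card {x // π0 x = i0} + w) := by
  classical
  have h1 : GD {k} (fun p : X0 × Fin (g * c) => π0 p.1) := GD_wfc (g * c) hG hb
  have eF : Fin (g * c) ≃ Fin c × Fin g :=
    (Finite.card_eq.1 (by simp [mul_comm])).some
  have h2 : GD {k} (fun p : X0 × (Fin c × Fin g) => π0 p.1) :=
    GD_congr (Equiv.prodCongr (Equiv.refl X0) eF) (by simp) h1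
  suffices H : GD {k} (igm ({x // π0 x ≠ i0} × Fin c) (Fin g)
      (({x // π0 x = i0} × (Fin c × Fin g)) ⊕ Fin w)) from
    (igm_iff (by simp) (by simp [mul_comm]) (by simp; ring)).1 H
  let ρ : (X0 × (Fin c × Fin g)) ⊕ Fin w → Option ({x // π0 x ≠ i0} × Fin c) :=
    Sum.elim (fun p => if h : π0 p.1 ≠ i0 then some (⟨p.1, h⟩, p.2.1) else none) (fun _ => none)
  have hρ1 : ∀ x i i', (h : π0 x ≠ i0) → ρ (Sum.inl (x, i, i')) = some (⟨x, h⟩, i) := by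
    intro x i i' h; simp [ρ, h]
  have hρ2 : ∀ x i i', (h : π0 x = i0) → ρ (Sum.inl (x, i, i')) = none := by
    intro x i i' h; simp [ρ, h]
  have hρ3 : ∀ x, ρ (Sum.inr x) = none := fun x => rfl
  have H : GD {k} ρ := by
    refine GD_fill h2 (by simp [hρ3]) ?_ ?_
    · rintro ⟨x, i, i'⟩ ⟨y, j, j'⟩ h
      by_cases hx : π0 x = i0 <;> by_cases hy : π0 y = i0
      · simp [hx, hy]
      · rw [hρ2 _ _ _ hx, hρ1 _ _ _ hy] at h; exact absurd h (by simp)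
      · rw [hρ1 _ _ _ hx, hρ2 _ _ _ hy] at h; exact absurd h (by simp)
      · rw [hρ1 _ _ _ hx, hρ1 _ _ _ hy] at h
        simp at h
        simp [h.1]
    · intro p
      by_cases hp : p = i0
      · subst hp
        apply GD_trivial
        rintro ⟨(⟨x, i, i'⟩ | x), hx⟩ ⟨(⟨y, j, j'⟩ | y), hy⟩
        · simp only []
          rw [hρ2 _ _ _ (hx _ rfl), hρ2 _ _ _ (hy _ rfl)]
        · simp only []
          rw [hρ2 _ _ _ (hx _ rfl), hρ3]
        · simp only []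
          rw [hρ2 _ _ _ (hy _ rfl), hρ3]
        · rfl
      · have h3 : GD {k} (igm ({x // π0 x = p} × Fin c) (Fin g) (Fin w)) :=
          (igm_iff (by simp) (by simp [mul_comm]) (by simp)).2 (hf p hp)
        refine GD_bij (fun z => ⟨Sum.elim (fun q => Sum.inl (q.1.1.1, q.1.2, q.2)) Sum.inr z, ?_⟩)
          ⟨?_, ?_⟩ ?_ h3
        · rcases z with (⟨⟨⟨z, hz⟩, i⟩, j⟩ | z)
          · rintro x hx
            rw [← Sum.inl_injective hx]; exact hz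
          · rintro x hx; exact absurd hx (by simp)
        · rintro (⟨⟨⟨x, hx⟩, i⟩, i'⟩ | x) (⟨⟨⟨y, hy⟩, j⟩, j'⟩ | y) h <;> simp_all
        · rintro ⟨(⟨x, i, i'⟩ | x), hx⟩
          · exact ⟨Sum.inl ((⟨x, hx _ rfl⟩, i), i'), rfl⟩
          · exact ⟨Sum.inr x, rfl⟩
        · rintro (⟨⟨⟨x, hx⟩, i⟩, i'⟩ | x) (⟨⟨⟨y, hy⟩, j⟩, j'⟩ | y)
          · have hx' : π0 x ≠ i0 := by rw [hx]; exact hp
            have hy' : π0 y ≠ i0 := by rw [hy]; exact hp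
            simp [hρ1 _ _ _ hx', hρ1 _ _ _ hy']
          · have hx' : π0 x ≠ i0 := by rw [hx]; exact hp
            simp [hρ1 _ _ _ hx', hρ3]
          · have hy' : π0 y ≠ i0 := by rw [hy]; exact hp
            simp [hρ1 _ _ _ hy', hρ3]
          · simp [hρ3]
  refine GD_bij' (Sum.elim (fun p => Sum.inl (p.1.1.1, p.1.2, p.2))
    (Sum.elim (fun p => Sum.inl (p.1.1, p.2)) Sum.inr)) ⟨?_, ?_⟩ ?_ H
  · rintro (⟨⟨⟨x, hx⟩, i⟩, i'⟩ | ⟨⟨x, hx⟩, i⟩ | x) (⟨⟨⟨y, hy⟩, j⟩, j'⟩ | ⟨⟨y, hy⟩, j⟩ | y) h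
    · simp_all
    · simp only [Sum.elim_inl, Sum.elim_inr, Sum.inl.injEq, Prod.mk.injEq] at h
      exact absurd (h.1 ▸ hy) hx
    · simp_all
    · simp only [Sum.elim_inl, Sum.elim_inr, Sum.inl.injEq, Prod.mk.injEq] at h
      exact absurd (h.1 ▸ hx) hy
    · simp_all
    · simp_all
    · simp_all
    · simp_all
    · simp_all
  · rintro (⟨x, i, i'⟩ | x)
    · by_cases hx : π0 x = i0
      · exact ⟨Sum.inr (Sum.inl (⟨x, hx⟩, i, i')), rfl⟩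
      · exact ⟨Sum.inl ((⟨x, hx⟩, i), i'), rfl⟩
    · exact ⟨Sum.inr (Sum.inr x), rfl⟩
  · rintro (⟨⟨⟨x, hx⟩, i⟩, i'⟩ | ⟨⟨x, hx⟩, i, i'⟩ | x) (⟨⟨⟨y, hy⟩, j⟩, j'⟩ | ⟨⟨y, hy⟩, j, j'⟩ | y)
    · simp [hρ1 _ _ _ hx, hρ1 _ _ _ hy]
    · simp [hρ1 _ _ _ hx, hρ2 _ _ _ hy]
    · simp [hρ1 _ _ _ hx, hρ3]
    · simp [hρ2 _ _ _ hx, hρ1 _ _ _ hy]
    · simp [hρ2 _ _ _ hx, hρ2 _ _ _ hy]
    · simp [hρ2 _ _ _ hx, hρ3]
    · simp [hρ3, hρ1 _ _ _ hy]
    · simp [hρ3, hρ2 _ _ _ hy]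
    · simp [hρ3]

end H108
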