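import Pool.Agent.H108R2.IGops

namespace H108

theorem ig_fill {k g a c w : ℕ} (h : IG {k} (g * c) a 0) (h1 : IG {k} g c w) :
    IG {k} g (a * c) w := by
  have h2 : GD ({a} : Set ℕ) (id : Fin a → Fin a) := (ig_id_iff a a (by simp)).2 (ig_block a)
  have := ig_master (k := k) (g := g) (c := c) (w := w) (id : Fin a → Fin a) h2
    (by rintro u rfl; exact h) (by intro i; simpa using h1)
  simpa [mul_comm] using this

theorem ig_product {k u v : ℕ} (h1 : IG {k} 1 u 0) (h2 : IG {k} 1 v 0) (hN : Nice k v) :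
    IG {k} 1 (u * v) 0 := by
  have h3 := ig_inflate hN h1
  rw [zero_mul] at h3
  exact ig_fill (g := 1) (c := v) h3 h2

theorem ig_step {k g c w s p t1 t2 : ℕ} (hN : Nice (s + 2) p) (h1 : t1 ≤ p) (h2 : t2 ≤ p)
    (hb : ∀ u, s ≤ u → u ≤ s + 2 → IG {k} (g * c) u 0)
    (hp : IG {k} g (c * p) w) (ht1 : IG {k} g (c * t1) w) (ht2 : IG {k} g (c * t2) w) :
    IG {k} g (c * (s * p + t1 + t2)) w := by
  have ht : ∀ i, tdSize s p t1 t2 i ≤ p := by
    intro i; unfold tdSize; split_ifs <;> simp_all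
  have hG := ttd hN (tdSize s p t1 t2) ht
  have hcard : Nat.card (Σ i : Fin (s + 2), Fin (tdSize s p t1 t2 i)) = s * p + t1 + t2 := by
    rw [Nat.card_sigma, Fin.sum_univ_castSucc, Fin.sum_univ_castSucc]
    simp [tdSize]
  rw [← hcard]
  refine ig_master _ hG ?_ ?_
  · rintro u ⟨hu1, hu2⟩
    refine hb u (le_trans ?_ hu1) hu2
    have : (Finset.univ.map (Fin.castAddEmb 2 : Fin s ↪ Fin (s + 2))).card = s := by simp
    refine this.symm.le.trans (Finset.card_le_card ?_)
    intro i hi
    simp only [Finset.mem_map, Finset.mem_univ, true_and] at hi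
    obtain ⟨j, rfl⟩ := hi
    simp [tdSize]
  · intro i
    have e : {x : (Σ i : Fin (s + 2), Fin (tdSize s p t1 t2 i)) // x.1 = i} ≃
        Fin (tdSize s p t1 t2 i) :=
      { toFun := fun y => y.2 ▸ y.1.2
        invFun := fun j => ⟨⟨i, j⟩, rfl⟩
        left_inv := by rintro ⟨⟨x, j⟩, hx⟩; subst hx; rfl
        right_inv := fun j => rfl }
    rw [Nat.card_congr e, Nat.card_fin]
    unfold tdSize
    split_ifs
    · exact hp
    · exact ht1
    · exact ht2

theorem ig_stepHole {k g c w s m t : ℕ} (hN : Nice (s + 1) m) (ht : t ≤ m)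
    (hb : IG {k} (g * c) s 0) (hb' : IG {k} (g * c) (s + 1) 0) (hm : IG {k} g (c * m) w) :
    IG {k} g (c * (s * m)) (g * c * t + w) := by
  let τ : Fin (s + 1) → ℕ := fun i => if i.val < s then m else t
  have hτ : ∀ i, τ i ≤ m := by
    intro i; simp only [τ]; split_ifs <;> simp_all
  have hG := ttd hN τ hτ
  have e : ∀ i, Nonempty ({x : (Σ i : Fin (s + 1), Fin (τ i)) // x.1 = i} ≃ Fin (τ i)) := by
    intro i
    exact ⟨{ toFun := fun y => y.2 ▸ y.1.2
             invFun := fun j => ⟨⟨i, j⟩, rfl⟩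
             left_inv := by rintro ⟨⟨x, j⟩, hx⟩; subst hx; rfl
             right_inv := fun j => rfl }⟩
  have hc : ∀ i, Nat.card {x : (Σ i : Fin (s + 1), Fin (τ i)) // x.1 = i} = τ i := by
    intro i
    rw [Nat.card_congr (e i).some, Nat.card_fin]
  have hlast : τ (Fin.last s) = t := by simp [τ]
  have htot : Nat.card (Σ i : Fin (s + 1), Fin (τ i)) = s * m + t := by
    rw [Nat.card_sigma, Fin.sum_univ_castSucc]
    simp [τ]
  have hne : Nat.card {x : (Σ i : Fin (s + 1), Fin (τ i)) // x.1 ≠ Fin.last s} = s * m := by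
    classical
    have h1 := Nat.card_congr (Equiv.sumCompl
      (fun x : (Σ i : Fin (s + 1), Fin (τ i)) => x.1 = Fin.last s))
    rw [Nat.card_sum, hc, hlast, htot] at h1
    have h2 : Nat.card {x : (Σ i : Fin (s + 1), Fin (τ i)) // ¬ x.1 = Fin.last s} =
      Nat.card {x : (Σ i : Fin (s + 1), Fin (τ i)) // x.1 ≠ Fin.last s} := rfl
    omega
  have := ig_masterHole (k := k) (g := g) (c := c) (w := w)
    (Sigma.fst : (Σ i : Fin (s + 1), Fin (τ i)) → Fin (s + 1)) (Fin.last s) hG ?_ ?_
  · rw [hne, hc, hlast] at this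
    exact this
  · rintro u ⟨hu1, hu2⟩
    have hs : s ≤ (Finset.univ.filter (fun i => τ i = m)).card := by
      have : (Finset.univ.map (Fin.castAddEmb 1 : Fin s ↪ Fin (s + 1))).card = s := by simp
      refine this.symm.le.trans (Finset.card_le_card ?_)
      intro i hi
      simp only [Finset.mem_map, Finset.mem_univ, true_and] at hi
      obtain ⟨j, rfl⟩ := hi
      simp [τ]
    rcases (show u = s ∨ u = s + 1 by omega) with rfl | rfl
    · exact hb
    · exact hb'
  · intro i hi
    rw [hc]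
    have : i.val < s := by
      have := i.2
      have h3 : i.val ≠ s := fun h => hi (Fin.ext (by simpa using h))
      omega
    simp only [τ, this, if_true]
    exact hm

theorem ig_remove_block {k a : ℕ} (hk : 2 ≤ k) (h : IG {k} 1 (a + k) 0) : IG {k} 1 a k := by
  classical
  rw [← ig_id_iff k (a + k) (X := Fin (a + k)) (by simp)] at h
  obtain ⟨B, hB, hU⟩ := h
  have h0 : 1 < a + k := by omega
  obtain ⟨b0, ⟨hb0, -, -⟩, -⟩ := hU ⟨0, by omega⟩ ⟨1, h0⟩ (by simp)
  have hcard : b0.card = k := (hB b0 hb0).1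
  let ρ : Fin (a + k) → Option {x // x ∉ b0} := fun x => if h : x ∉ b0 then some ⟨x, h⟩ else none
  have hρ1 : ∀ x, (h : x ∉ b0) → ρ x = some ⟨x, h⟩ := fun x h => by simp [ρ, h]
  have hρ2 : ∀ x, (h : x ∈ b0) → ρ x = none := fun x h => by simp [ρ, h]
  rw [← ig_of_fibers (K := {k}) (ρ := ρ) (g := 1) (a := a) (w := k)]
  · refine ⟨B \ {b0}, ?_, ?_⟩
    · rintro b ⟨hb, hbb⟩
      refine ⟨(hB b hb).1, ?_⟩
      intro x hx y hy hxy
      by_contra hne
      by_cases h1 : x ∈ b0
      · by_cases h2 : y ∈ b0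
        · obtain ⟨c, hc, hcu⟩ := hU x y hne
          exact hbb ((hcu b ⟨hb, hx, hy⟩).trans (hcu b0 ⟨hb0, h1, h2⟩).symm)
        · rw [hρ2 x h1, hρ1 y h2] at hxy
          exact absurd hxy (by simp)
      · by_cases h2 : y ∈ b0
        · rw [hρ1 x h1, hρ2 y h2] at hxy
          exact absurd hxy (by simp)
        · rw [hρ1 x h1, hρ1 y h2] at hxy
          simp at hxy
          exact hne hxy
    · intro x y hxy
      have hne : x ≠ y := fun h => hxy (by rw [h])
      obtain ⟨b, ⟨hb, hx, hy⟩, hu⟩ := hU x y hne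
      refine ⟨b, ⟨⟨hb, ?_⟩, hx, hy⟩, ?_⟩
      · rintro rfl
        rw [hρ2 x hx, hρ2 y hy] at hxy
        exact hxy rfl
      · rintro c ⟨⟨hc, -⟩, hcx, hcy⟩
        exact hu c ⟨hc, hcx, hcy⟩
  · rintro ⟨b, hb⟩
    rw [Nat.card_eq_one_iff_unique]
    refine ⟨⟨?_⟩, ⟨⟨b, hρ1 b hb⟩⟩⟩
    rintro ⟨x, hx⟩ ⟨y, hy⟩
    have key : ∀ z, ρ z = some ⟨b, hb⟩ → z = b := by
      intro z hz
      by_cases h : z ∈ b0
      · rw [hρ2 z h] at hz; exact absurd hz (by simp)
      · rw [hρ1 z h] at hz; simpa using hz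
    simp [key x hx, key y hy]
  · rw [Nat.card_eq_fintype_card, Fintype.card_subtype_compl]
    simp [hcard]
  · have : Nat.card {y // ρ y = none} = Nat.card {y // y ∈ b0} := by
      apply Nat.card_congr
      apply Equiv.subtypeEquivRight
      intro x
      constructor
      · intro h
        by_contra hx
        rw [hρ1 x hx] at h; exact absurd h (by simp)
      · exact hρ2 x
    rw [this]
    simp [hcard]

theorem ig_delete_point_aux {Y : Type} [Fintype Y] {k r : ℕ} (hk : 2 ≤ k)
    (hY : Nat.card Y = (k - 1) * r) (h : GD {k} (id : Option Y → Option Y)) :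
    IG {k} (k - 1) r 0 := by
  classical
  obtain ⟨B, hB, hU⟩ := h
  have hU' : ∀ y : Y, ∃ b, b ∈ B ∧ none ∈ b ∧ some y ∈ b := fun y =>
    (hU none (some y) (by simp)).exists
  choose π hπB hπn hπy using hU'
  -- uniqueness
  have huniq : ∀ (b c : Finset (Option Y)) (x y : Option Y), x ≠ y → b ∈ B → c ∈ B → x ∈ b →
      y ∈ b → x ∈ c → y ∈ c → b = c := by
    intro b c x y hxy hb hc h1 h2 h3 h4
    obtain ⟨d, -, hd⟩ := hU x y hxy
    exact (hd b ⟨hb, h1, h2⟩).trans (hd c ⟨hc, h3, h4⟩).symm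
  have hπ : ∀ y z : Y, some z ∈ π y ↔ π z = π y := by
    intro y z
    constructor
    · intro h
      exact huniq _ _ none (some z) (by simp) (hπB z) (hπB y) (hπn z) (hπy z) (hπn y) h
    · intro h
      rw [← h]; exact hπy z
  let S : Set (Finset (Option Y)) := Set.range π
  let π' : Y → S := fun y => ⟨π y, y, rfl⟩
  have hfib : ∀ b : S, Nat.card {y // π' y = b} = k - 1 := by
    rintro ⟨_, y, rfl⟩
    have h1 : Nat.card {z // π' z = ⟨π y, y, rfl⟩} = Nat.card {z // some z ∈ π y} := by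
      apply Nat.card_congr
      apply Equiv.subtypeEquivRight
      intro z
      rw [hπ]
      simp [π']
    rw [h1, ← (hB _ (hπB y)).1, ← Finset.card_erase_of_mem (hπn y)]
    rw [Nat.card_eq_fintype_card, Fintype.card_subtype]
    rw [← Finset.card_map (Function.Embedding.some : Y ↪ Option Y)]
    congr 1
    ext (_ | z)
    · simp
    · simp
  have hS : Nat.card S = r := by
    have h1 : Nat.card Y = Nat.card (Σ b : S, {y // π' y = b}) :=
      Nat.card_congr (Equiv.sigmaFiberEquiv π').symm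
    haveI : Fintype S := Fintype.ofFinite S
    rw [Nat.card_sigma] at h1
    simp only [hfib] at h1
    rw [Finset.sum_const, Finset.card_univ, ← Nat.card_eq_fintype_card, smul_eq_mul] at h1
    rw [hY, mul_comm] at h1
    exact (Nat.eq_of_mul_eq_mul_right (by omega) h1).symm
  rw [← ig_of_fibers0 (K := {k}) (ρ := π') hfib hS]
  refine ⟨{b | b.map Function.Embedding.some ∈ B}, ?_, ?_⟩
  · intro b hb
    refine ⟨by simpa using (hB _ hb).1, ?_⟩
    intro x hx y hy hxy
    by_contra hne
    have hx' : some x ∈ b.map Function.Embedding.some := by simpa using hx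
    have hy' : some y ∈ b.map Function.Embedding.some := by simpa using hy
    have hxy' : π x = π y := by simpa [π'] using hxy
    have h3 := huniq _ _ (some x) (some y) (by simpa using hne) hb (hπB y) hx' hy'
      ((hπ y x).2 hxy') (hπy y)
    have : none ∈ b.map Function.Embedding.some := by rw [h3]; exact hπn y
    simp at this
  · intro x y hxy
    have hne : x ≠ y := fun h => hxy (by rw [h])
    obtain ⟨b, ⟨hb, hbx, hby⟩, hu⟩ := hU (some x) (some y) (by simpa using hne)
    have hnb : none ∉ b := by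
      intro hn
      apply hxy
      have h1 := huniq _ _ none (some x) (by simp) hb (hπB x) hn hbx (hπn x) (hπy x)
      have h2 := huniq _ _ none (some y) (by simp) hb (hπB y) hn hby (hπn y) (hπy y)
      exact Subtype.ext (h1.symm.trans h2)
    obtain ⟨c, rfl⟩ : ∃ c : Finset Y, b = c.map Function.Embedding.some := by
      refine ⟨b.eraseNone, ?_⟩
      ext (_ | z)
      · simp [hnb]
      · simp
    refine ⟨c, ⟨hb, by simpa using hbx, by simpa using hby⟩, ?_⟩
    rintro d ⟨hd, hdx, hdy⟩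
    have := hu (d.map Function.Embedding.some) ⟨hd, by simpa using hdx, by simpa using hdy⟩
    exact Finset.map_injective _ this

theorem ig_delete_point {k r : ℕ} (hk : 2 ≤ k) (h : IG {k} 1 ((k - 1) * r + 1) 0) :
    IG {k} (k - 1) r 0 :=
  ig_delete_point_aux (Y := Fin ((k - 1) * r)) hk (by simp)
    ((ig_id_iff k ((k - 1) * r + 1) (by simp)).2 h)

end H108
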