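import Pool.Agent.H108R2.DF

/-! Relative difference families over `F × Fin h` (task RD3, helper52). -/

set_option autoImplicit false

namespace H108

namespace RDx

open Finset DFx

theorem exists_bij {α β : Type} [Nonempty β] (s : Finset α) (t : Finset β)
    (h : s.card = t.card) :
    ∃ φ : α → β, (∀ a ∈ s, φ a ∈ t) ∧ ∀ c ∈ t, ∃! a, a ∈ s ∧ φ a = c := by
  classical
  let e := Finset.equivOfCardEq h
  obtain ⟨b0⟩ := ‹Nonempty β›
  refine ⟨fun a => if ha : a ∈ s then (e ⟨a, ha⟩ : β) else b0, ?_, ?_⟩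
  · intro a ha
    simp only [ha, dif_pos]
    exact (e ⟨a, ha⟩).2
  · intro c hc
    refine ⟨(e.symm ⟨c, hc⟩ : α), ⟨(e.symm ⟨c, hc⟩).2, ?_⟩, ?_⟩
    · simp
    · rintro a ⟨ha, hac⟩
      simp only [ha, dif_pos] at hac
      have : e ⟨a, ha⟩ = ⟨c, hc⟩ := Subtype.ext hac
      rw [← this]
      simp

end RDx

open RDx DFx Finset in
theorem rdf (F : Type) [Field F] [Fintype F] {k h μ f : ℕ} (hk : 1 ≤ k) (hf : Odd f)
    (hμ : μ * f = Fintype.card F - 1) (hμe : Even μ) (hμ0 : 0 < μ)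
    (hbig : 2 * k * (4 * μ) ^ (2 * k) < Fintype.card F)
    (B : Type) [Finite B] (m : B → Fin k → Fin h)
    (hm : ∀ x y : Fin h, Nat.card {t : B × Fin k × Fin k //
      t.2.1 ≠ t.2.2 ∧ m t.1 t.2.1 = x ∧ m t.1 t.2.2 = y} = μ) :
    GD {k} (Prod.fst : F × Fin h → F) := by
  classical
  have hf0 : 0 < f := hf.pos
  haveI : Fintype B := Fintype.ofFinite B
  have hq : 1 < Fintype.card F := Fintype.one_lt_card
  -- characteristic
  have h2 : (2 : F) ≠ 0 := by
    apply Ring.two_ne_zero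
    intro h
    rw [FiniteField.even_card_iff_char_two] at h
    obtain ⟨r, hr⟩ := hμe
    have : (Fintype.card F - 1) % 2 = 0 := by
      rw [← hμ, hr]
      have : (r + r) * f = 2 * (r * f) := by ring
      omega
    omega
  have hneg : ∀ c : F, c ≠ 0 → c ≠ -c := by
    intro c h0 h1
    apply h0
    have : 2 * c = 0 := by linear_combination h1
    exact (mul_eq_zero.1 this).resolve_left h2
  have hMneg : ∀ c ∈ M F f, -c ∈ M F f := by
    intro c hc
    obtain ⟨x, hx, rfl⟩ := mem_image.1 hc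
    rw [← hf.neg_pow]
    exact pow_mem_M (neg_ne_zero.2 (mem_filter.1 hx).2)
  have hMc : (M F f).card = μ := card_M hμ hf0 hμ0
  -- the index sets
  let T : Fin h → Fin h → Finset (B × Fin k × Fin k) := fun x y =>
    univ.filter fun t => t.2.1 ≠ t.2.2 ∧ m t.1 t.2.1 = x ∧ m t.1 t.2.2 = y
  have hTm : ∀ x y t, t ∈ T x y ↔ (t.2.1 ≠ t.2.2 ∧ m t.1 t.2.1 = x ∧ m t.1 t.2.2 = y) := by
    intro x y t
    simp [T]
  have hTc : ∀ x y, (T x y).card = μ := by
    intro x y
    rw [← hm x y, Nat.card_eq_fintype_card, Fintype.card_subtype]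
  let g : F ≃ Fin (Fintype.card F) := Fintype.equivFin F
  let H : Finset F := (M F f).filter fun c => g c < g (-c)
  have hgne : ∀ c ∈ M F f, g c ≠ g (-c) := fun c hc h =>
    hneg c (ne_zero_of_mem hc) (g.injective h)
  have hHc : 2 * H.card = μ := by
    have h1 : (M F f).filter (fun c => ¬ g c < g (-c)) = H.image (fun c => -c) := by
      ext c
      simp only [mem_filter, mem_image, H]
      constructor
      · rintro ⟨hc, hc'⟩
        refine ⟨-c, ⟨hMneg c hc, ?_⟩, neg_neg c⟩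
        rw [neg_neg]
        exact lt_of_le_of_ne (not_lt.1 hc') (hgne c hc).symm
      · rintro ⟨c', ⟨hc1, hc2⟩, rfl⟩
        refine ⟨hMneg c' hc1, ?_⟩
        rw [neg_neg]
        exact not_lt.2 hc2.le
    have h3 : (H.image (fun c => -c)).card = H.card :=
      card_image_of_injective _ neg_injective
    have h4 := card_filter_add_card_filter_not (s := M F f) (fun c => g c < g (-c))
    rw [h1, h3, hMc] at h4
    change H.card + H.card = μ at h4
    omega
  let A : Fin h → Finset (B × Fin k × Fin k) := fun x => (T x x).filter fun t => t.2.1 < t.2.2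
  have hAc : ∀ x, (A x).card = H.card := by
    intro x
    let sw : B × Fin k × Fin k → B × Fin k × Fin k := fun t => (t.1, t.2.2, t.2.1)
    have hsw : Function.Injective sw := by
      rintro ⟨a, b, c⟩ ⟨a', b', c'⟩ h
      simp only [sw, Prod.mk.injEq] at h
      obtain ⟨h1, h2, h3⟩ := h
      simp [h1, h2, h3]
    have h1 : (T x x).filter (fun t => ¬ t.2.1 < t.2.2) = (A x).image sw := by
      ext t
      simp only [mem_filter, mem_image, A, hTm]
      constructor
      · rintro ⟨⟨h1, h2, h3⟩, h4⟩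
        refine ⟨sw t, ⟨⟨Ne.symm h1, h3, h2⟩, ?_⟩, rfl⟩
        exact lt_of_le_of_ne (not_lt.1 h4) (Ne.symm h1)
      · rintro ⟨t', ⟨⟨h1, h2, h3⟩, h4⟩, rfl⟩
        exact ⟨⟨Ne.symm h1, h3, h2⟩, not_lt.2 h4.le⟩
    have h3 : ((A x).image sw).card = (A x).card := card_image_of_injective _ hsw
    have h4 := card_filter_add_card_filter_not (s := T x x) (fun t => t.2.1 < t.2.2)
    rw [h1, h3, hTc] at h4
    change (A x).card + (A x).card = μ at h4
    omega
  have hAm : ∀ x t, t ∈ A x ↔ (t ∈ T x x ∧ t.2.1 < t.2.2) := by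
    intro x t; simp [A]
  have hHm : ∀ c, c ∈ H ↔ (c ∈ M F f ∧ g c < g (-c)) := by
    intro c; simp [H]
  choose φ hφ1 hφ2 using fun x y : Fin h => exists_bij (T x y) (M F f) (by rw [hTc, hMc])
  choose ψ hψ1 hψ2 using fun x : Fin h => exists_bij (A x) H (hAc x)
  let cls : B → Fin k → Fin k → F := fun b u v =>
    if m b u < m b v then φ (m b u) (m b v) (b, u, v)
    else if m b v < m b u then - φ (m b v) (m b u) (b, v, u)
    else if u < v then ψ (m b u) (b, u, v)
    else if v < u then - ψ (m b u) (b, v, u) else 1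
  have hone : (1 : F) ∈ M F f := by
    have h := pow_mem_M (F := F) (f := f) one_ne_zero
    rwa [one_pow] at h
  have hψM : ∀ x, ∀ t ∈ A x, ψ x t ∈ M F f := fun x t ht => ((hHm _).1 (hψ1 x t ht)).1
  have hclsM : ∀ b u v, cls b u v ∈ M F f := by
    intro b u v
    by_cases huv : u = v
    · subst huv
      simp [cls, hone]
    simp only [cls]
    split_ifs with h1 h2 h3 h4
    · exact hφ1 _ _ _ ((hTm _ _ _).2 ⟨huv, rfl, rfl⟩)
    · exact hMneg _ (hφ1 _ _ _ ((hTm _ _ _).2 ⟨Ne.symm huv, rfl, rfl⟩))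
    · have h5 : m b v = m b u := le_antisymm (not_lt.1 h1) (not_lt.1 h2)
      exact hψM _ _ ((hAm _ _).2 ⟨(hTm _ _ _).2 ⟨huv, rfl, h5⟩, h3⟩)
    · have h5 : m b v = m b u := le_antisymm (not_lt.1 h1) (not_lt.1 h2)
      exact hMneg _ (hψM _ _ ((hAm _ _).2 ⟨(hTm _ _ _).2 ⟨Ne.symm huv, h5, rfl⟩, h4⟩))
    · exact hone
  have hclsneg : ∀ b u v, u ≠ v → cls b u v = - cls b v u := by
    intro b u v huv
    simp only [cls]
    rcases lt_trichotomy (m b u) (m b v) with h1 | h1 | h1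
    · rw [if_pos h1, if_neg (not_lt.2 h1.le), if_pos h1, neg_neg]
    · have h1' : ¬ m b u < m b v := fun h => absurd h1 h.ne
      have h1'' : ¬ m b v < m b u := fun h => absurd h1 h.ne'
      rw [if_neg h1', if_neg h1'', if_neg h1'', if_neg h1']
      rcases lt_or_gt_of_ne huv with h2 | h2
      · rw [if_pos h2, if_neg (not_lt.2 h2.le), if_pos h2, neg_neg, h1]
      · rw [if_neg (not_lt.2 (le_of_lt h2)), if_pos h2, if_pos h2, h1]
    · rw [if_neg (not_lt.2 h1.le), if_pos h1, if_pos h1]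
  have huniq : ∀ x y : Fin h, ∀ c ∈ M F f, ∃! t : B × Fin k × Fin k,
      t ∈ T x y ∧ cls t.1 t.2.1 t.2.2 = c := by
    intro x y c hc
    rcases lt_trichotomy x y with hxy | hxy | hxy
    · -- x < y
      have e : ∀ t ∈ T x y, cls t.1 t.2.1 t.2.2 = φ x y t := by
        intro t ht
        obtain ⟨h1, h2, h3⟩ := (hTm _ _ _).1 ht
        simp only [cls]
        rw [h2, h3, if_pos hxy]
      obtain ⟨t, ⟨ht1, ht2⟩, ht3⟩ := hφ2 x y c hc
      refine ⟨t, ⟨ht1, by rw [e t ht1, ht2]⟩, ?_⟩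
      rintro t' ⟨h1, h2⟩
      exact ht3 t' ⟨h1, by rw [← e t' h1, h2]⟩
    · -- x = y
      subst hxy
      have e1 : ∀ t ∈ T x x, t.2.1 < t.2.2 → cls t.1 t.2.1 t.2.2 = ψ x t := by
        intro t ht hlt
        obtain ⟨h1, h2, h3⟩ := (hTm _ _ _).1 ht
        simp only [cls]
        rw [h2, h3, if_neg (lt_irrefl x), if_neg (lt_irrefl x), if_pos hlt]
      have e2 : ∀ t ∈ T x x, t.2.2 < t.2.1 → cls t.1 t.2.1 t.2.2 = - ψ x (t.1, t.2.2, t.2.1) := by
        intro t ht hlt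
        obtain ⟨h1, h2, h3⟩ := (hTm _ _ _).1 ht
        simp only [cls]
        rw [h2, h3, if_neg (lt_irrefl x), if_neg (lt_irrefl x), if_neg (not_lt.2 hlt.le),
          if_pos hlt]
      have hswA : ∀ t ∈ T x x, t.2.2 < t.2.1 → (t.1, t.2.2, t.2.1) ∈ A x := by
        intro t ht hlt
        obtain ⟨h1, h2, h3⟩ := (hTm _ _ _).1 ht
        exact (hAm _ _).2 ⟨(hTm _ _ _).2 ⟨Ne.symm h1, h3, h2⟩, hlt⟩
      rcases lt_or_gt_of_ne (hgne c hc) with hg | hg
      · -- c in H
        obtain ⟨t, ⟨ht1, ht2⟩, ht3⟩ := hψ2 x c ((hHm c).2 ⟨hc, hg⟩)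
        obtain ⟨ht4, ht5⟩ := (hAm _ _).1 ht1
        refine ⟨t, ⟨ht4, by rw [e1 t ht4 ht5, ht2]⟩, ?_⟩
        rintro t' ⟨h1, h2⟩
        rcases lt_or_gt_of_ne ((hTm _ _ _).1 h1).1 with h3 | h3
        · exact ht3 t' ⟨(hAm _ _).2 ⟨h1, h3⟩, by rw [← e1 t' h1 h3, h2]⟩
        · exfalso
          rw [e2 t' h1 h3] at h2
          have h4 := ((hHm _).1 (hψ1 x _ (hswA t' h1 h3))).2
          have h5 : ψ x (t'.1, t'.2.2, t'.2.1) = -c := by rw [← h2, neg_neg]
          rw [h5, neg_neg] at h4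
          exact absurd h4 (not_lt.2 hg.le)
      · have hgn : g (-c) < g (- -c) := by rw [neg_neg]; exact hg
        obtain ⟨t, ⟨ht1, ht2⟩, ht3⟩ := hψ2 x (-c) ((hHm (-c)).2 ⟨hMneg c hc, hgn⟩)
        obtain ⟨ht4, ht5⟩ := (hAm _ _).1 ht1
        obtain ⟨ht6, ht7, ht8⟩ := (hTm _ _ _).1 ht4
        have hsT : (t.1, t.2.2, t.2.1) ∈ T x x := (hTm _ _ _).2 ⟨Ne.symm ht6, ht8, ht7⟩
        refine ⟨(t.1, t.2.2, t.2.1), ⟨hsT, ?_⟩, ?_⟩
        · rw [e2 (t.1, t.2.2, t.2.1) hsT ht5]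
          change - ψ x (t.1, t.2.1, t.2.2) = c
          have : (t.1, t.2.1, t.2.2) = t := rfl
          rw [this, ht2, neg_neg]
        · rintro t' ⟨h1, h2⟩
          rcases lt_or_gt_of_ne ((hTm _ _ _).1 h1).1 with h3 | h3
          · exfalso
            rw [e1 t' h1 h3] at h2
            have h4 := ((hHm _).1 (hψ1 x _ ((hAm _ _).2 ⟨h1, h3⟩))).2
            rw [h2] at h4
            exact absurd h4 (not_lt.2 (le_of_lt hg))
          · rw [e2 t' h1 h3] at h2
            have h5 : ψ x (t'.1, t'.2.2, t'.2.1) = -c := by rw [← h2, neg_neg]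
            have h6 := ht3 (t'.1, t'.2.2, t'.2.1) ⟨hswA t' h1 h3, h5⟩
            rw [← h6]
    · -- y < x
      have e : ∀ t ∈ T x y, cls t.1 t.2.1 t.2.2 = - φ y x (t.1, t.2.2, t.2.1) := by
        intro t ht
        obtain ⟨h1, h2, h3⟩ := (hTm _ _ _).1 ht
        simp only [cls]
        rw [h2, h3, if_neg (not_lt.2 hxy.le), if_pos hxy]
      have hsw : ∀ t ∈ T x y, (t.1, t.2.2, t.2.1) ∈ T y x := by
        intro t ht
        obtain ⟨h1, h2, h3⟩ := (hTm _ _ _).1 ht
        exact (hTm _ _ _).2 ⟨Ne.symm h1, h3, h2⟩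
      obtain ⟨t, ⟨ht1, ht2⟩, ht3⟩ := hφ2 y x (-c) (hMneg c hc)
      obtain ⟨ht6, ht7, ht8⟩ := (hTm _ _ _).1 ht1
      have hsT : (t.1, t.2.2, t.2.1) ∈ T x y := (hTm _ _ _).2 ⟨Ne.symm ht6, ht8, ht7⟩
      refine ⟨(t.1, t.2.2, t.2.1), ⟨hsT, ?_⟩, ?_⟩
      · rw [e (t.1, t.2.2, t.2.1) hsT]
        change - φ y x (t.1, t.2.1, t.2.2) = c
        have : (t.1, t.2.1, t.2.2) = t := rfl
        rw [this, ht2, neg_neg]
      · rintro t' ⟨h1, h2⟩
        rw [e t' h1] at h2
        have h5 : φ y x (t'.1, t'.2.2, t'.2.1) = -c := by rw [← h2, neg_neg]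
        have h6 := ht3 (t'.1, t'.2.2, t'.2.1) ⟨hsw t' h1, h5⟩
        rw [← h6]
  -- greedy
  have hgr : ∀ b : B, ∃ bb : Fin k → F, ∀ u v : Fin k, u ≠ v → (bb u - bb v) ^ f = cls b u v := by
    intro b
    let c : ℕ → ℕ → F := fun j l =>
      if h : j < k ∧ l < k then cls b ⟨l, h.2⟩ ⟨j, h.1⟩ else 1
    have hc : ∀ i l, c i l ∈ M F f := by
      intro i l
      simp only [c]
      split_ifs with h
      · exact hclsM _ _ _
      · exact hone
    obtain ⟨bb, hbb, -⟩ := greedy hμ hf0 hμ0 c hc hbig k le_rfl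
    have key : ∀ u v : Fin k, v < u → (bb u - bb v) ^ f = cls b u v := by
      intro u v huv
      rw [hbb u u.2 v huv]
      simp only [c]
      rw [dif_pos ⟨v.2, u.2⟩]
    refine ⟨fun u => bb u, fun u v huv => ?_⟩
    rcases lt_or_gt_of_ne huv with h | h
    · have h1 : bb u - bb v = -(bb v - bb u) := by ring
      simp only
      rw [h1, hf.neg_pow, key v u h, hclsneg b u v huv]
    · exact key u v h
  choose bb hbb using hgr
  have hbne : ∀ b (u v : Fin k), u ≠ v → bb b u - bb b v ≠ 0 := by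
    intro b u v huv
    rw [← pow_mem_M_iff hf0, hbb b u v huv]
    exact hclsM _ _ _
  let blk : B → F → F → Finset (F × Fin h) := fun b t s =>
    univ.image fun u : Fin k => (t + s * bb b u, m b u)
  have hs0 : ∀ s : F, s ^ f = 1 → s ≠ 0 := by
    rintro s h rfl
    rw [zero_pow hf0.ne'] at h
    exact zero_ne_one h
  refine ⟨{X | ∃ b t s, s ^ f = 1 ∧ X = blk b t s}, ?_, ?_⟩
  · rintro _ ⟨b, t, s, hs, rfl⟩
    have hinj : ∀ u v : Fin k, t + s * bb b u = t + s * bb b v → u = v := by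
      intro u v huv
      by_contra hne
      have h1 : s * (bb b u - bb b v) = 0 := by linear_combination huv
      rcases mul_eq_zero.1 h1 with h2 | h2
      · exact hs0 s hs h2
      · exact hbne b u v hne h2
    constructor
    · change (univ.image fun u : Fin k => (t + s * bb b u, m b u)).card = k
      rw [card_image_of_injective, card_univ, Fintype.card_fin]
      intro u v huv
      exact hinj u v (congrArg Prod.fst huv)
    · intro p hp q hq hpq
      obtain ⟨u, _, rfl⟩ := mem_image.1 (mem_coe.1 hp)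
      obtain ⟨v, _, rfl⟩ := mem_image.1 (mem_coe.1 hq)
      have := hinj u v hpq
      rw [this]
  · intro p q hpq
    have hd : p.1 - q.1 ≠ 0 := sub_ne_zero.2 hpq
    obtain ⟨⟨b, u, v⟩, ⟨ht1, ht2⟩, ht3⟩ := huniq p.2 q.2 ((p.1 - q.1) ^ f) (pow_mem_M hd)
    obtain ⟨h1, h2, h3⟩ := (hTm _ _ _).1 ht1
    simp only at h1 h2 h3 ht2
    have hne := hbne b u v h1
    set s := (p.1 - q.1) / (bb b u - bb b v) with hs
    have hsf : s ^ f = 1 := by
      rw [hs, div_pow, hbb b u v h1, ht2, div_self (pow_ne_zero _ hd)]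
    have hsd : s * (bb b u - bb b v) = p.1 - q.1 := div_mul_cancel₀ _ hne
    refine ⟨blk b (p.1 - s * bb b u) s, ⟨⟨b, _, s, hsf, rfl⟩, ?_, ?_⟩, ?_⟩
    · refine mem_image.2 ⟨u, mem_univ _, Prod.ext ?_ h2⟩
      simp only
      ring
    · refine mem_image.2 ⟨v, mem_univ _, Prod.ext ?_ h3⟩
      simp only
      linear_combination -hsd
    · rintro _ ⟨⟨b', t', s', hs', rfl⟩, hx, hy⟩
      obtain ⟨u', _, hxu⟩ := mem_image.1 hx
      obtain ⟨v', _, hyv⟩ := mem_image.1 hy
      have hx1 : t' + s' * bb b' u' = p.1 := congrArg Prod.fst hxu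
      have hx2 : m b' u' = p.2 := congrArg Prod.snd hxu
      have hy1 : t' + s' * bb b' v' = q.1 := congrArg Prod.fst hyv
      have hy2 : m b' v' = q.2 := congrArg Prod.snd hyv
      have hne' : u' ≠ v' := by
        rintro rfl
        exact hpq (hx1.symm.trans hy1)
      have h4 : p.1 - q.1 = s' * (bb b' u' - bb b' v') := by
        rw [← hx1, ← hy1]; ring
      have h5 : cls b' u' v' = (p.1 - q.1) ^ f := by
        rw [h4, mul_pow, hs', one_mul, hbb b' u' v' hne']
      have h6 := ht3 (b', u', v') ⟨(hTm _ _ _).2 ⟨hne', hx2, hy2⟩, h5⟩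
      simp only [Prod.mk.injEq] at h6
      obtain ⟨rfl, rfl, rfl⟩ := h6
      have h7 : s' = s := by
        apply mul_right_cancel₀ hne
        rw [hsd, h4]
      have h8 : t' = p.1 - s * bb b' u' := by
        rw [← hx1, h7]; ring
      rw [h8, h7]

end H108
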