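import Mathlib

/-! Explicit strong difference families of index `4kj` (task SD3, helper52). -/

set_option autoImplicit false

namespace H108

namespace SDx

open Finset

/-- a map with prescribed fibre sizes -/
theorem exists_map {h k : ℕ} (M : Fin h → ℕ) (hM : ∑ x, M x = k) :
    ∃ g : Fin k → Fin h, ∀ x, (univ.filter fun u => g u = x).card = M x := by
  subst hM
  refine ⟨fun u => (finSigmaFinEquiv.symm u).1, fun x => ?_⟩
  have h1 : (univ.filter fun u : Fin (∑ x, M x) => (finSigmaFinEquiv.symm u).1 = x).card =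
      (univ.filter fun s : (Σ x : Fin h, Fin (M x)) => s.1 = x).card := by
    apply card_bij (fun u _ => finSigmaFinEquiv.symm u)
    · intro u hu
      simpa using hu
    · intro u _ v _ huv
      exact finSigmaFinEquiv.symm.injective huv
    · intro s hs
      refine ⟨finSigmaFinEquiv s, ?_, by simp⟩
      simpa using hs
  rw [h1]
  have h2 : (univ.filter fun s : (Σ x : Fin h, Fin (M x)) => s.1 = x) =
      (univ : Finset (Fin (M x))).map ⟨fun i => ⟨x, i⟩, fun i j hij => by simpa using hij⟩ := by
    ext ⟨y, i⟩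
    simp only [mem_filter, mem_univ, true_and, mem_map, Function.Embedding.coeFn_mk]
    constructor
    · rintro rfl
      exact ⟨i, rfl⟩
    · rintro ⟨j, hj⟩
      exact (congrArg Sigma.fst hj).symm
  rw [h2, card_map, card_univ, Fintype.card_fin]

theorem count_pairs {h k : ℕ} (g : Fin k → Fin h) (M : Fin h → ℕ)
    (hg : ∀ x, (univ.filter fun u => g u = x).card = M x) (x y : Fin h) :
    (((univ.filter fun t : Fin k × Fin k => t.1 ≠ t.2 ∧ g t.1 = x ∧ g t.2 = y).card : ℕ) : ℤ) =
      (M x : ℤ) * M y - if x = y then (M x : ℤ) else 0 := by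
  have h1 : (univ.filter fun t : Fin k × Fin k => g t.1 = x ∧ g t.2 = y).card = M x * M y := by
    rw [← hg x, ← hg y, ← card_product]
    congr 1
    ext ⟨a, b⟩
    simp
  have h2 : (univ.filter fun t : Fin k × Fin k => g t.1 = x ∧ g t.2 = y).card =
      (univ.filter fun t : Fin k × Fin k => t.1 ≠ t.2 ∧ g t.1 = x ∧ g t.2 = y).card +
      (univ.filter fun t : Fin k × Fin k => t.1 = t.2 ∧ g t.1 = x ∧ g t.2 = y).card := by
    rw [← card_union_of_disjoint]
    · congr 1
      ext t
      simp only [mem_filter, mem_univ, true_and, mem_union]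
      tauto
    · rw [disjoint_left]
      intro t ht ht'
      exact (mem_filter.1 ht).2.1 (mem_filter.1 ht').2.1
  have h3 : (univ.filter fun t : Fin k × Fin k => t.1 = t.2 ∧ g t.1 = x ∧ g t.2 = y).card =
      if x = y then M x else 0 := by
    split_ifs with hxy
    · subst hxy
      rw [← hg x]
      apply card_bij (fun t _ => t.1)
      · intro t ht
        simp only [mem_filter, mem_univ, true_and] at ht ⊢
        exact ht.2.1
      · intro t ht t' ht' htt
        have a1 := (mem_filter.1 ht).2.1
        have a2 := (mem_filter.1 ht').2.1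
        exact Prod.ext htt (by rw [← a1, ← a2]; exact htt)
      · intro u hu
        refine ⟨(u, u), ?_, rfl⟩
        simpa using hu
    · rw [card_eq_zero, filter_eq_empty_iff]
      rintro t _ ⟨a1, a2, a3⟩
      apply hxy
      rw [← a2, ← a3, a1]
  rw [h1, h3] at h2
  have h4 : ((M x * M y : ℕ) : ℤ) = ((univ.filter fun t : Fin k × Fin k =>
      t.1 ≠ t.2 ∧ g t.1 = x ∧ g t.2 = y).card : ℤ) + ((if x = y then M x else 0 : ℕ) : ℤ) := by
    rw [h2]; push_cast; ring
  push_cast at h4
  linarith

/-- families of multiplicity vectors -/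
theorem of_vectors {h k : ℕ} (I : Type) [Fintype I] (M : I → Fin h → ℕ)
    (hM : ∀ i, ∑ x, M i x = k) (N : ℕ)
    (hN : ∀ x y, ∑ i, ((M i x : ℤ) * M i y - if x = y then (M i x : ℤ) else 0) = N) :
    ∃ m : I → Fin k → Fin h, ∀ x y : Fin h,
      Nat.card {t : I × Fin k × Fin k // t.2.1 ≠ t.2.2 ∧ m t.1 t.2.1 = x ∧ m t.1 t.2.2 = y}
        = N := by
  classical
  choose m hm using fun i => exists_map (M i) (hM i)
  refine ⟨m, fun x y => ?_⟩
  rw [Nat.card_eq_fintype_card, Fintype.card_subtype]
  have h1 : (univ.filter fun t : I × Fin k × Fin k =>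
      t.2.1 ≠ t.2.2 ∧ m t.1 t.2.1 = x ∧ m t.1 t.2.2 = y).card =
      ∑ i, (univ.filter fun t : Fin k × Fin k =>
        t.1 ≠ t.2 ∧ m i t.1 = x ∧ m i t.2 = y).card := by
    rw [card_eq_sum_card_fiberwise (f := fun t : I × Fin k × Fin k => t.1) (t := univ)
      (fun _ _ => mem_coe.2 (mem_univ _))]
    refine sum_congr rfl fun i _ => ?_
    apply card_bij (fun t _ => t.2)
    · rintro ⟨i', t⟩ ht
      simp only [mem_filter, mem_univ, true_and] at ht ⊢
      obtain ⟨h1, rfl⟩ := ht
      exact h1
    · rintro ⟨i1, t1⟩ ht1 ⟨i2, t2⟩ ht2 htt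
      have a1 := (mem_filter.1 ht1).2
      have a2 := (mem_filter.1 ht2).2
      simp only at a1 a2 htt
      rw [a1, a2, htt]
    · intro t ht
      refine ⟨(i, t), ?_, rfl⟩
      simpa using ht
  have h2 : (((univ.filter fun t : I × Fin k × Fin k =>
      t.2.1 ≠ t.2.2 ∧ m t.1 t.2.1 = x ∧ m t.1 t.2.2 = y).card : ℕ) : ℤ) = N := by
    rw [h1, ← hN x y]
    push_cast
    refine sum_congr rfl fun i _ => ?_
    exact count_pairs (m i) (M i) (hm i) x y
  exact_mod_cast h2

/-- Kronecker delta -/
def dl {h : ℕ} (a b : Fin h) : ℤ := if a = b then 1 else 0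

theorem sum_dl {h : ℕ} (x : Fin h) : ∑ z, dl x z = 1 := by simp [dl]

theorem sum_dl_dl {h : ℕ} (x y : Fin h) : ∑ z, dl x z * dl y z = dl x y := by
  simp only [dl, ite_mul, one_mul, zero_mul, sum_ite_eq, mem_univ, if_true]
  by_cases hxy : x = y
  · simp [hxy]
  · simp [hxy, Ne.symm hxy]

theorem sum_lin {h : ℕ} (x y : Fin h) (a b c d : ℤ) :
    ∑ w, (a + c * dl x w) * (b + d * dl y w) = h * (a * b) + a * d + b * c + c * d * dl x y := by
  have e : ∀ w, (a + c * dl x w) * (b + d * dl y w) =
      a * b + (a * d) * dl y w + (b * c) * dl x w + (c * d) * (dl x w * dl y w) := by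
    intro w; ring
  simp only [e, sum_add_distrib, ← mul_sum, sum_dl, sum_dl_dl, sum_const, card_univ,
    Fintype.card_fin, nsmul_eq_mul]
  ring

end SDx

open SDx Finset in
theorem sdf_exists (k j : ℕ) (hk : 3 ≤ k) (hj : k * (k + 1) ≤ j) :
    ∃ (B : Type) (_ : Fintype B) (m : B → Fin k → Fin (k - 1)), ∀ x y : Fin (k - 1),
      Nat.card {t : B × Fin k × Fin k // t.2.1 ≠ t.2.2 ∧ m t.1 t.2.1 = x ∧ m t.1 t.2.2 = y}
        = 4 * k * j := by
  classical
  obtain ⟨h, rfl⟩ : ∃ h, k = h + 1 := ⟨k - 1, by omega⟩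
  rw [Nat.add_sub_cancel]
  have hh : 2 ≤ h := by omega
  set p' := j / (h + 1 + 1) with hp'
  set r := j % (h + 1 + 1) with hr
  have hjr : j = (h + 1 + 1) * p' + r := (Nat.div_add_mod j (h + 1 + 1)).symm
  have hrk : r ≤ h + 1 := by
    have := Nat.mod_lt j (show 0 < h + 1 + 1 by omega)
    omega
  have hp'k : h + 1 ≤ p' := by
    rw [hp', Nat.le_div_iff_mul_le (by omega)]
    exact hj
  have hq0 : r * (h + 1) ≤ 4 * p' * (h + 1) + 6 * r := by
    have h1 : r * (h + 1) ≤ p' * (h + 1) := Nat.mul_le_mul_right _ (hrk.trans hp'k)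
    nlinarith
  obtain ⟨q, hq⟩ : ∃ q, 4 * p' * (h + 1) + 6 * r = r * (h + 1) + q :=
    Nat.exists_eq_add_of_le hq0
  -- types and multiplicities
  let τ := Fin h ⊕ Fin h ⊕ (Fin h × Fin h)
  let mult : τ → ℕ := Sum.elim (fun _ => 4 * p') (Sum.elim (fun _ => q)
    (fun zw => if zw.1 = zw.2 then 0 else r))
  let V : τ → Fin h → ℕ := Sum.elim (fun z x => if x = z then h + 1 else 0)
    (Sum.elim (fun z x => if x = z then 2 else 1)
      (fun zw x => if x = zw.1 then 3 else if x = zw.2 then 0 else 1))
  refine ⟨Σ t : τ, Fin (mult t), inferInstance, ?_⟩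
  refine of_vectors (Σ t : τ, Fin (mult t)) (fun i => V i.1) ?_ _ ?_
  · rintro ⟨z | z | ⟨z, w⟩, i⟩
    · simp [V]
    · have e : ∀ x : Fin h, V (Sum.inr (Sum.inl z)) x = 1 + if x = z then 1 else 0 := by
        intro x
        simp only [V, Sum.elim_inr, Sum.elim_inl]
        split_ifs <;> rfl
      simp only [e, sum_add_distrib]
      simp
    · have hzw : z ≠ w := by
        intro hzw
        have : mult (Sum.inr (Sum.inr (z, w))) = 0 := by simp [mult, hzw]
        have hi := i.2
        omega
      have e : ∀ x : Fin h, V (Sum.inr (Sum.inr (z, w))) x + (if x = w then 1 else 0) =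
          1 + if x = z then 2 else 0 := by
        intro x
        simp only [V, Sum.elim_inr]
        by_cases h1 : x = z
        · subst h1; simp [hzw]
        · by_cases h2 : x = w
          · subst h2; simp [h1]
          · simp [h1, h2]
      have e2 : ∑ x, (V (Sum.inr (Sum.inr (z, w))) x + (if x = w then 1 else 0)) =
          ∑ x : Fin h, (1 + if x = z then 2 else 0) := sum_congr rfl fun x _ => e x
      rw [sum_add_distrib, sum_add_distrib] at e2
      simp at e2
      change ∑ x, V (Sum.inr (Sum.inr (z, w))) x = h + 1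
      omega
  · intro x y
    have e0 : ∑ i : (Σ t : τ, Fin (mult t)), ((V i.1 x : ℤ) * V i.1 y -
        if x = y then (V i.1 x : ℤ) else 0) =
        ∑ t : τ, (mult t : ℤ) * ((V t x : ℤ) * V t y - if x = y then (V t x : ℤ) else 0) := by
      rw [Fintype.sum_sigma]
      refine sum_congr rfl fun t _ => ?_
      simp only [sum_const, card_univ, Fintype.card_fin, nsmul_eq_mul]
    rw [e0, Fintype.sum_sum_type, Fintype.sum_sum_type, Fintype.sum_prod_type]
    have hqz : (4 * p' * (h + 1) + 6 * r : ℤ) = r * (h + 1) + q := by exact_mod_cast hq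
    have hjz : (j : ℤ) = (h + 1 + 1) * p' + r := by exact_mod_cast hjr
    have hV1 : ∀ z x : Fin h, (V (Sum.inl z) x : ℤ) = (h + 1) * dl x z := by
      intro z x
      simp only [V, Sum.elim_inl, dl]
      split_ifs <;> simp
    have hV2 : ∀ z x : Fin h, (V (Sum.inr (Sum.inl z)) x : ℤ) = 1 + 1 * dl x z := by
      intro z x
      simp only [V, Sum.elim_inl, Sum.elim_inr, dl]
      split_ifs <;> simp
    have hV3 : ∀ z w x : Fin h, z ≠ w → (V (Sum.inr (Sum.inr (z, w))) x : ℤ) =
        1 + 2 * dl x z - dl x w := by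
      intro z w x hzw
      simp only [V, Sum.elim_inr, dl]
      by_cases h1 : x = z
      · subst h1; simp [hzw]
      · by_cases h2 : x = w
        · subst h2; simp [h1]
        · simp [h1, h2]
    by_cases hxy : x = y
    · -- diagonal
      subst hxy
      simp only [if_true]
      have d0 : ∀ z, dl x z * dl x z = dl x z := by
        intro z; simp only [dl]; split_ifs <;> simp
      have t1 : ∀ z, (mult (Sum.inl z) : ℤ) * ((V (Sum.inl z) x : ℤ) * V (Sum.inl z) x -
          V (Sum.inl z) x) = (4 * p' * (h * (h + 1))) * dl x z := by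
        intro z
        rw [hV1]
        simp only [mult, Sum.elim_inl]
        push_cast
        linear_combination (4 * (p' : ℤ) * (h + 1) ^ 2) * d0 z
      have t2 : ∀ z, (mult (Sum.inr (Sum.inl z)) : ℤ) * ((V (Sum.inr (Sum.inl z)) x : ℤ) *
          V (Sum.inr (Sum.inl z)) x - V (Sum.inr (Sum.inl z)) x) = (2 * q) * dl x z := by
        intro z
        rw [hV2]
        simp only [mult, Sum.elim_inl, Sum.elim_inr]
        linear_combination ((q : ℤ)) * d0 z
      have t3 : ∀ z w, (mult (Sum.inr (Sum.inr (z, w))) : ℤ) *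
          ((V (Sum.inr (Sum.inr (z, w))) x : ℤ) * V (Sum.inr (Sum.inr (z, w))) x -
          V (Sum.inr (Sum.inr (z, w))) x) = (6 * r) * dl x z - (6 * r) * (dl x z * dl z w) := by
        intro z w
        by_cases hzw : z = w
        · subst hzw
          simp [mult, dl]
        · rw [hV3 z w x hzw]
          have d1 : dl z w = 0 := by simp [dl, hzw]
          have d2 : dl x z * dl x w = 0 := by
            simp only [dl]
            by_cases h1 : x = z
            · subst h1; simp [hzw]
            · simp [h1]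
          have hm : (mult (Sum.inr (Sum.inr (z, w))) : ℤ) = r := by
            simp [mult, hzw]
          rw [hm, d1]
          linear_combination (4 * (r : ℤ)) * d0 z - (4 * (r : ℤ)) * d2 + (r : ℤ) * d0 w
      have t4 : ∀ z, ∑ w, (mult (Sum.inr (Sum.inr (z, w))) : ℤ) *
          ((V (Sum.inr (Sum.inr (z, w))) x : ℤ) * V (Sum.inr (Sum.inr (z, w))) x -
          V (Sum.inr (Sum.inr (z, w))) x) = (6 * r * (h - 1)) * dl x z := by
        intro z
        simp only [t3, sum_sub_distrib, ← mul_sum, sum_dl, sum_const, card_univ,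
          Fintype.card_fin, nsmul_eq_mul]
        ring
      simp only [t1, t2, t4, ← mul_sum, sum_dl]
      push_cast
      rw [hjz]
      linear_combination (-2 : ℤ) * hqz
    · simp only [if_neg hxy, sub_zero]
      have dxy : dl x y = 0 := by simp [dl, hxy]
      have t1 : ∀ z, (mult (Sum.inl z) : ℤ) * ((V (Sum.inl z) x : ℤ) * V (Sum.inl z) y) = 0 := by
        intro z
        rw [hV1, hV1]
        have : dl x z * dl y z = 0 := by
          simp only [dl]
          by_cases h1 : x = z
          · subst h1; simp [Ne.symm hxy]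
          · simp [h1]
        linear_combination ((mult (Sum.inl z) : ℤ) * (h + 1) ^ 2) * this
      have t2 : ∑ z, (mult (Sum.inr (Sum.inl z)) : ℤ) * ((V (Sum.inr (Sum.inl z)) x : ℤ) *
          V (Sum.inr (Sum.inl z)) y) = q * (h + 2) := by
        simp only [hV2]
        simp only [mult, Sum.elim_inl, Sum.elim_inr]
        rw [← mul_sum, sum_lin x y 1 1 1 1, dxy]
        ring
      have t3 : ∀ z w, (mult (Sum.inr (Sum.inr (z, w))) : ℤ) *
          ((V (Sum.inr (Sum.inr (z, w))) x : ℤ) * V (Sum.inr (Sum.inr (z, w))) y) =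
          r * (((1 + 2 * dl x z) + (-1) * dl x w) * ((1 + 2 * dl y z) + (-1) * dl y w)) -
          (r * ((1 + 1 * dl x z) * (1 + 1 * dl y z))) * dl z w := by
        intro z w
        by_cases hzw : z = w
        · subst hzw
          have hm : (mult (Sum.inr (Sum.inr (z, z))) : ℤ) = 0 := by simp [mult]
          have d1 : dl z z = 1 := by simp [dl]
          rw [hm, d1]
          ring
        · rw [hV3 z w x hzw, hV3 z w y hzw]
          have d1 : dl z w = 0 := by simp [dl, hzw]
          have hm : (mult (Sum.inr (Sum.inr (z, w))) : ℤ) = r := by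
            simp [mult, hzw]
          rw [hm, d1]
          ring
      have t4 : ∀ z, ∑ w, (mult (Sum.inr (Sum.inr (z, w))) : ℤ) *
          ((V (Sum.inr (Sum.inr (z, w))) x : ℤ) * V (Sum.inr (Sum.inr (z, w))) y) =
          (r * h) * ((1 + 2 * dl x z) * (1 + 2 * dl y z)) - 2 * r - 2 * r * dl x z -
            2 * r * dl y z - r * ((1 + 1 * dl x z) * (1 + 1 * dl y z)) := by
        intro z
        simp only [t3, sum_sub_distrib, ← mul_sum, sum_lin, sum_dl, dxy]
        ring
      simp only [t1, t4, sum_const_zero, sum_sub_distrib, ← mul_sum, sum_lin, sum_dl, dxy,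
        sum_const, card_univ, Fintype.card_fin, nsmul_eq_mul]
      rw [t2]
      push_cast
      rw [hjz]
      linear_combination (-(h + 2 : ℤ)) * hqz

end H108
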