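import Pool.Agent.H108R2.Family3
import Pool.Agent.H108R2.SDF
import Pool.Agent.H108R2.RDF
import Pool.Agent.H108R2.IGops2

namespace H108

open Nat

/-- good primes and exponents -/
structure Good3 (k L N : ℕ) : Prop where
  prime : L.Prime
  big : L00 k ≤ L
  even : Even N
  lo : 8 * k + 1 ≤ N
  hi : N ≤ 13 * k
  mod : L ^ N ≡ 1 [MOD 4 * k]

theorem Good3.goodP {k L N : ℕ} (h : Good3 k L N) : GoodP k L N :=
  ⟨h.prime, h.big, by have := h.lo; omega⟩

theorem L00_ge {k : ℕ} (hk : 3 ≤ k) : 1000 * k ^ 4 ≤ L00 k := by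
  unfold L00 X3
  have h1 : 1 ≤ k ^ 4 := Nat.one_le_pow _ _ (by omega)
  have h2 : (500 * k ^ 4) ^ 1 ≤ (500 * k ^ 4) ^ 18 := Nat.pow_le_pow_right (by omega) (by omega)
  rw [pow_one] at h2
  omega

theorem two_pow_padic_le {n : ℕ} (hn : n ≠ 0) : 2 ^ padicValNat 2 n ≤ n :=
  Nat.le_of_dvd (Nat.pos_of_ne_zero hn) pow_padicValNat_dvd

theorem exists_mu {k L N : ℕ} (hk : 3 ≤ k) (h : Good3 k L N) :
    ∃ μ f j, Odd f ∧ μ * f = L ^ N - 1 ∧ μ = 4 * k * j ∧ k * (k + 1) ≤ j ∧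
      2 * k * (4 * μ) ^ (2 * k) < L ^ N := by
  have hL0 := L00_ge hk
  have hLb := h.big
  have hk4 : 1 ≤ k ^ 4 := Nat.one_le_pow _ _ (by omega)
  have hLpos : 1 < L := h.prime.one_lt
  have hN0 : N ≠ 0 := by have := h.lo; omega
  have hL2 : ¬ 2 ∣ L := by
    intro h2
    have := (Nat.prime_dvd_prime_iff_eq Nat.prime_two h.prime).1 h2
    omega
  have hLN : 1 < L ^ N := Nat.one_lt_pow hN0 hLpos
  set Q := L ^ N - 1 with hQ
  have hQ0 : Q ≠ 0 := by omega
  set m := Nat.lcm (4 * k) (L - 1) with hm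
  have h4k : 4 * k ∣ Q := (Nat.modEq_iff_dvd' (by omega)).1 h.mod.symm
  have hL1 : L - 1 ∣ Q := by
    have := Nat.sub_dvd_pow_sub_pow L 1 N
    rwa [one_pow] at this
  have hmQ : m ∣ Q := Nat.lcm_dvd h4k hL1
  have hm0 : m ≠ 0 := by
    rw [hm]; exact Nat.lcm_ne_zero (by omega) (by omega)
  obtain ⟨t, m', hm'o, hmm⟩ := Nat.exists_eq_two_pow_mul_odd hm0
  obtain ⟨s, Q', hQ'o, hQQ⟩ := Nat.exists_eq_two_pow_mul_odd hQ0
  -- `t ≤ s`
  have hts : 2 ^ t ∣ 2 ^ s := by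
    have h1 : 2 ^ t ∣ 2 ^ s * Q' := by
      rw [← hQQ]; exact (Dvd.intro m' hmm.symm).trans hmQ
    exact Nat.Coprime.dvd_of_dvd_mul_right
      (Nat.Coprime.pow_left t (Nat.coprime_two_left.2 hQ'o)) h1
  have hm'Q : m' ∣ Q' := by
    have h1 : m' ∣ 2 ^ s * Q' := by
      rw [← hQQ]; exact (Dvd.intro_left (2 ^ t) hmm.symm).trans hmQ
    exact Nat.Coprime.dvd_of_dvd_mul_left
      ((Nat.Coprime.pow_left s (Nat.coprime_two_left.2 hm'o)).symm) h1
  obtain ⟨f, hf⟩ := hm'Q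
  have hfo : Odd f := by
    rw [hf] at hQ'o
    exact (Nat.odd_mul.1 hQ'o).2
  have hμm : m ∣ 2 ^ s * m' := by
    rw [hmm]; exact Nat.mul_dvd_mul_right hts m'
  obtain ⟨j, hj⟩ : 4 * k ∣ 2 ^ s * m' := (Nat.dvd_lcm_left _ _).trans hμm
  have hm'0 : 0 < m' := by
    rcases Nat.eq_zero_or_pos m' with h0 | h0
    · rw [h0] at hm'o; simp at hm'o
    · exact h0
  have hμ0 : 0 < 2 ^ s * m' := Nat.mul_pos (pow_pos (by omega) _) hm'0
  have hμL : L - 1 ≤ 2 ^ s * m' := Nat.le_of_dvd hμ0 ((Nat.dvd_lcm_right _ _).trans hμm)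
  have hk3 : k ^ 3 ≤ k ^ 4 := Nat.pow_le_pow_right (by omega) (by omega)
  refine ⟨2 ^ s * m', f, j, hfo, ?_, hj, ?_, ?_⟩
  · rw [hQQ, hf]; ring
  · -- size of `j`
    rw [hj] at hμL
    by_contra hcon
    have h1 : j ≤ k * (k + 1) := by omega
    have h2 : 4 * k * j ≤ 4 * k * (k * (k + 1)) := Nat.mul_le_mul_left _ h1
    have h3 : 4 * k * (k * (k + 1)) = 4 * k ^ 3 + 4 * k ^ 2 := by ring
    have h4 : k ^ 2 ≤ k ^ 4 := Nat.pow_le_pow_right (by omega) (by omega)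
    omega
  · -- upper bound
    have hv : padicValNat 2 Q + 1 = padicValNat 2 (L + 1) + padicValNat 2 (L - 1) +
        padicValNat 2 N := padicValNat.pow_two_sub_one hLpos hL2 hN0 h.even
    have hsv : s ≤ padicValNat 2 Q :=
      (padicValNat_dvd_iff_le hQ0).1 (Dvd.intro Q' hQQ.symm)
    have h2s : 2 * 2 ^ s ≤ (L + 1) * (L - 1) * N := by
      calc 2 * 2 ^ s = 2 ^ (s + 1) := by ring
        _ ≤ 2 ^ (padicValNat 2 Q + 1) := Nat.pow_le_pow_right (by omega) (by omega)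
        _ = 2 ^ padicValNat 2 (L + 1) * 2 ^ padicValNat 2 (L - 1) * 2 ^ padicValNat 2 N := by
            rw [hv, pow_add, pow_add]
        _ ≤ _ := Nat.mul_le_mul (Nat.mul_le_mul (two_pow_padic_le (by omega))
            (two_pow_padic_le (by omega))) (two_pow_padic_le hN0)
    have hm'm : m' ≤ 4 * k * (L - 1) := by
      have h1 : m' ≤ m := by
        rw [hmm]; exact Nat.le_mul_of_pos_left _ (pow_pos (by omega) _)
      exact h1.trans (Nat.le_of_dvd (Nat.mul_pos (by omega) (by omega)) (Nat.lcm_dvd_mul _ _))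
    have h4μ : 4 * (2 ^ s * m') ≤ L ^ 4 := by
      have hhi := h.hi
      obtain ⟨l, rfl⟩ : ∃ l, L = l + 1 := ⟨L - 1, by omega⟩
      have e1 : l + 1 - 1 = l := by omega
      rw [e1] at h2s hm'm
      have h1 : 4 * (2 ^ s * m') ≤ 2 * ((l + 1 + 1) * l * (13 * k)) * (4 * k * l) := by
        calc 4 * (2 ^ s * m') = 2 * (2 * 2 ^ s) * m' := by ring
          _ ≤ 2 * ((l + 1 + 1) * l * N) * (4 * k * l) :=
              Nat.mul_le_mul (Nat.mul_le_mul_left _ h2s) hm'm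
          _ ≤ _ := Nat.mul_le_mul_right _ (Nat.mul_le_mul_left _ (Nat.mul_le_mul_left _ hhi))
      have h2 : (l + 1 + 1) * l * l ≤ (l + 1) ^ 3 := by nlinarith
      have h3 : 104 * k ^ 2 ≤ l + 1 := by
        have : k ^ 2 ≤ k ^ 4 := Nat.pow_le_pow_right (by omega) (by omega)
        omega
      calc 4 * (2 ^ s * m') ≤ _ := h1
        _ = 104 * k ^ 2 * ((l + 1 + 1) * l * l) := by ring
        _ ≤ (l + 1) * (l + 1) ^ 3 := Nat.mul_le_mul h3 h2
        _ = (l + 1) ^ 4 := by ring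
    calc 2 * k * (4 * (2 ^ s * m')) ^ (2 * k) ≤ 2 * k * (L ^ 4) ^ (2 * k) :=
          Nat.mul_le_mul_left _ (Nat.pow_le_pow_left h4μ _)
      _ = 2 * k * L ^ (8 * k) := by rw [← pow_mul]; ring_nf
      _ < L * L ^ (8 * k) := by
          apply Nat.mul_lt_mul_of_pos_right _ (pow_pos (by omega) _)
          have h1 : k ^ 1 ≤ k ^ 4 := Nat.pow_le_pow_right (by omega) (by omega)
          rw [pow_one] at h1
          omega
      _ = L ^ (8 * k + 1) := by rw [pow_succ]; ring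
      _ ≤ L ^ N := Nat.pow_le_pow_right (by omega) h.lo

/-- the relative difference family -/
theorem rdf_mem {k L N : ℕ} (hk : 3 ≤ k) (h : Good3 k L N) : IG {k} (k - 1) (L ^ N) 0 := by
  have hN0 : N ≠ 0 := by have := h.lo; omega
  obtain ⟨μ, f, j, hf, hμf, hμj, hj, hbig⟩ := exists_mu hk h
  have : Fact L.Prime := ⟨h.prime⟩
  have : Finite (GaloisField L N) := inferInstance
  have : Fintype (GaloisField L N) := Fintype.ofFinite _
  have hcard : Fintype.card (GaloisField L N) = L ^ N := by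
    rw [← Nat.card_eq_fintype_card]; exact GaloisField.card L _ hN0
  obtain ⟨B, hB, m, hm⟩ := sdf_exists k j hk hj
  have hj0 : 0 < j := lt_of_lt_of_le (Nat.mul_pos (by omega) (by omega)) hj
  have hG := rdf (GaloisField L N) (k := k) (h := k - 1) (μ := μ) (f := f) (by omega) hf
    (by rw [hcard]; exact hμf) (by rw [hμj]; exact ⟨2 * k * j, by ring⟩)
    (by rw [hμj]; positivity) (by rw [hcard]; exact hbig) B m
    (by intro x y; rw [hm x y, hμj])
  refine (ig_of_fibers0 ?_ (by rw [Nat.card_eq_fintype_card, hcard])).1 hG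
  intro b
  have e : {y : GaloisField L N × Fin (k - 1) // y.1 = b} ≃ Fin (k - 1) :=
    { toFun := fun y => y.1.2
      invFun := fun z => ⟨(b, z), rfl⟩
      left_inv := by
        rintro ⟨⟨x, y⟩, h⟩
        simp only at h
        subst h; rfl
      right_inv := fun z => rfl }
  rw [Nat.card_congr e]; simp

/-- designs on `(k-1) L^N + 1` points -/
theorem mem3 {k L N : ℕ} (hk : 3 ≤ k) (h : Good3 k L N) :
    IG {k} 1 ((k - 1) * L ^ N + 1) 0 := by
  have h1 : IG {k} (1 * (k - 1)) (L ^ N) 0 := by rw [one_mul]; exact rdf_mem hk h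
  have h2 : IG {k} 1 (k - 1) 1 := by
    refine (ig_hole_iff _ _ _).2 ?_
    rw [Nat.sub_add_cancel (by omega)]
    exact ig_block k
  have h3 := (ig_hole_iff _ _ _).1 (ig_fill h1 h2)
  rwa [mul_comm (L ^ N)] at h3

theorem fam3_mem {k L N u : ℕ} (hk : 3 ≤ k) (h : Good3 k L N) (hu : k ∣ u * (u - 1))
    (hV : V3 k ≤ u) : IG {k} 1 ((k - 1) * L ^ N * u + 1) 0 := by
  have h1 : IG {k} (1 * ((k - 1) * L ^ N)) u 0 := by
    rw [one_mul]; exact fam3_idem hk h.goodP hu hV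
  have h2 : IG {k} 1 ((k - 1) * L ^ N) 1 := (ig_hole_iff _ _ _).2 (mem3 hk h)
  have h3 := (ig_hole_iff _ _ _).1 (ig_fill h1 h2)
  rwa [mul_comm u] at h3

end H108
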