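import Pool.Agent.H108R2.Signed

/-!
# Signed designs on a fixed small set of blocks
-/

namespace H108
namespace SG2

open Classical SG

variable {X P : Type} [Fintype X]

/-- `D` is achieved on the edges by a signed combination, supported on `NN`, of total weight
at most `N` -/
def AchN (π : X → P) (NN : Finset (Finset X)) (D : X → X → ℤ) (N : ℤ) : Prop :=
  ∃ f : Finset X → ℤ, (∀ b, b ∉ NN → f b = 0) ∧ ∑ b, |f b| ≤ N ∧
    ∀ x y, π x ≠ π y → ∑ b, f b * (ind b x * ind b y) = D x y

variable {π : X → P} {k : ℕ} {NN : Finset (Finset X)}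

lemma AchN.zero : AchN π NN (fun _ _ => 0) 0 :=
  ⟨fun _ => 0, fun _ _ => rfl, by simp, fun x y _ => by simp⟩

lemma AchN.mono {D : X → X → ℤ} {N N' : ℤ} (h : AchN π NN D N) (hN : N ≤ N') :
    AchN π NN D N' := by
  obtain ⟨f, h1, h2, h3⟩ := h
  exact ⟨f, h1, h2.trans hN, h3⟩

lemma AchN.congr {D D' : X → X → ℤ} {N : ℤ} (h : AchN π NN D N)
    (hD : ∀ x y, π x ≠ π y → D x y = D' x y) : AchN π NN D' N := by
  obtain ⟨f, h1, h2, h3⟩ := h
  exact ⟨f, h1, h2, fun x y hxy => (h3 x y hxy).trans (hD x y hxy)⟩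

lemma AchN.add {D D' : X → X → ℤ} {N N' : ℤ} (h : AchN π NN D N) (h' : AchN π NN D' N') :
    AchN π NN (fun x y => D x y + D' x y) (N + N') := by
  obtain ⟨f, h1, h2, h3⟩ := h
  obtain ⟨f', h1', h2', h3'⟩ := h'
  refine ⟨fun b => f b + f' b, fun b hb => by simp [h1 b hb, h1' b hb], ?_, fun x y hxy => ?_⟩
  · refine le_trans (Finset.sum_le_sum fun b _ => abs_add_le (f b) (f' b)) ?_
    rw [Finset.sum_add_distrib]
    exact add_le_add h2 h2'
  · simp only [add_mul]
    rw [Finset.sum_add_distrib, h3 x y hxy, h3' x y hxy]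

lemma AchN.smul {D : X → X → ℤ} {N : ℤ} (c : ℤ) (h : AchN π NN D N) :
    AchN π NN (fun x y => c * D x y) (|c| * N) := by
  obtain ⟨f, h1, h2, h3⟩ := h
  refine ⟨fun b => c * f b, fun b hb => by simp [h1 b hb], ?_, fun x y hxy => ?_⟩
  · simp only [abs_mul]
    rw [← Finset.mul_sum]
    exact mul_le_mul_of_nonneg_left h2 (abs_nonneg c)
  · simp only [mul_assoc]
    rw [← Finset.mul_sum, h3 x y hxy]

lemma AchN.sum {ι : Type} (s : Finset ι) (D : ι → X → X → ℤ) (N : ι → ℤ)
    (h : ∀ i ∈ s, AchN π NN (D i) (N i)) :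
    AchN π NN (fun x y => ∑ i ∈ s, D i x y) (∑ i ∈ s, N i) := by
  induction s using Finset.induction_on with
  | empty => simpa using AchN.zero
  | insert a s ha ih =>
    have h1 := (h a (Finset.mem_insert_self a s)).add
      (ih fun i hi => h i (Finset.mem_insert_of_mem hi))
    simp only [Finset.sum_insert ha]
    exact h1

lemma AchN.block {b : Finset X} (hb : b ∈ NN) :
    AchN π NN (fun x y => ind b x * ind b y) 1 := by
  refine ⟨fun b' => if b' = b then 1 else 0, fun b' hb' => ?_, ?_, fun x y _ => ?_⟩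
  · have : b' ≠ b := fun h => hb' (h ▸ hb)
    simp [this]
  · have : ∀ b' : Finset X, |(if b' = b then (1:ℤ) else 0)| = if b' = b then 1 else 0 := by
      intro b'; split_ifs <;> simp
    simp [this]
  · simp [ite_mul]

/-- Kernel lemma -/
lemma AchN.kernel (hparts : k + 2 ≤ (Finset.univ.image π).card) (hk : 2 ≤ k)
    (hcyc : ∀ {a b c d : X}, π a ≠ π b → π b ≠ π c → π c ≠ π d → π d ≠ π a →
      AchN π NN (SG.cyc a b c d) 4)
    (D : X → X → ℤ) (M : ℤ) (hM : ∀ x y, |D x y| ≤ M) (hsym : ∀ x y, D x y = D y x)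
    (hna : ∀ x y, π x = π y → D x y = 0) (hrow : ∀ x, ∑ y, D x y = 0) :
    AchN π NN D (4 * (Fintype.card X : ℤ) ^ 2 * M +
      4 * (Fintype.card X : ℤ) * (M + 4 * (Fintype.card X : ℤ) ^ 2 * M)) := by
  set n0 : ℤ := (Fintype.card X : ℤ) with hn0
  have hn0' : (Finset.univ : Finset X).card = Fintype.card X := Finset.card_univ
  obtain ⟨S, hSc, hSi, -⟩ := exists_trans (π := π) ∅ 3 (by simp; omega)
  obtain ⟨v0, v1, v2, h01, h02, h12, hSe⟩ := Finset.card_eq_three.1 hSc
  subst hSe
  have p01 : π v0 ≠ π v1 := fun h => h01 (hSi (by simp) (by simp) h)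
  have p02 : π v0 ≠ π v2 := fun h => h02 (hSi (by simp) (by simp) h)
  have p12 : π v1 ≠ π v2 := fun h => h12 (hSi (by simp) (by simp) h)
  have hM0 : 0 ≤ M := (abs_nonneg _).trans (hM v0 v0)
  -- orientation
  let ord : X → ℕ := fun x => (Fintype.equivFin X x).val
  have hord : ∀ x y, x ≠ y → ord x ≠ ord y := by
    intro x y hxy h
    exact hxy ((Fintype.equivFin X).injective (Fin.ext h))
  let good : X → X → Prop := fun x y => x ≠ v0 ∧ x ≠ v1 ∧ y ≠ v0 ∧ y ≠ v1 ∧ π x ≠ π y ∧
    π y ≠ π v0 ∧ π x ≠ π v1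
  let Sel : X → X → Prop := fun x y => good x y ∧ (¬ good y x ∨ ord x < ord y)
  have hSel : ∀ u w, u ≠ v0 → u ≠ v1 → w ≠ v0 → w ≠ v1 → π u ≠ π w →
      (if Sel u w then (1:ℤ) else 0) + (if Sel w u then 1 else 0) = 1 := by
    intro u w hu0 hu1 hw0 hw1 huw
    have hgood : good u w ∨ good w u := by
      by_cases h1 : π w = π v0
      · right
        exact ⟨hw0, hw1, hu0, hu1, huw.symm, fun h => huw (by rw [h, h1]), by rw [h1]; exact p01⟩
      · by_cases h2 : π u = π v1
        · right
          exact ⟨hw0, hw1, hu0, hu1, huw.symm, by rw [h2]; exact p01.symm, fun h => huw (by rw [h, h2])⟩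
        · left
          exact ⟨hu0, hu1, hw0, hw1, huw, h1, h2⟩
    have hne : u ≠ w := fun h => huw (by rw [h])
    have hlt := hord u w hne
    by_cases g1 : good u w
    · by_cases g2 : good w u
      · rcases lt_or_gt_of_ne hlt with h | h
        · have s1 : Sel u w := ⟨g1, Or.inr h⟩
          have s2 : ¬ Sel w u := by
            rintro ⟨_, h' | h'⟩
            · exact h' g1
            · omega
          simp [s1, s2]
        · have s1 : Sel w u := ⟨g2, Or.inr h⟩
          have s2 : ¬ Sel u w := by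
            rintro ⟨_, h' | h'⟩
            · exact h' g2
            · omega
          simp [s1, s2]
      · have s1 : Sel u w := ⟨g1, Or.inl g2⟩
        have s2 : ¬ Sel w u := fun h => g2 h.1
        simp [s1, s2]
    · have g2 : good w u := hgood.resolve_left g1
      have s1 : Sel w u := ⟨g2, Or.inl g1⟩
      have s2 : ¬ Sel u w := fun h => g1 h.1
      simp [s1, s2]
  let G : X → X → X → X → ℤ := fun x y u w => if Sel x y then D x y * SG.cyc x y v0 v1 u w else 0
  have hG : ∀ x y, AchN π NN (G x y) (4 * M) := by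
    intro x y
    by_cases h : Sel x y
    · obtain ⟨⟨g1, g2, g3, g4, g5, g6, g7⟩, -⟩ := id h
      have := (hcyc g5 g6 p01 (Ne.symm g7)).smul (D x y)
      refine (this.mono ?_).congr ?_
      · have := hM x y
        nlinarith
      · intro u w _
        simp only [G, h, if_true]
    · refine (AchN.zero.mono (by linarith)).congr ?_
      intro u w _
      simp only [G, h, if_false]
  have hGs : AchN π NN (fun u w => ∑ x, ∑ y, G x y u w) (4 * n0 ^ 2 * M) := by
    have h1 : ∀ x ∈ (Finset.univ : Finset X), AchN π NN (fun u w => ∑ y, G x y u w) (∑ _y : X, 4 * M) :=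
      fun x _ => AchN.sum Finset.univ (G x) (fun _ => 4 * M) (fun y _ => hG x y)
    refine (AchN.sum Finset.univ _ _ h1).mono ?_
    simp only [Finset.sum_const, Finset.card_univ, nsmul_eq_mul]
    apply le_of_eq
    rw [hn0]; ring
  let R : X → X → ℤ := fun u w => D u w - ∑ x, ∑ y, G x y u w
  have hGsym : ∀ x y u w, G x y u w = G x y w u := by
    intro x y u w
    simp only [G]
    rw [cyc_symm]
  have hR1 : ∀ u w, R u w = R w u := by
    intro u w
    simp only [R]
    rw [hsym u w]
    congr 1
    exact Finset.sum_congr rfl fun x _ => Finset.sum_congr rfl fun y _ => hGsym x y u w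
  have hR2 : ∀ u w, π u = π w → R u w = 0 := by
    intro u w h
    simp only [R]
    rw [hna u w h]
    have : ∀ x y, G x y u w = 0 := by
      intro x y
      simp only [G]
      split_ifs with hs
      · obtain ⟨⟨g1, g2, g3, g4, g5, g6, g7⟩, -⟩ := hs
        rw [cyc_na g5 g6 p01 (Ne.symm g7) h, mul_zero]
      · rfl
    simp [this]
  have hR3 : ∀ u, ∑ w, R u w = 0 := by
    intro u
    simp only [R]
    rw [Finset.sum_sub_distrib, hrow u, zero_sub, neg_eq_zero, Finset.sum_comm]
    refine Finset.sum_eq_zero fun x _ => ?_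
    rw [Finset.sum_comm]
    refine Finset.sum_eq_zero fun y _ => ?_
    simp only [G]
    split_ifs with hs
    · rw [← Finset.mul_sum, cyc_row, mul_zero]
    · simp
  have hR4 : ∀ u w, u ≠ v0 → u ≠ v1 → w ≠ v0 → w ≠ v1 → R u w = 0 := by
    intro u w hu0 hu1 hw0 hw1
    by_cases huw : π u = π w
    · exact hR2 u w huw
    simp only [R]
    have e1 : ∀ x y, G x y u w = (if Sel x y then D x y else 0) * dl x u * dl y w +
        (if Sel x y then D x y else 0) * dl x w * dl y u := by
      intro x y
      simp only [G]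
      split_ifs with hs
      · simp only [SG.cyc, ed, dl_ne hu0, dl_ne hu1, dl_ne hw0, dl_ne hw1]
        ring
      · simp
    have e2 : ∀ p q : X, ∑ x, ∑ y, (if Sel x y then D x y else 0) * dl x p * dl y q =
        if Sel p q then D p q else 0 := by
      intro p q
      have : ∀ x, ∑ y, (if Sel x y then D x y else 0) * dl x p * dl y q =
          (if Sel x q then D x q else 0) * dl x p := by
        intro x
        exact sum_mul_dl (fun y => (if Sel x y then D x y else 0) * dl x p) q
      simp only [this]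
      exact sum_mul_dl (fun x => if Sel x q then D x q else 0) p
    simp only [e1, Finset.sum_add_distrib, e2]
    have h3 := hSel u w hu0 hu1 hw0 hw1 huw
    have h4 := hsym w u
    by_cases s1 : Sel u w
    · by_cases s2 : Sel w u
      · simp [s1, s2] at h3
      · simp [s1, s2]
    · by_cases s2 : Sel w u
      · simp [s1, s2, h4]
      · simp [s1, s2] at h3
  have hR5 : ∀ u w, |R u w| ≤ M + 4 * n0 ^ 2 * M := by
    intro u w
    have e1 : ∀ x y, |G x y u w| ≤ 4 * M := by
      intro x y
      simp only [G]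
      split_ifs with hs
      · obtain ⟨⟨g1, g2, g3, g4, g5, g6, g7⟩, -⟩ := hs
        rw [abs_mul]
        have h1 := cyc_abs (fun h => g5 (by rw [h])) g3 h01 (Ne.symm g2) u w
        have h2 := hM x y
        nlinarith [abs_nonneg (D x y), abs_nonneg (SG.cyc x y v0 v1 u w)]
      · simp; linarith
    have e2 : |∑ x, ∑ y, G x y u w| ≤ 4 * n0 ^ 2 * M := by
      refine (Finset.abs_sum_le_sum_abs _ _).trans ?_
      refine (Finset.sum_le_sum fun x _ => (Finset.abs_sum_le_sum_abs _ _).trans
        (Finset.sum_le_sum fun y _ => e1 x y)).trans ?_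
      simp only [Finset.sum_const, Finset.card_univ, nsmul_eq_mul]
      apply le_of_eq
      rw [hn0]; ring
    have h2 := hM u w
    have h3 : |R u w| ≤ |D u w| + |∑ x, ∑ y, G x y u w| := by
      simp only [R]
      exact abs_sub _ _
    linarith
  -- second step
  let ee : X → ℤ := fun x => if x = v0 ∨ x = v1 then 0 else R v0 x
  have he0 : ee v0 = 0 := by simp [ee]
  have he1 : ee v1 = 0 := by simp [ee]
  have hee : ∀ x, x ≠ v0 → x ≠ v1 → ee x = R v0 x := by
    intro x h0 h1; simp [ee, h0, h1]
  have hcol : ∀ w, w ≠ v0 → w ≠ v1 → R v1 w = - R v0 w := by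
    intro w hw0 hw1
    have h1 := hR3 w
    have h2 : ∑ u, R w u = R w v0 + R w v1 := by
      rw [← Finset.sum_pair h01]
      symm
      refine Finset.sum_subset (Finset.subset_univ _) fun u _ hu => ?_
      simp only [Finset.mem_insert, Finset.mem_singleton, not_or] at hu
      exact hR4 w u hw0 hw1 hu.1 hu.2
    rw [h2] at h1
    rw [hR1 v1 w, hR1 v0 w]
    linarith
  have hrow0 : (∑ w, ee w) + R v0 v1 = 0 := by
    have h1 := hR3 v0
    have h2 : ∀ w, R v0 w = ee w + (if w = v1 then R v0 v1 else 0) := by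
      intro w
      by_cases h : w = v0
      · subst h; rw [hR2 w w rfl, he0]; simp [h01]
      · by_cases h' : w = v1
        · subst h'; rw [he1]; simp
        · rw [hee w h h']; simp [h']
    rw [Finset.sum_congr rfl fun w _ => h2 w, Finset.sum_add_distrib] at h1
    simpa using h1
  have hrow1 : - (∑ w, ee w) + R v0 v1 = 0 := by
    have h1 := hR3 v1
    have h2 : ∀ w, R v1 w = - ee w + (if w = v0 then R v1 v0 else 0) := by
      intro w
      by_cases h : w = v0
      · subst h; rw [he0]; simp
      · by_cases h' : w = v1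
        · subst h'; rw [hR2 w w rfl, he1]; simp [Ne.symm h01]
        · rw [hee w h h', hcol w h h']; simp [h]
    rw [Finset.sum_congr rfl fun w _ => h2 w, Finset.sum_add_distrib] at h1
    simp only [Finset.sum_neg_distrib, Finset.sum_ite_eq', Finset.mem_univ, if_true] at h1
    rw [hR1 v1 v0] at h1
    exact h1
  have hs0 : ∑ w, ee w = 0 := by linarith
  have hR01 : R v0 v1 = 0 := by linarith
  have hid : ∀ u w, R u w = ∑ x, ee x * SG.cyc v0 x v1 v2 u w := by
    intro u w
    have e1 : ∑ x, ee x * SG.cyc v0 x v1 v2 u w =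
        dl v0 u * ee w + ee u * dl v0 w - (ee u * dl v1 w + dl v1 u * ee w) := by
      have : ∀ x, ee x * SG.cyc v0 x v1 v2 u w = dl v0 u * (ee x * dl x w) + dl v0 w * (ee x * dl x u)
          - dl v1 w * (ee x * dl x u) - dl v1 u * (ee x * dl x w)
          + (ed v1 v2 u w - ed v2 v0 u w) * ee x := by
        intro x
        simp only [SG.cyc, ed]
        ring
      simp only [this, Finset.sum_add_distrib, Finset.sum_sub_distrib, ← Finset.mul_sum, sum_mul_dl,
        hs0]
      ring
    rw [e1]
    by_cases hu0 : u = v0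
    · subst hu0
      rw [dl_self, he0, dl_ne h01]
      by_cases hw0 : w = u
      · subst hw0; rw [hR2 w w rfl, he0]; ring
      · by_cases hw1 : w = v1
        · subst hw1; rw [hR01, he1]; ring
        · rw [hee w hw0 hw1]; ring
    · by_cases hu1 : u = v1
      · subst hu1
        rw [dl_self, he1, dl_ne hu0]
        by_cases hw0 : w = v0
        · subst hw0; rw [hR1, hR01, he0]; ring
        · by_cases hw1 : w = u
          · subst hw1; rw [hR2 w w rfl, he1]; ring
          · rw [hee w hw0 hw1, hcol w hw0 hw1]; ring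
      · rw [dl_ne hu0, dl_ne hu1]
        by_cases hw0 : w = v0
        · subst hw0; rw [hR1, hee u hu0 hu1, dl_self, dl_ne h01]; ring
        · by_cases hw1 : w = v1
          · subst hw1; rw [hR1, hcol u hu0 hu1, hee u hu0 hu1, dl_self, dl_ne hw0]; ring
          · rw [hR4 u w hu0 hu1 hw0 hw1, dl_ne hw0, dl_ne hw1]; ring
  have hE : ∀ x ∈ (Finset.univ : Finset X), AchN π NN (fun u w => ee x * SG.cyc v0 x v1 v2 u w)
      (4 * (M + 4 * n0 ^ 2 * M)) := by
    intro x _
    by_cases hx : ee x = 0
    · refine (AchN.zero.mono ?_).congr (fun u w _ => by rw [hx, zero_mul])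
      have := hR5 v0 v0
      have := abs_nonneg (R v0 v0)
      linarith
    · have hx0 : x ≠ v0 := fun h => hx (by rw [h, he0])
      have hx1 : x ≠ v1 := fun h => hx (by rw [h, he1])
      have q0 : π v0 ≠ π x := by
        intro h
        apply hx
        rw [hee x hx0 hx1, hR2 v0 x h]
      have q1 : π x ≠ π v1 := by
        intro h
        apply hx
        have := hcol x hx0 hx1
        rw [hR2 v1 x h.symm] at this
        rw [hee x hx0 hx1]
        linarith
      refine ((hcyc q0 q1 p12 (Ne.symm p02)).smul (ee x)).mono ?_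
      have := hR5 v0 x
      rw [← hee x hx0 hx1] at this
      linarith
  have hEs := AchN.sum Finset.univ _ _ hE
  refine ((hGs.add hEs).mono ?_).congr ?_
  · simp only [Finset.sum_const, Finset.card_univ, nsmul_eq_mul]
    apply le_of_eq
    rw [hn0]; ring
  · intro u w _
    have := hid u w
    simp only [R] at this
    linarith

/-- the blocks used for the alternating 4-cycles -/
lemma exists_cyc_blocks (hparts : k + 2 ≤ (Finset.univ.image π).card) (hk : 2 ≤ k) :
    ∃ N4 : Finset (Finset X), (∀ b ∈ N4, TRs π k b) ∧ N4.card ≤ 4 * (Fintype.card X) ^ 4 ∧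
      ∀ NN : Finset (Finset X), N4 ⊆ NN → ∀ {a b c d : X}, π a ≠ π b → π b ≠ π c → π c ≠ π d →
        π d ≠ π a → AchN π NN (SG.cyc a b c d) 4 := by
  have hex : ∀ q : X × X × X × X, ∃ S : Finset X, S.card = k - 2 ∧ Set.InjOn π (S : Set X) ∧
      ∀ x ∈ S, π x ∉ ({π q.1, π q.2.1, π q.2.2.1, π q.2.2.2} : Finset P) := by
    intro q
    have hT : ({π q.1, π q.2.1, π q.2.2.1, π q.2.2.2} : Finset P).card ≤ 4 := Finset.card_le_four
    exact exists_trans (π := π) _ (k - 2) (by omega)
  choose S hSc hSi hST using hex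
  let F1 : X × X × X × X → Finset X := fun q => insert q.1 (insert q.2.1 (S q))
  let F2 : X × X × X × X → Finset X := fun q => insert q.2.1 (insert q.2.2.1 (S q))
  let F3 : X × X × X × X → Finset X := fun q => insert q.2.2.1 (insert q.2.2.2 (S q))
  let F4 : X × X × X × X → Finset X := fun q => insert q.2.2.2 (insert q.1 (S q))
  let N0 : Finset (Finset X) := ((Finset.univ.image F1 ∪ Finset.univ.image F2) ∪
    (Finset.univ.image F3 ∪ Finset.univ.image F4))
  refine ⟨N0.filter (TRs π k), fun b hb => (Finset.mem_filter.1 hb).2, ?_, ?_⟩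
  · have hq : (Finset.univ : Finset (X × X × X × X)).card = (Fintype.card X) ^ 4 := by
      rw [Finset.card_univ, Fintype.card_prod, Fintype.card_prod, Fintype.card_prod]
      ring
    have i1 : (Finset.univ.image F1).card ≤ (Fintype.card X) ^ 4 := Finset.card_image_le.trans hq.le
    have i2 : (Finset.univ.image F2).card ≤ (Fintype.card X) ^ 4 := Finset.card_image_le.trans hq.le
    have i3 : (Finset.univ.image F3).card ≤ (Fintype.card X) ^ 4 := Finset.card_image_le.trans hq.le
    have i4 : (Finset.univ.image F4).card ≤ (Fintype.card X) ^ 4 := Finset.card_image_le.trans hq.le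
    have u1 := Finset.card_union_le (Finset.univ.image F1) (Finset.univ.image F2)
    have u2 := Finset.card_union_le (Finset.univ.image F3) (Finset.univ.image F4)
    have u3 := Finset.card_union_le (Finset.univ.image F1 ∪ Finset.univ.image F2)
      (Finset.univ.image F3 ∪ Finset.univ.image F4)
    have u4 := Finset.card_filter_le N0 (TRs π k)
    have u5 : N0.card ≤ (Finset.univ.image F1 ∪ Finset.univ.image F2).card +
      (Finset.univ.image F3 ∪ Finset.univ.image F4).card := u3
    show (N0.filter (TRs π k)).card ≤ _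
    omega
  · intro NN hNN a b c d hab hbc hcd hda
    set q : X × X × X × X := (a, b, c, d) with hq
    have hSa : ∀ x ∈ S q, π x ≠ π a := fun x hx h => hST q x hx (by simp [hq, h])
    have hSb : ∀ x ∈ S q, π x ≠ π b := fun x hx h => hST q x hx (by simp [hq, h])
    have hSc' : ∀ x ∈ S q, π x ≠ π c := fun x hx h => hST q x hx (by simp [hq, h])
    have hSd : ∀ x ∈ S q, π x ≠ π d := fun x hx h => hST q x hx (by simp [hq, h])
    have naS : a ∉ S q := fun h => hSa a h rfl
    have nbS : b ∉ S q := fun h => hSb b h rfl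
    have ncS : c ∉ S q := fun h => hSc' c h rfl
    have ndS : d ∉ S q := fun h => hSd d h rfl
    have e1 : ∀ {u v : X}, u ∉ S q → v ∉ S q → π u ≠ π v → ∀ x,
        ind (insert u (insert v (S q))) x = dl u x + (dl v x + ind (S q) x) := by
      intro u v hu hv huv x
      rw [ind_insert, ind_insert hv]
      intro h
      rcases Finset.mem_insert.1 h with h | h
      · exact huv (by rw [h])
      · exact hu h
    have m1 : insert a (insert b (S q)) ∈ NN := hNN (Finset.mem_filter.2
      ⟨Finset.mem_union_left _ (Finset.mem_union_left _ (Finset.mem_image_of_mem F1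
        (Finset.mem_univ q))), TRs.insert2 (π := π) hk (hSc q) (hSi q) hSa hSb hab⟩)
    have m2 : insert b (insert c (S q)) ∈ NN := hNN (Finset.mem_filter.2
      ⟨Finset.mem_union_left _ (Finset.mem_union_right _ (Finset.mem_image_of_mem F2
        (Finset.mem_univ q))), TRs.insert2 (π := π) hk (hSc q) (hSi q) hSb hSc' hbc⟩)
    have m3 : insert c (insert d (S q)) ∈ NN := hNN (Finset.mem_filter.2
      ⟨Finset.mem_union_right _ (Finset.mem_union_left _ (Finset.mem_image_of_mem F3
        (Finset.mem_univ q))), TRs.insert2 (π := π) hk (hSc q) (hSi q) hSc' hSd hcd⟩)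
    have m4 : insert d (insert a (S q)) ∈ NN := hNN (Finset.mem_filter.2
      ⟨Finset.mem_union_right _ (Finset.mem_union_right _ (Finset.mem_image_of_mem F4
        (Finset.mem_univ q))), TRs.insert2 (π := π) hk (hSc q) (hSi q) hSd hSa hda⟩)
    have B1 := AchN.block (π := π) m1
    have B2 := (AchN.block (π := π) m2).smul (-1)
    have B3 := AchN.block (π := π) m3
    have B4 := (AchN.block (π := π) m4).smul (-1)
    refine (((B1.add B2).add (B3.add B4)).mono (by norm_num)).congr ?_
    intro x y _
    simp only [e1 naS nbS hab, e1 nbS ncS hbc, e1 ncS ndS hcd, e1 ndS naS hda, SG.cyc, ed]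
    ring

/-- prescribed vertex degrees, on a fixed set of blocks -/
lemma exists_deg_blocks (hparts : k + 2 ≤ (Finset.univ.image π).card) (hk : 1 ≤ k) :
    ∃ N1 : Finset (Finset X), (∀ b ∈ N1, TRs π k b) ∧ N1.card ≤ 1 + 2 * Fintype.card X ∧
      ∀ (d : X → ℤ), (∀ x, 0 ≤ d x) → ∀ c0 : ℤ, 0 ≤ c0 → ∑ x, d x = k * c0 →
        ∃ f : Finset X → ℤ, (∀ b, b ∉ N1 → f b = 0) ∧ ∑ b, |f b| ≤ c0 + 4 * ∑ x, d x ∧
          ∀ x, ∑ b, f b * ind b x = d x := by
  obtain ⟨b0, hb0c, hb0i, -⟩ := exists_trans (π := π) ∅ k (by simp; omega)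
  have hb0 : TRs π k b0 := ⟨hb0c, hb0i⟩
  have hne : b0.Nonempty := by
    rw [← Finset.card_pos, hb0c]; omega
  obtain ⟨x0, -⟩ := hne
  have hex : ∀ z : X, ∃ S : Finset X, S.card = k - 1 ∧ Set.InjOn π (S : Set X) ∧
      ∀ x ∈ S, π x ∉ ({π z, π x0} : Finset P) := by
    intro z
    refine exists_trans (π := π) {π z, π x0} (k - 1) ?_
    have : ({π z, π x0} : Finset P).card ≤ 2 := Finset.card_le_two
    omega
  choose S hSc hSi hST using hex
  have hSz : ∀ z, ∀ x ∈ S z, π x ≠ π z := fun z x hx h => hST z x hx (by simp [h])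
  have hS0 : ∀ z, ∀ x ∈ S z, π x ≠ π x0 := fun z x hx h => hST z x hx (by simp [h])
  have hA : ∀ z, TRs π k (insert z (S z)) := fun z => TRs.insert1 hk (hSc z) (hSi z) (hSz z)
  have hB : ∀ z, TRs π k (insert x0 (S z)) := fun z => TRs.insert1 hk (hSc z) (hSi z) (hS0 z)
  refine ⟨{b0} ∪ (Finset.univ.image (fun z => insert z (S z)) ∪
    Finset.univ.image (fun z => insert x0 (S z))), ?_, ?_, ?_⟩
  · intro b hb
    simp only [Finset.mem_union, Finset.mem_singleton, Finset.mem_image, Finset.mem_univ,
      true_and] at hb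
    rcases hb with h | ⟨z, h⟩ | ⟨z, h⟩
    · rw [h]; exact hb0
    · rw [← h]; exact hA z
    · rw [← h]; exact hB z
  · have i1 : (Finset.univ.image (fun z => insert z (S z))).card ≤ Fintype.card X :=
      Finset.card_image_le.trans Finset.card_univ.le
    have i2 : (Finset.univ.image (fun z => insert x0 (S z))).card ≤ Fintype.card X :=
      Finset.card_image_le.trans Finset.card_univ.le
    have u1 := Finset.card_union_le (Finset.univ.image (fun z => insert z (S z)))
      (Finset.univ.image (fun z => insert x0 (S z)))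
    have u2 := Finset.card_union_le {b0} (Finset.univ.image (fun z => insert z (S z)) ∪
      Finset.univ.image (fun z => insert x0 (S z)))
    have u3 : ({b0} : Finset (Finset X)).card = 1 := Finset.card_singleton _
    omega
  intro d hd0 c0 hc00 hc0
  let δ : X → ℤ := fun x => d x - c0 * ind b0 x
  have hδ0 : ∑ x, δ x = 0 := by
    simp only [δ]
    rw [Finset.sum_sub_distrib, ← Finset.mul_sum, sum_ind, hb0c, hc0]; ring
  have hδa : ∑ x, |δ x| ≤ 2 * ∑ x, d x := by
    have : ∀ x, |δ x| ≤ d x + c0 * ind b0 x := by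
      intro x
      refine (abs_sub _ _).trans ?_
      rw [abs_of_nonneg (hd0 x), abs_of_nonneg (mul_nonneg hc00 (ind_nonneg _ _))]
    refine (Finset.sum_le_sum fun x _ => this x).trans ?_
    rw [Finset.sum_add_distrib, ← Finset.mul_sum, sum_ind, hb0c, hc0]
    linarith
  let f : Finset X → ℤ := fun b => (if b = b0 then c0 else 0) +
    ∑ z, δ z * ((if b = insert z (S z) then 1 else 0) - (if b = insert x0 (S z) then 1 else 0))
  refine ⟨f, ?_, ?_, ?_⟩
  · intro b hb
    have h1 : b ≠ b0 := fun h => hb (by simp [h])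
    have h2 : ∀ z, b ≠ insert z (S z) := fun z h => hb (by
      rw [h]
      exact Finset.mem_union_right _ (Finset.mem_union_left _
        (Finset.mem_image_of_mem (fun z => insert z (S z)) (Finset.mem_univ z))))
    have h3 : ∀ z, b ≠ insert x0 (S z) := fun z h => hb (by
      rw [h]
      exact Finset.mem_union_right _ (Finset.mem_union_right _
        (Finset.mem_image_of_mem (fun z => insert x0 (S z)) (Finset.mem_univ z))))
    simp [f, h1, h2, h3]
  · have h1 : ∀ b, |f b| ≤ (if b = b0 then c0 else 0) +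
        ∑ z, |δ z| * ((if b = insert z (S z) then 1 else 0) + (if b = insert x0 (S z) then 1 else 0)) := by
      intro b
      refine (abs_add_le _ _).trans (add_le_add ?_ ?_)
      · split_ifs
        · rw [abs_of_nonneg hc00]
        · simp
      · refine (Finset.abs_sum_le_sum_abs _ _).trans (Finset.sum_le_sum fun z _ => ?_)
        rw [abs_mul]
        refine mul_le_mul_of_nonneg_left ?_ (abs_nonneg _)
        split_ifs <;> simp
    refine (Finset.sum_le_sum fun b _ => h1 b).trans ?_
    rw [Finset.sum_add_distrib, Finset.sum_comm]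
    have h2 : ∀ z, ∑ b : Finset X, |δ z| * ((if b = insert z (S z) then (1:ℤ) else 0) +
        (if b = insert x0 (S z) then 1 else 0)) = 2 * |δ z| := by
      intro z
      rw [← Finset.mul_sum, Finset.sum_add_distrib]
      simp; ring
    simp only [h2]
    rw [← Finset.mul_sum]
    simp only [Finset.sum_ite_eq', Finset.mem_univ, if_true]
    linarith
  · intro x
    have h1 : ∑ b, f b * ind b x = c0 * ind b0 x +
        ∑ z, δ z * (ind (insert z (S z)) x - ind (insert x0 (S z)) x) := by
      simp only [f, add_mul, Finset.sum_add_distrib, Finset.sum_mul]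
      congr 1
      · simp
      · rw [Finset.sum_comm]
        refine Finset.sum_congr rfl fun z _ => ?_
        simp only [mul_assoc, ← Finset.mul_sum, sub_mul, Finset.sum_sub_distrib]
        simp
    rw [h1]
    have h2 : ∀ z, ind (insert z (S z)) x - ind (insert x0 (S z)) x = dl z x - dl x0 x := by
      intro z
      rw [ind_insert (fun h => hSz z z h rfl), ind_insert (fun h => hS0 z x0 h rfl)]
      ring
    simp only [h2, mul_sub, Finset.sum_sub_distrib, sum_mul_dl]
    rw [← Finset.sum_mul, hδ0]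
    simp only [δ]
    ring


end SG2

open Classical SG SG2 in
theorem signed_gen {X P : Type} [Fintype X] (π : X → P) (k : ℕ) (hk : 3 ≤ k)
    (hparts : k + 2 ≤ (Finset.univ.image π).card) :
    ∃ NN : Finset (Finset X), (∀ b ∈ NN, b.card = k ∧ Set.InjOn π (b : Set X)) ∧
      NN.card ≤ 10 * (Fintype.card X) ^ 4 ∧
      ∀ (D : X → X → ℤ) (M : ℤ), (∀ x y, 0 ≤ D x y ∧ D x y ≤ M) → (∀ x y, D x y = D y x) →
        (∀ x y, π x = π y → D x y = 0) → (∀ x, ((k : ℤ) - 1) ∣ ∑ y, D x y) →
        ((k : ℤ) * ((k : ℤ) - 1) ∣ ∑ x, ∑ y, D x y) →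
        ∃ f : Finset X → ℤ, (∀ b, b ∉ NN → f b = 0) ∧
          ∑ b, |f b| ≤ 100 * (Fintype.card X : ℤ) ^ 5 * M ∧
          ∀ x y, π x ≠ π y →
            ∑ b ∈ Finset.univ.filter (fun b : Finset X => x ∈ b ∧ y ∈ b), f b = D x y := by
  obtain ⟨N4, hN4, hN4c, hcyc⟩ := exists_cyc_blocks hparts (by omega)
  obtain ⟨N1, hN1, hN1c, hdg⟩ := exists_deg_blocks hparts (by omega)
  have hn1' : 1 ≤ Fintype.card X := by
    have h1 : (Finset.univ.image π).card ≤ Fintype.card X := by
      refine Finset.card_image_le.trans ?_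
      rw [Finset.card_univ]
    omega
  refine ⟨N4 ∪ N1, ?_, ?_, ?_⟩
  · intro b hb
    rcases Finset.mem_union.1 hb with h | h
    · exact hN4 b h
    · exact hN1 b h
  · have h1 := Finset.card_union_le N4 N1
    have h2 : Fintype.card X ≤ (Fintype.card X) ^ 4 := Nat.le_self_pow (by norm_num) _
    have h3 : 1 ≤ (Fintype.card X) ^ 4 := Nat.one_le_pow _ _ hn1'
    omega
  intro D M hD hsym hna hrow htot
  set NN := N4 ∪ N1 with hNN
  set n : ℤ := (Fintype.card X : ℤ) with hn
  have hn1 : 1 ≤ n := by rw [hn]; exact_mod_cast hn1'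
  have hk' : (3 : ℤ) ≤ k := by exact_mod_cast hk
  obtain ⟨z0⟩ : Nonempty X := Fintype.card_pos_iff.1 (by omega)
  have hM0 : 0 ≤ M := (hD z0 z0).1.trans (hD z0 z0).2
  choose d hd using hrow
  obtain ⟨c0, hc0⟩ := htot
  have hd0 : ∀ x, 0 ≤ d x := by
    intro x
    have h1 : 0 ≤ ∑ y, D x y := Finset.sum_nonneg fun y _ => (hD x y).1
    rw [hd x] at h1
    exact nonneg_of_mul_nonneg_right h1 (by linarith)
  have hsum : ∑ x, d x = k * c0 := by
    have h1 : ((k : ℤ) - 1) * ∑ x, d x = ((k : ℤ) - 1) * (k * c0) := by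
      rw [Finset.mul_sum, ← Finset.sum_congr rfl fun x _ => hd x, hc0]; ring
    exact mul_left_cancel₀ (by linarith) h1
  have hc00 : 0 ≤ c0 := by
    have h1 : 0 ≤ ∑ x, d x := Finset.sum_nonneg fun x _ => hd0 x
    rw [hsum] at h1
    exact nonneg_of_mul_nonneg_right h1 (by linarith)
  obtain ⟨f0, h01, h02, h03⟩ := hdg d hd0 c0 hc00 hsum
  have hb2 : 2 * ∑ x, d x ≤ n ^ 2 * M := by
    have h1 : ((k : ℤ) - 1) * ∑ x, d x ≤ n ^ 2 * M := by
      rw [Finset.mul_sum, ← Finset.sum_congr rfl fun x _ => hd x]
      refine (Finset.sum_le_sum fun x _ => Finset.sum_le_sum fun y _ => (hD x y).2).trans ?_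
      simp only [Finset.sum_const, Finset.card_univ, nsmul_eq_mul]
      rw [hn]
      apply le_of_eq
      ring
    have h2 : 0 ≤ ∑ x, d x := Finset.sum_nonneg fun x _ => hd0 x
    nlinarith
  have hc3 : 3 * c0 ≤ ∑ x, d x := by
    rw [hsum]
    nlinarith
  have hf0 : ∑ b, |f0 b| ≤ 3 * n ^ 2 * M := by
    have h3 : (0:ℤ) ≤ n ^ 2 * M := by positivity
    linarith
  have h01' : ∀ b, ¬ TRs π k b → f0 b = 0 := fun b hb => h01 b fun h => hb (hN1 b h)
  let D' : X → X → ℤ := fun x y =>
    if π x = π y then 0 else D x y - ∑ b, f0 b * (ind b x * ind b y)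
  have hker := AchN.kernel (NN := NN) hparts (by omega)
    (fun {a b c d} => hcyc NN Finset.subset_union_left) D' ((3 * n ^ 2 + 1) * M) ?_ ?_ ?_ ?_
  · obtain ⟨f1, h11, h12, h13⟩ := hker
    refine ⟨fun b => f0 b + f1 b, fun b hb => ?_, ?_, fun x y hxy => ?_⟩
    · have : b ∉ N1 := fun h => hb (Finset.mem_union_right _ h)
      simp [h01 b this, h11 b hb]
    · refine (Finset.sum_le_sum fun b _ => abs_add_le (f0 b) (f1 b)).trans ?_
      rw [Finset.sum_add_distrib]
      refine (add_le_add hf0 h12).trans ?_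
      rw [← hn]
      have e2 : n ^ 2 ≤ n ^ 5 := pow_le_pow_right₀ hn1 (by norm_num)
      have e3 : n ^ 3 ≤ n ^ 5 := pow_le_pow_right₀ hn1 (by norm_num)
      have e4 : n ^ 4 ≤ n ^ 5 := pow_le_pow_right₀ hn1 (by norm_num)
      have e1 : n ≤ n ^ 5 := by
        calc n = n ^ 1 := (pow_one n).symm
          _ ≤ n ^ 5 := pow_le_pow_right₀ hn1 (by norm_num)
      have e : 3 * n ^ 2 * M + (4 * n ^ 2 * ((3 * n ^ 2 + 1) * M) +
          4 * n * ((3 * n ^ 2 + 1) * M + 4 * n ^ 2 * ((3 * n ^ 2 + 1) * M))) =
          (48 * n ^ 5 + 12 * n ^ 4 + 28 * n ^ 3 + 7 * n ^ 2 + 4 * n) * M := by ring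
      rw [e]
      apply mul_le_mul_of_nonneg_right _ hM0
      linarith [pow_nonneg (by linarith : (0:ℤ) ≤ n) 5]
    · have e : ∑ b ∈ Finset.univ.filter (fun b : Finset X => x ∈ b ∧ y ∈ b), (f0 b + f1 b) =
          ∑ b, (f0 b + f1 b) * (ind b x * ind b y) := by
        rw [Finset.sum_filter]
        refine Finset.sum_congr rfl fun b _ => ?_
        unfold SG.ind
        by_cases hx : x ∈ b <;> by_cases hy : y ∈ b <;> simp [hx, hy]
      rw [e]
      simp only [add_mul, Finset.sum_add_distrib]
      rw [h13 x y hxy]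
      simp only [D', hxy, if_false]
      ring
  · intro x y
    simp only [D']
    split_ifs with h
    · simp; positivity
    · refine (abs_sub _ _).trans ?_
      have h1 : |∑ b, f0 b * (ind b x * ind b y)| ≤ ∑ b, |f0 b| := by
        refine (Finset.abs_sum_le_sum_abs _ _).trans (Finset.sum_le_sum fun b _ => ?_)
        rw [abs_mul, abs_of_nonneg (mul_nonneg (ind_nonneg b x) (ind_nonneg b y))]
        have h2 : ind b x * ind b y ≤ 1 := by
          nlinarith [ind_nonneg b x, ind_nonneg b y, ind_le_one b x, ind_le_one b y]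
        nlinarith [abs_nonneg (f0 b)]
      rw [abs_of_nonneg (hD x y).1]
      have := (hD x y).2
      nlinarith
  · intro x y
    simp only [D']
    by_cases h : π x = π y
    · simp [h]
    · have h' : ¬ π y = π x := fun e => h e.symm
      simp only [h, h', if_false]
      rw [hsym x y]
      congr 1
      exact Finset.sum_congr rfl fun b _ => by ring
  · intro x y h
    simp [D', h]
  · intro x
    have h1 : ∀ y, D' x y = D x y -
        ∑ b, f0 b * ind b x * ((if π y ≠ π x then 1 else 0) * ind b y) := by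
      intro y
      simp only [D']
      by_cases h : π x = π y
      · simp [h, hna x y h]
      · have h' : π y ≠ π x := fun e => h e.symm
        simp only [h, if_false, h', ne_eq, not_false_eq_true, if_true, one_mul]
        congr 1
        exact Finset.sum_congr rfl fun b _ => by ring
    simp only [h1, Finset.sum_sub_distrib]
    rw [Finset.sum_comm]
    simp only [← Finset.mul_sum]
    have h2 : ∀ b, f0 b * ind b x * ∑ y, ((if π y ≠ π x then (1:ℤ) else 0) * ind b y) =
        (f0 b * ind b x) * ((k:ℤ) - 1) := by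
      intro b
      by_cases hb : TRs π k b
      · by_cases hx : x ∈ b
        · congr 1
          have h3 : ∀ y, (if π y ≠ π x then (1:ℤ) else 0) * ind b y = ind (b.erase x) y := by
            intro y
            unfold ind
            by_cases hy : y ∈ b
            · by_cases hyx : y = x
              · subst hyx; simp
              · have : π y ≠ π x := fun h => hyx (hb.2 (by simpa using hy) (by simpa using hx) h)
                simp [hy, hyx, this]
            · simp [hy]
          simp only [h3, sum_ind]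
          rw [Finset.card_erase_of_mem hx, hb.1]
          push_cast [Nat.cast_sub (by omega : 1 ≤ k)]
          ring
        · have : ind b x = 0 := by simp [ind, hx]
          rw [this]; ring
      · rw [h01' b hb]; ring
    simp only [h2]
    rw [← Finset.sum_mul, h03 x, hd x]
    ring

end H108
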