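import Pool.Agent.H108R2.Defs

namespace H108

theorem GD_union {Y P : Type} {K : Set ℕ} (ρ : Y → P) {ι : Type} (Z : ι → Type) (Q : ι → Type)
    (e : ∀ i, Z i → Y) (he : ∀ i, Function.Injective (e i)) (σ : ∀ i, Z i → Q i)
    (h1 : ∀ i z z', σ i z ≠ σ i z' → ρ (e i z) ≠ ρ (e i z'))
    (h2 : ∀ y y', ρ y ≠ ρ y' → ∃! i, ∃ z z', e i z = y ∧ e i z' = y' ∧ σ i z ≠ σ i z')
    (h3 : ∀ i, GD K (σ i)) : GD K ρ := by
  choose B hB hU using h3
  refine ⟨{b | ∃ i, ∃ c ∈ B i, b = c.map ⟨e i, he i⟩}, ?_, ?_⟩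
  · rintro b ⟨i, c, hc, rfl⟩
    refine ⟨by simpa using (hB i c hc).1, ?_⟩
    intro y hy y' hy' hyy
    simp only [Finset.coe_map, Function.Embedding.coeFn_mk, Set.mem_image, Finset.mem_coe] at hy hy'
    obtain ⟨z, hz, rfl⟩ := hy
    obtain ⟨z', hz', rfl⟩ := hy'
    by_contra hne
    have hzz : z ≠ z' := fun h => hne (by rw [h])
    have : σ i z ≠ σ i z' := fun h => hzz ((hB i c hc).2 hz hz' h)
    exact h1 i z z' this hyy
  · intro y y' hyy
    obtain ⟨i, ⟨z, z', rfl, rfl, hσ⟩, huniq⟩ := h2 y y' hyy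
    obtain ⟨c, ⟨hc, hzc, hz'c⟩, hcu⟩ := hU i z z' hσ
    refine ⟨c.map ⟨e i, he i⟩, ⟨⟨i, c, hc, rfl⟩, ?_, ?_⟩, ?_⟩
    · simpa using hzc
    · simpa using hz'c
    · rintro b ⟨⟨j, d, hd, rfl⟩, hy, hy'⟩
      simp only [Finset.mem_map, Function.Embedding.coeFn_mk] at hy hy'
      obtain ⟨w, hw, hwz⟩ := hy
      obtain ⟨w', hw', hwz'⟩ := hy'
      have hww : w ≠ w' := by
        rintro rfl
        rw [hwz] at hwz'
        exact hσ (by rw [he i hwz'])
      have hσj : σ j w ≠ σ j w' := fun h => hww ((hB j d hd).2 hw hw' h)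
      have hji : j = i := huniq j ⟨w, w', hwz, hwz', hσj⟩
      subst hji
      have h1 : w = z := he j hwz
      have h2 : w' = z' := he j hwz'
      subst h1; subst h2
      rw [hcu d ⟨hd, hw, hw'⟩]

theorem GD_congr {X X' P P' : Type} {K : Set ℕ} {π : X → P} {π' : X' → P'} (e : X ≃ X')
    (h : ∀ x y, π x = π y ↔ π' (e x) = π' (e y)) (hG : GD K π) : GD K π' := by
  refine GD_union π' (ι := Unit) (fun _ => X) (fun _ => P) (fun _ => e) (fun _ => e.injective)
    (fun _ => π) ?_ ?_ (fun _ => hG)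
  · intro _ z z' hz hh
    exact hz ((h z z').2 hh)
  · intro y y' hy
    refine ⟨(), ⟨e.symm y, e.symm y', by simp, by simp, ?_⟩, fun _ _ => rfl⟩
    intro hh
    have := (h _ _).1 hh
    simp at this
    exact hy this

/-- If there are no edges there is a decomposition. -/
theorem GD_trivial {X P : Type} {K : Set ℕ} {π : X → P} (h : ∀ x y, π x = π y) : GD K π :=
  ⟨∅, by simp, fun x y hxy => absurd (h x y) hxy⟩

theorem GD_mono {X P : Type} {K K' : Set ℕ} {π : X → P} (h : GD K π) (hK : K ⊆ K') : GD K' π := by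
  obtain ⟨B, hB, hU⟩ := h
  exact ⟨B, fun b hb => ⟨hK (hB b hb).1, (hB b hb).2⟩, hU⟩

/-- the part map of type `g^u` on `Fin u × Fin g` -/
theorem ig_iff_fst (K : Set ℕ) (g u : ℕ) :
    IG K g u 0 ↔ GD K (Prod.fst : Fin u × Fin g → Fin u) := by
  constructor
  · intro h
    refine GD_congr (Equiv.sumEmpty _ (Fin 0)) ?_ h
    rintro (x | x) (y | y)
    · simp [igMap]
    · exact y.elim0
    · exact x.elim0
    · exact x.elim0
  · intro h
    refine GD_congr (Equiv.sumEmpty _ (Fin 0)).symm ?_ h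
    intro x y
    simp [igMap, Equiv.sumEmpty]

theorem GD_wfc {X P : Type} {K K' : Set ℕ} {π : X → P} (g : ℕ) (h : GD K π)
    (hK : ∀ u ∈ K, IG K' g u 0) : GD K' (fun p : X × Fin g => π p.1) := by
  obtain ⟨B, hB, hU⟩ := h
  refine GD_union (fun p : X × Fin g => π p.1) (ι := {b // b ∈ B})
    (fun b => {x // x ∈ b.1} × Fin g) (fun b => {x // x ∈ b.1}) (fun b z => (z.1.1, z.2)) ?_
    (fun b => Prod.fst) ?_ ?_ ?_
  · rintro b ⟨⟨x, hx⟩, i⟩ ⟨⟨y, hy⟩, j⟩ h
    simp only [Prod.mk.injEq] at h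
    obtain ⟨rfl, rfl⟩ := h
    rfl
  · rintro ⟨b, hb⟩ ⟨⟨x, hx⟩, i⟩ ⟨⟨y, hy⟩, j⟩ hne hh
    exact hne (Subtype.ext ((hB b hb).2 hx hy hh))
  · rintro ⟨x, i⟩ ⟨y, j⟩ hxy
    obtain ⟨b, ⟨hb, hx, hy⟩, hu⟩ := hU x y hxy
    refine ⟨⟨b, hb⟩, ⟨(⟨x, hx⟩, i), (⟨y, hy⟩, j), rfl, rfl, ?_⟩, ?_⟩
    · intro hh
      simp only [Subtype.mk.injEq] at hh
      exact hxy (by rw [hh])
    · rintro ⟨c, hc⟩ ⟨⟨⟨x', hx'⟩, i'⟩, ⟨⟨y', hy'⟩, j'⟩, h1, h2, -⟩
      simp only [Prod.mk.injEq] at h1 h2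
      obtain ⟨rfl, rfl⟩ := h1
      obtain ⟨rfl, rfl⟩ := h2
      exact Subtype.ext (hu c ⟨hc, hx', hy'⟩)
  · rintro ⟨b, hb⟩
    have h1 := (ig_iff_fst K' g b.card).1 (hK _ (hB b hb).1)
    refine GD_congr (Equiv.prodCongr b.equivFin.symm (Equiv.refl _)) ?_ h1
    intro x y
    simp

theorem GD_fill {X W P Q : Type} {K : Set ℕ} {π : X → P} {ρ : X ⊕ W → Q} (h : GD K π)
    (hW : ∀ w w', ρ (Sum.inr w) = ρ (Sum.inr w'))
    (hρ : ∀ x y, ρ (Sum.inl x) = ρ (Sum.inl y) → π x = π y)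
    (hp : ∀ p, GD K (fun y : {y : X ⊕ W // ∀ x, y = Sum.inl x → π x = p} => ρ y)) : GD K ρ := by
  refine GD_union ρ (ι := Option P)
    (fun o => match o with
      | none => X
      | some p => {y : X ⊕ W // ∀ x, y = Sum.inl x → π x = p})
    (fun o => match o with
      | none => P
      | some _ => Q)
    (fun o => match o with
      | none => Sum.inl
      | some _ => Subtype.val) ?_
    (fun o => match o with
      | none => π
      | some _ => fun y => ρ y) ?_ ?_ ?_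
  · rintro (_ | p)
    · exact Sum.inl_injective
    · exact Subtype.val_injective
  · rintro (_ | p)
    · intro z z' hz hh
      exact hz (hρ _ _ hh)
    · intro z z' hz
      exact hz
  · rintro (x | w) (y | w') hne
    · by_cases hxy : π x = π y
      · refine ⟨some (π x), ⟨⟨Sum.inl x, ?_⟩, ⟨Sum.inl y, ?_⟩, rfl, rfl, hne⟩, ?_⟩
        · intro x' hx'; rw [← Sum.inl_injective hx']
        · intro x' hx'; rw [← Sum.inl_injective hx', hxy]
        · rintro (_ | q) ⟨z, z', hz, hz', hs⟩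
          · exfalso
            apply hs
            have h1 : z = x := Sum.inl_injective hz
            have h2 : z' = y := Sum.inl_injective hz'
            subst h1; subst h2
            exact hxy
          · have := z.2 x hz
            rw [this]
      · refine ⟨none, ⟨x, y, rfl, rfl, hxy⟩, ?_⟩
        rintro (_ | q) ⟨z, z', hz, hz', hs⟩
        · rfl
        · exfalso
          exact hxy ((z.2 x hz).trans (z'.2 y hz').symm)
    · refine ⟨some (π x), ⟨⟨Sum.inl x, ?_⟩, ⟨Sum.inr w', ?_⟩, rfl, rfl, hne⟩, ?_⟩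
      · intro x' hx'; rw [← Sum.inl_injective hx']
      · intro x' hx'; exact absurd hx' (by simp)
      · rintro (_ | q) ⟨z, z', hz, hz', hs⟩
        · exact absurd hz' (by simp)
        · rw [z.2 x hz]
    · refine ⟨some (π y), ⟨⟨Sum.inr w, ?_⟩, ⟨Sum.inl y, ?_⟩, rfl, rfl, hne⟩, ?_⟩
      · intro x' hx'; exact absurd hx' (by simp)
      · intro x' hx'; rw [← Sum.inl_injective hx']
      · rintro (_ | q) ⟨z, z', hz, hz', hs⟩
        · exact absurd hz (by simp)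
        · rw [z'.2 y hz']
    · exact absurd (hW w w') hne
  · rintro (_ | p)
    · exact h
    · exact hp p

end H108
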